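import Pool.Agent.Lib.FPS.Defs

/-!
# FPS.Cover: greedy covering of a slowly decreasing profile by triangles

PROOF. Place the points one after the other (`Finset.induction` over the set `S` of placed points,
`load_S` = load of the points of `S`). If `h i ≤ b load_S i` for all `i < R`, we are done (put the
remaining points anywhere: loads only increase). Otherwise put the next point, of multiplicity
`m' ≤ μ`, at the smallest row `P < R` with `b load_S P < h P`. These rows are nondecreasing in time
(loads only increase), so all placed points have `t l ≤ P`. Invariant: `b load_S i ≤ h i + D μ`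
for all `i < R`, all `t l < R`. Proof: at row `P` the new load has `b load ≤ h P + b μ`; for the row
`P + s`, `s ≤ μ` (all points start at rows `≤ P`; `μ load (P+s) ≤ (μ - s) load P` because
`μ (v - s) ≤ v (μ - s)` for `v ≤ μ`):
`μ b load (P+s) ≤ (μ - s) (h P + b μ) ≤ μ h P + (μ - s) D μ ≤ μ (h (P+s) + s D) + (μ - s) D μ
= μ (h (P+s) + D μ)`; for `s ≥ μ` the load is `0`.
If all the points get placed without success, then
`b ∑_l T (m l) = b ∑_{i < R + μ} load i ≤ ∑_{i<R} (h i + D μ) + μ (h (R-1) + D μ)`
(the rows `R, ..., R + μ - 1` have load at most `load (R-1)`, since all `t l ≤ R - 1`, and the rows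
`≥ R + μ` have load `0`), contradicting the hypothesis.
-/

namespace FPS

namespace CoverAux

/-- the contribution of one point -/
def tri (m t i : ℕ) : ℕ := if t ≤ i then m - (i - t) else 0

/-- the load of the points of `S` -/
def ld {r : ℕ} (m t : Fin r → ℕ) (S : Finset (Fin r)) (i : ℕ) : ℕ := ∑ l ∈ S, tri (m l) (t l) i

theorem load_eq {r : ℕ} (m t : Fin r → ℕ) (i : ℕ) : load m t i = ld m t Finset.univ i := rfl

theorem sum_sub (m : ℕ) : ∀ n, m ≤ n → 2 * ∑ s ∈ Finset.range n, (m - s) = m * (m + 1) := by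
  induction m with
  | zero => intro n _; simp
  | succ m ih =>
    intro n hn
    obtain ⟨n, rfl⟩ : ∃ k, n = k + 1 := ⟨n - 1, by omega⟩
    rw [Finset.sum_range_succ']
    have h1 : ∀ s ∈ Finset.range n, m + 1 - (s + 1) = m - s := fun s _ => by omega
    rw [Finset.sum_congr rfl h1, mul_add, ih n (by omega)]
    simp only [Nat.sub_zero]
    ring

theorem sum_tri (m t : ℕ) : ∀ n, ∑ i ∈ Finset.range (t + n), tri m t i =
    ∑ s ∈ Finset.range n, (m - s) := by
  intro n
  induction n with
  | zero =>
    simp only [add_zero, Finset.range_zero, Finset.sum_empty]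
    refine Finset.sum_eq_zero fun i hi => ?_
    have := Finset.mem_range.1 hi
    unfold tri
    rw [if_neg (by omega)]
  | succ n ih =>
    rw [← add_assoc, Finset.sum_range_succ, ih, Finset.sum_range_succ]
    congr 1
    unfold tri
    rw [if_pos (by omega)]
    congr 1
    omega

theorem sum_tri_T (m t N : ℕ) (h : t + m ≤ N) : ∑ i ∈ Finset.range N, tri m t i = T m := by
  obtain ⟨n, rfl⟩ : ∃ n, N = t + n := ⟨N - t, by omega⟩
  rw [sum_tri]
  have := sum_sub m n (by omega)
  unfold T
  omega

theorem tri_decay (μ m t P s : ℕ) (hm : m ≤ μ) (ht : t ≤ P) :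
    μ * tri m t (P + s) ≤ (μ - s) * tri m t P := by
  unfold tri
  rw [if_pos (by omega), if_pos ht]
  have e : m - (P + s - t) = (m - (P - t)) - s := by omega
  rw [e]
  have hvμ : m - (P - t) ≤ μ := by omega
  generalize m - (P - t) = v at hvμ
  rcases le_or_gt s v with h | h
  · obtain ⟨w, rfl⟩ : ∃ w, v = s + w := ⟨v - s, by omega⟩
    obtain ⟨u, rfl⟩ : ∃ u, μ = s + u := ⟨μ - s, by omega⟩
    have h1 : s + w - s = w := by omega
    have h2 : s + u - s = u := by omega
    rw [h1, h2]
    have h3 : w ≤ u := by omega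
    nlinarith [Nat.mul_le_mul_left s h3]
  · have : v - s = 0 := by omega
    rw [this]
    simp

theorem ld_decay {r : ℕ} (μ : ℕ) (m t : Fin r → ℕ) (S : Finset (Fin r)) (P s : ℕ)
    (hm : ∀ l, m l ≤ μ) (ht : ∀ l ∈ S, t l ≤ P) :
    μ * ld m t S (P + s) ≤ (μ - s) * ld m t S P := by
  unfold ld
  rw [Finset.mul_sum, Finset.mul_sum]
  exact Finset.sum_le_sum fun l hl => tri_decay μ (m l) (t l) P s (hm l) (ht l hl)

theorem h_slow (h : ℕ → ℕ) (D : ℕ) (hh : ∀ i, h i ≤ h (i + 1) + D) (P s : ℕ) :
    h P ≤ h (P + s) + s * D := by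
  induction s with
  | zero => simp
  | succ s ih =>
    have := hh (P + s)
    have e : P + (s + 1) = P + s + 1 := by omega
    rw [e]
    have e2 : (s + 1) * D = s * D + D := by ring
    omega

/-- success -/
def Ok {r : ℕ} (h : ℕ → ℕ) (b R : ℕ) (m t : Fin r → ℕ) (S : Finset (Fin r)) : Prop :=
  ∀ i < R, h i ≤ b * ld m t S i

/-- invariant -/
def Inv {r : ℕ} (h : ℕ → ℕ) (b D μ R : ℕ) (m t : Fin r → ℕ) (S : Finset (Fin r)) : Prop :=
  (∀ i < R, b * ld m t S i ≤ h i + D * μ) ∧
    ∃ P < R, b * ld m t S P < h P ∧ (∀ i < P, h i ≤ b * ld m t S i) ∧ ∀ l ∈ S, t l ≤ P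

theorem step {r : ℕ} (h : ℕ → ℕ) (b D μ R : ℕ) (hbD : b ≤ D) (hμ : 0 < μ)
    (hh : ∀ i, h i ≤ h (i + 1) + D) (m : Fin r → ℕ) (hm : ∀ l, m l ≤ μ) (t : Fin r → ℕ)
    (S : Finset (Fin r)) (l0 : Fin r) (hl0 : l0 ∉ S) (hI : Inv h b D μ R m t S) :
    ∃ t', Ok h b R m t' (insert l0 S) ∨ Inv h b D μ R m t' (insert l0 S) := by
  obtain ⟨h1, P, hPR, hP, hmin, hle⟩ := hI
  refine ⟨Function.update t l0 P, ?_⟩
  set t' := Function.update t l0 P with ht'
  have hS : ∀ i, ld m t' S i = ld m t S i := by
    intro i
    unfold ld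
    refine Finset.sum_congr rfl fun l hl => ?_
    have : l ≠ l0 := fun e => hl0 (e ▸ hl)
    rw [ht', Function.update_of_ne this]
  have hins : ∀ i, ld m t' (insert l0 S) i = tri (m l0) P i + ld m t S i := by
    intro i
    rw [← hS i]
    unfold ld
    rw [Finset.sum_insert hl0, ht', Function.update_self]
  have hle' : ∀ l ∈ insert l0 S, t' l ≤ P := by
    intro l hl
    rcases Finset.mem_insert.1 hl with rfl | hl
    · rw [ht', Function.update_self]
    · have : l ≠ l0 := fun e => hl0 (e ▸ hl)
      rw [ht', Function.update_of_ne this]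
      exact hle l hl
  by_cases hok : Ok h b R m t' (insert l0 S)
  · exact Or.inl hok
  refine Or.inr ⟨?_, ?_⟩
  · intro i hi
    rcases lt_or_ge i P with hiP | hiP
    · rw [hins]
      have : tri (m l0) P i = 0 := by
        unfold tri
        rw [if_neg (by omega)]
      rw [this, zero_add]
      exact h1 i hi
    · obtain ⟨s, rfl⟩ : ∃ s, i = P + s := ⟨i - P, by omega⟩
      have hdec := ld_decay μ m t' (insert l0 S) P s hm hle'
      have htop : b * ld m t' (insert l0 S) P ≤ h P + b * μ := by
        rw [hins, mul_add]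
        have h2 : tri (m l0) P P ≤ μ := by
          unfold tri
          have := hm l0
          rw [if_pos le_rfl]
          omega
        have h3 := Nat.mul_le_mul_left b h2
        omega
      set X := ld m t' (insert l0 S) (P + s) with hX
      set Y := ld m t' (insert l0 S) P with hY
      have hsl := h_slow h D hh P s
      have hkey : μ * (b * X) ≤ μ * (h (P + s) + D * μ) := by
        rcases le_or_gt s μ with hs | hs
        · obtain ⟨u, rfl⟩ : ∃ u, μ = s + u := ⟨μ - s, by omega⟩
          have e : s + u - s = u := by omega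
          rw [e] at hdec
          calc (s + u) * (b * X) = b * ((s + u) * X) := by ring
            _ ≤ b * (u * Y) := Nat.mul_le_mul_left b hdec
            _ = u * (b * Y) := by ring
            _ ≤ u * (h P + b * (s + u)) := Nat.mul_le_mul_left u htop
            _ = u * h P + b * (u * (s + u)) := by ring
            _ ≤ (s + u) * h P + D * (u * (s + u)) := by
                refine Nat.add_le_add (Nat.mul_le_mul_right _ (by omega)) ?_
                exact Nat.mul_le_mul_right _ hbD
            _ ≤ (s + u) * (h (P + s) + s * D) + D * (u * (s + u)) :=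
                Nat.add_le_add_right (Nat.mul_le_mul_left _ hsl) _
            _ = (s + u) * (h (P + s) + D * (s + u)) := by ring
        · have e : μ - s = 0 := by omega
          rw [e, zero_mul] at hdec
          have hX0 : μ * X = 0 := Nat.le_zero.1 hdec
          calc μ * (b * X) = b * (μ * X) := by ring
            _ = 0 := by rw [hX0, mul_zero]
            _ ≤ _ := Nat.zero_le _
      exact Nat.le_of_mul_le_mul_left hkey hμ
  · unfold Ok at hok
    push Not at hok
    have hex : ∃ i, i < R ∧ b * ld m t' (insert l0 S) i < h i := hok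
    classical
    let P' := Nat.find hex
    obtain ⟨hP'1, hP'2⟩ := Nat.find_spec hex
    have hmin' : ∀ i < P', h i ≤ b * ld m t' (insert l0 S) i := by
      intro i hi
      have h3 := Nat.find_min hex hi
      by_contra hc
      exact h3 ⟨lt_trans hi hP'1, by omega⟩
    refine ⟨P', hP'1, hP'2, hmin', ?_⟩
    have hPP : P ≤ P' := by
      by_contra hc
      have h4 := hmin P' (by omega)
      have h5 : ld m t S P' ≤ ld m t' (insert l0 S) P' := by
        rw [hins]
        omega
      have h6 := Nat.mul_le_mul_left b h5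
      have h7 : b * ld m t' (insert l0 S) P' < h P' := hP'2
      omega
    intro l hl
    exact (hle' l hl).trans hPP

theorem place {r : ℕ} (h : ℕ → ℕ) (b D μ R : ℕ) (hbD : b ≤ D) (hμ : 0 < μ)
    (hh : ∀ i, h i ≤ h (i + 1) + D) (m : Fin r → ℕ) (hm : ∀ l, m l ≤ μ) (S : Finset (Fin r)) :
    ∃ t, Ok h b R m t S ∨ Inv h b D μ R m t S := by
  classical
  induction S using Finset.induction_on with
  | empty =>
    refine ⟨fun _ => 0, ?_⟩
    by_cases hok : Ok h b R m (fun _ => 0) (∅ : Finset (Fin r))
    · exact Or.inl hok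
    refine Or.inr ⟨fun i _ => by simp [ld], ?_⟩
    unfold Ok at hok
    push Not at hok
    have hex : ∃ i, i < R ∧ b * ld m (fun _ => 0) (∅ : Finset (Fin r)) i < h i := hok
    obtain ⟨hP1, hP2⟩ := Nat.find_spec hex
    refine ⟨Nat.find hex, hP1, hP2, ?_, by simp⟩
    intro i hi
    have h3 := Nat.find_min hex hi
    by_contra hc
    exact h3 ⟨lt_trans hi hP1, by omega⟩
  | insert l0 S hl0 ih =>
    obtain ⟨t, ht | ht⟩ := ih
    · refine ⟨t, Or.inl fun i hi => (ht i hi).trans (Nat.mul_le_mul_left b ?_)⟩
      unfold ld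
      rw [Finset.sum_insert hl0]
      omega
    · exact step h b D μ R hbD hμ hh m hm t S l0 hl0 ht

end CoverAux

open CoverAux in
theorem cover (h : ℕ → ℕ) (b D μ R : ℕ) (hb : 1 ≤ b) (hbD : b ≤ D) (hR : 1 ≤ R)
    (hh : ∀ i, h i ≤ h (i + 1) + D)
    {r : ℕ} (m : Fin r → ℕ) (hm : ∀ l, m l ≤ μ)
    (hsum : ∑ i ∈ Finset.range R, (h i + D * μ) + μ * (h (R - 1) + D * μ)
      < b * ∑ l, T (m l)) :
    ∃ t : Fin r → ℕ, ∀ i < R, h i ≤ b * load m t i := by
  rcases Nat.eq_zero_or_pos μ with hμ | hμ
  · exfalso
    have h0 : ∀ l, m l = 0 := fun l => by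
      have := hm l
      omega
    have h1 : ∑ l, T (m l) = 0 := by
      refine Finset.sum_eq_zero fun l _ => ?_
      rw [h0 l]
      rfl
    rw [h1, mul_zero] at hsum
    exact absurd hsum (Nat.not_lt_zero _)
  obtain ⟨t, ht | ht⟩ := place h b D μ R hbD hμ hh m hm Finset.univ
  · exact ⟨t, ht⟩
  · exfalso
    obtain ⟨h1, P, hPR, hP, hmin, hle⟩ := ht
    have hsumT : ∑ l, T (m l) = ∑ i ∈ Finset.range (R + μ), ld m t Finset.univ i := by
      unfold ld
      rw [Finset.sum_comm]
      refine Finset.sum_congr rfl fun l _ => ?_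
      have a1 := hm l
      have a2 := hle l (Finset.mem_univ l)
      exact (sum_tri_T (m l) (t l) (R + μ) (by omega)).symm
    rw [hsumT, Finset.sum_range_add, mul_add b] at hsum
    have hA : b * ∑ i ∈ Finset.range R, ld m t Finset.univ i ≤
        ∑ i ∈ Finset.range R, (h i + D * μ) := by
      rw [Finset.mul_sum]
      exact Finset.sum_le_sum fun i hi => h1 i (Finset.mem_range.1 hi)
    have hB : b * ∑ j ∈ Finset.range μ, ld m t Finset.univ (R + j) ≤
        μ * (h (R - 1) + D * μ) := by
      have hj : ∀ j ∈ Finset.range μ, b * ld m t Finset.univ (R + j) ≤ h (R - 1) + D * μ := by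
        intro j _
        refine le_trans (Nat.mul_le_mul_left b ?_) (h1 (R - 1) (by omega))
        unfold ld
        refine Finset.sum_le_sum fun l hl => ?_
        have a2 := hle l hl
        unfold tri
        rw [if_pos (by omega), if_pos (by omega)]
        omega
      rw [Finset.mul_sum]
      refine (Finset.sum_le_sum hj).trans ?_
      rw [Finset.sum_const, Finset.card_range, smul_eq_mul]
    omega

end FPS
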