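import Pool.Agent.Lib.FPS.Usable
import Pool.Agent.Lib.FPS.Cover
import Pool.Agent.Lib.FPS.Cover

/-!
# FPS.Cover2: greedy covering of a profile by triangles, second version

PROOF of `cover2`: compare `cover` in `FPS/Cover.lean` (reuse `CoverAux.tri`, `ld`, `tri_decay`,
`sum_tri_T` etc.). Place the points one after the other (`Finset.induction` over the set `S` of placed
points). If `h i ≤ ld_S i` for all `i < R`, we are done (put the remaining points anywhere, e.g. at
row `0`: loads only increase). Otherwise put the next point, of multiplicity `m' ≤ μ`, at the smallest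
row `P < R` with `ld_S P < h P`. These rows are nondecreasing in time, so all placed points have
`t l ≤ P`. Invariant: `ld_S i ≤ h i + μ` for `i < i0`, `ld_S i ≤ N + μ` for all `i ≥ i0`, and `t l < R`.
Proof: the new load of row `P` is `≤ h P + μ`. If `P < i0` (so `P` is usable): for `s < μ`
`μ * ld (P+s) ≤ (μ - s) * ld P ≤ (μ - s) * (h P + μ) ≤ μ * h (P+s) + μ * μ`, hence
`ld (P+s) ≤ h (P+s) + μ`; for `s ≥ μ` the load is `0`. If `P ≥ i0`: `ld (P+s) ≤ ld P ≤ h P + μ ≤ N + μ`.
If all points get placed without success, then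
`∑_l T (m l) = ∑_{i < R + μ} ld i ≤ ∑_{i < i0} (h i + μ) + (R + μ - i0) (N + μ)`, contradicting the
hypothesis (`t l + m l ≤ R + μ`).
-/

namespace FPS

namespace Cover2Aux

open CoverAux

/-- success -/
def Ok {r : ℕ} (h : ℕ → ℕ) (R : ℕ) (m t : Fin r → ℕ) (S : Finset (Fin r)) : Prop :=
  ∀ i < R, h i ≤ ld m t S i

/-- invariant -/
def Inv {r : ℕ} (h : ℕ → ℕ) (μ R i0 N : ℕ) (m t : Fin r → ℕ) (S : Finset (Fin r)) : Prop :=
  (∀ i < i0, ld m t S i ≤ h i + μ) ∧ (∀ i, i0 ≤ i → ld m t S i ≤ N + μ) ∧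
    ∃ P < R, ld m t S P < h P ∧ (∀ i < P, h i ≤ ld m t S i) ∧ ∀ l ∈ S, t l ≤ P

theorem exists_row {r : ℕ} (h : ℕ → ℕ) (R : ℕ) (m t : Fin r → ℕ) (S : Finset (Fin r))
    (hok : ¬ Ok h R m t S) :
    ∃ P < R, ld m t S P < h P ∧ ∀ i < P, h i ≤ ld m t S i := by
  classical
  unfold Ok at hok
  push Not at hok
  have hex : ∃ i, i < R ∧ ld m t S i < h i := hok
  obtain ⟨hP1, hP2⟩ := Nat.find_spec hex
  refine ⟨Nat.find hex, hP1, hP2, ?_⟩
  intro i hi
  have h3 := Nat.find_min hex hi
  by_contra hc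
  exact h3 ⟨lt_trans hi hP1, by omega⟩

theorem step {r : ℕ} (h : ℕ → ℕ) (μ R i0 N : ℕ) (hμ : 0 < μ) (hus : ∀ i < i0, Usable h μ i)
    (hN : ∀ i, i0 ≤ i → h i ≤ N) (m : Fin r → ℕ) (hm : ∀ l, m l ≤ μ) (t : Fin r → ℕ)
    (S : Finset (Fin r)) (l0 : Fin r) (hl0 : l0 ∉ S) (hI : Inv h μ R i0 N m t S) :
    ∃ t', Ok h R m t' (insert l0 S) ∨ Inv h μ R i0 N m t' (insert l0 S) := by
  obtain ⟨h1, h2, P, hPR, hP, hmin, hle⟩ := hI
  refine ⟨Function.update t l0 P, ?_⟩
  set t' := Function.update t l0 P with ht'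
  have hS : ∀ i, ld m t' S i = ld m t S i := by
    intro i
    unfold ld
    refine Finset.sum_congr rfl fun l hl => ?_
    have : l ≠ l0 := fun e => hl0 (e ▸ hl)
    rw [ht', Function.update_of_ne this]
  have hins : ∀ i, ld m t' (insert l0 S) i = tri (m l0) P i + ld m t S i := by
    intro i
    rw [← hS i]
    unfold ld
    rw [Finset.sum_insert hl0, ht', Function.update_self]
  have hle' : ∀ l ∈ insert l0 S, t' l ≤ P := by
    intro l hl
    rcases Finset.mem_insert.1 hl with rfl | hl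
    · rw [ht', Function.update_self]
    · have : l ≠ l0 := fun e => hl0 (e ▸ hl)
      rw [ht', Function.update_of_ne this]
      exact hle l hl
  by_cases hok : Ok h R m t' (insert l0 S)
  · exact Or.inl hok
  right
  have hlow : ∀ i < P, ld m t' (insert l0 S) i = ld m t S i := by
    intro i hi
    rw [hins]
    have : tri (m l0) P i = 0 := by
      unfold tri
      rw [if_neg (by omega)]
    rw [this, zero_add]
  have htop : ld m t' (insert l0 S) P ≤ h P + μ := by
    rw [hins]
    have h3 : tri (m l0) P P ≤ μ := by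
      unfold tri
      have := hm l0
      rw [if_pos le_rfl]
      omega
    omega
  have hdec : ∀ s, μ * ld m t' (insert l0 S) (P + s) ≤ (μ - s) * (h P + μ) := by
    intro s
    exact (ld_decay μ m t' (insert l0 S) P s hm hle').trans (Nat.mul_le_mul_left _ htop)
  -- the new loads at and after row `P`
  have hA : P < i0 → ∀ s, ld m t' (insert l0 S) (P + s) ≤ h (P + s) + μ := by
    intro hPi s
    refine Nat.le_of_mul_le_mul_left ?_ hμ
    rcases le_or_gt s μ with hs | hs
    · have h3 := hus P hPi s hs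
      have h4 : (μ - s) * μ ≤ μ * μ := Nat.mul_le_mul_right _ (by omega)
      calc μ * ld m t' (insert l0 S) (P + s) ≤ (μ - s) * (h P + μ) := hdec s
        _ = (μ - s) * h P + (μ - s) * μ := mul_add _ _ _
        _ ≤ μ * h (P + s) + μ * μ := Nat.add_le_add h3 h4
        _ = μ * (h (P + s) + μ) := (mul_add _ _ _).symm
    · have h3 := hdec s
      have e : μ - s = 0 := by omega
      rw [e, zero_mul] at h3
      exact h3.trans (Nat.zero_le _)
  have hB : ∀ s, ld m t' (insert l0 S) (P + s) ≤ h P + μ := by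
    intro s
    refine Nat.le_of_mul_le_mul_left ((hdec s).trans ?_) hμ
    exact Nat.mul_le_mul_right _ (by omega)
  refine ⟨?_, ?_, ?_⟩
  · intro i hi
    rcases lt_or_ge i P with hiP | hiP
    · rw [hlow i hiP]
      exact h1 i hi
    · obtain ⟨s, rfl⟩ : ∃ s, i = P + s := ⟨i - P, by omega⟩
      exact hA (by omega) s
  · intro i hi
    rcases lt_or_ge i P with hiP | hiP
    · rw [hlow i hiP]
      exact h2 i hi
    · obtain ⟨s, rfl⟩ : ∃ s, i = P + s := ⟨i - P, by omega⟩
      rcases lt_or_ge P i0 with hPi | hPi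
      · have h3 := hA hPi s
        have h4 := hN (P + s) hi
        omega
      · have h3 := hB s
        have h4 := hN P hPi
        omega
  · obtain ⟨P', hP'1, hP'2, hmin'⟩ := exists_row h R m t' (insert l0 S) hok
    refine ⟨P', hP'1, hP'2, hmin', ?_⟩
    have hPP : P ≤ P' := by
      by_contra hc
      have h4 := hmin P' (by omega)
      rw [hlow P' (by omega)] at hP'2
      omega
    intro l hl
    exact (hle' l hl).trans hPP

theorem place {r : ℕ} (h : ℕ → ℕ) (μ R i0 N : ℕ) (hμ : 0 < μ) (hus : ∀ i < i0, Usable h μ i)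
    (hN : ∀ i, i0 ≤ i → h i ≤ N) (m : Fin r → ℕ) (hm : ∀ l, m l ≤ μ) (S : Finset (Fin r)) :
    ∃ t, Ok h R m t S ∨ Inv h μ R i0 N m t S := by
  classical
  induction S using Finset.induction_on with
  | empty =>
    refine ⟨fun _ => 0, ?_⟩
    by_cases hok : Ok h R m (fun _ => 0) (∅ : Finset (Fin r))
    · exact Or.inl hok
    refine Or.inr ⟨fun i _ => by simp [ld], fun i _ => by simp [ld], ?_⟩
    obtain ⟨P, hP1, hP2, hP3⟩ := exists_row h R m (fun _ => 0) (∅ : Finset (Fin r)) hok
    exact ⟨P, hP1, hP2, hP3, by simp⟩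
  | insert l0 S hl0 ih =>
    obtain ⟨t, ht | ht⟩ := ih
    · refine ⟨t, Or.inl fun i hi => (ht i hi).trans ?_⟩
      unfold ld
      rw [Finset.sum_insert hl0]
      omega
    · exact step h μ R i0 N hμ hus hN m hm t S l0 hl0 ht

end Cover2Aux

theorem cover2 (h : ℕ → ℕ) (μ R i0 N : ℕ) (hi0 : i0 ≤ R) (hus : ∀ i < i0, Usable h μ i)
    (hN : ∀ i, i0 ≤ i → h i ≤ N) {r : ℕ} (m : Fin r → ℕ) (hm : ∀ l, m l ≤ μ)
    (hsum : ∑ i ∈ Finset.range i0, (h i + μ) + (R - i0 + μ) * (N + μ) < ∑ l, T (m l)) :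
    ∃ t : Fin r → ℕ, ∀ i < R, h i ≤ load m t i := by
  rcases Nat.eq_zero_or_pos μ with hμ | hμ
  · exfalso
    have h0 : ∀ l, m l = 0 := fun l => by
      have := hm l
      omega
    have h1 : ∑ l, T (m l) = 0 := by
      refine Finset.sum_eq_zero fun l _ => ?_
      rw [h0 l]
      rfl
    rw [h1] at hsum
    exact absurd hsum (Nat.not_lt_zero _)
  obtain ⟨t, ht | ht⟩ := Cover2Aux.place h μ R i0 N hμ hus hN m hm Finset.univ
  · exact ⟨t, ht⟩
  · exfalso
    obtain ⟨h1, h2, P, hPR, hP, hmin, hle⟩ := ht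
    have hsumT : ∑ l, T (m l) =
        ∑ i ∈ Finset.range (R + μ), CoverAux.ld m t Finset.univ i := by
      unfold CoverAux.ld
      rw [Finset.sum_comm]
      refine Finset.sum_congr rfl fun l _ => ?_
      have a1 := hm l
      have a2 := hle l (Finset.mem_univ l)
      exact (CoverAux.sum_tri_T (m l) (t l) (R + μ) (by omega)).symm
    have e : R + μ = i0 + (R - i0 + μ) := by omega
    rw [hsumT, e, Finset.sum_range_add] at hsum
    have hA : ∑ i ∈ Finset.range i0, CoverAux.ld m t Finset.univ i ≤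
        ∑ i ∈ Finset.range i0, (h i + μ) :=
      Finset.sum_le_sum fun i hi => h1 i (Finset.mem_range.1 hi)
    have hB : ∑ j ∈ Finset.range (R - i0 + μ), CoverAux.ld m t Finset.univ (i0 + j) ≤
        (R - i0 + μ) * (N + μ) := by
      have hj : ∀ j ∈ Finset.range (R - i0 + μ),
          CoverAux.ld m t Finset.univ (i0 + j) ≤ N + μ := fun j _ => h2 (i0 + j) (by omega)
      refine (Finset.sum_le_sum hj).trans ?_
      rw [Finset.sum_const, Finset.card_range, smul_eq_mul]
    omega

end FPS
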