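import Pool.Agent.Lib.FPS.Defs

/-!
# FPS.Pack: greedy placement of triangles below a slowly decreasing profile

`load m t i = ∑_{l, t l ≤ i} (m l - (i - t l))` (truncated): the triangle of the point `l` occupies
`m l, m l - 1, ..., 1` cells of the rows `t l, t l + 1, ..., t l + m l - 1`; its area is `T (m l)`.

PROOF of `pack`. Place the points one after the other (`Finset.induction` over the set `S` of the
placed points, with the load of `S`), keeping a pointer `P` with: (1) `t l ≤ P` for all placed `l`;
(2) `b * load_S i ≤ h i` for all `i`; (3) for all `i < P`: `h i < D μ` or `h i < b (load_S i + μ)`.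
To place a new point of multiplicity `m' ≥ 1` (for `m' = 0` put `t = P`): let `i ≥ P` be the smallest
row with `D μ ≤ h i` and `b (load_S i + m') ≤ h i`; put the point at `i` and move the pointer to `i`.
(3) is clear (loads only increase; rows between `P` and `i` failed the test, and `m' ≤ μ`).
(2): rows `< i` do not change. For the row `i + s`: all placed points have `t ≤ i`, so their remaining
multiplicities at row `i`, `v_l = m_l - (i - t_l) ≤ μ`, satisfy (`μ (v - s) ≤ v (μ - s)` for `v ≤ μ`,
truncated subtraction) `μ * load (i+s) ≤ (μ - s) * load i`. If `s ≥ μ` the load is `0`. If `s < μ`: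
`μ b load (i+s) ≤ (μ - s) h i = μ h i - s h i ≤ μ (h i - s D) ≤ μ h (i+s)`, since `D μ ≤ h i` and
`h i ≤ h (i+s) + s D`. Hence `b load (i+s) ≤ h (i+s)`.
Existence of such a row `i`: otherwise every row `i < R` has `h i < D μ` or
`h i < b (load_S i + μ) ≤ b load_S i + D μ` (rows `< P` by (3)), hence `h i + 1 ≤ b load_S i + D μ`;
sum over `i < R`: `∑ h i + R ≤ b ∑_{i<R} load_S i + R D μ ≤ b ∑_{l∈S} T(m l) + R D μ
< b ∑_l T(m l) + R D μ ≤ ∑ h i`: contradiction. (If `R = 0` the hypothesis forces all `m l = 0`.)
The second conclusion: `∑_{i<N} load i = ∑_l T (m l)` for large `N`, and `b load i ≤ h i = 0` for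
`i ≥ R`.
-/

namespace FPS

namespace PackAux

/-- contribution of one point in a row -/
def c (m t i : ℕ) : ℕ := if t ≤ i then m - (i - t) else 0

/-- load of the placed points -/
def ld {r : ℕ} (m t : Fin r → ℕ) (S : Finset (Fin r)) (i : ℕ) : ℕ := ∑ l ∈ S, c (m l) (t l) i

theorem tri0 (m K : ℕ) :
    2 * ∑ j ∈ Finset.range K, (m - j) + (m - K) * (m - K + 1) = m * (m + 1) := by
  induction K with
  | zero => simp
  | succ K ih =>
    rw [Finset.sum_range_succ]
    rcases Nat.lt_or_ge K m with h | h
    · obtain ⟨d, rfl⟩ : ∃ d, m = K + 1 + d := ⟨m - (K + 1), by omega⟩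
      have h1 : K + 1 + d - (K + 1) = d := by omega
      have h2 : K + 1 + d - K = d + 1 := by omega
      rw [h2] at ih
      rw [h1, h2]
      nlinarith [ih]
    · have h1 : m - (K + 1) = 0 := by omega
      have h2 : m - K = 0 := by omega
      rw [h2] at ih
      rw [h1, h2]
      simpa using ih

theorem tri_le (m K : ℕ) : ∑ j ∈ Finset.range K, (m - j) ≤ T m := by
  have h := tri0 m K
  unfold T
  rw [Nat.le_div_iff_mul_le (by norm_num)]
  have : 0 ≤ (m - K) * (m - K + 1) := Nat.zero_le _
  omega

theorem tri_eq (m K : ℕ) (h : m ≤ K) : ∑ j ∈ Finset.range K, (m - j) = T m := by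
  have h1 := tri0 m K
  have h2 : m - K = 0 := by omega
  rw [h2] at h1
  unfold T
  simp only [zero_mul, add_zero] at h1
  rw [← h1]
  simp

theorem sum_c_zero (m t : ℕ) : ∑ i ∈ Finset.range t, c m t i = 0 := by
  apply Finset.sum_eq_zero
  intro i hi
  rw [Finset.mem_range] at hi
  unfold c
  rw [if_neg (by omega)]

theorem sum_c (m t K : ℕ) :
    ∑ i ∈ Finset.range (t + K), c m t i = ∑ j ∈ Finset.range K, (m - j) := by
  rw [Finset.sum_range_add, sum_c_zero, zero_add]
  apply Finset.sum_congr rfl
  intro j _
  unfold c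
  rw [if_pos (by omega)]
  congr 1
  omega

theorem sum_c_le (m t N : ℕ) : ∑ i ∈ Finset.range N, c m t i ≤ T m := by
  calc ∑ i ∈ Finset.range N, c m t i ≤ ∑ i ∈ Finset.range (t + N), c m t i := by
        apply Finset.sum_le_sum_of_subset
        intro i hi
        rw [Finset.mem_range] at hi ⊢
        omega
    _ = ∑ j ∈ Finset.range N, (m - j) := sum_c m t N
    _ ≤ T m := tri_le m N

theorem sum_c_eq (m t N : ℕ) (h : t + m ≤ N) : ∑ i ∈ Finset.range N, c m t i = T m := by
  obtain ⟨K, rfl⟩ : ∃ K, N = t + K := ⟨N - t, by omega⟩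
  rw [sum_c]
  exact tri_eq m K (by omega)

theorem T_pos (m : ℕ) (h : 1 ≤ m) : 1 ≤ T m := by
  have h1 := tri_eq m m le_rfl
  rw [← h1]
  calc 1 ≤ m - 0 := by omega
    _ ≤ _ := Finset.single_le_sum (f := fun j => m - j) (fun _ _ => Nat.zero_le _)
        (Finset.mem_range.2 (by omega))

theorem h_desc (h : ℕ → ℕ) (D : ℕ) (hh : ∀ i, h i ≤ h (i + 1) + D) (i s : ℕ) :
    h i ≤ h (i + s) + s * D := by
  induction s with
  | zero => simp
  | succ s ih =>
    have h1 := hh (i + s)
    have h2 : i + s + 1 = i + (s + 1) := by omega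
    rw [h2] at h1
    nlinarith [ih, h1]

theorem scale {r : ℕ} (m t : Fin r → ℕ) (S : Finset (Fin r)) (μ i s : ℕ) (hm : ∀ l, m l ≤ μ)
    (ht : ∀ l ∈ S, t l ≤ i) (hs : s < μ) :
    μ * ld m t S (i + s) ≤ (μ - s) * ld m t S i := by
  unfold ld
  rw [Finset.mul_sum, Finset.mul_sum]
  apply Finset.sum_le_sum
  intro l hl
  have h1 := ht l hl
  have h2 := hm l
  unfold c
  rw [if_pos (by omega), if_pos h1]
  have h3 : m l - (i + s - t l) = (m l - (i - t l)) - s := by omega
  rw [h3]
  have hv : m l - (i - t l) ≤ μ := by omega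
  generalize m l - (i - t l) = v at hv
  rcases Nat.lt_or_ge v s with h | h
  · have : v - s = 0 := by omega
    rw [this]
    simp
  · obtain ⟨d, rfl⟩ : ∃ d, v = s + d := ⟨v - s, by omega⟩
    obtain ⟨e, rfl⟩ : ∃ e, μ = s + d + e := ⟨μ - (s + d), by omega⟩
    have h4 : s + d - s = d := by omega
    have h5 : s + d + e - s = d + e := by omega
    rw [h4, h5]
    nlinarith [Nat.zero_le (s * e)]

theorem ld_zero {r : ℕ} (m t : Fin r → ℕ) (S : Finset (Fin r)) (μ i s : ℕ) (hm : ∀ l, m l ≤ μ)
    (ht : ∀ l ∈ S, t l ≤ i) (hs : μ ≤ s) : ld m t S (i + s) = 0 := by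
  unfold ld
  apply Finset.sum_eq_zero
  intro l hl
  have h1 := ht l hl
  have h2 := hm l
  unfold c
  rw [if_pos (by omega)]
  omega

theorem keep (h : ℕ → ℕ) (b D μ : ℕ) (hh : ∀ i, h i ≤ h (i + 1) + D) {r : ℕ}
    (m t : Fin r → ℕ) (S : Finset (Fin r)) (hm : ∀ l, m l ≤ μ) (i s : ℕ)
    (ht : ∀ l ∈ S, t l ≤ i) (hD : D * μ ≤ h i) (hi : b * ld m t S i ≤ h i) :
    b * ld m t S (i + s) ≤ h (i + s) := by
  rcases Nat.lt_or_ge s μ with hs | hs
  · have h1 := scale m t S μ i s hm ht hs
    have h2 := h_desc h D hh i s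
    have hμ : 0 < μ := by omega
    have h3 : μ * (b * ld m t S (i + s)) ≤ μ * h (i + s) := by
      calc μ * (b * ld m t S (i + s)) = b * (μ * ld m t S (i + s)) := by ring
        _ ≤ b * ((μ - s) * ld m t S i) := Nat.mul_le_mul_left _ h1
        _ = (μ - s) * (b * ld m t S i) := by ring
        _ ≤ (μ - s) * h i := Nat.mul_le_mul_left _ hi
        _ ≤ μ * h (i + s) := by
          obtain ⟨e, rfl⟩ : ∃ e, μ = s + e := ⟨μ - s, by omega⟩
          have h5 : s + e - s = e := by omega
          rw [h5]
          have h6 : s * (D * (s + e)) ≤ s * h i := Nat.mul_le_mul_left _ hD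
          have h7 : (s + e) * h i ≤ (s + e) * (h (i + s) + s * D) := Nat.mul_le_mul_left _ h2
          nlinarith [h6, h7]
    exact Nat.le_of_mul_le_mul_left h3 hμ
  · rw [ld_zero m t S μ i s hm ht hs]
    simp

theorem ld_insert {r : ℕ} (m t : Fin r → ℕ) (S : Finset (Fin r)) (a : Fin r) (ha : a ∉ S)
    (x i : ℕ) : ld m (Function.update t a x) (insert a S) i = c (m a) x i + ld m t S i := by
  unfold ld
  rw [Finset.sum_insert ha, Function.update_self]
  congr 1
  apply Finset.sum_congr rfl
  intro l hl
  rw [Function.update_of_ne]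
  rintro rfl
  exact ha hl

theorem main (h : ℕ → ℕ) (b D μ R : ℕ) (hb : 1 ≤ b) (hbD : b ≤ D)
    (hh : ∀ i, h i ≤ h (i + 1) + D)
    {r : ℕ} (m : Fin r → ℕ) (hm : ∀ l, m l ≤ μ)
    (hsum : b * ∑ l, T (m l) + R * (D * μ) ≤ ∑ i ∈ Finset.range R, h i)
    (S : Finset (Fin r)) :
    ∃ (t : Fin r → ℕ) (P : ℕ), (∀ l ∈ S, t l ≤ P) ∧ (∀ i, b * ld m t S i ≤ h i) ∧
      ∀ i < P, h i < D * μ ∨ h i < b * (ld m t S i + μ) := by
  classical
  induction S using Finset.induction_on with
  | empty =>
    refine ⟨fun _ => 0, 0, by simp, ?_, by simp⟩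
    intro i
    unfold ld
    simp
  | insert a S ha ih =>
    obtain ⟨t, P, h1, h2, h3⟩ := ih
    rcases Nat.eq_zero_or_pos (m a) with hz | hp
    · refine ⟨Function.update t a P, P, ?_, ?_, ?_⟩
      · intro l hl
        rcases Finset.mem_insert.1 hl with rfl | hlS
        · simp
        · rw [Function.update_of_ne]
          · exact h1 l hlS
          · rintro rfl
            exact ha hlS
      · intro i
        rw [ld_insert m t S a ha]
        have : c (m a) P i = 0 := by
          unfold c
          rw [hz]
          simp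
        rw [this, zero_add]
        exact h2 i
      · intro i hi
        rw [ld_insert m t S a ha]
        have : c (m a) P i = 0 := by
          unfold c
          rw [hz]
          simp
        rw [this, zero_add]
        exact h3 i hi
    · have hex : ∃ i, P ≤ i ∧ D * μ ≤ h i ∧ b * (ld m t S i + m a) ≤ h i := by
        by_contra hno
        push Not at hno
        have hall : ∀ j ∈ Finset.range R, h j + 1 ≤ b * ld m t S j + D * μ := by
          intro j _
          have hbm : b * μ ≤ D * μ := Nat.mul_le_mul_right _ hbD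
          have key : h j < D * μ ∨ h j < b * (ld m t S j + μ) := by
            rcases Nat.lt_or_ge j P with hj | hj
            · exact h3 j hj
            · rcases Nat.lt_or_ge (h j) (D * μ) with h4 | h4
              · exact Or.inl h4
              · right
                have h5 := hno j hj h4
                have h6 : b * (ld m t S j + m a) ≤ b * (ld m t S j + μ) :=
                  Nat.mul_le_mul_left _ (Nat.add_le_add_left (hm a) _)
                exact lt_of_lt_of_le h5 h6
          rcases key with h4 | h4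
          · have : 0 ≤ b * ld m t S j := Nat.zero_le _
            omega
          · rw [Nat.mul_add] at h4
            omega
        have hs := Finset.sum_le_sum hall
        rw [Finset.sum_add_distrib, Finset.sum_add_distrib] at hs
        simp only [Finset.sum_const, Finset.card_range, smul_eq_mul, mul_one] at hs
        rw [← Finset.mul_sum] at hs
        have hL : ∑ j ∈ Finset.range R, ld m t S j ≤ ∑ l ∈ S, T (m l) := by
          unfold ld
          rw [Finset.sum_comm]
          exact Finset.sum_le_sum fun l _ => sum_c_le _ _ _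
        have hT : ∑ l ∈ S, T (m l) + 1 ≤ ∑ l, T (m l) := by
          have h4 : ∑ l ∈ insert a S, T (m l) ≤ ∑ l, T (m l) :=
            Finset.sum_le_sum_of_subset (Finset.subset_univ _)
          rw [Finset.sum_insert ha] at h4
          have h5 := T_pos (m a) hp
          omega
        have h6 : b * ∑ j ∈ Finset.range R, ld m t S j ≤ b * ∑ l ∈ S, T (m l) :=
          Nat.mul_le_mul_left _ hL
        have h7 : b * (∑ l ∈ S, T (m l) + 1) ≤ b * ∑ l, T (m l) := Nat.mul_le_mul_left _ hT
        rw [Nat.mul_add, Nat.mul_one] at h7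
        omega
      set i := Nat.find hex with hidef
      obtain ⟨hi1, hi2, hi3⟩ := Nat.find_spec hex
      rw [← hidef] at hi1 hi2 hi3
      have htop : ∀ l ∈ insert a S, Function.update t a i l ≤ i := by
        intro l hl
        rcases Finset.mem_insert.1 hl with rfl | hlS
        · simp
        · rw [Function.update_of_ne]
          · exact (h1 l hlS).trans hi1
          · rintro rfl
            exact ha hlS
      refine ⟨Function.update t a i, i, htop, ?_, ?_⟩
      · intro j
        rcases Nat.lt_or_ge j i with hj | hj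
        · rw [ld_insert m t S a ha]
          have : c (m a) i j = 0 := by
            unfold c
            rw [if_neg (by omega)]
          rw [this, zero_add]
          exact h2 j
        · obtain ⟨s, rfl⟩ : ∃ s, j = i + s := ⟨j - i, by omega⟩
          apply keep h b D μ hh m _ _ hm i s htop hi2
          rw [ld_insert m t S a ha]
          have : c (m a) i i = m a := by
            unfold c
            rw [if_pos le_rfl]
            simp
          rw [this, Nat.add_comm]
          exact hi3
      · intro j hj
        rw [ld_insert m t S a ha]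
        have mono : b * (ld m t S j + μ) ≤ b * (c (m a) i j + ld m t S j + μ) :=
          Nat.mul_le_mul_left _ (by omega)
        rcases Nat.lt_or_ge j P with hjP | hjP
        · rcases h3 j hjP with h4 | h4
          · exact Or.inl h4
          · exact Or.inr (lt_of_lt_of_le h4 mono)
        · have hnf := Nat.find_min hex hj
          rcases Nat.lt_or_ge (h j) (D * μ) with h4 | h4
          · exact Or.inl h4
          · right
            have h5 : ¬ b * (ld m t S j + m a) ≤ h j := fun h6 => hnf ⟨hjP, h4, h6⟩
            have h6 : b * (ld m t S j + m a) ≤ b * (ld m t S j + μ) :=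
              Nat.mul_le_mul_left _ (Nat.add_le_add_left (hm a) _)
            exact lt_of_lt_of_le (lt_of_lt_of_le (not_le.1 h5) h6) mono

end PackAux

theorem pack (h : ℕ → ℕ) (b D μ R : ℕ) (hb : 1 ≤ b) (hbD : b ≤ D)
    (hh : ∀ i, h i ≤ h (i + 1) + D) (hR : ∀ i, R ≤ i → h i = 0)
    {r : ℕ} (m : Fin r → ℕ) (hm : ∀ l, m l ≤ μ)
    (hsum : b * ∑ l, T (m l) + R * (D * μ) ≤ ∑ i ∈ Finset.range R, h i) :
    ∃ t : Fin r → ℕ, (∀ i, b * load m t i ≤ h i) ∧
      ∑ i ∈ Finset.range R, load m t i = ∑ l, T (m l) := by
  obtain ⟨t, P, -, h2, -⟩ := PackAux.main h b D μ R hb hbD hh m hm hsum Finset.univ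
  have hl : ∀ i, load m t i = PackAux.ld m t Finset.univ i := fun i => rfl
  refine ⟨t, fun i => ?_, ?_⟩
  · rw [hl]
    exact h2 i
  · have hz : ∀ i, R ≤ i → load m t i = 0 := by
      intro i hi
      have h3 := h2 i
      rw [hR i hi, ← hl] at h3
      have h4 : 1 * load m t i ≤ b * load m t i := Nat.mul_le_mul_right _ hb
      omega
    set N := R + ∑ l, (t l + m l) with hN
    have h5 : ∑ i ∈ Finset.range N, load m t i = ∑ i ∈ Finset.range R, load m t i := by
      rw [hN, Finset.sum_range_add]
      have : ∑ x ∈ Finset.range (∑ l, (t l + m l)), load m t (R + x) = 0 :=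
        Finset.sum_eq_zero fun x _ => hz _ (by omega)
      rw [this, add_zero]
    rw [← h5]
    simp only [hl]
    unfold PackAux.ld
    rw [Finset.sum_comm]
    apply Finset.sum_congr rfl
    intro l _
    apply PackAux.sum_c_eq
    have h6 : t l + m l ≤ ∑ l, (t l + m l) :=
      Finset.single_le_sum (f := fun l => t l + m l) (fun _ _ => Nat.zero_le _)
        (Finset.mem_univ l)
    omega

end FPS
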