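import Pool.Agent.Lib.FPS.Usable
import Pool.Agent.Lib.FPS.Pack

/-!
# FPS.Pack2: greedy placement of triangles, second version

PROOF of `pack2`: copy of `PackAux.main` and `pack` of `FPS/Pack.lean` (reuse `PackAux.c`, `ld`,
`scale`, `ld_zero`, `ld_insert`, `sum_c_le`, `sum_c_eq`, `T_pos`), with `b = 1`. Invariant over the set
`S` of placed points, with a pointer `P`: (1) `t l ≤ P` for all placed `l`; (2) `ld_S i ≤ h i` for all
`i`; (3) for all `i < P` with `i < R`: `h i ≤ ld_S i + w i`. A new point of multiplicity `m' ≥ 1` is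
placed at the smallest row `i ≥ P` with `Usable h μ i`, `i < R` and `ld_S i + m' ≤ h i`. (2): for the
row `i + s`, `s < μ`: `μ * ld (i+s) ≤ (μ - s) * ld i ≤ (μ - s) * h i ≤ μ * h (i + s)` by `scale` and
`Usable`; for `s ≥ μ` the load is `0` (`ld_zero`). (3): a row `j < R` which fails the test is not
usable, so `h j ≤ w j` by `hw`, or has `h j < ld_S j + m' ≤ ld_S j + μ ≤ ld_S j + w j` (or again
`h j ≤ w j`). If no row passes the test, then `h j ≤ ld_S j + w j` for all `j < R`; sum over `j < R`:
`∑ h ≤ ∑_{l ∈ S} T (m l) + ∑ w < ∑_l T (m l) + ∑ w ≤ ∑ h` (as `T m' ≥ 1`): contradiction.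
-/

namespace FPS

namespace Pack2Aux

open PackAux

theorem keep2 (h : ℕ → ℕ) (μ : ℕ) {r : ℕ}
    (m t : Fin r → ℕ) (S : Finset (Fin r)) (hm : ∀ l, m l ≤ μ) (i s : ℕ)
    (ht : ∀ l ∈ S, t l ≤ i) (hU : Usable h μ i) (hi : ld m t S i ≤ h i) :
    ld m t S (i + s) ≤ h (i + s) := by
  rcases Nat.lt_or_ge s μ with hs | hs
  · have h1 := scale m t S μ i s hm ht hs
    have hμ : 0 < μ := by omega
    have h3 : μ * ld m t S (i + s) ≤ μ * h (i + s) := by
      calc μ * ld m t S (i + s) ≤ (μ - s) * ld m t S i := h1
        _ ≤ (μ - s) * h i := Nat.mul_le_mul_left _ hi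
        _ ≤ μ * h (i + s) := hU s hs.le
    exact Nat.le_of_mul_le_mul_left h3 hμ
  · rw [ld_zero m t S μ i s hm ht hs]
    exact Nat.zero_le _

theorem main2 (h : ℕ → ℕ) (μ R : ℕ) (w : ℕ → ℕ)
    (hw : ∀ i < R, (Usable h μ i ∧ μ ≤ w i) ∨ h i ≤ w i)
    {r : ℕ} (m : Fin r → ℕ) (hm : ∀ l, m l ≤ μ)
    (hsum : ∑ l, T (m l) + ∑ i ∈ Finset.range R, w i ≤ ∑ i ∈ Finset.range R, h i)
    (S : Finset (Fin r)) :
    ∃ (t : Fin r → ℕ) (P : ℕ), (∀ l ∈ S, t l ≤ P) ∧ (∀ i, ld m t S i ≤ h i) ∧
      ∀ i < P, i < R → h i ≤ ld m t S i + w i := by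
  classical
  induction S using Finset.induction_on with
  | empty =>
    refine ⟨fun _ => 0, 0, by simp, ?_, by simp⟩
    intro i
    unfold ld
    simp
  | insert a S ha ih =>
    obtain ⟨t, P, h1, h2, h3⟩ := ih
    rcases Nat.eq_zero_or_pos (m a) with hz | hp
    · refine ⟨Function.update t a P, P, ?_, ?_, ?_⟩
      · intro l hl
        rcases Finset.mem_insert.1 hl with rfl | hlS
        · simp
        · rw [Function.update_of_ne]
          · exact h1 l hlS
          · rintro rfl
            exact ha hlS
      · intro i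
        rw [ld_insert m t S a ha]
        have : c (m a) P i = 0 := by
          unfold c
          rw [hz]
          simp
        rw [this, zero_add]
        exact h2 i
      · intro i hi hiR
        rw [ld_insert m t S a ha]
        have : c (m a) P i = 0 := by
          unfold c
          rw [hz]
          simp
        rw [this, zero_add]
        exact h3 i hi hiR
    · have fail : ∀ j < R, ¬ (Usable h μ j ∧ ld m t S j + m a ≤ h j) →
          h j ≤ ld m t S j + w j := by
        intro j hjR hj
        rcases hw j hjR with ⟨hU, hμw⟩ | hle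
        · have h5 : ¬ (ld m t S j + m a ≤ h j) := fun h6 => hj ⟨hU, h6⟩
          have h6 := hm a
          omega
        · omega
      have hex : ∃ i, P ≤ i ∧ i < R ∧ Usable h μ i ∧ ld m t S i + m a ≤ h i := by
        by_contra hno
        push Not at hno
        have hall : ∀ j ∈ Finset.range R, h j ≤ ld m t S j + w j := by
          intro j hjR
          rw [Finset.mem_range] at hjR
          rcases Nat.lt_or_ge j P with hj | hj
          · exact h3 j hj hjR
          · apply fail j hjR
            rintro ⟨hU, h5⟩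
            have := hno j hj hjR hU
            omega
        have hs := Finset.sum_le_sum hall
        rw [Finset.sum_add_distrib] at hs
        have hL : ∑ j ∈ Finset.range R, ld m t S j ≤ ∑ l ∈ S, T (m l) := by
          unfold ld
          rw [Finset.sum_comm]
          exact Finset.sum_le_sum fun l _ => sum_c_le _ _ _
        have hT : ∑ l ∈ S, T (m l) + 1 ≤ ∑ l, T (m l) := by
          have h4 : ∑ l ∈ insert a S, T (m l) ≤ ∑ l, T (m l) :=
            Finset.sum_le_sum_of_subset (Finset.subset_univ _)
          rw [Finset.sum_insert ha] at h4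
          have h5 := T_pos (m a) hp
          omega
        omega
      set i := Nat.find hex with hidef
      obtain ⟨hi1, hiR, hi2, hi3⟩ := Nat.find_spec hex
      rw [← hidef] at hi1 hiR hi2 hi3
      have htop : ∀ l ∈ insert a S, Function.update t a i l ≤ i := by
        intro l hl
        rcases Finset.mem_insert.1 hl with rfl | hlS
        · simp
        · rw [Function.update_of_ne]
          · exact (h1 l hlS).trans hi1
          · rintro rfl
            exact ha hlS
      refine ⟨Function.update t a i, i, htop, ?_, ?_⟩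
      · intro j
        rcases Nat.lt_or_ge j i with hj | hj
        · rw [ld_insert m t S a ha]
          have : c (m a) i j = 0 := by
            unfold c
            rw [if_neg (by omega)]
          rw [this, zero_add]
          exact h2 j
        · obtain ⟨s, rfl⟩ : ∃ s, j = i + s := ⟨j - i, by omega⟩
          apply keep2 h μ m _ _ hm i s htop hi2
          rw [ld_insert m t S a ha]
          have : c (m a) i i = m a := by
            unfold c
            rw [if_pos le_rfl]
            simp
          rw [this, Nat.add_comm]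
          exact hi3
      · intro j hj hjR
        rw [ld_insert m t S a ha]
        have key : h j ≤ ld m t S j + w j := by
          rcases Nat.lt_or_ge j P with hjP | hjP
          · exact h3 j hjP hjR
          · apply fail j hjR
            rintro ⟨hU, h5⟩
            exact Nat.find_min hex hj ⟨hjP, hjR, hU, h5⟩
        omega

end Pack2Aux

theorem pack2 (h : ℕ → ℕ) (μ R : ℕ) (hR : ∀ i, R ≤ i → h i = 0) (w : ℕ → ℕ)
    (hw : ∀ i < R, (Usable h μ i ∧ μ ≤ w i) ∨ h i ≤ w i)
    {r : ℕ} (m : Fin r → ℕ) (hm : ∀ l, m l ≤ μ)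
    (hsum : ∑ l, T (m l) + ∑ i ∈ Finset.range R, w i ≤ ∑ i ∈ Finset.range R, h i) :
    ∃ t : Fin r → ℕ, (∀ i, load m t i ≤ h i) ∧
      ∑ i ∈ Finset.range R, load m t i = ∑ l, T (m l) := by
  obtain ⟨t, P, -, h2, -⟩ := Pack2Aux.main2 h μ R w hw m hm hsum Finset.univ
  have hl : ∀ i, load m t i = PackAux.ld m t Finset.univ i := fun i => rfl
  refine ⟨t, fun i => ?_, ?_⟩
  · rw [hl]
    exact h2 i
  · have hz : ∀ i, R ≤ i → load m t i = 0 := by
      intro i hi
      have h3 := h2 i
      rw [hR i hi, ← hl] at h3
      omega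
    set N := R + ∑ l, (t l + m l) with hN
    have h5 : ∑ i ∈ Finset.range N, load m t i = ∑ i ∈ Finset.range R, load m t i := by
      rw [hN, Finset.sum_range_add]
      have : ∑ x ∈ Finset.range (∑ l, (t l + m l)), load m t (R + x) = 0 :=
        Finset.sum_eq_zero fun x _ => hz _ (by omega)
      rw [this, add_zero]
    rw [← h5]
    simp only [hl]
    unfold PackAux.ld
    rw [Finset.sum_comm]
    apply Finset.sum_congr rfl
    intro l _
    apply PackAux.sum_c_eq
    have h6 : t l + m l ≤ ∑ l, (t l + m l) :=
      Finset.single_le_sum (f := fun l => t l + m l) (fun _ _ => Nat.zero_le _)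
        (Finset.mem_univ l)
    omega

end FPS
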