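import Pool.Agent.Lib.FPS.Defs

/-!
# FPS.RowFun: slowly varying minorants and majorants of the row sizes

PROOFS. `Phi a s K E = E + ∑_{l=1}^K min(a, E - s l)` (truncated subtraction; in `Defs.lean` the sum
runs over `range K` with `l + 1`). All statements were checked numerically.
* `phi_inc`: the summand `l` increases by `1` (else by `0`) iff `s l ≤ E` and `E - s l < a`, i.e.
  `E - a < s l ≤ E`. The number of `l ≥ 1` with `s l ≤ E` is `≤ E / s ≤ e / s`; the number of
  multiples of `s` in the half open interval `(E - a, E]` of length `a` is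
  `≤ (a + s - 1) / s ≤ (a + s + 1) / s`.
* `sqrt_bound`: `s = sqrt q`, `s^2 ≤ q ≤ s^2 + 2 s`, `1 ≤ s`.
* `rows_lower`, `rows_upper`: write `Y = b t + u`, `b = s + 1`, `u < b`, `n Y = rowN a s e Y`,
  `F t = Phi a s t (e + 2 - t - b)` (truncated; the last row of the block) and
  `G t = Phi a s t (e + 1 - t)` (the first row). `Phi` is monotone in `E` and in `K`, so
  `F t ≤ n (b t + u) ≤ G t`, `G t ≤ n (b t + u) + u D`, `n (b t + u) ≤ F t + (b - 1 - u) D` by `hD`.
  Moreover `F t ≤ F (t+1) + D` and `G t ≤ G (t+1) + D`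
  (`Phi a s t E ≤ Phi a s t (E - 1) + D ≤ Phi a s (t+1) (E-1) + D`). Put
  `h (b t + u) = b F t - D u` (truncated) for the lower and `h (b t + u) = b G t + b D - D u` for the
  upper function. Both drop by at most `D` per row, within a block and from the last row of a block
  (`u = b - 1`) to the first row of the next one. Lower: `b n - h ≤ b (b-1-u) D + D u ≤ b (b-1) D
  ≤ (b^2 - 1) D = s (s + 2) D`; `h = 0` for `Y ≥ b (e+1)` since `Phi a s t 0 = 0`. Upper:
  `h - b n ≤ b u D + b D - D u = D ((b-1) u + b) ≤ D ((b-1)^2 + b) ≤ D (b^2 - 1)` (`b ≥ 2`); last row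
  `Y = b (e + 1) - 1`: `t = e`, `u = b - 1`, `G e = Phi a s e 1 = 1` (`s ≥ 1`), so `h = b + D`;
  `G t ≤ (e + 1) D` (`Phi a s t 0 = 0` and `hD`).
-/

namespace FPS

/-- the row sizes (see `RowCard.lean`) -/
def rowN (a s e Y : ℕ) : ℕ := Phi a s (Y / (s + 1)) (e + 1 - Y % (s + 1) - Y / (s + 1))

namespace RowFunAux

theorem phi_zero (a s K : ℕ) : Phi a s K 0 = 0 := by
  unfold Phi
  simp

theorem phi_mono_E (a s K : ℕ) {E E' : ℕ} (h : E ≤ E') : Phi a s K E ≤ Phi a s K E' := by
  unfold Phi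
  refine add_le_add h (Finset.sum_le_sum fun l _ => ?_)
  exact min_le_min le_rfl (by omega)

theorem phi_mono_K (a s E : ℕ) {K K' : ℕ} (h : K ≤ K') : Phi a s K E ≤ Phi a s K' E := by
  unfold Phi
  refine Nat.add_le_add_left ?_ _
  exact Finset.sum_le_sum_of_subset (Finset.range_subset_range.2 h)

theorem cnt (a s K E : ℕ) (hs : 1 ≤ s) :
    ((Finset.range K).filter (fun l => s * (l + 1) ≤ E ∧ E < a + s * (l + 1))).card ≤
      min (E / s) (a / s + 1) := by
  have hs' : 0 < s := hs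
  refine le_min ?_ ?_
  · have h1 : (Finset.range K).filter (fun l => s * (l + 1) ≤ E ∧ E < a + s * (l + 1)) ⊆
        Finset.range (E / s) := by
      intro l hl
      rw [Finset.mem_filter] at hl
      rw [Finset.mem_range]
      have h2 : l + 1 ≤ E / s := by
        rw [Nat.le_div_iff_mul_le hs', mul_comm]
        exact hl.2.1
      omega
    calc _ ≤ _ := Finset.card_le_card h1
      _ = _ := Finset.card_range _
  · have h1 : (Finset.range K).filter (fun l => s * (l + 1) ≤ E ∧ E < a + s * (l + 1)) ⊆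
        Finset.Ico (E / s - a / s - 1) (E / s) := by
      intro l hl
      rw [Finset.mem_filter] at hl
      rw [Finset.mem_Ico]
      have h2 : l + 1 ≤ E / s := by
        rw [Nat.le_div_iff_mul_le hs', mul_comm]
        exact hl.2.1
      have h3 : E / s ≤ a / s + (l + 1) := by
        have h4 : E / s ≤ (a + s * (l + 1)) / s := Nat.div_le_div_right hl.2.2.le
        rwa [Nat.add_mul_div_left _ _ hs'] at h4
      omega
    have h5 := Finset.card_le_card h1
    rw [Nat.card_Ico] at h5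
    refine h5.trans ?_
    generalize E / s = x
    generalize a / s = y
    omega

end RowFunAux

open RowFunAux

theorem phi_inc (a s K E e : ℕ) (ha : 1 ≤ a) (hs : 1 ≤ s) (hE : E ≤ e) :
    Phi a s K (E + 1) ≤ Phi a s K E + (1 + min (a + s + 1) e / s) := by
  have h1 : ∑ l ∈ Finset.range K, min a (E + 1 - s * (l + 1)) ≤
      ∑ l ∈ Finset.range K, min a (E - s * (l + 1)) +
        ((Finset.range K).filter (fun l => s * (l + 1) ≤ E ∧ E < a + s * (l + 1))).card := by
    rw [Finset.card_filter, ← Finset.sum_add_distrib]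
    refine Finset.sum_le_sum fun l _ => ?_
    generalize s * (l + 1) = x
    split_ifs with h <;> omega
  have h2 := cnt a s K E hs
  have h3 : min (E / s) (a / s + 1) ≤ min (a + s + 1) e / s := by
    rcases le_total (a + s + 1) e with h | h
    · rw [min_eq_left h]
      refine (min_le_right _ _).trans ?_
      rw [← Nat.add_div_right a (by omega : 0 < s)]
      exact Nat.div_le_div_right (by omega)
    · rw [min_eq_right h]
      exact (min_le_left _ _).trans (Nat.div_le_div_right hE)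
  unfold Phi
  omega

theorem sqrt_bound (q : ℕ) (hq : 1 ≤ q) :
    1 ≤ q.sqrt ∧ q.sqrt + 1 ≤ 1 + q / q.sqrt ∧ 1 + q / q.sqrt ≤ 2 * (q.sqrt + 1) := by
  have h1 : 0 < q.sqrt := Nat.sqrt_pos.2 hq
  refine ⟨h1, ?_, ?_⟩
  · have h2 : q.sqrt ≤ q / q.sqrt := by
      rw [Nat.le_div_iff_mul_le h1]
      exact Nat.sqrt_le q
    omega
  · have h3 : q / q.sqrt < q.sqrt + 3 := by
      rw [Nat.div_lt_iff_lt_mul h1]
      have h4 := Nat.sqrt_le_add q
      have h5 : (q.sqrt + 3) * q.sqrt = q.sqrt * q.sqrt + q.sqrt + q.sqrt + q.sqrt := by ring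
      omega
    omega

namespace RowFunAux

theorem phi_iter {a s e D : ℕ}
    (hD : ∀ K E, E ≤ e → Phi a s K (E + 1) ≤ Phi a s K E + D) (K E k : ℕ) (h : E + k ≤ e + 1) :
    Phi a s K (E + k) ≤ Phi a s K E + k * D := by
  induction k with
  | zero => simp
  | succ k ih =>
    have h1 := ih (by omega)
    have h2 := hD K (E + k) (by omega)
    have h3 : (k + 1) * D = k * D + D := by ring
    have h4 : E + (k + 1) = E + k + 1 := rfl
    rw [h3, h4]
    omega

theorem phi_lip {a s e D : ℕ}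
    (hD : ∀ K E, E ≤ e → Phi a s K (E + 1) ≤ Phi a s K E + D) (K E E' k : ℕ) (h : E' ≤ e + 1)
    (h' : E' ≤ E + k) : Phi a s K E' ≤ Phi a s K E + k * D := by
  rcases le_total E' E with h1 | h1
  · exact (phi_mono_E a s K h1).trans (Nat.le_add_right _ _)
  · obtain ⟨j, rfl⟩ : ∃ j, E' = E + j := ⟨E' - E, by omega⟩
    have h2 := phi_iter hD K E j h
    have h3 : j * D ≤ k * D := Nat.mul_le_mul_right D (by omega)
    omega

theorem drop {a s e D : ℕ}
    (hD : ∀ K E, E ≤ e → Phi a s K (E + 1) ≤ Phi a s K E + D) (t c : ℕ) (hc : c ≤ e + 1) :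
    Phi a s t (c - t) ≤ Phi a s (t + 1) (c - (t + 1)) + D := by
  rcases le_total c t with h | h
  · rw [Nat.sub_eq_zero_of_le h, phi_zero]
    exact Nat.zero_le _
  · have h1 := phi_lip hD t (c - (t + 1)) (c - t) 1 (by omega) (by omega)
    have h2 := phi_mono_K a s (c - (t + 1)) (Nat.le_add_right t 1)
    rw [one_mul] at h1
    omega

theorem dm (b Y : ℕ) (hb : 1 ≤ b) :
    (Y % b + 1 < b ∧ (Y + 1) / b = Y / b ∧ (Y + 1) % b = Y % b + 1) ∨
      (Y % b + 1 = b ∧ (Y + 1) / b = Y / b + 1 ∧ (Y + 1) % b = 0) := by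
  have h0 := Nat.mod_lt Y hb
  have h1 := Nat.div_add_mod Y b
  rcases Nat.lt_or_ge (Y % b + 1) b with h | h
  · left
    refine ⟨h, ?_, ?_⟩
    · rw [Nat.succ_div_of_not_dvd]
      intro h2
      have h3 : (Y + 1) % b = 0 := Nat.mod_eq_zero_of_dvd h2
      rw [Nat.add_mod, Nat.mod_eq_of_lt (show 1 < b by omega), Nat.mod_eq_of_lt h] at h3
      omega
    · rw [Nat.add_mod, Nat.mod_eq_of_lt (show 1 < b by omega), Nat.mod_eq_of_lt h]
  · right
    have h2 : Y % b + 1 = b := by omega
    have h3 : Y + 1 = b * (Y / b + 1) := by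
      rw [mul_add, mul_one]
      omega
    refine ⟨h2, ?_, ?_⟩
    · conv_lhs => rw [h3]
      exact Nat.mul_div_cancel_left _ hb
    · conv_lhs => rw [h3]
      exact Nat.mul_mod_right _ _

theorem low4 {a s e D : ℕ}
    (hD : ∀ K E, E ≤ e → Phi a s K (E + 1) ≤ Phi a s K E + D) (t u : ℕ) (hu : u ≤ s) :
    (s + 1) * Phi a s t (e + 1 - u - t) ≤
      ((s + 1) * Phi a s t (e + 1 - s - t) - D * u) + s * (s + 2) * D := by
  have h1 := phi_lip hD t (e + 1 - s - t) (e + 1 - u - t) (s - u) (by omega) (by omega)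
  have h2 := Nat.mul_le_mul_left (s + 1) h1
  obtain ⟨v, rfl⟩ : ∃ v, s = u + v := ⟨s - u, by omega⟩
  have h3 : u + v - u = v := by omega
  rw [h3] at h2
  rw [mul_add] at h2
  have h4 : (u + v + 1) * (v * D) + D * u ≤ (u + v) * (u + v + 2) * D := by
    nlinarith [Nat.zero_le (u * u * D), Nat.zero_le (u * v * D), Nat.zero_le (v * v * D),
      Nat.zero_le (u * D), Nat.zero_le (v * D)]
  generalize (u + v + 1) * Phi a (u + v) t (e + 1 - (u + v) - t) = A at *
  generalize (u + v + 1) * Phi a (u + v) t (e + 1 - u - t) = B at *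
  generalize (u + v + 1) * (v * D) = A1 at *
  generalize D * u = A2 at *
  generalize (u + v) * (u + v + 2) * D = A3 at *
  omega

theorem up3 {a s e D : ℕ} (hs : 1 ≤ s)
    (hD : ∀ K E, E ≤ e → Phi a s K (E + 1) ≤ Phi a s K E + D) (t u : ℕ) (hu : u ≤ s) :
    (s + 1) * Phi a s t (e + 1 - t) + ((s + 1) * D - D * u) ≤
      (s + 1) * Phi a s t (e + 1 - u - t) + s * (s + 2) * D := by
  have h1 := phi_lip hD t (e + 1 - u - t) (e + 1 - t) u (by omega) (by omega)
  have h2 := Nat.mul_le_mul_left (s + 1) h1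
  rw [mul_add] at h2
  obtain ⟨v, rfl⟩ : ∃ v, s = u + v := ⟨s - u, by omega⟩
  have h3 : (u + v + 1) * D - D * u = (v + 1) * D := by
    have : (u + v + 1) * D = (v + 1) * D + D * u := by ring
    omega
  rw [h3]
  have h4 : (u + v + 1) * (u * D) + (v + 1) * D ≤ (u + v) * (u + v + 2) * D := by
    have h5 : (u + v + 1) * u + (v + 1) ≤ (u + v) * (u + v + 2) := by
      nlinarith [Nat.zero_le (u * v), Nat.zero_le (v * v)]
    calc _ = ((u + v + 1) * u + (v + 1)) * D := by ring
      _ ≤ _ := Nat.mul_le_mul_right D h5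
  generalize (u + v + 1) * Phi a (u + v) t (e + 1 - t) = A at *
  generalize (u + v + 1) * Phi a (u + v) t (e + 1 - u - t) = B at *
  generalize (u + v + 1) * (u * D) = A1 at *
  generalize (v + 1) * D = A2 at *
  generalize (u + v) * (u + v + 2) * D = A3 at *
  omega

end RowFunAux

theorem rows_lower (a s e D : ℕ) (ha : 1 ≤ a) (hs : 1 ≤ s)
    (hD : ∀ K E, E ≤ e → Phi a s K (E + 1) ≤ Phi a s K E + D) :
    ∃ h : ℕ → ℕ, (∀ Y, h Y ≤ (s + 1) * rowN a s e Y) ∧ (∀ Y, h Y ≤ h (Y + 1) + D) ∧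
      (∀ Y, (s + 1) * (e + 1) ≤ Y → h Y = 0) ∧
      ∀ Y, (s + 1) * rowN a s e Y ≤ h Y + s * (s + 2) * D := by
  refine ⟨fun Y => (s + 1) * Phi a s (Y / (s + 1)) (e + 1 - s - Y / (s + 1)) -
    D * (Y % (s + 1)), ?_, ?_, ?_, ?_⟩
  · intro Y
    refine (Nat.sub_le _ _).trans (Nat.mul_le_mul_left _ ?_)
    unfold rowN
    refine phi_mono_E _ _ _ ?_
    have h0 := Nat.mod_lt Y (show 0 < s + 1 by omega)
    generalize Y % (s + 1) = u at *
    generalize Y / (s + 1) = t at *
    omega
  · intro Y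
    simp only
    rcases dm (s + 1) Y (by omega) with ⟨h1, h2, h3⟩ | ⟨h1, h2, h3⟩
    · rw [h2, h3, mul_add D, mul_one]
      generalize (s + 1) * Phi a s (Y / (s + 1)) (e + 1 - s - Y / (s + 1)) = A
      generalize D * (Y % (s + 1)) = B
      omega
    · rw [h2, h3, mul_zero, Nat.sub_zero]
      have h4 := drop hD (Y / (s + 1)) (e + 1 - s) (by omega)
      have h5 := Nat.mul_le_mul_left (s + 1) h4
      have h6 : Y % (s + 1) = s := by omega
      rw [h6]
      rw [mul_add] at h5
      have h7 : (s + 1) * D = D * s + D := by ring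
      generalize (s + 1) * Phi a s (Y / (s + 1)) (e + 1 - s - Y / (s + 1)) = A at *
      generalize (s + 1) * Phi a s (Y / (s + 1) + 1) (e + 1 - s - (Y / (s + 1) + 1)) = B at *
      generalize (s + 1) * D = C at *
      generalize D * s = C' at *
      omega
  · intro Y hY
    have h1 : e + 1 ≤ Y / (s + 1) := by
      rw [Nat.le_div_iff_mul_le (by omega), mul_comm]
      exact hY
    have h2 : e + 1 - s - Y / (s + 1) = 0 := by omega
    simp only
    rw [h2, phi_zero, mul_zero, Nat.zero_sub]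
  · intro Y
    exact low4 hD (Y / (s + 1)) (Y % (s + 1))
      (Nat.lt_succ_iff.1 (Nat.mod_lt Y (show 0 < s + 1 by omega)))

theorem rows_upper (a s e D : ℕ) (ha : 1 ≤ a) (hs : 1 ≤ s)
    (hD : ∀ K E, E ≤ e → Phi a s K (E + 1) ≤ Phi a s K E + D) :
    ∃ h : ℕ → ℕ, (∀ Y, (s + 1) * rowN a s e Y ≤ h Y) ∧ (∀ Y, h Y ≤ h (Y + 1) + D) ∧
      (∀ Y, h Y ≤ (s + 1) * rowN a s e Y + s * (s + 2) * D) ∧
      h ((s + 1) * (e + 1) - 1) ≤ s + 1 + D ∧
      ∀ Y, h Y ≤ (s + 1) * ((e + 2) * D) := by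
  refine ⟨fun Y => (s + 1) * Phi a s (Y / (s + 1)) (e + 1 - Y / (s + 1)) +
    ((s + 1) * D - D * (Y % (s + 1))), ?_, ?_, ?_, ?_, ?_⟩
  · intro Y
    refine le_trans (Nat.mul_le_mul_left _ ?_) (Nat.le_add_right _ _)
    unfold rowN
    exact phi_mono_E _ _ _ (by omega)
  · intro Y
    simp only
    rcases dm (s + 1) Y (by omega) with ⟨h1, h2, h3⟩ | ⟨h1, h2, h3⟩
    · rw [h2, h3, mul_add D, mul_one]
      generalize (s + 1) * Phi a s (Y / (s + 1)) (e + 1 - Y / (s + 1)) = A
      generalize D * (Y % (s + 1)) = B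
      generalize (s + 1) * D = C
      omega
    · rw [h2, h3, mul_zero, Nat.sub_zero]
      have h4 := drop hD (Y / (s + 1)) (e + 1) (by omega)
      have h5 := Nat.mul_le_mul_left (s + 1) h4
      have h6 : Y % (s + 1) = s := by omega
      rw [h6]
      rw [mul_add] at h5
      have h7 : (s + 1) * D = D * s + D := by ring
      generalize (s + 1) * Phi a s (Y / (s + 1)) (e + 1 - Y / (s + 1)) = A at *
      generalize (s + 1) * Phi a s (Y / (s + 1) + 1) (e + 1 - (Y / (s + 1) + 1)) = B at *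
      generalize (s + 1) * D = C at *
      generalize D * s = C' at *
      omega
  · intro Y
    exact up3 hs hD (Y / (s + 1)) (Y % (s + 1))
      (Nat.lt_succ_iff.1 (Nat.mod_lt Y (show 0 < s + 1 by omega)))
  · have h1 : (s + 1) * (e + 1) - 1 = s + (s + 1) * e := by
      have : (s + 1) * (e + 1) = s + (s + 1) * e + 1 := by ring
      omega
    simp only
    rw [h1, Nat.add_mul_div_left _ _ (by omega : 0 < s + 1), Nat.add_mul_mod_self_left,
      Nat.mod_eq_of_lt (by omega : s < s + 1), Nat.div_eq_of_lt (by omega : s < s + 1), zero_add]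
    have h2 : e + 1 - e = 1 := by omega
    have h3 : Phi a s e 1 = 1 := by
      unfold Phi
      have h4 : ∑ l ∈ Finset.range e, min a (1 - s * (l + 1)) = 0 := by
        refine Finset.sum_eq_zero fun l _ => ?_
        have h5 : 1 ≤ s * (l + 1) := Nat.mul_pos hs (by omega)
        omega
      omega
    rw [h2, h3, mul_one]
    have h6 : (s + 1) * D = D + D * s := by ring
    omega
  · intro Y
    simp only
    have h0 : Phi a s (Y / (s + 1)) (e + 1 - Y / (s + 1)) ≤ (e + 1) * D := by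
      generalize Y / (s + 1) = t
      have h1 := phi_lip hD t 0 (e + 1 - t) (e + 1) (by omega) (by omega)
      rwa [phi_zero, zero_add] at h1
    have h2 := Nat.mul_le_mul_left (s + 1) h0
    have h3 : (s + 1) * ((e + 2) * D) = (s + 1) * ((e + 1) * D) + (s + 1) * D := by ring
    rw [h3]
    exact add_le_add h2 (Nat.sub_le _ _)

end FPS
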