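import Pool.Agent.Lib.FPS.Usable
import Pool.Agent.Lib.FPS.RowFun

/-!
# FPS.Row1: the rows of the surface `z = x^a y^2`

Row `i` has `n i = rowN a 1 e i = Phi a 1 (i / 2) (e + 1 - i % 2 - i / 2)` elements. All statements
were checked numerically. Write `g t E = Phi a 1 t E = E + ∑_{l=1}^t min (a, E - l)` (truncated).

PROOF of `usable1`. Step 1: `E * (g t E - g t (E-1)) ≤ 2 * g t E`, by induction on `E`: put
`δ E = g t (E+1) - g t E = 1 + #{1 ≤ l ≤ t : l ≤ E < a + l}`; the claim is `(E+1) δ E ≤ 2 g t (E+1)`.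
Either `δ (E+1) ≤ δ E`, and then
`2 g (E+2) = 2 g (E+1) + 2 δ (E+1) ≥ (E+1) δ E + 2 δ (E+1) ≥ (E+2) δ (E+1)`; or
`δ (E+1) = δ E + 1`: then `l = E + 1` is new (`E + 1 ≤ t`) and nothing is lost (`E < a + 1`, as the
lost `l` is `E + 1 - a` if this is `≥ 1`), so all `l` with `1 ≤ l ≤ E + 1` count, `δ (E+1) = E + 2` and
`2 g (E+2) ≥ (E+1) (δ (E+1) - 1) + 2 δ (E+1) ≥ (E+2) δ (E+1)` (indeed `δ (E+1) ≥ E + 1` is enough).
Step 2: `g t (E-x) * (E * (E-1)) ≥ g t E * ((E-x) * (E-x-1))` for `x ≤ E` (induction on `x`; Step 1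
says `(E-2) * g t E ≤ E * g t (E-1)`).
Step 3: let `i`, `s ≤ μ`; put `t = i / 2`, `E = e + 1 - i % 2 - i / 2 ≥ 2 μ`, and `t'`, `E'` the same for
`i + s`: `t ≤ t'` and `E ≤ E' + s`. So `g t' E' ≥ g t E' ≥ g t (E - x)` with `x = s` (`Phi` is monotone:
`RowFunAux.phi_mono_E`, `phi_mono_K`), and by Step 2 it is enough that
`μ (E-s) (E-s-1) ≥ (μ-s) E (E-1)`, i.e. `s E (E-1) ≥ μ s (2E-1-s)`: true for `s ≥ 1`, since
`2 μ ≤ E` and `2E - 1 - s ≤ 2 (E-1)`. (`μ = 0` is trivial.)

PROOF of `small1`. `g t E ≤ E + a (E-1) ≤ (a+1) E` and `g t E ≤ E + (E-1) + ... + 1 = E (E+1) / 2 ≤ E μ`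
for `E < 2 μ`.
-/

namespace FPS

namespace Row1Aux

open RowFunAux

/-- the increment of `Phi a 1 t` from `E` to `E + 1` -/
def dl (a t E : ℕ) : ℕ := 1 + (min t E - (E - a))

theorem phi_succ (a t E : ℕ) : Phi a 1 t (E + 1) = Phi a 1 t E + dl a t E := by
  have h1 : ∑ l ∈ Finset.range t, min a (E + 1 - 1 * (l + 1)) =
      ∑ l ∈ Finset.range t, min a (E - 1 * (l + 1)) + ∑ l ∈ Finset.range t,
        (if l ∈ Finset.Ico (E - a) (min t E) then 1 else 0) := by
    rw [← Finset.sum_add_distrib]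
    refine Finset.sum_congr rfl fun l hl => ?_
    rw [Finset.mem_range] at hl
    by_cases h : l ∈ Finset.Ico (E - a) (min t E)
    · rw [if_pos h]
      rw [Finset.mem_Ico] at h
      omega
    · rw [if_neg h]
      rw [Finset.mem_Ico] at h
      omega
  have h2 : ∑ l ∈ Finset.range t, (if l ∈ Finset.Ico (E - a) (min t E) then 1 else 0) =
      min t E - (E - a) := by
    rw [← Finset.sum_filter, ← Finset.card_eq_sum_ones, ← Nat.card_Ico (E - a) (min t E)]
    apply congrArg Finset.card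
    ext l
    rw [Finset.mem_filter, Finset.mem_range, Finset.mem_Ico]
    omega
  unfold Phi dl
  rw [h1, h2]
  omega

theorem step1 (a t E : ℕ) : (E + 1) * dl a t E ≤ 2 * Phi a 1 t (E + 1) := by
  induction E with
  | zero =>
    rw [phi_succ]
    omega
  | succ E ih =>
    rw [phi_succ a t (E + 1)]
    by_cases h : dl a t (E + 1) ≤ dl a t E
    · nlinarith
    · have h1 : dl a t (E + 1) = E + 2 ∧ dl a t E = E + 1 := by
        unfold dl at *
        omega
      rw [h1.2] at ih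
      rw [h1.1]
      nlinarith

theorem step1' (a t F : ℕ) : (F + 1) * Phi a 1 t (F + 1) ≤
    2 * Phi a 1 t (F + 1) + (F + 1) * Phi a 1 t F := by
  have h1 := step1 a t F
  have h2 := phi_succ a t F
  have h3 : (F + 1) * Phi a 1 t (F + 1) = (F + 1) * Phi a 1 t F + (F + 1) * dl a t F := by
    rw [h2, mul_add]
  omega

theorem step2 (a t k : ℕ) : ∀ F : ℕ, Phi a 1 t (F + k) * (F * (F - 1)) ≤
    Phi a 1 t F * ((F + k) * (F + k - 1)) := by
  induction k with
  | zero =>
    intro F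
    exact le_rfl
  | succ k ih =>
    intro F
    rcases Nat.eq_zero_or_pos F with h0 | h0
    · subst h0
      simp
    · obtain ⟨G, rfl⟩ : ∃ G, F = G + 1 := ⟨F - 1, by omega⟩
      have h1 := ih (G + 1 + 1)
      have h2 := step1' a t (G + 1)
      have e1 : G + 1 + (k + 1) = G + 1 + 1 + k := by omega
      have e2 : G + 1 - 1 = G := by omega
      have e3 : G + 1 + 1 - 1 = G + 1 := by omega
      rw [e1, e2]
      rw [e3] at h1
      generalize G + 1 + 1 + k - 1 = m at *
      generalize Phi a 1 t (G + 1 + 1 + k) = x at *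
      generalize Phi a 1 t (G + 1 + 1) = y at *
      generalize Phi a 1 t (G + 1) = z at *
      generalize (G + 1 + 1 + k) * m = M at *
      -- `x (G+2) (G+1) ≤ y M`, `(G+2) y ≤ 2 y + (G+2) z`; want `x (G+1) G ≤ z M`
      have h3 : G * y ≤ (G + 2) * z := by nlinarith
      have h4 : (G + 2) * (x * ((G + 1) * G)) ≤ (G + 2) * (z * M) := by
        calc (G + 2) * (x * ((G + 1) * G)) = G * (x * ((G + 1 + 1) * (G + 1))) := by ring
          _ ≤ G * (y * M) := Nat.mul_le_mul_left _ h1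
          _ = (G * y) * M := by ring
          _ ≤ ((G + 2) * z) * M := Nat.mul_le_mul_right _ h3
          _ = (G + 2) * (z * M) := by ring
      exact Nat.le_of_mul_le_mul_left h4 (by omega)

theorem arith (s d F : ℕ) (hs : 1 ≤ s) (hF : s + 2 * d ≤ F) :
    d * ((F + s) * (F + s - 1)) ≤ (s + d) * (F * (F - 1)) := by
  obtain ⟨r, rfl⟩ : ∃ r, F = s + 2 * d + r := ⟨F - (s + 2 * d), by omega⟩
  obtain ⟨u, rfl⟩ : ∃ u, s = u + 1 := ⟨s - 1, by omega⟩
  have e1 : u + 1 + 2 * d + r + (u + 1) - 1 = u + 1 + 2 * d + r + u := by omega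
  have e2 : u + 1 + 2 * d + r - 1 = u + 2 * d + r := by omega
  rw [e1, e2]
  have h : (u + 1 + d) * ((u + 1 + 2 * d + r) * (u + 2 * d + r)) =
      d * ((u + 1 + 2 * d + r + (u + 1)) * (u + 1 + 2 * d + r + u)) +
        (u + 1) * (u * u + u + 2 * u * r + u * d + 2 * d * r + r * r + r) := by
    ring
  rw [h]
  exact Nat.le_add_right _ _

theorem up_a (a t E : ℕ) : Phi a 1 t E ≤ E * (a + 1) := by
  induction E with
  | zero => rw [phi_zero]; exact Nat.zero_le _
  | succ E ih =>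
    rw [phi_succ]
    have h : dl a t E ≤ a + 1 := by
      unfold dl
      omega
    have e : (E + 1) * (a + 1) = E * (a + 1) + (a + 1) := by ring
    omega

theorem up_sq (a t E : ℕ) : 2 * Phi a 1 t E ≤ E * (E + 1) := by
  induction E with
  | zero => rw [phi_zero]
  | succ E ih =>
    rw [phi_succ]
    have h : dl a t E ≤ E + 1 := by
      unfold dl
      omega
    have e : (E + 1) * (E + 1 + 1) = E * (E + 1) + 2 * (E + 1) := by ring
    omega

end Row1Aux

open RowFunAux Row1Aux in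
theorem usable1 (a e μ i : ℕ) (ha : 1 ≤ a) (hE : 2 * μ ≤ e + 1 - i % 2 - i / 2) :
    Usable (rowN a 1 e) μ i := by
  intro s hs
  rcases Nat.eq_zero_or_pos s with h0 | h0
  · subst h0
    exact le_rfl
  · have h1 : Phi a 1 (i / 2) (e + 1 - i % 2 - i / 2 - s) ≤ rowN a 1 e (i + s) := by
      unfold rowN
      refine (phi_mono_E a 1 (i / 2) ?_).trans (phi_mono_K a 1 _ ?_)
      · show e + 1 - i % 2 - i / 2 - s ≤ e + 1 - (i + s) % 2 - (i + s) / 2
        omega
      · show i / 2 ≤ (i + s) / 2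
        omega
    have h2 : rowN a 1 e i = Phi a 1 (i / 2) (e + 1 - i % 2 - i / 2) := rfl
    rw [h2]
    generalize e + 1 - i % 2 - i / 2 = E at *
    generalize i / 2 = t at *
    obtain ⟨d, rfl⟩ : ∃ d, μ = s + d := ⟨μ - s, by omega⟩
    obtain ⟨F, rfl⟩ : ∃ F, E = F + s := ⟨E - s, by omega⟩
    have e1 : F + s - s = F := by omega
    have e2 : s + d - s = d := by omega
    rw [e1] at h1
    rw [e2]
    have h3 := step2 a t s F
    have h4 := arith s d F h0 (by omega)
    refine le_trans ?_ (Nat.mul_le_mul_left _ h1)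
    have hpos : 0 < (F + s) * (F + s - 1) := Nat.mul_pos (by omega) (by omega)
    have h5 : (d * Phi a 1 t (F + s)) * ((F + s) * (F + s - 1)) ≤
        ((s + d) * Phi a 1 t F) * ((F + s) * (F + s - 1)) := by
      calc (d * Phi a 1 t (F + s)) * ((F + s) * (F + s - 1))
          = Phi a 1 t (F + s) * (d * ((F + s) * (F + s - 1))) := by ring
        _ ≤ Phi a 1 t (F + s) * ((s + d) * (F * (F - 1))) := Nat.mul_le_mul_left _ h4
        _ = (s + d) * (Phi a 1 t (F + s) * (F * (F - 1))) := by ring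
        _ ≤ (s + d) * (Phi a 1 t F * ((F + s) * (F + s - 1))) := Nat.mul_le_mul_left _ h3
        _ = ((s + d) * Phi a 1 t F) * ((F + s) * (F + s - 1)) := by ring
    exact Nat.le_of_mul_le_mul_right h5 hpos

open RowFunAux Row1Aux in
theorem small1 (a e μ i : ℕ) (ha : 1 ≤ a) (hE : e + 1 - i % 2 - i / 2 < 2 * μ) :
    rowN a 1 e i ≤ (e + 1 - i % 2 - i / 2) * min μ (a + 1) := by
  have h2 : rowN a 1 e i = Phi a 1 (i / 2) (e + 1 - i % 2 - i / 2) := rfl
  rw [h2]
  generalize e + 1 - i % 2 - i / 2 = E at *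
  generalize i / 2 = t at *
  have h3 := up_a a t E
  have h4 : Phi a 1 t E ≤ E * μ := by
    have h5 := up_sq a t E
    have h6 : E * (E + 1) ≤ E * (2 * μ) := Nat.mul_le_mul_left _ (by omega)
    have h7 : E * (2 * μ) = 2 * (E * μ) := by ring
    omega
  rcases le_total μ (a + 1) with h | h
  · rw [min_eq_left h]
    exact h4
  · rw [min_eq_right h]
    exact h3

end FPS
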