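import Mathlib

/-!
# FPS.Row1Sum: two sums

PROOF of `low1`. The rows `i = 2 t + u`, `t ≤ e`, `u = 0, 1`, have `E = e + 1 - u - t`
(`Finset.sum_range_succ` twice / `Finset.sum_range` by induction on the number of blocks). With
`f E = if 2 μ ≤ E then μ else E K` the sum is `∑_{t ≤ e} (f (e+1-t) + f (e-t)) ≤ 2 ∑_{E=1}^{e+1} f E`
(`f 0 = 0` or `μ = 0`), and `f E ≤ μ + (if E < 2 μ then E K else 0)`, `∑_{E < 2μ} E = μ (2μ - 1)`.

PROOF of `up1`. `i0 = 2 (e + 2 - 2 μ) - 1` (truncated). `2 (e+1) - i0 ≤ 4 μ`, so the left side is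
`∑_{i<i0} n i + μ i0 + (2(e+1) - i0) μ + (2(e+1) - i0) 2 μ K + μ (2 μ K + μ)
≤ ∑_{i<2(e+1)} n i + 2 μ (e+1) + 8 μ² K + 2 μ² K + μ²`, and `K ≥ 1`.
-/

namespace FPS

namespace Row1SumAux

theorem sum_two (g : ℕ → ℕ) (N : ℕ) :
    ∑ i ∈ Finset.range (2 * N), g i = ∑ t ∈ Finset.range N, (g (2 * t) + g (2 * t + 1)) := by
  induction N with
  | zero => simp
  | succ N ih =>
    rw [show 2 * (N + 1) = 2 * N + 1 + 1 by ring, Finset.sum_range_succ, Finset.sum_range_succ,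
      ih, Finset.sum_range_succ, add_assoc]

theorem hb (μ K N : ℕ) :
    ∑ s ∈ Finset.range N, (if s < 2 * μ then s * K else 0) ≤ 2 * μ ^ 2 * K := by
  rw [← Finset.sum_filter]
  have h1 : ∑ s ∈ (Finset.range N).filter (fun s => s < 2 * μ), s * K ≤
      ∑ s ∈ Finset.range (2 * μ), s * K := by
    refine Finset.sum_le_sum_of_subset fun s hs => ?_
    rw [Finset.mem_filter] at hs
    exact Finset.mem_range.2 hs.2
  have h2 : ∑ s ∈ Finset.range (2 * μ), s * K = (∑ s ∈ Finset.range (2 * μ), s) * K :=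
    (Finset.sum_mul _ _ _).symm
  have h3 := Finset.sum_range_id_mul_two (2 * μ)
  have h4 : 2 * μ * (2 * μ - 1) ≤ 2 * μ * (2 * μ) := Nat.mul_le_mul_left _ (Nat.sub_le _ _)
  have h5 : ∑ s ∈ Finset.range (2 * μ), s ≤ 2 * μ ^ 2 := by nlinarith
  exact h1.trans (h2.le.trans (Nat.mul_le_mul_right K h5))

theorem fb (μ K E : ℕ) :
    (if 2 * μ ≤ E then μ else E * K) ≤ μ + (if E < 2 * μ then E * K else 0) := by
  by_cases h : 2 * μ ≤ E
  · rw [if_pos h]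
    exact Nat.le_add_right _ _
  · rw [if_neg h, if_pos (not_le.1 h)]
    exact Nat.le_add_left _ _

theorem fsum (μ K N : ℕ) :
    ∑ s ∈ Finset.range N, (if 2 * μ ≤ s then μ else s * K) ≤ N * μ + 2 * μ ^ 2 * K := by
  refine (Finset.sum_le_sum fun s _ => fb μ K s).trans ?_
  rw [Finset.sum_add_distrib, Finset.sum_const, Finset.card_range, smul_eq_mul]
  exact Nat.add_le_add_left (hb μ K N) _

theorem fsum' (μ K N : ℕ) :
    ∑ s ∈ Finset.range N, (if 2 * μ ≤ s + 1 then μ else (s + 1) * K) ≤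
      N * μ + 2 * μ ^ 2 * K := by
  refine (Finset.sum_le_sum fun s _ => fb μ K (s + 1)).trans ?_
  rw [Finset.sum_add_distrib, Finset.sum_const, Finset.card_range, smul_eq_mul]
  refine Nat.add_le_add_left ?_ _
  have h := hb μ K (N + 1)
  rw [Finset.sum_range_succ'] at h
  exact (Nat.le_add_right _ _).trans h

end Row1SumAux

open Row1SumAux

theorem low1 (e μ K : ℕ) :
    ∑ i ∈ Finset.range (2 * (e + 1)),
      (if 2 * μ ≤ e + 1 - i % 2 - i / 2 then μ else (e + 1 - i % 2 - i / 2) * K)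
        ≤ 2 * μ * (e + 1) + 4 * μ ^ 2 * K := by
  rw [sum_two, Finset.sum_add_distrib]
  have e1 : ∑ t ∈ Finset.range (e + 1), (if 2 * μ ≤ e + 1 - 2 * t % 2 - 2 * t / 2 then μ
      else (e + 1 - 2 * t % 2 - 2 * t / 2) * K) =
      ∑ s ∈ Finset.range (e + 1), (if 2 * μ ≤ s + 1 then μ else (s + 1) * K) := by
    rw [← Finset.sum_range_reflect (fun s => if 2 * μ ≤ s + 1 then μ else (s + 1) * K)]
    refine Finset.sum_congr rfl fun t ht => ?_
    rw [Finset.mem_range] at ht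
    have h : e + 1 - 2 * t % 2 - 2 * t / 2 = e + 1 - 1 - t + 1 := by omega
    rw [h]
  have e2 : ∑ t ∈ Finset.range (e + 1), (if 2 * μ ≤ e + 1 - (2 * t + 1) % 2 - (2 * t + 1) / 2 then μ
      else (e + 1 - (2 * t + 1) % 2 - (2 * t + 1) / 2) * K) =
      ∑ s ∈ Finset.range (e + 1), (if 2 * μ ≤ s then μ else s * K) := by
    rw [← Finset.sum_range_reflect (fun s => if 2 * μ ≤ s then μ else s * K)]
    refine Finset.sum_congr rfl fun t ht => ?_
    rw [Finset.mem_range] at ht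
    have h : e + 1 - (2 * t + 1) % 2 - (2 * t + 1) / 2 = e + 1 - 1 - t := by omega
    rw [h]
  rw [e1, e2]
  have h1 := fsum μ K (e + 1)
  have h2 := fsum' μ K (e + 1)
  nlinarith

theorem up1 (n : ℕ → ℕ) (e μ K : ℕ) (hμ : 1 ≤ μ) (hK : 1 ≤ K) :
    ∑ i ∈ Finset.range (2 * (e + 2 - 2 * μ) - 1), (n i + μ)
      + (2 * (e + 1) - (2 * (e + 2 - 2 * μ) - 1) + μ) * (2 * μ * K + μ)
        ≤ ∑ i ∈ Finset.range (2 * (e + 1)), n i + 2 * μ * (e + 1) + 11 * μ ^ 2 * K := by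
  obtain ⟨i0, hi0⟩ : ∃ i0, i0 = 2 * (e + 2 - 2 * μ) - 1 := ⟨_, rfl⟩
  obtain ⟨D, hD⟩ : ∃ D, D = 2 * (e + 1) - i0 := ⟨_, rfl⟩
  have hD4 : D ≤ 4 * μ := by omega
  have hs : i0 + D = 2 * (e + 1) := by omega
  rw [← hi0, ← hD, Finset.sum_add_distrib, Finset.sum_const, Finset.card_range, smul_eq_mul]
  have h1 : ∑ i ∈ Finset.range i0, n i ≤ ∑ i ∈ Finset.range (2 * (e + 1)), n i :=
    Finset.sum_le_sum_of_subset (Finset.range_subset_range.2 (by omega))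
  have h2 : i0 * μ + D * μ = 2 * μ * (e + 1) := by
    rw [← Nat.add_mul, hs]
    ring
  have h3 : D * (2 * μ * K) ≤ 8 * μ ^ 2 * K := by
    calc D * (2 * μ * K) ≤ 4 * μ * (2 * μ * K) := Nat.mul_le_mul_right _ hD4
      _ = 8 * μ ^ 2 * K := by ring
  have h4 : μ ^ 2 * 1 ≤ μ ^ 2 * K := Nat.mul_le_mul_left _ hK
  have h5 : (D + μ) * (2 * μ * K + μ) = D * (2 * μ * K) + D * μ + 2 * μ ^ 2 * K + μ ^ 2 := by
    ring
  rw [h5]
  have h6 : 11 * μ ^ 2 * K = 8 * μ ^ 2 * K + 2 * μ ^ 2 * K + μ ^ 2 * K := by ring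
  rw [h6]
  omega

end FPS
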