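import Pool.Agent.Lib.FPS.Main
import Pool.Agent.Lib.FPS.Pack2
import Pool.Agent.Lib.FPS.Cover2
import Pool.Agent.Lib.FPS.Row1
import Pool.Agent.Lib.FPS.Row1Sum

/-!
# FPS.Main2: the second error term (small multiplicities), from the surfaces `z = x^(d-2) y^2`
-/

namespace FPS

open MvPolynomial

/-- the error term of the second packing -/
def err1 (d e μ : ℕ) : ℕ := 2 * μ * (e + 1) + 4 * μ ^ 2 * min μ (d - 1)

theorem rowN_one (a e i : ℕ) : rowN a 1 e i = Phi a 1 (i / 2) (e + 1 - i % 2 - i / 2) := rfl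

theorem rowN_one_zero (a e i : ℕ) (hi : 2 * (e + 1) ≤ i) : rowN a 1 e i = 0 := by
  rw [rowN_one, show e + 1 - i % 2 - i / 2 = 0 by omega]
  exact RowFunAux.phi_zero _ _ _

theorem card_Lam_two (a e i : ℕ) (ha : 1 ≤ a) : (Lam a 2 e i).card = rowN a 1 e i := by
  rw [card_Lam a 2 e i ha (by omega)]
  rfl

theorem sum_rowN (a e : ℕ) (ha : 1 ≤ a) :
    ∑ i ∈ Finset.range (2 * (e + 1)), rowN a 1 e i = h0 (a + 2) e := by
  rw [← sum_card_Lam a 2 e ha (by omega)]
  exact Finset.sum_congr rfl fun i _ => (card_Lam_two a e i ha).symm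

theorem V_a1 (a e : ℕ) (ha : 1 ≤ a) {r : ℕ} (m : Fin r → ℕ) (μ : ℕ)
    (hμ : ∀ l, m l ≤ μ)
    (h : ∑ l, T (m l) + (2 * μ * (e + 1) + 4 * μ ^ 2 * min μ (a + 1)) ≤ h0 (a + 2) e) :
    ∃ x y : Fin r → ℂ, Module.finrank ℂ (V (Lam a 2 e) x y m) + ∑ l, T (m l) ≤ h0 (a + 2) e := by
  have hlow := low1 e μ (min μ (a + 1))
  obtain ⟨t, ht1, ht2⟩ := pack2 (rowN a 1 e) μ (2 * (e + 1)) (rowN_one_zero a e)
    (fun i => if 2 * μ ≤ e + 1 - i % 2 - i / 2 then μ
      else (e + 1 - i % 2 - i / 2) * min μ (a + 1))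
    (fun i _ => by
      by_cases hE : 2 * μ ≤ e + 1 - i % 2 - i / 2
      · left
        exact ⟨usable1 a e μ i ha hE, by rw [if_pos hE]⟩
      · right
        rw [if_neg hE]
        exact small1 a e μ i ha (by omega)) m hμ
    (by
      rw [sum_rowN a e ha]
      omega)
  obtain ⟨y, hy⟩ := horace_dim (2 * (e + 1)) (Lam a 2 e)
    (fun i hi => Lam_empty a 2 e i (by omega) hi)
    (fun l : Fin r => ((l : ℕ) : ℝ) + 1)
    (by
      intro l l' hl
      have : ((l : ℕ) : ℝ) = ((l' : ℕ) : ℝ) := by simpa using hl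
      exact Fin.ext (by exact_mod_cast this))
    (by intro l; positivity) m t
    (by
      intro i _
      rw [card_Lam_two a e i ha]
      exact ht1 i)
  refine ⟨fun l => ((((l : ℕ) : ℝ) + 1 : ℝ) : ℂ), y, ?_⟩
  have hsum' := sum_card_Lam a 2 e ha (by omega)
  rw [ht2, hsum'] at hy
  exact hy

/-- adding simple points, for any surface `z = x^a y^b` -/
theorem special_gen (a b e : ℕ) (ha : 1 ≤ a) (hb : 1 ≤ b) {r : ℕ} (m : Fin r → ℕ)
    (h : ∃ x y : Fin r → ℂ,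
      Module.finrank ℂ (V (Lam a b e) x y (fun l => if 2 ≤ m l then m l else 0))
        + ∑ l, T (if 2 ≤ m l then m l else 0) ≤ h0 (a + b) e) :
    ∃ x y : Fin r → ℂ, Module.finrank ℂ (series (F0 a b) e (fun l => p0 a b (x l) (y l)) m)
        + h0 (a + b) e ≤ (e + 3).choose 3 + (h0 (a + b) e - ∑ l, T (m l)) := by
  classical
  obtain ⟨x, y, hxy⟩ := h
  obtain ⟨x', y', hxy'⟩ := add_simple (b * (e + 1)) (Lam a b e)
    (fun i hi => Lam_empty _ _ e i (by omega) hi) x y (fun l => if 2 ≤ m l then m l else 0)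
    (Finset.univ.filter fun l => m l = 1)
    (fun l hl => by
      rw [Finset.mem_filter] at hl
      rw [if_neg (by omega)])
  refine ⟨x', y', ?_⟩
  have hm : (fun l => if l ∈ Finset.univ.filter (fun l => m l = 1) then 1
      else if 2 ≤ m l then m l else 0) = m := by
    funext l
    simp only [Finset.mem_filter, Finset.mem_univ, true_and]
    split_ifs <;> omega
  rw [hm] at hxy'
  have hsumT : ∑ l, T (m l) = ∑ l, T (if 2 ≤ m l then m l else 0)
      + (Finset.univ.filter fun l => m l = 1).card := by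
    rw [Finset.card_filter, ← Finset.sum_add_distrib]
    refine Finset.sum_congr rfl fun l _ => ?_
    split_ifs with h1 h2
    · omega
    · rfl
    · rename_i h2
      rw [h2]
      rfl
    · have : m l = 0 := by omega
      rw [this, Nat.add_zero]
  have hsp := special a b e ha hb x' y' m
  have hsum' := sum_card_Lam a b e ha hb
  rw [hsum'] at hsp
  omega

theorem special_a1 (a e : ℕ) (ha : 1 ≤ a) {r : ℕ} (m : Fin r → ℕ) (μ : ℕ)
    (hμ : ∀ l, m l ≤ μ)
    (h : ∑ l, (if 2 ≤ m l then T (m l) else 0)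
      + (2 * μ * (e + 1) + 4 * μ ^ 2 * min μ (a + 1)) ≤ h0 (a + 2) e) :
    ∃ x y : Fin r → ℂ, Module.finrank ℂ (series (F0 a 2) e (fun l => p0 a 2 (x l) (y l)) m)
        + h0 (a + 2) e ≤ (e + 3).choose 3 + (h0 (a + 2) e - ∑ l, T (m l)) := by
  refine special_gen a 2 e ha (by omega) m ?_
  refine V_a1 a e ha (fun l => if 2 ≤ m l then m l else 0) μ ?_ ?_
  · intro l
    beta_reduce
    split_ifs
    · exact hμ l
    · exact Nat.zero_le _
  · refine le_trans (le_of_eq ?_) h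
    congr 1
    refine Finset.sum_congr rfl fun l _ => ?_
    split_ifs
    · rfl
    · rfl

theorem special_b1 (a e : ℕ) (ha : 1 ≤ a) {r : ℕ} (m : Fin r → ℕ) (μ : ℕ)
    (hμ : ∀ l, m l ≤ μ)
    (h : h0 (a + 2) e + (2 * μ * (e + 1) + 11 * μ ^ 2 * min μ (a + 1)) < ∑ l, T (m l)) :
    ∃ x y : Fin r → ℂ, Module.finrank ℂ (series (F0 a 2) e (fun l => p0 a 2 (x l) (y l)) m)
        + h0 (a + 2) e ≤ (e + 3).choose 3 + (h0 (a + 2) e - ∑ l, T (m l)) := by
  have hμ1 : 1 ≤ μ := by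
    by_contra hcon
    have h1 : ∑ l, T (m l) = 0 := by
      refine Finset.sum_eq_zero fun l _ => ?_
      have h2 := hμ l
      have h3 : m l = 0 := by omega
      rw [h3]
      rfl
    omega
  have hK : 1 ≤ min μ (a + 1) := by omega
  have hup := up1 (rowN a 1 e) e μ (min μ (a + 1)) hμ1 hK
  rw [sum_rowN a e ha] at hup
  have hsmall : ∀ i, 2 * (e + 2 - 2 * μ) - 1 ≤ i → rowN a 1 e i ≤ 2 * μ * min μ (a + 1) := by
    intro i hi
    refine (small1 a e μ i ha (by omega)).trans ?_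
    exact Nat.mul_le_mul_right _ (by omega)
  obtain ⟨t, ht⟩ := cover2 (rowN a 1 e) μ (2 * (e + 1)) (2 * (e + 2 - 2 * μ) - 1)
    (2 * μ * min μ (a + 1)) (by omega) (fun i hi => usable1 a e μ i ha (by omega)) hsmall m hμ
    (by omega)
  obtain ⟨y, hy⟩ := horace_bot (2 * (e + 1)) (Lam a 2 e)
    (fun i hi => Lam_empty a 2 e i (by omega) hi)
    (fun l : Fin r => ((l : ℕ) : ℝ) + 1)
    (by
      intro l l' hl
      have : ((l : ℕ) : ℝ) = ((l' : ℕ) : ℝ) := by simpa using hl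
      exact Fin.ext (by exact_mod_cast this))
    (by intro l; positivity) m t
    (by
      intro i hi
      rw [card_Lam_two a e i ha]
      exact ht i hi)
  refine ⟨fun l => ((((l : ℕ) : ℝ) + 1 : ℝ) : ℂ), y, ?_⟩
  have hsp := special a 2 e ha (by omega) (fun l : Fin r => ((((l : ℕ) : ℝ) + 1 : ℝ) : ℂ)) y m
  have hsum' := sum_card_Lam a 2 e ha (by omega)
  beta_reduce at hy hsp ⊢
  omega

/-- from a special surface `z = x^a y^b` to the general one -/
theorem main_gen (a b d e : ℕ) (hab : a + b = d) (hd : 4 ≤ d) {r : ℕ} (m : Fin r → ℕ)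
    (h : ∃ x y : Fin r → ℂ, Module.finrank ℂ (series (F0 a b) e (fun l => p0 a b (x l) (y l)) m)
        + h0 d e ≤ (e + 3).choose 3 + (h0 d e - ∑ l, T (m l))) :
    ∃ Φ : MvPolynomial (Fin 3 →₀ ℕ) ℂ,
      (∃ F : MvPolynomial (Fin 3) ℂ, F.totalDegree ≤ d ∧ eval (fun α => coeff α F) Φ ≠ 0) ∧
      ∀ F : MvPolynomial (Fin 3) ℂ, F.totalDegree ≤ d → eval (fun α => coeff α F) Φ ≠ 0 →
        F.totalDegree = d ∧ ∃ Ψ : MvPolynomial (Fin r × Fin 3) ℂ,
          (∃ q : Fin r → Fin 3 → ℂ, (∀ l, eval (q l) F = 0) ∧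
            eval (fun i : Fin r × Fin 3 => q i.1 i.2) Ψ ≠ 0) ∧
          ∀ q : Fin r → Fin 3 → ℂ, (∀ l, eval (q l) F = 0) →
            eval (fun i : Fin r × Fin 3 => q i.1 i.2) Ψ ≠ 0 →
            (e + 3).choose 3 ≤ Module.finrank ℂ (series F e q m) + ∑ l, T (m l) ∧
            Module.finrank ℂ (series F e q m) + h0 d e
              ≤ (e + 3).choose 3 + (h0 d e - ∑ l, T (m l)) ∧
            ∀ l, eval (q l) (pderiv 2 F) ≠ 0 := by
  obtain ⟨x, y, hxy⟩ := h
  obtain ⟨Φ, hΦ0, hΦ⟩ := semi d e m (F0 a b)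
    (by have := (F0_facts a b 0 0 (by omega)).1; rwa [hab] at this)
    (fun l => p0 a b (x l) (y l))
    (fun l => (F0_facts a b (x l) (y l) (by omega)).2.1)
    (fun l => (F0_facts a b (x l) (y l) (by omega)).2.2.1)
    (fun l => by
      have := (F0_facts a b (x l) (y l) (by omega)).2.2.2.1
      rwa [hab] at this)
  have hco := (F0_facts a b 0 0 (by omega)).2.2.2.2
  refine ⟨Φ * X (Finsupp.single 0 a + Finsupp.single 1 b),
    ⟨F0 a b, ?_, ?_⟩, ?_⟩
  · have := (F0_facts a b 0 0 (by omega)).1; rwa [hab] at this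
  · rw [map_mul, eval_X]
    exact mul_ne_zero hΦ0 hco
  intro F hFd hF
  rw [map_mul, eval_X] at hF
  have hdeg : F.totalDegree = d := by
    refine le_antisymm hFd ?_
    have h2 := le_totalDegree (mem_support_iff.2 (right_ne_zero_of_mul hF))
    rw [Finsupp.sum_add_index' (fun _ => rfl) (fun _ _ _ => rfl),
      Finsupp.sum_single_index rfl, Finsupp.sum_single_index rfl, hab] at h2
    exact h2
  obtain ⟨Ψ, hq, hΨ⟩ := hΦ F hFd (left_ne_zero_of_mul hF)
  refine ⟨hdeg, Ψ, hq, fun q hq1 hq2 => ?_⟩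
  obtain ⟨h1, h2, h3⟩ := hΨ q hq1 hq2
  exact ⟨h2, by omega, h3⟩

/-- the hypothesis with both error terms -/
def Outside2 (d e : ℕ) {r : ℕ} (m : Fin r → ℕ) (μ : ℕ) : Prop :=
  (∑ l, (if 2 ≤ m l then T (m l) else 0) + min (err1 d e μ) (err d e μ) ≤ h0 d e) ∨
  (h0 d e + (2 * μ * (e + 1) + 11 * μ ^ 2 * min μ (d - 1)) < ∑ l, T (m l)) ∨
  (h0 d e + err d e μ + μ * (2 * μ + 3) < ∑ l, T (m l)) ∨
  (∃ l, ((min d e).sqrt + 1) * (e + 1) + (e + 2) * (1 + min d e / (min d e).sqrt) ≤ m l)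

theorem main2 (d e : ℕ) (hd : 4 ≤ d) (he : 1 ≤ e) {r : ℕ} (m : Fin r → ℕ) (μ : ℕ)
    (hμ : ∀ l, m l ≤ μ) (h : Outside2 d e m μ) :
    ∃ Φ : MvPolynomial (Fin 3 →₀ ℕ) ℂ,
      (∃ F : MvPolynomial (Fin 3) ℂ, F.totalDegree ≤ d ∧ eval (fun α => coeff α F) Φ ≠ 0) ∧
      ∀ F : MvPolynomial (Fin 3) ℂ, F.totalDegree ≤ d → eval (fun α => coeff α F) Φ ≠ 0 →
        F.totalDegree = d ∧ ∃ Ψ : MvPolynomial (Fin r × Fin 3) ℂ,
          (∃ q : Fin r → Fin 3 → ℂ, (∀ l, eval (q l) F = 0) ∧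
            eval (fun i : Fin r × Fin 3 => q i.1 i.2) Ψ ≠ 0) ∧
          ∀ q : Fin r → Fin 3 → ℂ, (∀ l, eval (q l) F = 0) →
            eval (fun i : Fin r × Fin 3 => q i.1 i.2) Ψ ≠ 0 →
            (e + 3).choose 3 ≤ Module.finrank ℂ (series F e q m) + ∑ l, T (m l) ∧
            Module.finrank ℂ (series F e q m) + h0 d e
              ≤ (e + 3).choose 3 + (h0 d e - ∑ l, T (m l)) ∧
            ∀ l, eval (q l) (pderiv 2 F) ≠ 0 := by
  have hab : d - 2 + 2 = d := by omega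
  rcases h with h | h | h | h
  · rcases le_total (err1 d e μ) (err d e μ) with hle | hle
    · rw [min_eq_left hle] at h
      refine main_gen (d - 2) 2 d e hab hd m ?_
      have h1 := special_a1 (d - 2) e (by omega) m μ hμ
        (by
          rw [hab, show d - 2 + 1 = d - 1 by omega]
          exact h)
      rw [hab] at h1
      exact h1
    · rw [min_eq_right hle] at h
      exact main d e hd he m μ hμ (Or.inl h)
  · refine main_gen (d - 2) 2 d e hab hd m ?_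
    have h1 := special_b1 (d - 2) e (by omega) m μ hμ
      (by
        rw [hab, show d - 2 + 1 = d - 1 by omega]
        exact h)
    rw [hab] at h1
    exact h1
  · exact main d e hd he m μ hμ (Or.inr (Or.inl h))
  · exact main d e hd he m μ hμ (Or.inr (Or.inr h))

theorem expected2 (d e : ℕ) (hd : 4 ≤ d) (he : 1 ≤ e) {r : ℕ} (m : Fin r → ℕ) (μ : ℕ)
    (hμ : ∀ l, m l ≤ μ) (h : Outside2 d e m μ) :
    ∃ Φ : MvPolynomial (Fin 3 →₀ ℕ) ℂ,
      (∃ F : MvPolynomial (Fin 3) ℂ, F.totalDegree ≤ d ∧ eval (fun α => coeff α F) Φ ≠ 0) ∧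
      ∀ F : MvPolynomial (Fin 3) ℂ, F.totalDegree ≤ d → eval (fun α => coeff α F) Φ ≠ 0 →
        F.totalDegree = d ∧
        ∃ Ψ : MvPolynomial (Fin r × Fin 3) ℂ,
          (∃ q : Fin r → Fin 3 → ℂ, (∀ l, eval (q l) F = 0) ∧
            eval (fun i : Fin r × Fin 3 => q i.1 i.2) Ψ ≠ 0) ∧
          ∀ q : Fin r → Fin 3 → ℂ, (∀ l, eval (q l) F = 0) →
            eval (fun i : Fin r × Fin 3 => q i.1 i.2) Ψ ≠ 0 →
            Module.finrank ℂ (series F e q m)
              = Module.finrank ℂ (mults F e) + (h0 d e - ∑ l, T (m l)) := by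
  classical
  obtain ⟨Φ, hF1, hΦ⟩ := main2 d e hd he m μ hμ h
  refine ⟨Φ, hF1, fun F hFd hF => ?_⟩
  obtain ⟨hdeg, Ψ, hq, hΨ⟩ := hΦ F hFd hF
  refine ⟨hdeg, Ψ, hq, fun q hq1 hq2 => ?_⟩
  obtain ⟨hc, hb, -⟩ := hΨ q hq1 hq2
  have hF0 : F ≠ 0 := by
    rintro rfl
    rw [totalDegree_zero] at hdeg
    omega
  have hdim := finrank_mults F d e hF0 hdeg
  have hE : FiniteDimensional ℂ (MvPolynomial.restrictTotalDegree (Fin 3) ℂ e) := inferInstance
  have hle : series F e q m ≤ MvPolynomial.restrictTotalDegree (Fin 3) ℂ e := fun G hG =>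
    (MvPolynomial.mem_restrictTotalDegree _ _ _).2 hG.1
  have hfin : FiniteDimensional ℂ (series F e q m) := Submodule.finiteDimensional_of_le hle
  have h1 : Module.finrank ℂ (mults F e) ≤ Module.finrank ℂ (series F e q m) := by
    apply Submodule.finrank_mono
    rintro G ⟨h4, h5⟩
    exact ⟨h4, fun l => Ideal.mem_sup_left (Ideal.mem_span_singleton.2 h5)⟩
  omega

end FPS
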