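import Pool.Agent.Lib.FPS.Special

/-!
# FPS.Surj: independent conditions in degree `n` and surjectivity
-/

namespace FPS

open MvPolynomial

theorem surj {r : ℕ} (F : MvPolynomial (Fin 3) ℂ) (q : Fin r → Fin 3 → ℂ) (m : Fin r → ℕ) (n : ℕ)
    (hc : ∀ e, (e + 3).choose 3 ≤ Module.finrank ℂ (series F e q m) + ∑ l, T (m l))
    (hn : Module.finrank ℂ (series F n q m) + ∑ l, T (m l) ≤ (n + 3).choose 3)
    (H : MvPolynomial (Fin 3) ℂ) :
    ∃ G : MvPolynomial (Fin 3) ℂ, G.totalDegree ≤ n ∧
      ∀ l, H - G ∈ Ideal.span {F} ⊔ ptIdeal (q l) ^ m l := by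
  classical
  obtain ⟨e, hne, hHe⟩ : ∃ e, n ≤ e ∧ H.totalDegree ≤ e :=
    ⟨max n H.totalDegree, le_max_left _ _, le_max_right _ _⟩
  set E := MvPolynomial.restrictTotalDegree (Fin 3) ℂ e with hE
  set En := MvPolynomial.restrictTotalDegree (Fin 3) ℂ n with hEn
  have hEf : FiniteDimensional ℂ E := by rw [hE]; infer_instance
  have hEnf : FiniteDimensional ℂ En := by rw [hEn]; infer_instance
  have hle : series F e q m ≤ E := fun G hG => (mem_restrictTotalDegree _ _ _).2 hG.1
  have hSf : FiniteDimensional ℂ (series F e q m) := Submodule.finiteDimensional_of_le hle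
  have hinf : En ⊓ series F e q m = series F n q m := by
    ext G
    constructor
    · rintro ⟨h1, h2⟩
      exact ⟨(mem_restrictTotalDegree _ _ _).1 h1, h2.2⟩
    · rintro ⟨h1, h2⟩
      exact ⟨(mem_restrictTotalDegree _ _ _).2 h1, h1.trans hne, h2⟩
  have h1 := Submodule.finrank_sup_add_finrank_inf_eq En (series F e q m)
  rw [hinf, special_finrank_E n] at h1
  have h2 : En ⊔ series F e q m ≤ E := by
    refine sup_le (fun G hG => ?_) hle
    exact (mem_restrictTotalDegree _ _ _).2 (((mem_restrictTotalDegree _ _ _).1 hG).trans hne)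
  have h3 : En ⊔ series F e q m = E := by
    apply Submodule.eq_of_le_of_finrank_le h2
    have h4 : Module.finrank ℂ E = (e + 3).choose 3 := special_finrank_E e
    have h5 := hc e
    omega
  have h4 : H ∈ En ⊔ series F e q m := by
    rw [h3]
    exact (mem_restrictTotalDegree _ _ _).2 hHe
  obtain ⟨G, hG, K, hK, hGK⟩ := Submodule.mem_sup.1 h4
  refine ⟨G, (mem_restrictTotalDegree _ _ _).1 hG, fun l => ?_⟩
  have h5 : H - G = K := by rw [← hGK]; ring
  rw [h5]
  exact hK.2 l

end FPS
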