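import Pool.Agent.Lib.FPS.Semi
import Pool.Agent.Lib.FPS.Surj

/-!
# FPS.OpenFix: semicontinuity for a fixed surface, and the dimension in the next degree
-/

namespace FPS

open MvPolynomial

theorem open_fixed {r : ℕ} (F : MvPolynomial (Fin 3) ℂ) (e : ℕ) (m : Fin r → ℕ)
    (q0 : Fin r → Fin 3 → ℂ) (hq0 : ∀ l, eval (q0 l) F = 0)
    (hder : ∀ l, eval (q0 l) (pderiv 2 F) ≠ 0) :
    ∃ Ψ : MvPolynomial (Fin r × Fin 3) ℂ,
      eval (fun i : Fin r × Fin 3 => q0 i.1 i.2) Ψ ≠ 0 ∧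
      ∀ q : Fin r → Fin 3 → ℂ, (∀ l, eval (q l) F = 0) →
        eval (fun i : Fin r × Fin 3 => q i.1 i.2) Ψ ≠ 0 →
        Module.finrank ℂ (series F e q m) ≤ Module.finrank ℂ (series F e q0 m) ∧
        (e + 3).choose 3 ≤ Module.finrank ℂ (series F e q m) + ∑ l, T (m l) ∧
        ∀ l, eval (q l) (pderiv 2 F) ≠ 0 := by
  classical
  obtain ⟨Ψ, hΨ0, hΨ⟩ := rank_open
    (Theta (map C F) e (fun l i => (X (l, i) : MvPolynomial (Fin r × Fin 3) ℂ)) m)
    (eval fun i : Fin r × Fin 3 => q0 i.1 i.2) (by intro c; simp [algebraMap_eq])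
  have hmapC : ∀ q : Fin r → Fin 3 → ℂ,
      map (eval fun i : Fin r × Fin 3 => q i.1 i.2) (map C F) = F := by
    intro q
    rw [map_map]
    have : (eval fun i : Fin r × Fin 3 => q i.1 i.2).comp C = RingHom.id ℂ := by
      ext x; simp
    rw [this, map_id]
  have hTh : ∀ q : Fin r → Fin 3 → ℂ,
      (Theta (map C F) e (fun l i => (X (l, i) : MvPolynomial (Fin r × Fin 3) ℂ)) m).map
        (eval fun i : Fin r × Fin 3 => q i.1 i.2) = Theta F e q m := by
    intro q
    rw [Theta_map, hmapC q]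
    simp
  have hD : ∀ q : Fin r → Fin 3 → ℂ, eval (fun i : Fin r × Fin 3 => q i.1 i.2)
      (∏ l, eval (fun i => (X (l, i) : MvPolynomial (Fin r × Fin 3) ℂ)) (pderiv 2 (map C F)))
        = ∏ l, eval (q l) (pderiv 2 F) := by
    intro q
    rw [map_prod]
    refine Finset.prod_congr rfl fun l _ => ?_
    rw [map_eval', ← pderiv_map, hmapC q]
    simp
  refine ⟨Ψ * ∏ l, eval (fun i => (X (l, i) : MvPolynomial (Fin r × Fin 3) ℂ))
    (pderiv 2 (map C F)), ?_, fun q hq1 hq2 => ?_⟩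
  · rw [map_mul, hD]
    exact mul_ne_zero hΨ0 (Finset.prod_ne_zero_iff.2 fun l _ => hder l)
  · rw [map_mul, hD] at hq2
    have h1 := hΨ (eval fun i : Fin r × Fin 3 => q i.1 i.2) (by intro c; simp [algebraMap_eq])
      (left_ne_zero_of_mul hq2)
    rw [hTh, hTh] at h1
    have h2 := series_le F e q m hq1
    have h3 := le_series F e q0 m hq0 hder
    have h4 : ∀ l, eval (q l) (pderiv 2 F) ≠ 0 := fun l =>
      Finset.prod_ne_zero_iff.1 (right_ne_zero_of_mul hq2) l (Finset.mem_univ l)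
    exact ⟨by omega, count F e q m hq1 h4, h4⟩

theorem dim_up {r : ℕ} (F : MvPolynomial (Fin 3) ℂ) (e : ℕ)
    (q : Fin r → Fin 3 → ℂ) (m : Fin r → ℕ)
    (hb : Module.finrank ℂ (series F (e - 1) q m) + ∑ l, T (m l) ≤ (e - 1 + 3).choose 3)
    (hsurj : ∀ H : MvPolynomial (Fin 3) ℂ, ∃ G : MvPolynomial (Fin 3) ℂ,
      G.totalDegree ≤ e - 1 ∧ ∀ l, H - G ∈ Ideal.span {F} ⊔ ptIdeal (q l) ^ m l) :
    Module.finrank ℂ (series F e q m) + ∑ l, T (m l) ≤ (e + 3).choose 3 := by
  have hEf : FiniteDimensional ℂ (MvPolynomial.restrictTotalDegree (Fin 3) ℂ e) := inferInstance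
  have hle2 : series F e q m ≤ MvPolynomial.restrictTotalDegree (Fin 3) ℂ e := fun G hG =>
    (mem_restrictTotalDegree _ _ _).2 hG.1
  have hSf : FiniteDimensional ℂ (series F e q m) := Submodule.finiteDimensional_of_le hle2
  have hEf' : FiniteDimensional ℂ (MvPolynomial.restrictTotalDegree (Fin 3) ℂ (e - 1)) :=
    inferInstance
  have hinf : MvPolynomial.restrictTotalDegree (Fin 3) ℂ (e - 1) ⊓ series F e q m
      = series F (e - 1) q m := by
    ext G
    constructor
    · rintro ⟨h1, h2⟩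
      exact ⟨(mem_restrictTotalDegree _ _ _).1 h1, h2.2⟩
    · rintro ⟨h1, h2⟩
      exact ⟨(mem_restrictTotalDegree _ _ _).2 h1, h1.trans (by omega), h2⟩
  have hsup : MvPolynomial.restrictTotalDegree (Fin 3) ℂ (e - 1) ⊔ series F e q m
      = MvPolynomial.restrictTotalDegree (Fin 3) ℂ e := by
    apply le_antisymm
    · refine sup_le (fun G hG => ?_) hle2
      exact (mem_restrictTotalDegree _ _ _).2
        (((mem_restrictTotalDegree _ _ _).1 hG).trans (by omega))
    · intro H hH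
      obtain ⟨G, hG, hGH⟩ := hsurj H
      have h1 : H = G + (H - G) := by ring
      rw [h1]
      refine Submodule.add_mem_sup ((mem_restrictTotalDegree _ _ _).2 hG) ⟨?_, hGH⟩
      refine (totalDegree_sub _ _).trans (max_le ((mem_restrictTotalDegree _ _ _).1 hH) ?_)
      omega
  have h1 := Submodule.finrank_sup_add_finrank_inf_eq
    (MvPolynomial.restrictTotalDegree (Fin 3) ℂ (e - 1)) (series F e q m)
  rw [hinf, hsup, special_finrank_E, special_finrank_E] at h1
  omega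

end FPS
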