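import Mathlib

/-!
# FPS.AlgDep: the image of a polynomial map from a space of smaller dimension

PROOF. The polynomials `φ i`, `i : τ`, are more than `trdeg = card σ` many elements of
`MvPolynomial σ ℂ`, so they are algebraically dependent over `ℂ` (Mathlib: `Algebra.trdeg`,
`MvPolynomial.trdeg_of_isDomain` or similar, `AlgebraicIndependent.lift_cardinalMk_le_trdeg` or
similar; `AlgebraicIndependent` = injectivity of `aeval φ`). So there is `P ≠ 0` with `aeval φ P = 0`;
evaluate at `t`.
-/

namespace FPS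

open MvPolynomial

theorem alg_dep {σ τ : Type} [Fintype σ] [Fintype τ] (h : Fintype.card σ < Fintype.card τ)
    (φ : τ → MvPolynomial σ ℂ) :
    ∃ P : MvPolynomial τ ℂ, P ≠ 0 ∧ ∀ t : σ → ℂ, eval (fun i => eval t (φ i)) P = 0 := by
  have hdep : ¬ AlgebraicIndependent ℂ φ := by
    intro hφ
    have h1 := hφ.cardinalMk_le_trdeg
    rw [MvPolynomial.trdeg_of_isDomain] at h1
    simp only [Cardinal.mk_fintype, Cardinal.lift_natCast, Nat.cast_le] at h1
    omega
  rw [algebraicIndependent_iff] at hdep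
  push Not at hdep
  obtain ⟨P, hP, hP0⟩ := hdep
  refine ⟨P, hP0, fun t => ?_⟩
  have h2 : eval (fun i => eval t (φ i)) P = eval t (aeval φ P) := by
    have h3 : (aeval (fun i => eval t (φ i)) : MvPolynomial τ ℂ →ₐ[ℂ] ℂ) =
        (aeval t : MvPolynomial σ ℂ →ₐ[ℂ] ℂ).comp (aeval φ) := by
      apply MvPolynomial.algHom_ext
      intro i
      simp
    have h4 := congrArg (fun f : MvPolynomial τ ℂ →ₐ[ℂ] ℂ => f P) h3
    simpa [MvPolynomial.coe_aeval_eq_eval] using h4
  rw [h2, hP, map_zero]

end FPS
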