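import Mathlib

/-!
# FPS: fat points on general surfaces — common definitions

Surface `z = x^a y^b` (special member), row structure of the monomials, vanishing
conditions for bivariate polynomials, jets and the evaluation matrix.
-/

namespace FPS

noncomputable section

/-! ## polynomials in three variables -/

/-- the maximal ideal of the point `p` of affine space -/
def ptIdeal (p : Fin 3 → ℂ) : Ideal (MvPolynomial (Fin 3) ℂ) :=
  Ideal.span (Set.range fun i => MvPolynomial.X i - MvPolynomial.C (p i))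

/-- polynomials `G` of total degree `≤ e` such that, for all `l`, the curve cut out by `G` on the
surface `F = 0` has multiplicity `≥ m l` at `p l` -/
def series (F : MvPolynomial (Fin 3) ℂ) (e : ℕ) {r : ℕ} (p : Fin r → Fin 3 → ℂ) (m : Fin r → ℕ) :
    Submodule ℂ (MvPolynomial (Fin 3) ℂ) where
  carrier := {G | G.totalDegree ≤ e ∧ ∀ l, G ∈ Ideal.span {F} ⊔ ptIdeal (p l) ^ m l}
  add_mem' := by
    rintro G H ⟨h1, h2⟩ ⟨h3, h4⟩
    exact ⟨(MvPolynomial.totalDegree_add G H).trans (max_le h1 h3),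
      fun l => Ideal.add_mem _ (h2 l) (h4 l)⟩
  zero_mem' := ⟨by simp, fun l => Ideal.zero_mem _⟩
  smul_mem' := by
    rintro c G ⟨h1, h2⟩
    refine ⟨(MvPolynomial.totalDegree_smul_le c G).trans h1, fun l => ?_⟩
    rw [MvPolynomial.smul_eq_C_mul]
    exact Ideal.mul_mem_left _ _ (h2 l)

/-- `m (m + 1) / 2` -/
def T (m : ℕ) : ℕ := m * (m + 1) / 2

/-- dimension of the space of forms of degree `e` on a surface of degree `d` -/
def h0 (d e : ℕ) : ℕ := (e + 3).choose 3 - (if d ≤ e then (e - d + 3).choose 3 else 0)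

/-- the special surface `z = x^a y^b` -/
def F0 (a b : ℕ) : MvPolynomial (Fin 3) ℂ :=
  MvPolynomial.X 2 - MvPolynomial.X 0 ^ a * MvPolynomial.X 1 ^ b

/-- the point of the special surface over `(x, y)` -/
def p0 (a b : ℕ) (x y : ℂ) : Fin 3 → ℂ := ![x, y, x ^ a * y ^ b]

/-! ## bivariate polynomials, `ℂ[x][y]` (outer variable `y`) -/

/-- the polynomial `g` (coefficients `A_j(x)` of `y^j`) vanishes to order `≥ m` at `(x0, y0)` -/
def van (g : Polynomial (Polynomial ℂ)) (x0 y0 : ℂ) (m : ℕ) : Prop :=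
  ∀ j < m, (Polynomial.X - Polynomial.C x0) ^ (m - j) ∣
    (Polynomial.taylor (Polynomial.C y0) g).coeff j

/-- polynomials with support in `Γ`: only monomials `x^k y^j` with `k ∈ Γ j` occur -/
def W (Γ : ℕ → Finset ℕ) : Submodule ℂ (Polynomial (Polynomial ℂ)) where
  carrier := {g | ∀ j k, k ∉ Γ j → (g.coeff j).coeff k = 0}
  add_mem' := by
    intro g h hg hh j k hk
    simp [hg j k hk, hh j k hk]
  zero_mem' := by intro j k _; simp
  smul_mem' := by
    intro c g hg j k hk
    simp [Polynomial.coeff_smul, hg j k hk]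

theorem van_add {g h : Polynomial (Polynomial ℂ)} {x0 y0 : ℂ} {m : ℕ} (hg : van g x0 y0 m)
    (hh : van h x0 y0 m) : van (g + h) x0 y0 m := by
  intro j hj
  rw [map_add, Polynomial.coeff_add]
  exact dvd_add (hg j hj) (hh j hj)

theorem van_smul (c : ℂ) {g : Polynomial (Polynomial ℂ)} {x0 y0 : ℂ} {m : ℕ}
    (hg : van g x0 y0 m) : van (c • g) x0 y0 m := by
  intro j hj
  have h1 : c • g = Polynomial.C (Polynomial.C c) * g := by
    ext j k
    simp [Polynomial.coeff_smul]
  rw [h1, Polynomial.taylor_mul, Polynomial.taylor_C, Polynomial.coeff_C_mul]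
  exact Dvd.dvd.mul_left (hg j hj) _

theorem van_zero (x0 y0 : ℂ) (m : ℕ) : van 0 x0 y0 m := by
  intro j _
  simp

/-- the polynomials with support in `Γ` vanishing to order `≥ m l` at `(x l, y l)` for all `l` -/
def V (Γ : ℕ → Finset ℕ) {ι : Type*} (x y : ι → ℂ) (m : ι → ℕ) :
    Submodule ℂ (Polynomial (Polynomial ℂ)) where
  carrier := {g | g ∈ W Γ ∧ ∀ l, van g (x l) (y l) (m l)}
  add_mem' := fun hg hh => ⟨(W Γ).add_mem hg.1 hh.1, fun l => van_add (hg.2 l) (hh.2 l)⟩
  zero_mem' := ⟨(W Γ).zero_mem, fun _ => van_zero _ _ _⟩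
  smul_mem' := fun c _ hg => ⟨(W Γ).smul_mem c hg.1, fun l => van_smul c (hg.2 l)⟩

/-- the load of row `i`, when the point `l` (multiplicity `m l`) starts at row `t l` -/
def load {ι : Type*} [Fintype ι] (m t : ι → ℕ) (i : ℕ) : ℕ :=
  ∑ l, if t l ≤ i then m l - (i - t l) else 0

/-! ## the monomials of the special surface -/

/-- the set of the exponents `i + a k` of `x` in the row `Y = j + b k`, `i + j + k ≤ e` -/
def Lam (a b e Y : ℕ) : Finset ℕ :=
  (((Finset.range (e + 1) ×ˢ Finset.range (e + 1) ×ˢ Finset.range (e + 1)).filter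
    fun q => q.2.1 + b * q.2.2 = Y ∧ q.1 + q.2.1 + q.2.2 ≤ e).image fun q => q.1 + a * q.2.2)

/-- `Φ_K(E) = E + ∑_{l=1}^K min(a, E - s l)` (truncated subtraction) -/
def Phi (a s K E : ℕ) : ℕ := E + ∑ l ∈ Finset.range K, min a (E - s * (l + 1))

/-! ## translations, jets and the evaluation matrix -/

/-- the polynomial `G(x + p)` -/
def shift {R : Type*} [CommRing R] (p : Fin 3 → R) (G : MvPolynomial (Fin 3) R) :
    MvPolynomial (Fin 3) R :=
  MvPolynomial.bind₁ (fun i => MvPolynomial.X i + MvPolynomial.C (p i)) G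

/-- exponents of degree `< n` in three variables -/
def expo (n : ℕ) : Finset (Fin 3 →₀ ℕ) :=
  ((Finset.range n ×ˢ Finset.range n ×ˢ Finset.range n).filter
    fun q => q.1 + q.2.1 + q.2.2 < n).image
    fun q => Finsupp.single 0 q.1 + Finsupp.single 1 q.2.1 + Finsupp.single 2 q.2.2

/-- the matrix of `(G, A) ↦ (jets of order < m l of G - A_l F at p_l)_l`; here `G` runs over the
polynomials of degree `≤ e`, and `A_l` (in the coordinates centered at `p_l`) over the polynomials
of degree `< m l - 1` -/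
def Theta {R : Type*} [CommRing R] (F : MvPolynomial (Fin 3) R) (e : ℕ) {r : ℕ}
    (p : Fin r → Fin 3 → R) (m : Fin r → ℕ) :
    Matrix (Σ l : Fin r, expo (m l)) (expo (e + 1) ⊕ (Σ l : Fin r, expo (m l - 1))) R :=
  fun α c => match c with
    | Sum.inl β => MvPolynomial.coeff α.2.1 (shift (p α.1) (MvPolynomial.monomial β.1 1))
    | Sum.inr γ => if α.1 = γ.1 then
        - MvPolynomial.coeff α.2.1 (MvPolynomial.monomial γ.2.1 1 * shift (p α.1) F) else 0

/-- the restriction of `F` to the line `p + τ (1,1,0)` -/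
def line {R : Type*} [CommRing R] (p : Fin 3 → R) (F : MvPolynomial (Fin 3) R) : Polynomial R :=
  MvPolynomial.eval₂ Polynomial.C
    (fun i => Polynomial.C (p i) + Polynomial.C ((![1, 1, 0] : Fin 3 → R) i) * Polynomial.X) F

end

end FPS
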