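import Pool.Agent.Lib.FPS.Defs

/-!
# FPS.Desc: a polynomial with few terms has few positive roots

PROOF. Let `A ≠ 0`, wlog (real and imaginary parts: `A = A₁ + i A₂` with `A₁, A₂` real, support in
`Γ`; as `x l` is real, `(X - x l)^k ∣ A` over `ℂ` iff `(X - x l)^k` divides `A₁` and `A₂` over `ℝ`)
`A` real, `A ≠ 0`. The number of positive roots of `A` counted with multiplicity is
`≥ ∑ k l ≥ |Γ| ≥ |supp A|` (distinct `x l > 0`), but by Descartes' rule of signs
(Mathlib: `Polynomial.roots_countP_pos_le_signVariations`,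
file `Mathlib/Algebra/Polynomial/RuleOfSigns.lean`) it is `≤ signVariations A ≤ |supp A| - 1`
(the last inequality by induction with `eraseLead`).
-/

namespace FPS

open Polynomial

namespace DescAux

theorem sv_lt_card : ∀ (n : ℕ) (B : Polynomial ℝ), B.support.card = n → B ≠ 0 →
    signVariations B + 1 ≤ n
  | 0, B, h, h0 => by
    rw [Polynomial.card_support_eq_zero] at h
    exact absurd h h0
  | n + 1, B, h, h0 => by
    by_cases h1 : B.eraseLead = 0
    · have h2 : B = monomial B.natDegree B.leadingCoeff := by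
        have := B.eraseLead_add_monomial_natDegree_leadingCoeff
        rw [h1, zero_add] at this
        exact this.symm
      have h3 : signVariations B = 0 := by
        rw [h2]
        exact signVariations_monomial _ _
      omega
    · have h2 : B.eraseLead.support.card = n := by
        have := Polynomial.card_support_eraseLead' h
        exact this
      have h3 := sv_lt_card n B.eraseLead h2 h1
      have h4 := signVariations_le_eraseLead_succ (P := B)
      omega

theorem real_desc (B : Polynomial ℝ) (Γ : Finset ℕ) (hB : ∀ k, k ∉ Γ → B.coeff k = 0)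
    {ι : Type*} (s : Finset ι) (x : ι → ℝ) (hx : Function.Injective x) (hpos : ∀ l, 0 < x l)
    (k : ι → ℕ) (hdiv : ∀ l ∈ s, (X - C (x l)) ^ k l ∣ B)
    (hcard : Γ.card ≤ ∑ l ∈ s, k l) : B = 0 := by
  by_contra h0
  have h1 : B.support.card ≤ Γ.card := by
    refine Finset.card_le_card fun i hi => ?_
    by_contra h2
    exact (Polynomial.mem_support_iff.1 hi) (hB i h2)
  have h2 := sv_lt_card _ B rfl h0
  have h3 : B.roots.countP (0 < ·) ≤ signVariations B := roots_countP_pos_le_signVariations B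
  set Q : Polynomial ℝ := ∏ l ∈ s, (X - C (x l)) ^ k l with hQ
  have hQB : Q ∣ B := by
    refine Finset.prod_dvd_of_coprime ?_ hdiv
    intro i _ j _ hij
    refine IsCoprime.pow (Polynomial.isCoprime_X_sub_C_of_isUnit_sub ?_)
    have : x i - x j ≠ 0 := sub_ne_zero.2 fun h => hij (hx h)
    exact isUnit_iff_ne_zero.2 this
  have hQ0 : Q ≠ 0 := fun h => h0 (by rw [h] at hQB; exact zero_dvd_iff.1 hQB)
  have h4 : Q.roots = s.val.bind fun l => ((X - C (x l)) ^ k l).roots := by
    rw [hQ]
    exact Polynomial.roots_prod _ _ hQ0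
  have h5 : Q.roots.card = ∑ l ∈ s, k l := by
    rw [h4, Multiset.card_bind, Finset.sum_eq_multiset_sum]
    congr 1
    refine Multiset.map_congr rfl fun l _ => ?_
    simp
  have h6 : Q.roots.countP (0 < ·) = Q.roots.card := by
    rw [Multiset.countP_eq_card]
    intro a ha
    rw [h4, Multiset.mem_bind] at ha
    obtain ⟨l, _, hl⟩ := ha
    rw [Polynomial.roots_pow, Polynomial.roots_X_sub_C] at hl
    have hl' := Multiset.mem_of_mem_nsmul hl
    rw [Multiset.mem_singleton] at hl'
    rw [hl']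
    exact hpos l
  have h7 : Q.roots.countP (0 < ·) ≤ B.roots.countP (0 < ·) :=
    Multiset.countP_le_of_le _ (Polynomial.roots.le_of_dvd h0 hQB)
  omega

/-- a complex polynomial with real coefficients -/
theorem cplx_desc (A : Polynomial ℂ) (hre : ∀ i, ∃ r : ℝ, (r : ℂ) = A.coeff i)
    (Γ : Finset ℕ) (hA : ∀ k, k ∉ Γ → A.coeff k = 0)
    {ι : Type*} (s : Finset ι) (x : ι → ℝ) (hx : Function.Injective x) (hpos : ∀ l, 0 < x l)
    (k : ι → ℕ) (hdiv : ∀ l ∈ s, (X - C ((x l : ℝ) : ℂ)) ^ k l ∣ A)
    (hcard : Γ.card ≤ ∑ l ∈ s, k l) : A = 0 := by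
  have h1 : A ∈ Polynomial.lifts Complex.ofRealHom := by
    rw [Polynomial.lifts_iff_coeff_lifts]
    intro i
    obtain ⟨r, hr⟩ := hre i
    exact ⟨r, hr⟩
  obtain ⟨B, hB⟩ := (Polynomial.mem_lifts A).1 h1
  have h2 : B = 0 := by
    refine real_desc B Γ (fun i hi => ?_) s x hx hpos k (fun l hl => ?_) hcard
    · have h3 := hA i hi
      rw [← hB, Polynomial.coeff_map] at h3
      exact Complex.ofReal_eq_zero.1 h3
    · have h3 := hdiv l hl
      rw [← hB] at h3
      have h4 : (X - C ((x l : ℝ) : ℂ)) ^ k l =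
          ((X - C (x l)) ^ k l : Polynomial ℝ).map Complex.ofRealHom := by
        rw [Polynomial.map_pow, Polynomial.map_sub, Polynomial.map_X, Polynomial.map_C]
        rfl
      rw [h4, Polynomial.map_dvd_map'] at h3
      exact h3
  rw [← hB, h2, Polynomial.map_zero]

end DescAux

open DescAux

theorem desc (A : Polynomial ℂ) (Γ : Finset ℕ) (hA : ∀ k, k ∉ Γ → A.coeff k = 0)
    {ι : Type*} (s : Finset ι) (x : ι → ℝ) (hx : Function.Injective x) (hpos : ∀ l, 0 < x l)
    (k : ι → ℕ) (hdiv : ∀ l ∈ s, (X - C ((x l : ℝ) : ℂ)) ^ k l ∣ A)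
    (hcard : Γ.card ≤ ∑ l ∈ s, k l) : A = 0 := by
  set A' : Polynomial ℂ := A.map (starRingEnd ℂ) with hA'
  have hc : ∀ i, A'.coeff i = (starRingEnd ℂ) (A.coeff i) := fun i => by
    rw [hA', Polynomial.coeff_map]
  have hdiv' : ∀ l ∈ s, (X - C ((x l : ℝ) : ℂ)) ^ k l ∣ A' := by
    intro l hl
    have h1 := Polynomial.map_dvd (starRingEnd ℂ) (hdiv l hl)
    rw [Polynomial.map_pow, Polynomial.map_sub, Polynomial.map_X, Polynomial.map_C,
      Complex.conj_ofReal] at h1
    exact h1
  have e1 : A + A' = 0 := by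
    refine cplx_desc _ (fun i => ⟨2 * (A.coeff i).re, ?_⟩) Γ (fun i hi => ?_) s x hx hpos k
      (fun l hl => dvd_add (hdiv l hl) (hdiv' l hl)) hcard
    · rw [Polynomial.coeff_add, hc, Complex.add_conj]
    · rw [Polynomial.coeff_add, hc, hA i hi]
      simp
  have e2 : C Complex.I * (A - A') = 0 := by
    refine cplx_desc _ (fun i => ⟨-(2 * (A.coeff i).im), ?_⟩) Γ (fun i hi => ?_) s x hx hpos k
      (fun l hl => Dvd.dvd.mul_left (dvd_sub (hdiv l hl) (hdiv' l hl)) _) hcard
    · rw [Polynomial.coeff_C_mul, Polynomial.coeff_sub, hc, Complex.sub_conj]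
      have := Complex.I_mul_I
      push_cast
      linear_combination (-(2 * ((A.coeff i).im : ℂ))) * this
    · rw [Polynomial.coeff_C_mul, Polynomial.coeff_sub, hc, hA i hi]
      simp
  have e3 : A - A' = 0 := by
    rcases mul_eq_zero.1 e2 with h | h
    · exact absurd (Polynomial.C_eq_zero.1 h) Complex.I_ne_zero
    · exact h
  have e4 : (2 : Polynomial ℂ) * A = 0 := by
    linear_combination e1 + e3
  rcases mul_eq_zero.1 e4 with h | h
  · exact absurd h (by norm_num)
  · exact h

end FPS
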