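import Pool.Agent.Lib.FPS.Horace

/-!
# FPS.Dim: dimension counts for `W Γ` and `V Γ x y m`

PROOFS.
* `finrank_W`: `W Γ` is isomorphic to the functions on the finite set of pairs `(j, k)`, `j < R`,
  `k ∈ Γ j` (coefficients), e.g. a `LinearEquiv` with `(Σ j : Fin R, Γ j) → ℂ`.
* `horace_dim`: choose `Γ' i ⊆ Γ i` with `|Γ' i| = load m t i` for all `i < R`
  (`Finset.exists_subset_card_eq`), `Γ' i = ∅` for `i ≥ R`. `horace` gives `y` with
  `V Γ ⊓ W Γ' = ⊥`; both are subspaces of `W Γ`, so `dim V Γ + dim W Γ' ≤ dim W Γ`.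
* `horace_bot`: `horace` directly.
-/

namespace FPS

open Polynomial

/-- the coefficients of a polynomial with support in `Γ` -/
noncomputable def coeffMap (R : ℕ) (Γ : ℕ → Finset ℕ) :
    W Γ →ₗ[ℂ] ((Σ j : Fin R, Γ j) → ℂ) where
  toFun g p := (g.1.coeff p.1).coeff p.2
  map_add' g h := by
    funext p
    simp
  map_smul' c g := by
    funext p
    simp [Polynomial.coeff_smul]

theorem coeffMap_injective (R : ℕ) (Γ : ℕ → Finset ℕ) (hΓ : ∀ i, R ≤ i → Γ i = ∅) :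
    Function.Injective (coeffMap R Γ) := by
  rw [injective_iff_map_eq_zero]
  rintro ⟨g, hg⟩ h0
  have hg' : ∀ j k, k ∉ Γ j → (g.coeff j).coeff k = 0 := hg
  apply Subtype.ext
  change g = 0
  ext j k
  rw [Polynomial.coeff_zero, Polynomial.coeff_zero]
  by_cases hk : k ∈ Γ j
  · have hj : j < R := by
      by_contra hj
      rw [hΓ j (not_lt.mp hj)] at hk
      exact Finset.notMem_empty _ hk
    exact congrFun h0 ⟨⟨j, hj⟩, ⟨k, hk⟩⟩
  · exact hg' j k hk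

theorem coeffMap_surjective (R : ℕ) (Γ : ℕ → Finset ℕ) :
    Function.Surjective (coeffMap R Γ) := by
  classical
  intro c
  let g : Polynomial (Polynomial ℂ) := ∑ p : (Σ j : Fin R, Γ j),
    monomial (p.1 : ℕ) (monomial (p.2 : ℕ) (c p))
  have hc : ∀ j k, (g.coeff j).coeff k
      = ∑ p : (Σ j : Fin R, Γ j), if (p.1 : ℕ) = j ∧ (p.2 : ℕ) = k then c p else 0 := by
    intro j k
    simp only [g, Polynomial.finsetSum_coeff]
    refine Finset.sum_congr rfl fun p _ => ?_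
    rw [Polynomial.coeff_monomial]
    split_ifs with h1 h2 h2
    · rw [Polynomial.coeff_monomial, if_pos h2.2]
    · rw [Polynomial.coeff_monomial, if_neg]
      exact fun h3 => h2 ⟨h1, h3⟩
    · exact absurd h2.1 h1
    · exact Polynomial.coeff_zero k
  have hW : g ∈ W Γ := by
    intro j k hk
    rw [hc]
    refine Finset.sum_eq_zero fun p _ => if_neg ?_
    rintro ⟨h1, h2⟩
    apply hk
    rw [← h1, ← h2]
    exact p.2.2
  refine ⟨⟨g, hW⟩, ?_⟩
  funext p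
  change (g.coeff p.1).coeff p.2 = c p
  rw [hc, Finset.sum_eq_single p]
  · exact if_pos ⟨rfl, rfl⟩
  · rintro ⟨⟨j, hj⟩, ⟨k, hk⟩⟩ _ hq
    apply if_neg
    rintro ⟨h1, h2⟩
    apply hq
    obtain ⟨⟨j', hj'⟩, ⟨k', hk'⟩⟩ := p
    simp only at h1 h2
    subst h1
    subst h2
    rfl
  · intro h
    exact absurd (Finset.mem_univ p) h

/-- `W Γ` is the space of functions on the pairs `(j, k)`, `k ∈ Γ j` -/
noncomputable def coeffEquiv (R : ℕ) (Γ : ℕ → Finset ℕ) (hΓ : ∀ i, R ≤ i → Γ i = ∅) :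
    W Γ ≃ₗ[ℂ] ((Σ j : Fin R, Γ j) → ℂ) :=
  LinearEquiv.ofBijective (coeffMap R Γ) ⟨coeffMap_injective R Γ hΓ, coeffMap_surjective R Γ⟩

theorem finite_W (R : ℕ) (Γ : ℕ → Finset ℕ) (hΓ : ∀ i, R ≤ i → Γ i = ∅) :
    FiniteDimensional ℂ (W Γ) :=
  LinearEquiv.finiteDimensional (coeffEquiv R Γ hΓ).symm

theorem finrank_W (R : ℕ) (Γ : ℕ → Finset ℕ) (hΓ : ∀ i, R ≤ i → Γ i = ∅) :
    Module.finrank ℂ (W Γ) = ∑ i ∈ Finset.range R, (Γ i).card := by
  rw [(coeffEquiv R Γ hΓ).finrank_eq, Module.finrank_fintype_fun_eq_card, Fintype.card_sigma,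
    ← Fin.sum_univ_eq_sum_range (fun i => (Γ i).card) R]
  refine Finset.sum_congr rfl fun i _ => ?_
  exact Fintype.card_coe _

theorem horace_dim (R : ℕ) (Γ : ℕ → Finset ℕ) (hΓ : ∀ i, R ≤ i → Γ i = ∅) {ι : Type*} [Fintype ι]
    (x : ι → ℝ) (hx : Function.Injective x) (hpos : ∀ l, 0 < x l) (m t : ι → ℕ)
    (h : ∀ i < R, load m t i ≤ (Γ i).card) :
    ∃ y : ι → ℂ, Module.finrank ℂ (V Γ (fun l => ((x l : ℝ) : ℂ)) y m)
      + ∑ i ∈ Finset.range R, load m t i ≤ ∑ i ∈ Finset.range R, (Γ i).card := by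
  classical
  have hex : ∀ i, ∃ s : Finset ℕ, s ⊆ Γ i ∧ (i < R → s.card = load m t i) := by
    intro i
    by_cases hi : i < R
    · obtain ⟨s, hs1, hs2⟩ := Finset.exists_subset_card_eq (h i hi)
      exact ⟨s, hs1, fun _ => hs2⟩
    · exact ⟨∅, Finset.empty_subset _, fun h1 => absurd h1 hi⟩
  choose Γ' hsub hcard using hex
  have hΓ' : ∀ i, R ≤ i → Γ' i = ∅ := by
    intro i hi
    have h1 := hsub i
    rw [hΓ i hi] at h1
    exact Finset.subset_empty.mp h1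
  obtain ⟨y, -, hy⟩ := horace R Γ' hΓ' x hx hpos m t (fun i hi => (hcard i hi).le)
  refine ⟨y, ?_⟩
  set A := V Γ (fun l => ((x l : ℝ) : ℂ)) y m with hA
  have hAW : A ≤ W Γ := fun g hg => hg.1
  have hWW : W Γ' ≤ W Γ := by
    intro g hg j k hk
    exact hg j k (fun h1 => hk (hsub j h1))
  have hinf : A ⊓ W Γ' = ⊥ := by
    rw [eq_bot_iff]
    rintro g ⟨hg1, hg2⟩
    rw [Submodule.mem_bot]
    exact hy g hg2 hg1.2
  have : FiniteDimensional ℂ (W Γ) := finite_W R Γ hΓ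
  have : FiniteDimensional ℂ (W Γ') := finite_W R Γ' hΓ'
  have : FiniteDimensional ℂ A := Submodule.finiteDimensional_of_le hAW
  have h1 := Submodule.finrank_sup_add_finrank_inf_eq A (W Γ')
  rw [hinf, finrank_bot, add_zero] at h1
  have h2 : Module.finrank ℂ (A ⊔ W Γ' : Submodule ℂ (Polynomial (Polynomial ℂ)))
      ≤ Module.finrank ℂ (W Γ) := Submodule.finrank_mono (sup_le hAW hWW)
  have h3 : ∑ i ∈ Finset.range R, load m t i = Module.finrank ℂ (W Γ') := by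
    rw [finrank_W R Γ' hΓ']
    exact Finset.sum_congr rfl fun i hi => (hcard i (Finset.mem_range.mp hi)).symm
  rw [h3, ← finrank_W R Γ hΓ, ← h1]
  exact h2

theorem horace_bot (R : ℕ) (Γ : ℕ → Finset ℕ) (hΓ : ∀ i, R ≤ i → Γ i = ∅) {ι : Type*} [Fintype ι]
    (x : ι → ℝ) (hx : Function.Injective x) (hpos : ∀ l, 0 < x l) (m t : ι → ℕ)
    (h : ∀ i < R, (Γ i).card ≤ load m t i) :
    ∃ y : ι → ℂ, Module.finrank ℂ (V Γ (fun l => ((x l : ℝ) : ℂ)) y m) = 0 := by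
  obtain ⟨y, -, hy⟩ := horace R Γ hΓ x hx hpos m t h
  refine ⟨y, ?_⟩
  have hbot : V Γ (fun l => ((x l : ℝ) : ℂ)) y m = ⊥ := by
    rw [eq_bot_iff]
    intro g hg
    rw [Submodule.mem_bot]
    exact hy g hg.1 hg.2
  rw [hbot]
  exact finrank_bot ℂ _

end FPS
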