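import Pool.Agent.Lib.FPS.Defs

/-!
# FPS.Elim: elimination of roots

PROOF of `elim_one`. Monic case first (`f` monic of degree `d`): let `Q = g ^ d %ₘ f`. Over `ℂ`, via
`φ` (`Polynomial.map_modByMonic`): if `Q.map φ ≠ 0` then `f.map φ` does not divide `(g.map φ)^d`, so
some root of `f.map φ` is not a root of `g.map φ` (`f.map φ` splits into `d` linear factors; if each
divided `g.map φ`, their product would divide `(g.map φ)^d`). Conversely `Q.map φ0 ≠ 0`, because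
`f(τ0) = 0`, `g(τ0) ≠ 0`. Take for `Φ` a coefficient of `Q` with `φ0 Φ ≠ 0`.
General case: `c = f.coeff d`, `f' = X^d + ∑_{i<d} C (f_i c^(d-1-i)) X^i` (monic of degree `d`) and
`g' = ∑_{i ≤ n} C (g_i c^(n-i)) X^i`, `n = natDegree g`. If `φ c ≠ 0` then `f'(c τ) = c^(d-1) f(τ)`
and `g'(c τ) = c^n g(τ)`. (`d ≥ 1`: for `d = 0` the hypotheses are contradictory.) `Φ := c * Φ'`.

PROOF of `elim`: induction on `r`, with `MvPolynomial.finSuccEquiv` (`MvPolynomial (Fin (r+1)) R ≃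
Polynomial (MvPolynomial (Fin r) R)`): apply `elim_one` over `R' = MvPolynomial (Fin r) R` to the
polynomials `(f 0).map C` and `finSuccEquiv Ψ`, with `φ0' = eval₂Hom φ0 (τ0 ∘ succ)`; it gives
`Ψ' ∈ R'` with `eval₂ φ0 (τ0 ∘ succ) Ψ' ≠ 0`; the induction hypothesis applied to `Ψ'` gives `Φ`.
-/

namespace FPS

theorem exists_root_not_root {p q : Polynomial ℂ} (hp : p.Monic) (h : ¬ p ∣ q ^ p.natDegree) :
    ∃ τ : ℂ, p.eval τ = 0 ∧ q.eval τ ≠ 0 := by
  by_contra hcon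
  push Not at hcon
  apply h
  have hs : p.Splits := IsAlgClosed.splits p
  have hcard : p.roots.card = p.natDegree := hs.natDegree_eq_card_roots.symm
  have hprod : p = (p.roots.map (fun a => Polynomial.X - Polynomial.C a)).prod := by
    have := hs.eq_prod_roots
    rw [hp.leadingCoeff] at this
    simpa using this
  have h2 : (p.roots.map (fun a => Polynomial.X - Polynomial.C a)).prod ∣
      (p.roots.map (fun _ => q)).prod := by
    apply Multiset.prod_dvd_prod_of_dvd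
    intro a ha
    rw [Polynomial.dvd_iff_isRoot]
    have ha' := (Polynomial.mem_roots hp.ne_zero).mp ha
    exact hcon a ha'
  rw [← hprod] at h2
  simpa [hcard] using h2

theorem elim_one {R : Type*} [CommRing R] (d : ℕ) (f g : Polynomial R) (hf : f.natDegree ≤ d)
    (φ0 : R →+* ℂ) (hc : φ0 (f.coeff d) ≠ 0) (τ0 : ℂ) (h1 : f.eval₂ φ0 τ0 = 0)
    (h2 : g.eval₂ φ0 τ0 ≠ 0) :
    ∃ Φ : R, φ0 Φ ≠ 0 ∧ ∀ φ : R →+* ℂ, φ Φ ≠ 0 → ∃ τ : ℂ, f.eval₂ φ τ = 0 ∧ g.eval₂ φ τ ≠ 0 := by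
  have hcd : f.coeff d ≠ 0 := fun h => hc (by rw [h, map_zero])
  have hnd : f.natDegree = d := le_antisymm hf (Polynomial.le_natDegree_of_ne_zero hcd)
  have hlc : f.leadingCoeff = f.coeff d := by rw [Polynomial.leadingCoeff, hnd]
  have hd : 1 ≤ f.natDegree := by
    rw [hnd]
    by_contra hd
    have hd0 : d = 0 := by omega
    subst hd0
    rw [Polynomial.eq_C_of_natDegree_eq_zero hnd, Polynomial.eval₂_C] at h1
    exact hc h1
  have hf0 : f ≠ 0 := by
    rintro rfl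
    exact hcd (by simp)
  set c := f.leadingCoeff with hcdef
  set f' := f.integralNormalization with hf'
  set g' := g.scaleRoots c with hg'
  have hmon : f'.Monic := Polynomial.monic_integralNormalization hf0
  have hmf : ∀ (φ : R →+* ℂ) (x : ℂ), f'.eval₂ φ (φ c * x) = φ c ^ (f.natDegree - 1) * f.eval₂ φ x :=
    fun φ x => Polynomial.integralNormalization_eval₂_leadingCoeff_mul hd φ x
  have hmg : ∀ (φ : R →+* ℂ) (x : ℂ), g'.eval₂ φ (φ c * x) = φ c ^ g.natDegree * g.eval₂ φ x :=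
    fun φ x => Polynomial.scaleRoots_eval₂_mul φ x c
  have hcne : φ0 c ≠ 0 := by rw [hlc]; exact hc
  have hnt : Nontrivial R := by
    refine ⟨⟨f.coeff d, 0, hcd⟩⟩
  have hdeg : f'.natDegree = f.natDegree := by
    rw [hf']; exact Polynomial.natDegree_integralNormalization
  set Q := (g' ^ f.natDegree) %ₘ f' with hQ
  have hmap : ∀ φ : R →+* ℂ, Q.map φ = (g'.map φ) ^ f.natDegree %ₘ f'.map φ := by
    intro φ
    rw [hQ, Polynomial.map_modByMonic _ hmon, Polynomial.map_pow]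
  have hQ0 : Q.map φ0 ≠ 0 := by
    rw [hmap]
    intro h0
    rw [Polynomial.modByMonic_eq_zero_iff_dvd (hmon.map φ0)] at h0
    have h3 : (f'.map φ0).eval (φ0 c * τ0) = 0 := by
      rw [Polynomial.eval_map, hmf, h1, mul_zero]
    have h4 : ((g'.map φ0) ^ f.natDegree).eval (φ0 c * τ0) = 0 := by
      obtain ⟨k, hk⟩ := h0
      rw [hk, Polynomial.eval_mul, h3, zero_mul]
    rw [Polynomial.eval_pow, Polynomial.eval_map, hmg] at h4
    have h5 := pow_eq_zero_iff (by omega : f.natDegree ≠ 0) |>.mp h4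
    rcases mul_eq_zero.mp h5 with h6 | h6
    · exact absurd h6 (pow_ne_zero _ hcne)
    · exact h2 h6
  obtain ⟨i, hi⟩ : ∃ i, (Q.map φ0).coeff i ≠ 0 := by
    by_contra hcon
    push Not at hcon
    exact hQ0 (Polynomial.ext (by simpa using hcon))
  rw [Polynomial.coeff_map] at hi
  refine ⟨c * Q.coeff i, by rw [map_mul]; exact mul_ne_zero hcne hi, ?_⟩
  intro φ hφ
  rw [map_mul] at hφ
  have hφc : φ c ≠ 0 := left_ne_zero_of_mul hφ
  have hφQ : φ (Q.coeff i) ≠ 0 := right_ne_zero_of_mul hφ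
  have hnd' : (f'.map φ).natDegree = f.natDegree := by
    rw [hmon.natDegree_map, hdeg]
  have hndvd : ¬ f'.map φ ∣ (g'.map φ) ^ (f'.map φ).natDegree := by
    rw [hnd', ← Polynomial.modByMonic_eq_zero_iff_dvd (hmon.map φ), ← hmap]
    intro h0
    apply hφQ
    rw [← Polynomial.coeff_map, h0, Polynomial.coeff_zero]
  obtain ⟨τ', ht1, ht2⟩ := exists_root_not_root (hmon.map φ) hndvd
  have htt : τ' = φ c * (τ' / φ c) := by field_simp
  refine ⟨τ' / φ c, ?_, ?_⟩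
  · rw [Polynomial.eval_map, htt, hmf] at ht1
    exact (mul_eq_zero.mp ht1).resolve_left (pow_ne_zero _ hφc)
  · rw [Polynomial.eval_map, htt, hmg] at ht2
    exact right_ne_zero_of_mul ht2

theorem eval₂_finSuccEquiv {R : Type*} [CommRing R] (r : ℕ) (φ : R →+* ℂ) (s : Fin r → ℂ) (t : ℂ)
    (Ψ : MvPolynomial (Fin (r + 1)) R) :
    (MvPolynomial.finSuccEquiv R r Ψ).eval₂ (MvPolynomial.eval₂Hom φ s) t =
      MvPolynomial.eval₂ φ (Fin.cons t s) Ψ := by
  have h : (Polynomial.eval₂RingHom (MvPolynomial.eval₂Hom φ s) t).comp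
      (MvPolynomial.finSuccEquiv R r : MvPolynomial (Fin (r + 1)) R →+* _) =
      MvPolynomial.eval₂Hom φ (Fin.cons t s : Fin (r + 1) → ℂ) := by
    apply MvPolynomial.ringHom_ext
    · intro a
      simp [MvPolynomial.finSuccEquiv_apply]
    · intro j
      refine Fin.cases ?_ (fun j => ?_) j
      · simp [MvPolynomial.finSuccEquiv_X_zero]
      · simp [MvPolynomial.finSuccEquiv_X_succ]
  exact RingHom.congr_fun h Ψ

theorem elim {R : Type*} [CommRing R] (d r : ℕ) (f : Fin r → Polynomial R)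
    (hf : ∀ l, (f l).natDegree ≤ d) (Ψ : MvPolynomial (Fin r) R) (φ0 : R →+* ℂ)
    (hc : ∀ l, φ0 ((f l).coeff d) ≠ 0) (τ0 : Fin r → ℂ) (h1 : ∀ l, (f l).eval₂ φ0 (τ0 l) = 0)
    (h2 : MvPolynomial.eval₂ φ0 τ0 Ψ ≠ 0) :
    ∃ Φ : R, φ0 Φ ≠ 0 ∧ ∀ φ : R →+* ℂ, φ Φ ≠ 0 →
      ∃ τ : Fin r → ℂ, (∀ l, (f l).eval₂ φ (τ l) = 0) ∧ MvPolynomial.eval₂ φ τ Ψ ≠ 0 := by
  induction r with
  | zero =>
    obtain ⟨a, rfl⟩ := MvPolynomial.C_surjective (Fin 0) (R := R) Ψ
    rw [MvPolynomial.eval₂_C] at h2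
    refine ⟨a, h2, fun φ hφ => ⟨τ0, fun l => l.elim0, ?_⟩⟩
    rw [MvPolynomial.eval₂_C]
    exact hφ
  | succ r ih =>
    have hcomp : ∀ (φ : R →+* ℂ) (s : Fin r → ℂ) (t : ℂ),
        ((f 0).map (MvPolynomial.C (σ := Fin r))).eval₂ (MvPolynomial.eval₂Hom φ s) t =
          (f 0).eval₂ φ t := by
      intro φ s t
      rw [Polynomial.eval₂_map]
      congr 1
      ext a
      simp
    have hcons : τ0 = Fin.cons (τ0 0) (fun l : Fin r => τ0 l.succ) := by
      ext l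
      refine Fin.cases ?_ (fun l => ?_) l <;> simp
    obtain ⟨Ψ', hΨ1, hΨ2⟩ := elim_one d ((f 0).map (MvPolynomial.C (σ := Fin r)))
      (MvPolynomial.finSuccEquiv R r Ψ) (Polynomial.natDegree_map_le.trans (hf 0))
      (MvPolynomial.eval₂Hom φ0 (fun l : Fin r => τ0 l.succ))
      (by rw [Polynomial.coeff_map]; simpa using hc 0) (τ0 0)
      (by rw [hcomp]; exact h1 0)
      (by rw [eval₂_finSuccEquiv, ← hcons]; exact h2)
    obtain ⟨Φ, hΦ1, hΦ2⟩ := ih (fun l => f l.succ) (fun l => hf l.succ) Ψ'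
      (fun l => hc l.succ) (fun l => τ0 l.succ) (fun l => h1 l.succ) hΨ1
    refine ⟨Φ, hΦ1, fun φ hφ => ?_⟩
    obtain ⟨s, hs1, hs2⟩ := hΦ2 φ hφ
    obtain ⟨t, ht1, ht2⟩ := hΨ2 (MvPolynomial.eval₂Hom φ s) hs2
    rw [hcomp] at ht1
    rw [eval₂_finSuccEquiv] at ht2
    refine ⟨Fin.cons t s, fun l => ?_, ht2⟩
    refine Fin.cases ?_ (fun l => ?_) l
    · simpa using ht1
    · simpa using hs1 l

end FPS
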