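import Pool.Agent.Lib.FPS.Semi

/-!
# FPS.Family: members of the series in an algebraic family

PROOF. By `le_series` and `card_expo`, `choose_T`, the matrix `Theta F e q0 m` has full row rank
(`#columns ≤ finrank series + rank`, so `#rows ≤ rank`). So there is a constant matrix `B` with
`Theta F e q0 m * B = 1`. `G0 ∈ series F e q0 m` is the first component (`JetsAux.proj`) of a vector `v0`
in the kernel of `Theta F e q0 m` (`JetsAux.series_eq`). Over the ring `R = MvPolynomial (Fin r × Fin 3) ℂ`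
let `M = Theta (map C F) e (fun l i => X (l, i)) m` (see the end of the proof of `semi`: its
specialization at `q` is `Theta F e q m`, `Theta_map`), `δ = det (M * B)` and
`v = δ • v0 - B *ᵥ (adjugate (M * B) *ᵥ (M *ᵥ v0))`. Then `M *ᵥ v = 0` (`Matrix.mul_adjugate`), and at
`q0`: `δ = 1`, `v = v0`. So for every `q` on `F = 0` the specialization `v(q)` is in the kernel of
`Theta F e q m`, and `G(q) = proj (v(q)) ∈ series F e q m` by `series_eq`. Its coefficients are polynomials
in `q`; `Ψ` = the value of `P` at these polynomials; it is nonzero at `q0`.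
-/

namespace FPS

open MvPolynomial

namespace FamilyAux

/-- a matrix of full row rank has a right inverse -/
theorem right_inverse {n k : Type*} [Fintype n] [Fintype k] [DecidableEq n]
    (A : Matrix n k ℂ) (h : A.rank = Fintype.card n) : ∃ B : Matrix k n ℂ, A * B = 1 := by
  have h1 : LinearMap.range A.mulVecLin = ⊤ := by
    apply Submodule.eq_top_of_finrank_eq
    rw [Module.finrank_fintype_fun_eq_card]
    exact h
  have h2 : ∀ i : n, ∃ x : k → ℂ, A.mulVec x = Pi.single i 1 := by
    intro i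
    have : (Pi.single i 1 : n → ℂ) ∈ LinearMap.range A.mulVecLin := by
      rw [h1]; exact Submodule.mem_top
    obtain ⟨x, hx⟩ := this
    exact ⟨x, hx⟩
  choose x hx using h2
  refine ⟨Matrix.of fun j i => x i j, ?_⟩
  ext i j
  have h3 : (A * Matrix.of fun j i => x i j) i j = A.mulVec (x j) i := rfl
  rw [h3, hx j, Matrix.one_apply, Pi.single_apply]

theorem eval_bind {σ τ : Type*} (q : τ → ℂ) (f : σ → MvPolynomial τ ℂ) (P : MvPolynomial σ ℂ) :
    eval q (bind₁ f P) = eval (fun i => eval q (f i)) P := by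
  induction P using MvPolynomial.induction_on with
  | C a => simp
  | add G H h1 h2 => simp [h1, h2]
  | mul_X G i h => simp [h]

end FamilyAux

theorem family {r : ℕ} (F : MvPolynomial (Fin 3) ℂ) (e : ℕ) (q0 : Fin r → Fin 3 → ℂ)
    (m : Fin r → ℕ) (hp : ∀ l, eval (q0 l) F = 0) (hs : ∀ l, eval (q0 l) (pderiv 2 F) ≠ 0)
    (hdim : Module.finrank ℂ (series F e q0 m) + ∑ l, T (m l) ≤ (e + 3).choose 3)
    (P : MvPolynomial (Fin 3 →₀ ℕ) ℂ) (G0 : MvPolynomial (Fin 3) ℂ)
    (hG0 : G0 ∈ series F e q0 m) (hP : eval (fun α => coeff α G0) P ≠ 0) :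
    ∃ Ψ : MvPolynomial (Fin r × Fin 3) ℂ,
      eval (fun i : Fin r × Fin 3 => q0 i.1 i.2) Ψ ≠ 0 ∧
      ∀ q : Fin r → Fin 3 → ℂ, (∀ l, eval (q l) F = 0) →
        eval (fun i : Fin r × Fin 3 => q i.1 i.2) Ψ ≠ 0 →
        ∃ G ∈ series F e q m, eval (fun α => coeff α G) P ≠ 0 := by
  classical
  -- full row rank at `q0`
  have hrank : (Theta F e q0 m).rank = Fintype.card (Σ l : Fin r, expo (m l)) := by
    have h1 := le_series F e q0 m hp hs
    have h2 := Matrix.rank_le_card_height (Theta F e q0 m)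
    rw [JetsAux.card_rows] at h2 ⊢
    omega
  obtain ⟨B, hB⟩ := FamilyAux.right_inverse (Theta F e q0 m) hrank
  -- the kernel vector of `G0`
  have hG1 := hG0
  rw [JetsAux.series_eq F e q0 m hp] at hG1
  obtain ⟨v0, hv0, hv0G⟩ := hG1
  rw [SetLike.mem_coe, LinearMap.mem_ker, Matrix.mulVecLin_apply] at hv0
  -- the family
  let ev : (Fin r → Fin 3 → ℂ) → (MvPolynomial (Fin r × Fin 3) ℂ →+* ℂ) :=
    fun q => eval fun i : Fin r × Fin 3 => q i.1 i.2
  have hevC : ∀ q (c : ℂ), ev q (C c) = c := fun q c => eval_C c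
  let M := Theta (map C F) e (fun l i => (X (l, i) : MvPolynomial (Fin r × Fin 3) ℂ)) m
  have hTh : ∀ q : Fin r → Fin 3 → ℂ, M.map (ev q) = Theta F e q m := by
    intro q
    have hmapC : map (ev q) (map C F) = F := by
      rw [map_map]
      have : (ev q).comp C = RingHom.id ℂ := by
        ext x; simp [ev]
      rw [this, map_id]
    simp only [M]
    rw [Theta_map, hmapC]
    simp [ev]
  let B' : Matrix (expo (e + 1) ⊕ (Σ l : Fin r, expo (m l - 1))) (Σ l : Fin r, expo (m l))
    (MvPolynomial (Fin r × Fin 3) ℂ) := B.map C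
  let v0' : (expo (e + 1) ⊕ (Σ l : Fin r, expo (m l - 1))) → MvPolynomial (Fin r × Fin 3) ℂ :=
    fun i => C (v0 i)
  let N := M * B'
  let v : (expo (e + 1) ⊕ (Σ l : Fin r, expo (m l - 1))) → MvPolynomial (Fin r × Fin 3) ℂ :=
    N.det • v0' - B'.mulVec (N.adjugate.mulVec (M.mulVec v0'))
  have hMv : M.mulVec v = 0 := by
    simp only [v]
    rw [Matrix.mulVec_sub, Matrix.mulVec_smul, Matrix.mulVec_mulVec, Matrix.mulVec_mulVec]
    have h1 : N * N.adjugate = N.det • (1 : Matrix _ _ _) := Matrix.mul_adjugate N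
    change N.det • M.mulVec v0' - (N * N.adjugate).mulVec (M.mulVec v0') = 0
    rw [h1, Matrix.smul_mulVec, Matrix.one_mulVec, sub_self]
  have hker : ∀ q, (Theta F e q m).mulVec (fun i => ev q (v i)) = 0 := by
    intro q
    funext i
    have h1 := RingHom.map_mulVec (ev q) M v i
    rw [hMv, hTh q] at h1
    rw [Pi.zero_apply, map_zero] at h1
    exact h1.symm
  have hB' : ∀ q, B'.map (ev q) = B := by
    intro q
    ext i j
    exact hevC q _
  have hv0' : ∀ q, (ev q ∘ v0') = v0 := by
    intro q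
    funext i
    exact hevC q _
  have hN0 : N.map (ev q0) = 1 := by
    simp only [N]
    rw [Matrix.map_mul, hTh q0, hB' q0, hB]
  have hdet0 : ev q0 N.det = 1 := by
    rw [RingHom.map_det, RingHom.mapMatrix_apply, hN0, Matrix.det_one]
  have hMv0 : (ev q0 ∘ M.mulVec v0') = 0 := by
    funext i
    have h1 := RingHom.map_mulVec (ev q0) M v0' i
    rw [hTh q0, hv0' q0, hv0] at h1
    exact h1
  have hv : ∀ i, ev q0 (v i) = v0 i := by
    intro i
    have h1 : ev q0 ((B'.mulVec (N.adjugate.mulVec (M.mulVec v0'))) i) = 0 := by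
      rw [Matrix.mulVec_mulVec, RingHom.map_mulVec, hMv0, Matrix.mulVec_zero, Pi.zero_apply]
    simp only [v]
    rw [Pi.sub_apply, map_sub, h1, sub_zero, Pi.smul_apply, smul_eq_mul, map_mul, hdet0, one_mul]
    exact hevC q0 _
  -- the coefficients
  let cc : (Fin 3 →₀ ℕ) → MvPolynomial (Fin r × Fin 3) ℂ := fun α =>
    if h : α ∈ expo (e + 1) then v (Sum.inl ⟨α, h⟩) else 0
  have hcc : ∀ q α, coeff α (JetsAux.proj e m (fun i => ev q (v i))) = ev q (cc α) := by
    intro q α
    rw [JetsAux.proj_apply]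
    by_cases h : α ∈ expo (e + 1)
    · simp only [cc, dif_pos h]
      exact JetsAux.coeff_Gof_mem (e + 1) (fun β => ev q (v (Sum.inl β))) ⟨α, h⟩
    · simp only [cc, dif_neg h, map_zero]
      exact JetsAux.coeff_Gof_not_mem _ _ α h
  have hev : ∀ q, ev q (bind₁ cc P) =
      eval (fun α => coeff α (JetsAux.proj e m (fun i => ev q (v i)))) P := by
    intro q
    have h1 : (fun α => coeff α (JetsAux.proj e m (fun i => ev q (v i)))) =
        fun α => ev q (cc α) := funext fun α => hcc q α
    rw [h1]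
    exact FamilyAux.eval_bind _ cc P
  refine ⟨bind₁ cc P, ?_, fun q hq hne => ?_⟩
  · have h1 := hev q0
    have h2 : (fun i => ev q0 (v i)) = v0 := funext hv
    rw [h2, hv0G] at h1
    change ev q0 (bind₁ cc P) ≠ 0
    rw [h1]
    exact hP
  · refine ⟨JetsAux.proj e m (fun i => ev q (v i)), ?_, ?_⟩
    · rw [JetsAux.series_eq F e q m hq]
      refine ⟨fun i => ev q (v i), ?_, rfl⟩
      rw [SetLike.mem_coe, LinearMap.mem_ker, Matrix.mulVecLin_apply]
      exact hker q
    · rw [← hev q]
      exact hne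

end FPS
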