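import Pool.Agent.Lib.FPS.Defs

/-!
# FPS.JetB: counting exponents

PROOF. `card_expo`: the number of `(i, j, k)` with `i + j + k < n` is `(n+2).choose 3` (induction on
`n`: the triples with `i + j + k = n` are `(n+2).choose 2` many; or a bijection with
`Finset.Nat.antidiagonalTuple` / `Finset.finsuppAntidiag` / `Sym`); the map to exponents is injective.
`choose_T`: Pascal, `(n+1).choose 2 = n (n+1) / 2` (`Nat.choose_two_right`).
-/

namespace FPS

namespace JetBAux

theorem sum1 (m M : ℕ) (h : m ≤ M) : ∑ k ∈ Finset.range M, (if k < m then 1 else 0) = m := by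
  rw [Finset.sum_boole]
  have e : (Finset.range M).filter (fun k => k < m) = Finset.range m := by
    ext k
    simp only [Finset.mem_filter, Finset.mem_range]
    omega
  rw [e, Finset.card_range]
  rfl

theorem sum2 (m : ℕ) : ∀ M : ℕ, m ≤ M → ∑ j ∈ Finset.range M, (m - j) = (m + 1).choose 2 := by
  induction m with
  | zero =>
    intro M _
    simp
  | succ m ih =>
    intro M hM
    obtain ⟨M, rfl⟩ : ∃ M', M = M' + 1 := ⟨M - 1, by omega⟩
    rw [Finset.sum_range_succ']
    have e : ∑ k ∈ Finset.range M, (m + 1 - (k + 1)) = (m + 1).choose 2 := by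
      rw [← ih M (by omega)]
      exact Finset.sum_congr rfl fun k _ => by omega
    have e2 : (m + 1 + 1).choose 2 = (m + 1).choose 1 + (m + 1).choose 2 :=
      Nat.choose_succ_succ' (m + 1) 1
    rw [e, e2, Nat.choose_one_right]
    omega

theorem sum3 (m : ℕ) : ∀ M : ℕ, m ≤ M →
    ∑ i ∈ Finset.range M, (m - i + 1).choose 2 = (m + 2).choose 3 := by
  induction m with
  | zero =>
    intro M _
    simp
  | succ m ih =>
    intro M hM
    obtain ⟨M, rfl⟩ : ∃ M', M = M' + 1 := ⟨M - 1, by omega⟩
    rw [Finset.sum_range_succ']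
    have e : ∑ k ∈ Finset.range M, (m + 1 - (k + 1) + 1).choose 2 = (m + 2).choose 3 := by
      rw [← ih M (by omega)]
      exact Finset.sum_congr rfl fun k _ => by rw [Nat.add_sub_add_right]
    have e2 : (m + 1 + 2).choose 3 = (m + 2).choose 2 + (m + 2).choose 3 :=
      Nat.choose_succ_succ' (m + 2) 2
    have e3 : (m + 1 - 0 + 1).choose 2 = (m + 2).choose 2 := rfl
    rw [e, e2, e3]
    omega

theorem card_trip (n : ℕ) : ((Finset.range n ×ˢ Finset.range n ×ˢ Finset.range n).filter
    fun q => q.1 + q.2.1 + q.2.2 < n).card = (n + 2).choose 3 := by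
  rw [Finset.card_filter, Finset.sum_product, ← sum3 n n le_rfl]
  refine Finset.sum_congr rfl fun i hi => ?_
  rw [Finset.sum_product, ← sum2 (n - i) n (by omega)]
  refine Finset.sum_congr rfl fun j hj => ?_
  rw [← sum1 (n - i - j) n (by omega)]
  refine Finset.sum_congr rfl fun k hk => ?_
  simp only
  congr 1
  apply propext
  omega

end JetBAux

theorem card_expo (n : ℕ) : (expo n).card = (n + 2).choose 3 := by
  rw [expo, Finset.card_image_of_injective, JetBAux.card_trip]
  rintro ⟨a, b, c⟩ ⟨a', b', c'⟩ h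
  have h0 := DFunLike.congr_fun h 0
  have h1 := DFunLike.congr_fun h 1
  have h2 := DFunLike.congr_fun h 2
  simp at h0 h1 h2
  simp [h0, h1, h2]

theorem choose_T (n : ℕ) : (n + 2).choose 3 = (n + 1).choose 3 + T n := by
  have e : T n = (n + 1).choose 2 := by
    rw [Nat.choose_two_right, T, Nat.add_sub_cancel, Nat.mul_comm]
  rw [e, Nat.choose_succ_succ' (n + 1) 2, Nat.add_comm]

end FPS
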