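import Pool.Agent.Lib.FPS.Defs

/-!
# FPS.RowCard: the number of monomials in a row

`Lam a b e Y = {i + a k : j + b k = Y, i + j + k ≤ e}`.

PROOF. Let `K = Y / b`, `u = Y % b`. For `k ≤ K` the elements with this `k` form the interval
`I_k = [a k, a k + w_k)`, `w_k = e + 1 - (Y - b k) - k` (truncated; `j = Y - b k`, `0 ≤ i ≤ e - j - k`).
In integers `e + 1 - (Y - b k) - k = e + 1 - Y + (b - 1) k`, so `w_K = e + 1 - u - K =: E` and
`w_{K - l} = E - (b-1) l` (truncated) for `1 ≤ l ≤ K`. The `w_k` are nondecreasing in `k`, so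
`I_k \ [a k, a (k+1)) ⊆ I_{k+1}`; hence `⋃_{k ≤ K} I_k` is the disjoint union of `I_K` and of the
`[a k, a k + min a w_k)`, `k < K`. Cardinality: `E + ∑_{l=1}^K min(a, E - (b-1) l) = Phi a (b-1) K E`.
(Induction on `K` is convenient: show for nondecreasing `w` that
`|⋃_{k ≤ K} [a k, a k + w k)| = w K + ∑_{k<K} min a (w k)`.)
-/

namespace FPS

theorem mem_Lam {a b e Y x : ℕ} (hb : 1 ≤ b) :
    x ∈ Lam a b e Y ↔ ∃ k, k ≤ Y / b ∧ a * k ≤ x ∧ x < a * k + (e + 1 - (Y - b * k) - k) := by
  unfold Lam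
  simp only [Finset.mem_image, Finset.mem_filter, Finset.mem_product, Finset.mem_range]
  constructor
  · rintro ⟨⟨i, j, k⟩, ⟨⟨h1, h2, h3⟩, h4, h5⟩, rfl⟩
    dsimp only at h1 h2 h3 h4 h5 ⊢
    refine ⟨k, ?_, by omega, by omega⟩
    rw [Nat.le_div_iff_mul_le (by omega), Nat.mul_comm]
    omega
  · rintro ⟨k, hk, h1, h2⟩
    rw [Nat.le_div_iff_mul_le (by omega), Nat.mul_comm] at hk
    refine ⟨(x - a * k, Y - b * k, k), ⟨⟨?_, ?_, ?_⟩, ?_, ?_⟩, ?_⟩ <;> dsimp only <;> omega

theorem card_Lam (a b e Y : ℕ) (ha : 1 ≤ a) (hb : 1 ≤ b) :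
    (Lam a b e Y).card = Phi a (b - 1) (Y / b) (e + 1 - Y % b - Y / b) := by
  obtain ⟨s, rfl⟩ : ∃ s, b = s + 1 := ⟨b - 1, by omega⟩
  have hdm := Nat.div_add_mod Y (s + 1)
  generalize hK : Y / (s + 1) = K at hdm ⊢
  generalize Y % (s + 1) = u at hdm ⊢
  have hw : ∀ k k', k ≤ k' → k' ≤ K →
      e + 1 - (Y - (s + 1) * k) - k ≤ e + 1 - (Y - (s + 1) * k') - k' := by
    intro k k' h1 h2
    have h3 : s * k ≤ s * k' := Nat.mul_le_mul_left _ h1
    have h4 : s * k' ≤ s * K := Nat.mul_le_mul_left _ h2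
    have e1 : (s + 1) * k = s * k + k := by ring
    have e2 : (s + 1) * k' = s * k' + k' := by ring
    have e3 : (s + 1) * K = s * K + K := by ring
    omega
  have hset : Lam a (s + 1) e Y =
      Finset.Ico (a * K) (a * K + (e + 1 - (Y - (s + 1) * K) - K)) ∪
      (Finset.range K).biUnion fun k =>
        Finset.Ico (a * k) (a * k + min a (e + 1 - (Y - (s + 1) * k) - k)) := by
    ext x
    rw [mem_Lam (by omega), hK]
    simp only [Finset.mem_union, Finset.mem_Ico, Finset.mem_biUnion, Finset.mem_range]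
    constructor
    · rintro ⟨k, hk, h1, h2⟩
      by_cases hx : a * K ≤ x
      · left
        have := hw k K hk le_rfl
        have h3 : a * k ≤ a * K := Nat.mul_le_mul_left _ hk
        exact ⟨hx, by omega⟩
      · right
        push Not at hx
        have hk' : x / a < K := by
          rw [Nat.div_lt_iff_lt_mul (by omega), Nat.mul_comm]
          exact hx
        have hkk : k ≤ x / a := by
          rw [Nat.le_div_iff_mul_le (by omega), Nat.mul_comm]
          exact h1
        have h4 := Nat.div_add_mod x a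
        have h5 := Nat.mod_lt x (show 0 < a by omega)
        have h6 := hw k (x / a) hkk hk'.le
        have h7 : a * k ≤ a * (x / a) := Nat.mul_le_mul_left _ hkk
        refine ⟨x / a, hk', by omega, ?_⟩
        rw [← Nat.add_min_add_left]
        exact lt_min (by omega) (by omega)
    · rintro (⟨h1, h2⟩ | ⟨k, hk, h1, h2⟩)
      · exact ⟨K, le_rfl, h1, h2⟩
      · refine ⟨k, hk.le, h1, ?_⟩
        have := min_le_right a (e + 1 - (Y - (s + 1) * k) - k)
        omega
  rw [hset, Finset.card_union_of_disjoint, Finset.card_biUnion]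
  · simp only [Nat.card_Ico, Nat.add_sub_cancel_left]
    unfold Phi
    have e3 : (s + 1) * K = s * K + K := by ring
    rw [← Finset.sum_range_reflect]
    congr 1
    · omega
    · apply Finset.sum_congr rfl
      intro l hl
      rw [Finset.mem_range] at hl
      congr 1
      rw [Nat.add_sub_cancel]
      obtain ⟨m, rfl⟩ : ∃ m, K = m + (l + 1) := ⟨K - (l + 1), by omega⟩
      have e4 : m + (l + 1) - 1 - l = m := by omega
      rw [e4]
      have e5 : (s + 1) * (m + (l + 1)) = (s + 1) * m + s * (l + 1) + (l + 1) := by ring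
      omega
  · intro k hk k' hk' hne
    simp only [Finset.coe_range, Set.mem_Iio] at hk hk'
    rw [Function.onFun, Finset.disjoint_left]
    intro x hx hx'
    rw [Finset.mem_Ico] at hx hx'
    have m1 := min_le_left a (e + 1 - (Y - (s + 1) * k) - k)
    have m2 := min_le_left a (e + 1 - (Y - (s + 1) * k') - k')
    rcases lt_or_gt_of_ne hne with h | h
    · have : a * (k + 1) ≤ a * k' := Nat.mul_le_mul_left _ h
      have e1 : a * (k + 1) = a * k + a := by ring
      omega
    · have : a * (k' + 1) ≤ a * k := Nat.mul_le_mul_left _ h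
      have e1 : a * (k' + 1) = a * k' + a := by ring
      omega
  · rw [Finset.disjoint_left]
    intro x hx hx'
    rw [Finset.mem_biUnion] at hx'
    obtain ⟨k, hk, hx'⟩ := hx'
    rw [Finset.mem_range] at hk
    rw [Finset.mem_Ico] at hx hx'
    have m1 := min_le_left a (e + 1 - (Y - (s + 1) * k) - k)
    have : a * (k + 1) ≤ a * K := Nat.mul_le_mul_left _ hk
    have e1 : a * (k + 1) = a * k + a := by ring
    omega

end FPS
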