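import Pool.Agent.Lib.FPS.Defs

/-!
# FPS.RowSum: the total number of monomials on the special surface

PROOF of `sum_card_Lam`. The pairs `(X, Y)`, `X ∈ Lam a b e Y`, are the values of
`(i,j,k) ↦ (i + a k, j + b k)` on `S_e = {i + j + k ≤ e}`. Every value is taken exactly once on the
subset `S' = {(i,j,k) ∈ S_e : i < a or j < b}`: if `i ≥ a`, `j ≥ b` replace `(i,j,k)` by
`(i - a, j - b, k + 1)` (the degree does not increase as `a + b ≥ 1`; take the representative with the
largest `k`); injectivity on `S'`: two representatives of the same value with `k < k'` have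
`i = i' + a (k' - k) ≥ a`, `j ≥ b`. And `|S'| = |S_e| - |{(i,j,k) ∈ S_e : i ≥ a, j ≥ b}|`, where the
last set is in bijection with `S_{e - a - b}` if `a + b ≤ e` and empty otherwise;
`|S_n| = (n+3).choose 3`.
-/

namespace FPS

namespace RowSumAux

/-- the triples of sum at most `n` -/
def S (n : ℕ) : Finset (ℕ × ℕ × ℕ) :=
  (Finset.range (n + 1) ×ˢ Finset.range (n + 1) ×ˢ Finset.range (n + 1)).filter
    fun q => q.1 + q.2.1 + q.2.2 ≤ n

theorem mem_S {n : ℕ} {q : ℕ × ℕ × ℕ} : q ∈ S n ↔ q.1 + q.2.1 + q.2.2 ≤ n := by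
  simp only [S, Finset.mem_filter, Finset.mem_product, Finset.mem_range]
  constructor
  · exact fun h => h.2
  · intro h
    refine ⟨⟨?_, ?_, ?_⟩, h⟩ <;> omega

theorem hock (k : ℕ) (hk : 1 ≤ k) (N : ℕ) :
    ∑ i ∈ Finset.range N, (N - i).choose k = (N + 1).choose (k + 1) := by
  induction N with
  | zero =>
    rw [Finset.sum_range_zero]
    exact (Nat.choose_eq_zero_of_lt (by omega)).symm
  | succ N ih =>
    rw [Finset.sum_range_succ']
    have h1 : ∑ i ∈ Finset.range N, (N + 1 - (i + 1)).choose k =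
        ∑ i ∈ Finset.range N, (N - i).choose k := by
      refine Finset.sum_congr rfl fun i _ => ?_
      congr 1
      omega
    rw [h1, ih, Nat.choose_succ_succ' (N + 1) k, Nat.sub_zero, add_comm]

theorem hock' (k : ℕ) (hk : 1 ≤ k) (N m : ℕ) (h : N ≤ m) :
    ∑ i ∈ Finset.range m, (N - i).choose k = (N + 1).choose (k + 1) := by
  rw [← hock k hk N]
  symm
  refine Finset.sum_subset (Finset.range_subset_range.2 h) ?_
  intro i _ hi
  rw [Finset.mem_range, not_lt] at hi
  rw [Nat.sub_eq_zero_of_le hi]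
  exact Nat.choose_eq_zero_of_lt (by omega)

theorem card_S (n : ℕ) : (S n).card = (n + 3).choose 3 := by
  unfold S
  rw [Finset.card_filter, Finset.sum_product]
  have h1 : ∀ i ∈ Finset.range (n + 1),
      (∑ y ∈ Finset.range (n + 1) ×ˢ Finset.range (n + 1),
        if i + y.1 + y.2 ≤ n then 1 else 0) = (n + 2 - i).choose 2 := by
    intro i hi
    rw [Finset.mem_range] at hi
    rw [Finset.sum_product]
    have h2 : ∀ j ∈ Finset.range (n + 1),
        (∑ y ∈ Finset.range (n + 1), if i + j + y ≤ n then 1 else 0) =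
          (n + 1 - i - j).choose 1 := by
      intro j _
      rw [← Finset.card_filter, Nat.choose_one_right]
      have h3 : (Finset.range (n + 1)).filter (fun y => i + j + y ≤ n) =
          Finset.range (n + 1 - i - j) := by
        ext y
        simp only [Finset.mem_filter, Finset.mem_range]
        omega
      rw [h3, Finset.card_range]
    rw [Finset.sum_congr rfl h2, hock' 1 le_rfl (n + 1 - i) (n + 1) (by omega)]
    congr 1
    omega
  rw [Finset.sum_congr rfl h1]
  have h4 := hock 2 (by norm_num) (n + 2)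
  rw [Finset.sum_range_succ] at h4
  have h5 : (n + 2 - (n + 1)).choose 2 = 0 := by
    have : n + 2 - (n + 1) = 1 := by omega
    rw [this]
    rfl
  rw [h5, add_zero] at h4
  exact h4

/-- the map -/
def ph (a b : ℕ) (q : ℕ × ℕ × ℕ) : ℕ × ℕ := (q.1 + a * q.2.2, q.2.1 + b * q.2.2)

theorem red (a b e : ℕ) (ha : 1 ≤ a) (n : ℕ) : ∀ q ∈ S e, q.1 = n →
    ∃ q' ∈ (S e).filter (fun q => q.1 < a ∨ q.2.1 < b), ph a b q' = ph a b q := by
  induction n using Nat.strong_induction_on with
  | _ n ih =>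
    rintro ⟨i, j, k⟩ hq rfl
    rw [mem_S] at hq
    simp only at hq
    by_cases h : i < a ∨ j < b
    · exact ⟨(i, j, k), Finset.mem_filter.2 ⟨mem_S.2 hq, h⟩, rfl⟩
    · push Not at h
      obtain ⟨q', h1, h2⟩ := ih (i - a) (by simp only; omega) (i - a, j - b, k + 1)
        (mem_S.2 (by simp only; omega)) rfl
      refine ⟨q', h1, h2.trans ?_⟩
      simp only [ph, Prod.mk.injEq]
      constructor
      · rw [mul_add, mul_one]
        omega
      · rw [mul_add, mul_one]
        omega

theorem inj1 {a b i j k i' j' k' : ℕ} (h : i < a ∨ j < b) (h1 : i + a * k = i' + a * k')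
    (h2 : j + b * k = j' + b * k') : k' ≤ k := by
  by_contra hc
  push Not at hc
  obtain ⟨t, rfl⟩ : ∃ t, k' = k + 1 + t := ⟨k' - k - 1, by omega⟩
  have e1 : a * (k + 1 + t) = a * k + a + a * t := by ring
  have e2 : b * (k + 1 + t) = b * k + b + b * t := by ring
  rw [e1] at h1
  rw [e2] at h2
  generalize a * k = A at *
  generalize a * t = A' at *
  generalize b * k = B at *
  generalize b * t = B' at *
  omega

theorem inj (a b e : ℕ) :
    Set.InjOn (ph a b) ((S e).filter (fun q => q.1 < a ∨ q.2.1 < b) : Finset _) := by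
  rintro ⟨i, j, k⟩ hq ⟨i', j', k'⟩ hq' h
  simp only [Finset.coe_filter, Set.mem_ofPred_eq] at hq hq'
  simp only [ph, Prod.mk.injEq] at h
  obtain ⟨h1, h2⟩ := h
  have h3 := inj1 hq.2 h1 h2
  have h4 := inj1 hq'.2 h1.symm h2.symm
  have h5 : k = k' := le_antisymm h4 h3
  subst h5
  have h6 : i = i' := by omega
  have h7 : j = j' := by omega
  subst h6
  subst h7
  rfl

theorem card_comp (a b e : ℕ) :
    ((S e).filter (fun q => ¬ (q.1 < a ∨ q.2.1 < b))).card =
      if a + b ≤ e then (e - (a + b) + 3).choose 3 else 0 := by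
  split_ifs with h
  · rw [← card_S]
    refine Finset.card_bij' (fun q _ => (q.1 - a, q.2.1 - b, q.2.2))
      (fun q _ => (q.1 + a, q.2.1 + b, q.2.2)) ?_ ?_ ?_ ?_
    · rintro ⟨i, j, k⟩ hq
      rw [Finset.mem_filter, mem_S] at hq
      rw [mem_S]
      simp only at hq ⊢
      omega
    · rintro ⟨i, j, k⟩ hq
      rw [mem_S] at hq
      rw [Finset.mem_filter, mem_S]
      simp only at hq ⊢
      omega
    · rintro ⟨i, j, k⟩ hq
      rw [Finset.mem_filter, mem_S] at hq
      simp only at hq ⊢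
      rw [Prod.mk.injEq, Prod.mk.injEq]
      omega
    · rintro ⟨i, j, k⟩ _
      simp only
      rw [Prod.mk.injEq, Prod.mk.injEq]
      omega
  · rw [Finset.card_eq_zero, Finset.filter_eq_empty_iff]
    rintro ⟨i, j, k⟩ hq
    rw [mem_S] at hq
    simp only at hq ⊢
    omega

theorem card_image (a b e : ℕ) (ha : 1 ≤ a) :
    ((S e).image (ph a b)).card = h0 (a + b) e := by
  have h1 : (S e).image (ph a b) =
      ((S e).filter (fun q => q.1 < a ∨ q.2.1 < b)).image (ph a b) := by
    apply Finset.Subset.antisymm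
    · intro x hx
      obtain ⟨q, hq, rfl⟩ := Finset.mem_image.1 hx
      obtain ⟨q', h2, h3⟩ := red a b e ha q.1 q hq rfl
      exact Finset.mem_image.2 ⟨q', h2, h3⟩
    · exact Finset.image_subset_image (Finset.filter_subset _ _)
  rw [h1, Finset.card_image_of_injOn (inj a b e)]
  have h2 := Finset.card_filter_add_card_filter_not (s := S e) (fun q => q.1 < a ∨ q.2.1 < b)
  rw [card_comp, card_S] at h2
  unfold h0
  omega

theorem Lam_eq (a b e Y : ℕ) :
    Lam a b e Y = (((S e).image (ph a b)).filter (fun x => x.2 = Y)).image Prod.fst := by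
  ext x
  simp only [Lam, Finset.mem_image, Finset.mem_filter]
  constructor
  · rintro ⟨q, ⟨h1, h2, h3⟩, rfl⟩
    exact ⟨ph a b q, ⟨⟨q, mem_S.2 h3, rfl⟩, h2⟩, rfl⟩
  · rintro ⟨y, ⟨⟨q, h1, rfl⟩, h2⟩, rfl⟩
    refine ⟨q, ⟨?_, h2, mem_S.1 h1⟩, rfl⟩
    have := mem_S.1 h1
    simp only [Finset.mem_product, Finset.mem_range]
    omega

theorem card_Lam (a b e Y : ℕ) :
    (Lam a b e Y).card = (((S e).image (ph a b)).filter (fun x => x.2 = Y)).card := by
  rw [Lam_eq]
  refine Finset.card_image_of_injOn ?_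
  rintro ⟨x, y⟩ hx ⟨x', y'⟩ hx' h
  simp only [Finset.coe_filter, Set.mem_ofPred_eq] at hx hx'
  simp only at h
  rw [Prod.mk.injEq]
  exact ⟨h, hx.2.trans hx'.2.symm⟩

end RowSumAux

open RowSumAux

theorem Lam_empty (a b e Y : ℕ) (hb : 1 ≤ b) (hY : b * (e + 1) ≤ Y) : Lam a b e Y = ∅ := by
  unfold Lam
  rw [Finset.image_eq_empty, Finset.filter_eq_empty_iff]
  rintro ⟨i, j, k⟩ _ ⟨h1, h2⟩
  simp only at h1 h2
  have h3 : j ≤ b * j := Nat.le_mul_of_pos_left j hb
  have h4 : b * (j + k) ≤ b * e := Nat.mul_le_mul_left b (by omega)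
  rw [mul_add] at h4
  rw [mul_add, mul_one] at hY
  omega

theorem sum_card_Lam (a b e : ℕ) (ha : 1 ≤ a) (hb : 1 ≤ b) :
    ∑ Y ∈ Finset.range (b * (e + 1)), (Lam a b e Y).card = h0 (a + b) e := by
  rw [← card_image a b e ha]
  rw [Finset.card_eq_sum_card_fiberwise (f := Prod.snd) (t := Finset.range (b * (e + 1)))]
  · exact Finset.sum_congr rfl fun Y _ => card_Lam a b e Y
  · intro x hx
    obtain ⟨q, hq, rfl⟩ := Finset.mem_image.1 (Finset.mem_coe.1 hx)
    rw [mem_S] at hq
    rw [Finset.coe_range, Set.mem_Iio]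
    simp only [ph]
    have h3 : q.2.1 ≤ b * q.2.1 := Nat.le_mul_of_pos_left _ hb
    have h4 : b * (q.2.1 + q.2.2) ≤ b * e := Nat.mul_le_mul_left b (by omega)
    rw [mul_add] at h4
    rw [mul_add, mul_one]
    omega

end FPS
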