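import Pool.Agent.Lib.FPS.Dim

/-!
# FPS.Simple: adding simple points
-/

namespace FPS

open Polynomial

/-- a nonzero polynomial does not vanish at some point -/
theorem exists_not_van (g : Polynomial (Polynomial ℂ)) (hg : g ≠ 0) :
    ∃ x0 y0 : ℂ, ¬ van g x0 y0 1 := by
  -- some coefficient `A_j` is nonzero; choose `x0` outside its roots, then `y0`
  obtain ⟨x0, hx0⟩ : ∃ x0 : ℂ, (g.map (evalRingHom x0)) ≠ 0 := by
    obtain ⟨j, hj⟩ : ∃ j, g.coeff j ≠ 0 := by
      by_contra hcon
      push Not at hcon
      exact hg (Polynomial.ext fun j => by simp [hcon j])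
    obtain ⟨x0, hx0⟩ : ∃ x0 : ℂ, (g.coeff j).eval x0 ≠ 0 := by
      by_contra hcon
      push Not at hcon
      exact hj (Polynomial.funext fun r => by simp [hcon r])
    refine ⟨x0, fun h => hx0 ?_⟩
    have := congrArg (fun p => p.coeff j) h
    simpa using this
  obtain ⟨y0, hy0⟩ : ∃ y0 : ℂ, (g.map (evalRingHom x0)).eval y0 ≠ 0 := by
    by_contra hcon
    push Not at hcon
    exact hx0 (Polynomial.funext fun r => by simp [hcon r])
  refine ⟨x0, y0, fun h => hy0 ?_⟩
  have h1 := h 0 (by omega)
  rw [Nat.sub_zero, pow_one, dvd_iff_isRoot, taylor_coeff_zero] at h1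
  rw [IsRoot.def] at h1
  have h2 : (g.map (evalRingHom x0)).eval y0 = (g.eval (C y0)).eval x0 := by
    have h3 := Polynomial.hom_eval₂ g (RingHom.id _) (evalRingHom x0) (C y0)
    rw [RingHom.comp_id, coe_evalRingHom, eval_C] at h3
    rw [eval_map, ← h3]
    rfl
  rw [h2]
  exact h1

theorem V_mono (Γ : ℕ → Finset ℕ) {ι : Type*} (x y x' y' : ι → ℂ) (m m' : ι → ℕ)
    (h : ∀ l, m l = 0 ∨ (x l = x' l ∧ y l = y' l ∧ m l ≤ m' l)) : V Γ x' y' m' ≤ V Γ x y m := by
  rintro g ⟨hg, hv⟩
  refine ⟨hg, fun l => ?_⟩
  rcases h l with h1 | ⟨h1, h2, h3⟩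
  · rw [h1]
    intro j hj
    omega
  · rw [h1, h2]
    intro j hj
    exact (pow_dvd_pow _ (by omega)).trans (hv l j (by omega))

/-- adding general simple points at the places where `m = 0` -/
theorem add_simple (R : ℕ) (Γ : ℕ → Finset ℕ) (hΓ : ∀ i, R ≤ i → Γ i = ∅) {ι : Type*}
    [DecidableEq ι] (x y : ι → ℂ) (m : ι → ℕ) (s : Finset ι) (hs : ∀ l ∈ s, m l = 0) :
    ∃ x' y' : ι → ℂ, Module.finrank ℂ (V Γ x' y' (fun l => if l ∈ s then 1 else m l))
      ≤ Module.finrank ℂ (V Γ x y m) - s.card := by
  have : FiniteDimensional ℂ (W Γ) := finite_W R Γ hΓ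
  induction s using Finset.induction_on with
  | empty =>
    refine ⟨x, y, ?_⟩
    simp only [Finset.notMem_empty, if_false, Finset.card_empty, Nat.sub_zero]
    exact le_refl _
  | insert a s ha ih =>
    obtain ⟨x', y', h⟩ := ih fun l hl => hs l (Finset.mem_insert_of_mem hl)
    set V1 := V Γ x' y' (fun l => if l ∈ s then 1 else m l) with hV1
    have hfin : FiniteDimensional ℂ V1 :=
      Submodule.finiteDimensional_of_le (show V1 ≤ W Γ from fun g hg => hg.1)
    rw [Finset.card_insert_of_notMem ha]
    by_cases hbot : V1 = ⊥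
    · refine ⟨x', y', ?_⟩
      have h1 : V Γ x' y' (fun l => if l ∈ insert a s then 1 else m l) ≤ V1 := by
        apply V_mono
        intro l
        by_cases hl : l ∈ s
        · right
          simp [hl]
        · by_cases hla : l = a
          · left
            subst hla
            simp [ha, hs l (Finset.mem_insert_self l s)]
          · right
            simp [hl, hla]
      rw [hbot, le_bot_iff] at h1
      rw [h1, finrank_bot]
      omega
    · obtain ⟨g, hg, hg0⟩ := (Submodule.ne_bot_iff _).1 hbot
      obtain ⟨x0, y0, hnot⟩ := exists_not_van g hg0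
      refine ⟨Function.update x' a x0, Function.update y' a y0, ?_⟩
      have h1 : V Γ (Function.update x' a x0) (Function.update y' a y0)
          (fun l => if l ∈ insert a s then 1 else m l) < V1 := by
        refine lt_of_le_of_ne ?_ ?_
        · apply V_mono
          intro l
          by_cases hla : l = a
          · left
            subst hla
            simp [ha, hs l (Finset.mem_insert_self l s)]
          · right
            by_cases hl : l ∈ s
            · simp [hla, hl]
            · simp [hla, hl]
        · intro heq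
          rw [← heq] at hg
          have h2 := hg.2 a
          simp only [Function.update_self, Finset.mem_insert_self, if_true] at h2
          exact hnot h2
      have h2 := Submodule.finrank_lt_finrank_of_lt h1
      omega

end FPS
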