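import Pool.Agent.Lib.FPS.SpecA
import Pool.Agent.Lib.FPS.JetB
import Pool.Agent.Lib.FPS.Dim
import Pool.Agent.Lib.FPS.RowSum

/-!
# FPS.Special: linear series on the special surface `z = x^a y^b`

PROOF. Let `E` = polynomials of total degree `≤ e` (`MvPolynomial.restrictTotalDegree`), of dimension
`(e+3).choose 3` (basis: monomials with exponent in `expo (e+1)`; `card_expo`), and `S_e` the
restriction of `sub a b` to `E`. By `sub_image` and `finrank_W` (with `Lam_empty`), rank-nullity gives
`dim ker S_e + ∑ |Lam| = (e+3).choose 3`. By `sub_mem`, `series = {G ∈ E : ∀ l, van (sub G) ..}`, i.e.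
`series` is the preimage of `V (Lam a b e) x y m ⊆ W (Lam a b e) = S_e(E)` under `S_e`, so
`dim series = dim ker S_e + dim V`.
-/

namespace FPS

theorem special_mem_expo (n : ℕ) (α : Fin 3 →₀ ℕ) :
    α ∈ expo (n + 1) ↔ (α.sum fun _ e => e) ≤ n := by
  have hs : (α.sum fun _ e => e) = α 0 + α 1 + α 2 := by
    rw [Finsupp.sum_fintype _ _ (fun _ => rfl), Fin.sum_univ_three]
  rw [hs]
  unfold expo
  simp only [Finset.mem_image, Finset.mem_filter, Finset.mem_product, Finset.mem_range]
  constructor
  · rintro ⟨q, ⟨_, hq⟩, rfl⟩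
    simp only [Finsupp.add_apply, Finsupp.single_apply]
    simp
    omega
  · intro h
    refine ⟨(α 0, α 1, α 2), ⟨⟨by simp only; omega, by simp only; omega, by simp only; omega⟩,
      by simp only; omega⟩, ?_⟩
    ext i
    fin_cases i <;> simp [Finsupp.single_apply]

theorem special_finrank_E (e : ℕ) :
    Module.finrank ℂ (MvPolynomial.restrictTotalDegree (Fin 3) ℂ e) = (e + 3).choose 3 := by
  have h := Module.finrank_eq_nat_card_basis (MvPolynomial.basisRestrictSupport ℂ
    {n : Fin 3 →₀ ℕ | (n.sum fun _ e => e) ≤ e})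
  have h2 : {n : Fin 3 →₀ ℕ | (n.sum fun _ e => e) ≤ e} = ((expo (e + 1) : Finset _) : Set _) := by
    ext α
    simp only [Set.mem_setOf_eq, Finset.mem_coe]
    exact (special_mem_expo e α).symm
  have h3 : Nat.card {n : Fin 3 →₀ ℕ | (n.sum fun _ e => e) ≤ e} = (e + 3).choose 3 := by
    rw [h2]
    simp [card_expo]
  exact h.trans h3

theorem special (a b e : ℕ) (ha : 1 ≤ a) (hb : 1 ≤ b) {r : ℕ} (x y : Fin r → ℂ) (m : Fin r → ℕ) :
    Module.finrank ℂ (series (F0 a b) e (fun l => p0 a b (x l) (y l)) m)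
      + ∑ Y ∈ Finset.range (b * (e + 1)), (Lam a b e Y).card
      = (e + 3).choose 3 + Module.finrank ℂ (V (Lam a b e) x y m) := by
  set E := MvPolynomial.restrictTotalDegree (Fin 3) ℂ e with hE
  set W' := W (Lam a b e) with hW'
  set S : MvPolynomial (Fin 3) ℂ →ₗ[ℂ] Polynomial (Polynomial ℂ) := (sub a b).toLinearMap with hS
  have hemp : ∀ i, b * (e + 1) ≤ i → Lam a b e i = ∅ := fun i hi => Lam_empty a b e i hb hi
  have hWr := finrank_W (b * (e + 1)) (Lam a b e) hemp
  haveI : FiniteDimensional ℂ W' := finite_W (b * (e + 1)) (Lam a b e) hemp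
  haveI : FiniteDimensional ℂ E := by rw [hE]; infer_instance
  have himg : Submodule.map S E = W' := sub_image a b e ha hb
  -- restriction of S to E
  have hdE : Module.finrank ℂ (Submodule.map S E)
      + Module.finrank ℂ (LinearMap.ker (S.domRestrict E)) = Module.finrank ℂ E := by
    have := LinearMap.finrank_range_add_finrank_ker (S.domRestrict E)
    rwa [LinearMap.range_domRestrict] at this
  -- the series
  set Se := series (F0 a b) e (fun l => p0 a b (x l) (y l)) m with hSe
  have hmem : ∀ G, G ∈ Se ↔ G ∈ E ∧ S G ∈ V (Lam a b e) x y m := by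
    intro G
    constructor
    · rintro ⟨h1, h2⟩
      have hGE : G ∈ E := (MvPolynomial.mem_restrictTotalDegree _ _ _).2 h1
      refine ⟨hGE, ?_, fun l => (sub_mem a b (x l) (y l) (m l) G).1 (h2 l)⟩
      rw [← hW', ← himg]
      exact Submodule.mem_map_of_mem hGE
    · rintro ⟨h1, _, h2⟩
      exact ⟨(MvPolynomial.mem_restrictTotalDegree _ _ _).1 h1,
        fun l => (sub_mem a b (x l) (y l) (m l) G).2 (h2 l)⟩
  have hSeE : Se ≤ E := fun G hG => ((hmem G).1 hG).1
  haveI : FiniteDimensional ℂ Se := Submodule.finiteDimensional_of_le hSeE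
  have himg2 : Submodule.map S Se = V (Lam a b e) x y m := by
    apply le_antisymm
    · rintro _ ⟨G, hG, rfl⟩
      exact ((hmem G).1 hG).2
    · intro g hg
      have hgW : g ∈ Submodule.map S E := by rw [himg]; exact hg.1
      obtain ⟨G, hG, rfl⟩ := hgW
      exact ⟨G, (hmem G).2 ⟨hG, hg⟩, rfl⟩
  have hdS : Module.finrank ℂ (Submodule.map S Se)
      + Module.finrank ℂ (LinearMap.ker (S.domRestrict Se)) = Module.finrank ℂ Se := by
    have := LinearMap.finrank_range_add_finrank_ker (S.domRestrict Se)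
    rwa [LinearMap.range_domRestrict] at this
  -- the kernels agree
  have hker : Module.finrank ℂ (LinearMap.ker (S.domRestrict Se))
      = Module.finrank ℂ (LinearMap.ker (S.domRestrict E)) := by
    refine LinearEquiv.finrank_eq ?_
    refine
      { toFun := fun G => ⟨⟨G.1.1, hSeE G.1.2⟩, ?_⟩
        map_add' := ?_
        map_smul' := ?_
        invFun := fun G => ⟨⟨G.1.1, ?_⟩, ?_⟩
        left_inv := ?_
        right_inv := ?_ }
    · have := G.2
      rw [LinearMap.mem_ker] at this ⊢
      exact this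
    · intro G H; rfl
    · intro c G; rfl
    · have := G.2
      rw [LinearMap.mem_ker] at this
      have h0 : S G.1.1 = 0 := this
      refine (hmem _).2 ⟨G.1.2, ?_⟩
      rw [h0]
      exact Submodule.zero_mem _
    · have := G.2
      rw [LinearMap.mem_ker] at this ⊢
      exact this
    · intro G; rfl
    · intro G; rfl
  rw [himg2] at hdS
  rw [himg, hWr, special_finrank_E] at hdE
  rw [← hdS, hker]
  omega

end FPS
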