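import Pool.Agent.Lib.FPS.Semi
import Pool.Agent.Lib.FPS.Special
import Pool.Agent.Lib.FPS.Dim
import Pool.Agent.Lib.FPS.Simple
import Pool.Agent.Lib.FPS.Pack
import Pool.Agent.Lib.FPS.Cover
import Pool.Agent.Lib.FPS.RowCard
import Pool.Agent.Lib.FPS.RowSum
import Pool.Agent.Lib.FPS.RowFun
import Pool.Agent.Lib.FPS.JetB

/-!
# FPS.Final: assembly
-/

namespace FPS

open MvPolynomial

/-- the error term -/
def err (d e μ : ℕ) : ℕ :=
  (e + 1) * (1 + min d e / (min d e).sqrt) *
    (μ + (min d e).sqrt * ((min d e).sqrt + 2))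

theorem params (d e : ℕ) (hd : 4 ≤ d) (he : 1 ≤ e) :
    1 ≤ (min d e).sqrt ∧ (min d e).sqrt + 1 < d := by
  have h1 := (sqrt_bound (min d e) (by omega)).1
  refine ⟨h1, ?_⟩
  have h2 : (min d e).sqrt ≤ d.sqrt := Nat.sqrt_le_sqrt (min_le_left _ _)
  have h3 : d.sqrt + 1 < d := by
    by_contra hcon
    have h4 : d - 1 ≤ d.sqrt := by omega
    have h5 : (d - 1) * (d - 1) ≤ d :=
      le_trans (Nat.mul_le_mul h4 h4) (Nat.sqrt_le d)
    obtain ⟨k, rfl⟩ := Nat.exists_eq_add_of_le hd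
    have h6 : 4 + k - 1 = 3 + k := by omega
    rw [h6] at h5
    nlinarith
  omega

theorem load_zero_ge {r : ℕ} (m : Fin r → ℕ) (l : Fin r) (i : ℕ) :
    m l - i ≤ load m (fun _ => 0) i := by
  unfold load
  have : m l - i = (fun l => if (0 : ℕ) ≤ i then m l - (i - 0) else 0) l := by simp
  rw [this]
  exact Finset.single_le_sum (f := fun l => if (0 : ℕ) ≤ i then m l - (i - 0) else 0)
    (fun _ _ => Nat.zero_le _) (Finset.mem_univ l)

/-- the special member, first case: independent conditions -/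
theorem V_a (d e : ℕ) (hd : 4 ≤ d) (he : 1 ≤ e) {r : ℕ} (m : Fin r → ℕ) (μ : ℕ)
    (hμ : ∀ l, m l ≤ μ) (h : ∑ l, T (m l) + err d e μ ≤ h0 d e) :
    ∃ x y : Fin r → ℂ, Module.finrank ℂ
      (V (Lam (d - ((min d e).sqrt + 1)) ((min d e).sqrt + 1) e) x y m)
        + ∑ l, T (m l) ≤ h0 d e := by
  obtain ⟨hs, hsd⟩ := params d e hd he
  obtain ⟨-, hD1, hD2⟩ := sqrt_bound (min d e) (by omega)
  unfold err at h
  set s := (min d e).sqrt with hsdef
  set D := 1 + min d e / s with hDdef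
  set a := d - (s + 1) with hadef
  have ha : 1 ≤ a := by omega
  have hab : a + (s + 1) = d := by omega
  have hinc : ∀ K E, E ≤ e → Phi a s K (E + 1) ≤ Phi a s K E + D := by
    intro K E hE
    have := phi_inc a s K E e ha hs hE
    rw [show a + s + 1 = d by omega] at this
    exact this
  obtain ⟨h, h1, h2, h3, h4⟩ := rows_lower a s e D ha hs hinc
  have hcard : ∀ Y, (Lam a (s + 1) e Y).card = rowN a s e Y := by
    intro Y
    rw [card_Lam a (s + 1) e Y ha (by omega)]
    rfl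
  have hsum : ∑ Y ∈ Finset.range ((s + 1) * (e + 1)), rowN a s e Y = h0 d e := by
    have := sum_card_Lam a (s + 1) e ha (by omega)
    rw [hab] at this
    rw [← this]
    exact Finset.sum_congr rfl fun Y _ => (hcard Y).symm
  have hbig : (s + 1) * ∑ Y ∈ Finset.range ((s + 1) * (e + 1)), rowN a s e Y
      ≤ ∑ Y ∈ Finset.range ((s + 1) * (e + 1)), h Y + (s + 1) * (e + 1) * (s * (s + 2) * D) := by
    rw [Finset.mul_sum]
    calc ∑ Y ∈ Finset.range ((s + 1) * (e + 1)), (s + 1) * rowN a s e Y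
        ≤ ∑ Y ∈ Finset.range ((s + 1) * (e + 1)), (h Y + s * (s + 2) * D) :=
          Finset.sum_le_sum fun Y _ => h4 Y
      _ = _ := by
        rw [Finset.sum_add_distrib, Finset.sum_const, Finset.card_range, smul_eq_mul]
  obtain ⟨t, ht1, ht2⟩ := pack h (s + 1) D μ ((s + 1) * (e + 1)) (by omega) (by omega) h2 h3 m hμ
    (by
      rw [hsum] at hbig
      have h5 := Nat.mul_le_mul_left (s + 1) ‹∑ l, T (m l) + (e + 1) * D * (μ + s * (s + 2)) ≤ h0 d e›
      nlinarith)
  obtain ⟨y, hy⟩ := horace_dim ((s + 1) * (e + 1)) (Lam a (s + 1) e)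
    (fun i hi => Lam_empty a (s + 1) e i (by omega) hi)
    (fun l : Fin r => ((l : ℕ) : ℝ) + 1)
    (by
      intro l l' hl
      have : ((l : ℕ) : ℝ) = ((l' : ℕ) : ℝ) := by simpa using hl
      exact Fin.ext (by exact_mod_cast this))
    (by intro l; positivity) m t
    (by
      intro i _
      rw [hcard]
      have h6 := (ht1 i).trans (h1 i)
      exact Nat.le_of_mul_le_mul_left h6 (by omega))
  refine ⟨fun l => ((((l : ℕ) : ℝ) + 1 : ℝ) : ℂ), y, ?_⟩
  have hsum' := sum_card_Lam a (s + 1) e ha (by omega)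
  rw [hab] at hsum'
  rw [ht2, hsum'] at hy
  exact hy

theorem T_zero : T 0 = 0 := rfl

theorem T_one : T 1 = 1 := rfl

/-- the special member, first case, with arbitrarily many simple points -/
theorem special_a (d e : ℕ) (hd : 4 ≤ d) (he : 1 ≤ e) {r : ℕ} (m : Fin r → ℕ) (μ : ℕ)
    (hμ : ∀ l, m l ≤ μ) (h : ∑ l, (if 2 ≤ m l then T (m l) else 0) + err d e μ ≤ h0 d e) :
    ∃ x y : Fin r → ℂ, Module.finrank ℂ (series
      (F0 (d - ((min d e).sqrt + 1)) ((min d e).sqrt + 1)) e
      (fun l => p0 (d - ((min d e).sqrt + 1)) ((min d e).sqrt + 1) (x l) (y l)) m)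
        + h0 d e ≤ (e + 3).choose 3 + (h0 d e - ∑ l, T (m l)) := by
  classical
  obtain ⟨hs, hsd⟩ := params d e hd he
  obtain ⟨x, y, hxy⟩ := V_a d e hd he (fun l => if 2 ≤ m l then m l else 0) μ
    (fun l => by
      beta_reduce
      split_ifs
      · exact hμ l
      · exact Nat.zero_le _)
    (by
      refine le_trans (le_of_eq ?_) h
      congr 1
      refine Finset.sum_congr rfl fun l _ => ?_
      split_ifs
      · rfl
      · rfl)
  obtain ⟨x', y', hxy'⟩ := add_simple (((min d e).sqrt + 1) * (e + 1))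
    (Lam (d - ((min d e).sqrt + 1)) ((min d e).sqrt + 1) e)
    (fun i hi => Lam_empty _ _ e i (by omega) hi) x y (fun l => if 2 ≤ m l then m l else 0)
    (Finset.univ.filter fun l => m l = 1)
    (fun l hl => by
      rw [Finset.mem_filter] at hl
      rw [if_neg (by omega)])
  refine ⟨x', y', ?_⟩
  have hm : (fun l => if l ∈ Finset.univ.filter (fun l => m l = 1) then 1
      else if 2 ≤ m l then m l else 0) = m := by
    funext l
    simp only [Finset.mem_filter, Finset.mem_univ, true_and]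
    split_ifs <;> omega
  rw [hm] at hxy'
  have hsumT : ∑ l, T (m l) = ∑ l, T (if 2 ≤ m l then m l else 0)
      + (Finset.univ.filter fun l => m l = 1).card := by
    rw [Finset.card_filter, ← Finset.sum_add_distrib]
    refine Finset.sum_congr rfl fun l _ => ?_
    split_ifs with h1 h2
    · omega
    · rfl
    · rename_i h2
      rw [h2]
      rfl
    · have : m l = 0 := by omega
      rw [this, Nat.add_zero]
  have hsp := special (d - ((min d e).sqrt + 1)) ((min d e).sqrt + 1) e (by omega) (by omega)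
    x' y' m
  have hsum' := sum_card_Lam (d - ((min d e).sqrt + 1)) ((min d e).sqrt + 1) e (by omega) (by omega)
  rw [show d - ((min d e).sqrt + 1) + ((min d e).sqrt + 1) = d by omega] at hsum'
  rw [hsum'] at hsp
  omega

/-- the special member, second case: no curve -/
theorem special_b (d e : ℕ) (hd : 4 ≤ d) (he : 1 ≤ e) {r : ℕ} (m : Fin r → ℕ) (μ : ℕ)
    (hμ : ∀ l, m l ≤ μ)
    (h : h0 d e + err d e μ + μ * (2 * μ + 3) < ∑ l, T (m l) ∨
      ∃ l, ((min d e).sqrt + 1) * (e + 1) + (e + 2) * (1 + min d e / (min d e).sqrt) ≤ m l) :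
    ∃ x y : Fin r → ℂ, Module.finrank ℂ (series
      (F0 (d - ((min d e).sqrt + 1)) ((min d e).sqrt + 1)) e
      (fun l => p0 (d - ((min d e).sqrt + 1)) ((min d e).sqrt + 1) (x l) (y l)) m)
        + h0 d e ≤ (e + 3).choose 3 + (h0 d e - ∑ l, T (m l)) := by
  obtain ⟨hs, hsd⟩ := params d e hd he
  obtain ⟨-, hD1, hD2⟩ := sqrt_bound (min d e) (by omega)
  unfold err at h
  set s := (min d e).sqrt with hsdef
  set D := 1 + min d e / s with hDdef
  set a := d - (s + 1) with hadef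
  have ha : 1 ≤ a := by omega
  have hab : a + (s + 1) = d := by omega
  have hinc : ∀ K E, E ≤ e → Phi a s K (E + 1) ≤ Phi a s K E + D := by
    intro K E hE
    have := phi_inc a s K E e ha hs hE
    rw [show a + s + 1 = d by omega] at this
    exact this
  obtain ⟨h', h1, h2, h3, h4, h5⟩ := rows_upper a s e D ha hs hinc
  have hcard : ∀ Y, (Lam a (s + 1) e Y).card = rowN a s e Y := by
    intro Y
    rw [card_Lam a (s + 1) e Y ha (by omega)]
    rfl
  have hsum : ∑ Y ∈ Finset.range ((s + 1) * (e + 1)), rowN a s e Y = h0 d e := by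
    have := sum_card_Lam a (s + 1) e ha (by omega)
    rw [hab] at this
    rw [← this]
    exact Finset.sum_congr rfl fun Y _ => (hcard Y).symm
  have hbig : ∑ Y ∈ Finset.range ((s + 1) * (e + 1)), h' Y
      ≤ (s + 1) * h0 d e + (s + 1) * (e + 1) * (s * (s + 2) * D) := by
    rw [← hsum, Finset.mul_sum]
    calc ∑ Y ∈ Finset.range ((s + 1) * (e + 1)), h' Y
        ≤ ∑ Y ∈ Finset.range ((s + 1) * (e + 1)), ((s + 1) * rowN a s e Y + s * (s + 2) * D) :=
          Finset.sum_le_sum fun Y _ => h3 Y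
      _ = _ := by
        rw [Finset.sum_add_distrib, Finset.sum_const, Finset.card_range, smul_eq_mul]
  have hR : 1 ≤ (s + 1) * (e + 1) := Nat.mul_pos (by omega) (by omega)
  obtain ⟨t, ht⟩ : ∃ t : Fin r → ℕ, ∀ i < (s + 1) * (e + 1),
      (Lam a (s + 1) e i).card ≤ load m t i := by
    rcases h with h | ⟨l, hl⟩
    · obtain ⟨t, ht⟩ := cover h' (s + 1) D μ ((s + 1) * (e + 1)) (by omega) (by omega) hR h2 m hμ
        (by
          rw [Finset.sum_add_distrib, Finset.sum_const, Finset.card_range, smul_eq_mul]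
          have h6 := Nat.mul_lt_mul_of_pos_left h (show 0 < s + 1 by omega)
          have h7 : μ * (h' ((s + 1) * (e + 1) - 1) + D * μ)
              ≤ μ * ((s + 1 + 2 * (s + 1)) + 2 * (s + 1) * μ) := by
            apply Nat.mul_le_mul_left
            apply Nat.add_le_add
            · omega
            · exact Nat.mul_le_mul_right μ hD2
          nlinarith)
      refine ⟨t, fun i hi => ?_⟩
      rw [hcard]
      exact Nat.le_of_mul_le_mul_left ((h1 i).trans (ht i hi)) (by omega)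
    · refine ⟨fun _ => 0, fun i hi => ?_⟩
      refine le_trans ?_ (load_zero_ge m l i)
      rw [hcard]
      have h6 : rowN a s e i ≤ (e + 2) * D :=
        Nat.le_of_mul_le_mul_left ((h1 i).trans (h5 i)) (by omega)
      omega
  obtain ⟨y, hy⟩ := horace_bot ((s + 1) * (e + 1)) (Lam a (s + 1) e)
    (fun i hi => Lam_empty a (s + 1) e i (by omega) hi)
    (fun l : Fin r => ((l : ℕ) : ℝ) + 1)
    (by
      intro l l' hl
      have : ((l : ℕ) : ℝ) = ((l' : ℕ) : ℝ) := by simpa using hl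
      exact Fin.ext (by exact_mod_cast this))
    (by intro l; positivity) m t ht
  refine ⟨fun l => ((((l : ℕ) : ℝ) + 1 : ℝ) : ℂ), y, ?_⟩
  have hsp := special a (s + 1) e ha (by omega) (fun l : Fin r => ((((l : ℕ) : ℝ) + 1 : ℝ) : ℂ)) y m
  have hsum' := sum_card_Lam a (s + 1) e ha (by omega)
  rw [hab] at hsum'
  beta_reduce at hy hsp ⊢
  omega

theorem F0_facts (a b : ℕ) (x y : ℂ) (hab : 1 < a + b) :
    (F0 a b).totalDegree ≤ a + b ∧ eval (p0 a b x y) (F0 a b) = 0 ∧
      eval (p0 a b x y) (pderiv 2 (F0 a b)) ≠ 0 ∧ (line (p0 a b x y) (F0 a b)).coeff (a + b) ≠ 0 ∧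
      coeff (Finsupp.single 0 a + Finsupp.single 1 b) (F0 a b) ≠ 0 := by
  refine ⟨?_, ?_, ?_, ?_, ?_⟩
  · unfold F0
    refine (totalDegree_sub _ _).trans (max_le ?_ ?_)
    · rw [totalDegree_X]; omega
    · refine (totalDegree_mul _ _).trans ?_
      rw [totalDegree_X_pow, totalDegree_X_pow]
  · simp [F0, p0]
  · simp [F0, p0, pderiv_X]
  · have h1 : line (p0 a b x y) (F0 a b) = Polynomial.C (x ^ a * y ^ b) -
        (Polynomial.X + Polynomial.C x) ^ a * (Polynomial.X + Polynomial.C y) ^ b := by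
      simp [line, F0, p0, add_comm]
    rw [h1, Polynomial.coeff_sub, Polynomial.coeff_C, if_neg (by omega)]
    have h2 : ((Polynomial.X + Polynomial.C x) ^ a * (Polynomial.X + Polynomial.C y) ^ b).Monic :=
      ((Polynomial.monic_X_add_C x).pow a).mul ((Polynomial.monic_X_add_C y).pow b)
    have h3 : ((Polynomial.X + Polynomial.C x) ^ a * (Polynomial.X + Polynomial.C y) ^ b).natDegree
        = a + b := by
      rw [((Polynomial.monic_X_add_C x).pow a).natDegree_mul ((Polynomial.monic_X_add_C y).pow b),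
        (Polynomial.monic_X_add_C x).natDegree_pow, (Polynomial.monic_X_add_C y).natDegree_pow,
        Polynomial.natDegree_X_add_C, Polynomial.natDegree_X_add_C]
      ring
    have h4 := h2.coeff_natDegree
    rw [h3] at h4
    rw [h4]
    norm_num
  · unfold F0
    rw [coeff_sub, MvPolynomial.X]
    have h1 : (X 0 ^ a * X 1 ^ b : MvPolynomial (Fin 3) ℂ)
        = monomial (Finsupp.single 0 a + Finsupp.single 1 b) 1 := by
      rw [X_pow_eq_monomial, X_pow_eq_monomial, monomial_mul, one_mul]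
    rw [h1, MvPolynomial.coeff_monomial, MvPolynomial.coeff_monomial, if_pos rfl, if_neg]
    · norm_num
    intro h2
    have h3 := DFunLike.congr_fun h2 2
    simp at h3

/-- the hypothesis of the main theorem -/
def Outside (d e : ℕ) {r : ℕ} (m : Fin r → ℕ) (μ : ℕ) : Prop :=
  (∑ l, (if 2 ≤ m l then T (m l) else 0) + err d e μ ≤ h0 d e) ∨
  (h0 d e + err d e μ + μ * (2 * μ + 3) < ∑ l, T (m l)) ∨
  (∃ l, ((min d e).sqrt + 1) * (e + 1) + (e + 2) * (1 + min d e / (min d e).sqrt) ≤ m l)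

theorem main (d e : ℕ) (hd : 4 ≤ d) (he : 1 ≤ e) {r : ℕ} (m : Fin r → ℕ) (μ : ℕ)
    (hμ : ∀ l, m l ≤ μ) (h : Outside d e m μ) :
    ∃ Φ : MvPolynomial (Fin 3 →₀ ℕ) ℂ,
      (∃ F : MvPolynomial (Fin 3) ℂ, F.totalDegree ≤ d ∧ eval (fun α => coeff α F) Φ ≠ 0) ∧
      ∀ F : MvPolynomial (Fin 3) ℂ, F.totalDegree ≤ d → eval (fun α => coeff α F) Φ ≠ 0 →
        F.totalDegree = d ∧ ∃ Ψ : MvPolynomial (Fin r × Fin 3) ℂ,
          (∃ q : Fin r → Fin 3 → ℂ, (∀ l, eval (q l) F = 0) ∧
            eval (fun i : Fin r × Fin 3 => q i.1 i.2) Ψ ≠ 0) ∧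
          ∀ q : Fin r → Fin 3 → ℂ, (∀ l, eval (q l) F = 0) →
            eval (fun i : Fin r × Fin 3 => q i.1 i.2) Ψ ≠ 0 →
            (e + 3).choose 3 ≤ Module.finrank ℂ (series F e q m) + ∑ l, T (m l) ∧
            Module.finrank ℂ (series F e q m) + h0 d e
              ≤ (e + 3).choose 3 + (h0 d e - ∑ l, T (m l)) ∧
            ∀ l, eval (q l) (pderiv 2 F) ≠ 0 := by
  obtain ⟨hs, hsd⟩ := params d e hd he
  set s := (min d e).sqrt with hsdef
  have hab : d - (s + 1) + (s + 1) = d := by omega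
  -- choice of the points
  obtain ⟨x, y, hxy⟩ : ∃ x y : Fin r → ℂ,
      Module.finrank ℂ (series (F0 (d - (s + 1)) (s + 1)) e
        (fun l => p0 (d - (s + 1)) (s + 1) (x l) (y l)) m) + h0 d e
          ≤ (e + 3).choose 3 + (h0 d e - ∑ l, T (m l)) := by
    rcases h with h | h
    · exact special_a d e hd he m μ hμ h
    · exact special_b d e hd he m μ hμ h
  obtain ⟨Φ, hΦ0, hΦ⟩ := semi d e m (F0 (d - (s + 1)) (s + 1))
    (by have := (F0_facts (d - (s + 1)) (s + 1) 0 0 (by omega)).1; rwa [hab] at this)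
    (fun l => p0 (d - (s + 1)) (s + 1) (x l) (y l))
    (fun l => (F0_facts (d - (s + 1)) (s + 1) (x l) (y l) (by omega)).2.1)
    (fun l => (F0_facts (d - (s + 1)) (s + 1) (x l) (y l) (by omega)).2.2.1)
    (fun l => by
      have := (F0_facts (d - (s + 1)) (s + 1) (x l) (y l) (by omega)).2.2.2.1
      rwa [hab] at this)
  have hco := (F0_facts (d - (s + 1)) (s + 1) 0 0 (by omega)).2.2.2.2
  refine ⟨Φ * X (Finsupp.single 0 (d - (s + 1)) + Finsupp.single 1 (s + 1)),
    ⟨F0 (d - (s + 1)) (s + 1), ?_, ?_⟩, ?_⟩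
  · have := (F0_facts (d - (s + 1)) (s + 1) 0 0 (by omega)).1; rwa [hab] at this
  · rw [map_mul, eval_X]
    exact mul_ne_zero hΦ0 hco
  intro F hFd hF
  rw [map_mul, eval_X] at hF
  have hdeg : F.totalDegree = d := by
    refine le_antisymm hFd ?_
    have h2 := le_totalDegree (mem_support_iff.2 (right_ne_zero_of_mul hF))
    rw [Finsupp.sum_add_index' (fun _ => rfl) (fun _ _ _ => rfl),
      Finsupp.sum_single_index rfl, Finsupp.sum_single_index rfl, hab] at h2
    exact h2
  obtain ⟨Ψ, hq, hΨ⟩ := hΦ F hFd (left_ne_zero_of_mul hF)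
  refine ⟨hdeg, Ψ, hq, fun q hq1 hq2 => ?_⟩
  obtain ⟨h1, h2, h3⟩ := hΨ q hq1 hq2
  exact ⟨h2, by omega, h3⟩

end FPS
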