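import Mathlib

/-!
# FPS.FormsNum: a numerical inequality

PROOF. `nd d (k+1) = nd d k + min (k + 2) d` (`(k+3).choose 2 - (k+2).choose 2 = k + 2`, and for
`d ≤ k` one subtracts `(k - d + 3).choose 2 - (k - d + 2).choose 2 = k + 2 - d`; for `k + 1 = d` one
subtracts `1`). So `nd d k = 1 + ∑_{j=1}^k min (j+1) d`, and `nd d (e1+e2) - nd d e1 - nd d e2 =
∑_{j=1}^{e2} (min (e1+j+1) d - min (j+1) d) - 1`. All the terms are `≥ 0`. If `e1 ≥ 2` the term
`j = 1` is `≥ 4 - 2`; if `e1 = 1` then `e2 ≥ 2` and the terms `j = 1, 2` are `≥ 1` each.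
(Induction on `e2`, or wlog.)
-/

namespace FPS

/-- dimension of the space of forms of degree `k` on a plane curve of degree `d` -/
def nd (d k : ℕ) : ℕ := (k + 2).choose 2 - (if d ≤ k then (k - d + 2).choose 2 else 0)

lemma nd_succ (d k : ℕ) : nd d (k + 1) = nd d k + min (k + 2) d := by
  have h2 : ∀ n : ℕ, (n + 1).choose 2 = n.choose 2 + n := fun n => by
    rw [Nat.choose_succ_succ' n 1, Nat.choose_one_right, add_comm]
  unfold nd
  have hk : (k + 1 + 2).choose 2 = (k + 2).choose 2 + (k + 2) := h2 (k + 2)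
  rcases Nat.lt_trichotomy (k + 1) d with h | h | h
  · rw [if_neg (by omega), if_neg (by omega), hk]
    omega
  · rw [if_pos (by omega), if_neg (by omega), hk]
    have e1 : k + 1 - d + 2 = 2 := by omega
    rw [e1, Nat.choose_self]
    omega
  · rw [if_pos (by omega), if_pos (by omega), hk]
    obtain ⟨t, rfl⟩ : ∃ t, k = d + t := ⟨k - d, by omega⟩
    have e1 : d + t + 1 - d + 2 = (t + 2) + 1 := by omega
    have e2 : d + t - d + 2 = t + 2 := by omega
    rw [e1, e2, h2 (t + 2)]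
    have h3 : (t + 2).choose 2 ≤ (d + t + 2).choose 2 := Nat.choose_le_choose 2 (by omega)
    omega

lemma nd_zero (d : ℕ) (hd : 1 ≤ d) : nd d 0 = 1 := by
  unfold nd
  rw [if_neg (by omega)]
  simp

lemma nd_step (d e1 e2 : ℕ) (h : nd d e1 + nd d e2 < nd d (e1 + e2)) :
    nd d e1 + nd d (e2 + 1) < nd d (e1 + (e2 + 1)) := by
  rw [← add_assoc, nd_succ d e2, nd_succ d (e1 + e2)]
  have h1 : min (e2 + 2) d ≤ min (e1 + e2 + 2) d := min_le_min_right d (by omega)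
  omega

lemma nd_small (d : ℕ) (hd : 4 ≤ d) : nd d 1 = 3 ∧ nd d 2 = 6 ∧ nd d 3 = 10 := by
  have h0 := nd_zero d (by omega)
  have h1 := nd_succ d 0
  have h2 := nd_succ d 1
  have h3 := nd_succ d 2
  norm_num at h1 h2 h3
  rw [min_eq_left (by omega)] at h1 h2 h3
  omega

lemma nd_lt_aux (d : ℕ) (hd : 4 ≤ d) (s : ℕ) : ∀ t : ℕ, nd d (1 + s) + nd d (2 + t) <
    nd d ((1 + s) + (2 + t)) := by
  have hs := nd_small d hd
  have base : ∀ s : ℕ, nd d 2 + nd d (1 + s) < nd d (2 + (1 + s)) := by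
    intro s
    induction s with
    | zero =>
      have e : nd d (2 + (1 + 0)) = nd d 3 := rfl
      have e' : nd d (1 + 0) = nd d 1 := rfl
      rw [e, e']
      omega
    | succ s ih => exact nd_step d 2 (1 + s) ih
  intro t
  induction t with
  | zero =>
    have h1 := base s
    rw [add_comm (nd d (1 + s)), add_comm (1 + s)]
    exact h1
  | succ t ih => exact nd_step d (1 + s) (2 + t) ih

theorem nd_add_lt (d e1 e2 : ℕ) (hd : 4 ≤ d) (h1 : 1 ≤ e1) (h2 : 1 ≤ e2) (h3 : 3 ≤ e1 + e2) :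
    nd d e1 + nd d e2 < nd d (e1 + e2) := by
  rcases Nat.lt_or_ge e2 2 with h | h
  · obtain ⟨s, rfl⟩ : ∃ s, e2 = 1 + s := ⟨e2 - 1, by omega⟩
    obtain ⟨t, rfl⟩ : ∃ t, e1 = 2 + t := ⟨e1 - 2, by omega⟩
    rw [add_comm (nd d (2 + t)), add_comm (2 + t)]
    exact nd_lt_aux d hd s t
  · obtain ⟨s, rfl⟩ : ∃ s, e1 = 1 + s := ⟨e1 - 1, by omega⟩
    obtain ⟨t, rfl⟩ : ∃ t, e2 = 2 + t := ⟨e2 - 2, by omega⟩
    exact nd_lt_aux d hd s t

end FPS
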