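import Pool.Agent.Lib.FPS.AlgDep
import Pool.Agent.Lib.FPS.FormsNum
import Pool.Agent.Lib.FPS.JetB

/-!
# FPS.Forms: the general form of degree `e` is not a product modulo `f`

PROOF. `S_k` = forms of degree `k` in three variables (`MvPolynomial.homogeneousSubmodule`), of
dimension `(k + 2).choose 2`. For `e1 + e2 = e` let `C1` be a complement of `f * S_{e1 - d}` in
`S_{e1}` (all of `S_{e1}` if `e1 < d`); `dim C1 = nd d e1` (multiplication by `f ≠ 0` is injective);
`C2 ⊆ S_{e2}` similarly. If `g = g1 g2 + f k`, write `g1 = c1 + f h1`, `g2 = c2 + f h2`; then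
`g = c1 c2 + f k'` with `k' = k + h1 g2 + c1 h2`, a form of degree `e - d` (`0` if `e < d`).
So `g` is in the image of the polynomial map `(c1, c2, k') ↦ c1 c2 + f k'` from a space of
dimension `nd d e1 + nd d e2 + dim S_{e-d} < nd d e + dim S_{e-d} = dim S_e` (`nd_add_lt`). Its
coordinates are the coefficients at the exponents of degree `e`. By `alg_dep` there is a polynomial
`P_{e1} ≠ 0` in these coefficients which vanishes on the image. Take for `P` the product of the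
`P_{e1}`, `1 ≤ e1 ≤ e - 1` (renamed to the variables `Fin 3 →₀ ℕ`); it is nonzero, so it does not
vanish at some point, i.e. at some form `g`.
-/

namespace FPS

open MvPolynomial

namespace FormsAux

theorem mem_expo (n : ℕ) (α : Fin 3 →₀ ℕ) : α ∈ expo n ↔ α.degree < n := by
  have hdeg : α.degree = α 0 + α 1 + α 2 := by
    rw [Finsupp.degree_eq_sum, Fin.sum_univ_three]
  unfold expo
  rw [Finset.mem_image, hdeg]
  constructor
  · rintro ⟨q, hq, rfl⟩
    simp only [Finset.mem_filter, Finset.mem_product, Finset.mem_range] at hq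
    simpa using hq.2
  · intro h
    refine ⟨(α 0, α 1, α 2), ?_, ?_⟩
    · simp only [Finset.mem_filter, Finset.mem_product, Finset.mem_range]
      omega
    · ext i
      fin_cases i <;> simp

/-- the exponents of degree `k` -/
noncomputable def ex (k : ℕ) : Finset (Fin 3 →₀ ℕ) := (expo (k + 1)).filter fun α => α.degree = k

theorem mem_ex (k : ℕ) (α : Fin 3 →₀ ℕ) : α ∈ ex k ↔ α.degree = k := by
  unfold ex
  rw [Finset.mem_filter, mem_expo]
  constructor
  · exact fun h => h.2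
  · exact fun h => ⟨by omega, h⟩

theorem card_ex (k : ℕ) : (ex k).card = (k + 2).choose 2 := by
  have h1 : expo (k + 1) = expo k ∪ ex k := by
    ext α
    rw [Finset.mem_union, mem_expo, mem_expo, mem_ex]
    omega
  have h2 : Disjoint (expo k) (ex k) := by
    rw [Finset.disjoint_left]
    intro α h3 h4
    rw [mem_expo] at h3
    rw [mem_ex] at h4
    omega
  have h3 := congrArg Finset.card h1
  rw [Finset.card_union_of_disjoint h2, card_expo, card_expo] at h3
  have h4 : (k + 1 + 2).choose 3 = (k + 2).choose 2 + (k + 2).choose 3 := Nat.choose_succ_succ' _ _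
  omega

/-- the form with the coefficients `v` -/
noncomputable def frm (k : ℕ) : (ex k → ℂ) →ₗ[ℂ] MvPolynomial (Fin 3) ℂ where
  toFun v := ∑ α : ex k, monomial (α : Fin 3 →₀ ℕ) (v α)
  map_add' v w := by
    simp only [Pi.add_apply, map_add, Finset.sum_add_distrib]
  map_smul' c v := by
    simp only [Pi.smul_apply, RingHom.id_apply, Finset.smul_sum, smul_monomial]

theorem frm_apply (k : ℕ) (v : ex k → ℂ) :
    frm k v = ∑ α : ex k, monomial (α : Fin 3 →₀ ℕ) (v α) := rfl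

theorem coeff_frm (k : ℕ) (v : ex k → ℂ) (α : ex k) : coeff (α : Fin 3 →₀ ℕ) (frm k v) = v α := by
  classical
  rw [frm_apply, coeff_sum, Finset.sum_eq_single α]
  · rw [coeff_monomial, if_pos rfl]
  · intro β _ hβ
    rw [coeff_monomial, if_neg fun h => hβ (Subtype.ext h)]
  · intro h
    exact absurd (Finset.mem_univ _) h

theorem frm_hom (k : ℕ) (v : ex k → ℂ) : (frm k v).IsHomogeneous k := by
  rw [frm_apply]
  refine IsHomogeneous.sum _ _ _ fun α _ => ?_
  exact isHomogeneous_monomial _ ((mem_ex k α).1 α.2)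

theorem frm_coeff (k : ℕ) (g : MvPolynomial (Fin 3) ℂ) (hg : g.IsHomogeneous k) :
    frm k (fun α => coeff (α : Fin 3 →₀ ℕ) g) = g := by
  ext β
  by_cases hβ : β ∈ ex k
  · exact coeff_frm k _ ⟨β, hβ⟩
  · rw [mem_ex] at hβ
    rw [(frm_hom k _).coeff_eq_zero hβ, hg.coeff_eq_zero hβ]

theorem frm_inj (k : ℕ) : Function.Injective (frm k) := by
  intro v w h
  funext α
  rw [← coeff_frm k v α, h, coeff_frm]

theorem range_frm (k : ℕ) : LinearMap.range (frm k) = homogeneousSubmodule (Fin 3) ℂ k := by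
  apply le_antisymm
  · rintro _ ⟨v, rfl⟩
    exact frm_hom k v
  · intro g hg
    exact ⟨_, frm_coeff k g hg⟩

theorem finrank_hom (k : ℕ) :
    Module.finrank ℂ (homogeneousSubmodule (Fin 3) ℂ k) = (k + 2).choose 2 := by
  rw [← range_frm, LinearMap.finrank_range_of_inj (frm_inj k), Module.finrank_fintype_fun_eq_card,
    Fintype.card_coe, card_ex]

instance (k : ℕ) : Module.Finite ℂ (homogeneousSubmodule (Fin 3) ℂ k) := by
  rw [← range_frm]
  infer_instance

/-- representatives of the forms of degree `k` modulo `f` -/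
theorem reps (d k : ℕ) (f : MvPolynomial (Fin 3) ℂ) (hf : f.IsHomogeneous d) (hf0 : f ≠ 0) :
    ∃ ℓ : (Fin (nd d k) → ℂ) →ₗ[ℂ] MvPolynomial (Fin 3) ℂ, (∀ c, (ℓ c).IsHomogeneous k) ∧
      ∀ g : MvPolynomial (Fin 3) ℂ, g.IsHomogeneous k → ∃ c h, g = ℓ c + f * h ∧
        (d ≤ k ∧ h.IsHomogeneous (k - d) ∨ h = 0) := by
  classical
  -- the multiples of `f`
  obtain ⟨U, hU, hUd, hUm⟩ : ∃ U : Submodule ℂ (MvPolynomial (Fin 3) ℂ),
      U ≤ homogeneousSubmodule (Fin 3) ℂ k ∧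
      Module.finrank ℂ U = (if d ≤ k then (k - d + 2).choose 2 else 0) ∧
      ∀ u ∈ U, ∃ h, u = f * h ∧ (d ≤ k ∧ h.IsHomogeneous (k - d) ∨ h = 0) := by
    by_cases hdk : d ≤ k
    · have hinj : Function.Injective (LinearMap.mulLeft ℂ f) := fun a b hab => by
        simp only [LinearMap.mulLeft_apply] at hab
        exact mul_left_cancel₀ hf0 hab
      refine ⟨(homogeneousSubmodule (Fin 3) ℂ (k - d)).map (LinearMap.mulLeft ℂ f), ?_, ?_, ?_⟩
      · rintro _ ⟨h, hh, rfl⟩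
        have := hf.mul (show h.IsHomogeneous (k - d) from hh)
        rw [Nat.add_sub_cancel' hdk] at this
        exact this
      · rw [if_pos hdk, ← finrank_hom (k - d)]
        exact (LinearEquiv.finrank_eq (Submodule.equivMapOfInjective _ hinj _)).symm
      · rintro _ ⟨h, hh, rfl⟩
        exact ⟨h, rfl, Or.inl ⟨hdk, hh⟩⟩
    · refine ⟨⊥, bot_le, ?_, ?_⟩
      · rw [if_neg hdk, finrank_bot]
      · intro u hu
        rw [Submodule.mem_bot] at hu
        exact ⟨0, by rw [hu, mul_zero], Or.inr rfl⟩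
  obtain ⟨W, hW⟩ := Submodule.exists_isCompl (U.submoduleOf (homogeneousSubmodule (Fin 3) ℂ k))
  have hWd : Module.finrank ℂ W = nd d k := by
    have h1 := Submodule.finrank_add_eq_of_isCompl hW
    have h2 : Module.finrank ℂ (U.submoduleOf (homogeneousSubmodule (Fin 3) ℂ k)) =
        Module.finrank ℂ U := LinearEquiv.finrank_eq (Submodule.submoduleOfEquivOfLe hU)
    rw [h2, hUd, finrank_hom] at h1
    unfold nd
    omega
  have hfree : Module.Free ℂ W := Module.Free.of_divisionRing ℂ W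
  let b : Module.Basis (Fin (nd d k)) ℂ W := Module.finBasisOfFinrankEq ℂ W hWd
  let ℓ : (Fin (nd d k) → ℂ) →ₗ[ℂ] MvPolynomial (Fin 3) ℂ :=
    (homogeneousSubmodule (Fin 3) ℂ k).subtype ∘ₗ W.subtype ∘ₗ b.equivFun.symm.toLinearMap
  refine ⟨ℓ, ?_, ?_⟩
  · intro c
    exact ((b.equivFun.symm c : W) : homogeneousSubmodule (Fin 3) ℂ k).2
  · intro g hg
    have hmem : (⟨g, hg⟩ : homogeneousSubmodule (Fin 3) ℂ k) ∈
        (U.submoduleOf (homogeneousSubmodule (Fin 3) ℂ k)) ⊔ W := by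
      rw [hW.sup_eq_top]
      trivial
    obtain ⟨u, hu, w, hw, huw⟩ := Submodule.mem_sup.1 hmem
    obtain ⟨h, hh, hh'⟩ := hUm u.1 hu
    refine ⟨b.equivFun ⟨w, hw⟩, h, ?_, hh'⟩
    have h1 : ℓ (b.equivFun ⟨w, hw⟩) = (w : MvPolynomial (Fin 3) ℂ) := by
      simp only [ℓ, LinearMap.comp_apply, LinearEquiv.coe_coe, LinearEquiv.symm_apply_apply,
        Submodule.subtype_apply]
    have h2 := congrArg Subtype.val huw
    simp only [Submodule.coe_add] at h2
    rw [h1, ← hh, add_comm]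
    exact h2.symm

/-- the generic element of the image of a linear map -/
noncomputable def gen {N : ℕ} {σ : Type} (ℓ : (Fin N → ℂ) →ₗ[ℂ] MvPolynomial (Fin 3) ℂ)
    (ι : Fin N → σ) : MvPolynomial (Fin 3) (MvPolynomial σ ℂ) :=
  ∑ i, C (X (ι i)) * map C (ℓ (Pi.single i 1))

theorem map_gen {N : ℕ} {σ : Type} (ℓ : (Fin N → ℂ) →ₗ[ℂ] MvPolynomial (Fin 3) ℂ)
    (ι : Fin N → σ) (t : σ → ℂ) : map (eval t) (gen ℓ ι) = ℓ (fun i => t (ι i)) := by
  have h1 : (fun i => t (ι i)) = ∑ i, t (ι i) • (Pi.single i 1 : Fin N → ℂ) := by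
    funext j
    rw [Finset.sum_apply, Finset.sum_eq_single j]
    · simp
    · intro b _ hb
      simp [hb.symm]
    · intro h
      exact absurd (Finset.mem_univ _) h
  have h0 : ∀ g : MvPolynomial (Fin 3) ℂ, map (eval t) (map (C : ℂ →+* MvPolynomial σ ℂ) g) = g := by
    intro g
    rw [map_map]
    have h3 : (eval t).comp (C : ℂ →+* MvPolynomial σ ℂ) = RingHom.id ℂ := by
      ext x
      simp
    rw [h3, map_id]
  rw [h1, map_sum, gen, map_sum]
  refine Finset.sum_congr rfl fun i _ => ?_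
  rw [map_mul, map_C, eval_X, h0, map_smul, C_mul']

/-- the relation for one splitting of the degree -/
theorem one (d e : ℕ) (hd : 4 ≤ d) (he : 3 ≤ e) (f : MvPolynomial (Fin 3) ℂ)
    (hf : f.IsHomogeneous d) (hf0 : f ≠ 0) (e1 e2 : ℕ) (h1 : 1 ≤ e1) (h2 : 1 ≤ e2)
    (h12 : e1 + e2 = e) :
    ∃ P : MvPolynomial (ex e) ℂ, P ≠ 0 ∧ ∀ g1 g2 k : MvPolynomial (Fin 3) ℂ,
      g1.IsHomogeneous e1 → g2.IsHomogeneous e2 →
      (d ≤ e ∧ k.IsHomogeneous (e - d) ∨ k = 0) →
      eval (fun α : ex e => coeff (α : Fin 3 →₀ ℕ) (g1 * g2 + f * k)) P = 0 := by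
  classical
  obtain ⟨ℓ1, hℓ1, hr1⟩ := reps d e1 f hf hf0
  obtain ⟨ℓ2, hℓ2, hr2⟩ := reps d e2 f hf hf0
  -- the third map
  obtain ⟨N, hN, ℓ3, hr3⟩ : ∃ N : ℕ, N + nd d e = (e + 2).choose 2 ∧
      ∃ ℓ3 : (Fin N → ℂ) →ₗ[ℂ] MvPolynomial (Fin 3) ℂ, ∀ k : MvPolynomial (Fin 3) ℂ,
        (d ≤ e ∧ k.IsHomogeneous (e - d) ∨ k = 0) → ∃ c, k = ℓ3 c := by
    by_cases hde : d ≤ e
    · refine ⟨(e - d + 2).choose 2, ?_, ?_⟩
      · unfold nd
        rw [if_pos hde]
        have : (e - d + 2).choose 2 ≤ (e + 2).choose 2 := Nat.choose_le_choose 2 (by omega)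
        omega
      · let b : Module.Basis (Fin ((e - d + 2).choose 2)) ℂ (homogeneousSubmodule (Fin 3) ℂ (e - d)) :=
          Module.finBasisOfFinrankEq ℂ _ (finrank_hom (e - d))
        refine ⟨(homogeneousSubmodule (Fin 3) ℂ (e - d)).subtype ∘ₗ b.equivFun.symm.toLinearMap, ?_⟩
        intro k hk
        have hk' : k.IsHomogeneous (e - d) := by
          rcases hk with hk | hk
          · exact hk.2
          · rw [hk]
            exact isHomogeneous_zero _ _ _
        refine ⟨b.equivFun ⟨k, hk'⟩, ?_⟩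
        simp only [LinearMap.comp_apply, LinearEquiv.coe_coe, LinearEquiv.symm_apply_apply,
          Submodule.subtype_apply]
    · refine ⟨0, ?_, 0, ?_⟩
      · unfold nd
        rw [if_neg hde]
        omega
      · intro k hk
        rcases hk with hk | hk
        · exact absurd hk.1 hde
        · exact ⟨0, by rw [hk]; simp⟩
  let σ := Fin (nd d e1) ⊕ (Fin (nd d e2) ⊕ Fin N)
  let G : MvPolynomial (Fin 3) (MvPolynomial σ ℂ) :=
    gen ℓ1 (fun i => (Sum.inl i : σ)) * gen ℓ2 (fun i => (Sum.inr (Sum.inl i) : σ)) +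
      map C f * gen ℓ3 (fun i => (Sum.inr (Sum.inr i) : σ))
  have hG : ∀ t : σ → ℂ, map (eval t) G = ℓ1 (fun i => t (Sum.inl i)) *
      ℓ2 (fun i => t (Sum.inr (Sum.inl i))) + f * ℓ3 (fun i => t (Sum.inr (Sum.inr i))) := by
    intro t
    have h3 : map (eval t) (map (C : ℂ →+* MvPolynomial σ ℂ) f) = f := by
      rw [map_map]
      have h3 : (eval t).comp (C : ℂ →+* MvPolynomial σ ℂ) = RingHom.id ℂ := by
        ext x
        simp
      rw [h3, map_id]
    simp only [G, map_add, map_mul, map_gen, h3]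
  have hcard : Fintype.card σ < Fintype.card (ex e) := by
    have h3 := nd_add_lt d e1 e2 hd h1 h2 (by omega)
    rw [h12] at h3
    simp only [σ, Fintype.card_sum, Fintype.card_fin, Fintype.card_coe, card_ex]
    omega
  obtain ⟨P, hP0, hP⟩ := alg_dep hcard (fun α : ex e => coeff (α : Fin 3 →₀ ℕ) G)
  refine ⟨P, hP0, ?_⟩
  intro g1 g2 k hg1 hg2 hk
  obtain ⟨c1, k1, hc1, hk1⟩ := hr1 g1 hg1
  obtain ⟨c2, k2, hc2, hk2⟩ := hr2 g2 hg2
  have hk' : d ≤ e ∧ (k + k1 * g2 + ℓ1 c1 * k2).IsHomogeneous (e - d) ∨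
      k + k1 * g2 + ℓ1 c1 * k2 = 0 := by
    by_cases hde : d ≤ e
    · left
      refine ⟨hde, ?_⟩
      refine IsHomogeneous.add (IsHomogeneous.add ?_ ?_) ?_
      · rcases hk with hk | hk
        · exact hk.2
        · rw [hk]
          exact isHomogeneous_zero _ _ _
      · rcases hk1 with hk1 | hk1
        · have h4 := hk1.2.mul hg2
          have e4 : e1 - d + e2 = e - d := by omega
          rwa [e4] at h4
        · rw [hk1, zero_mul]
          exact isHomogeneous_zero _ _ _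
      · rcases hk2 with hk2 | hk2
        · have h4 := (hℓ1 c1).mul hk2.2
          have e4 : e1 + (e2 - d) = e - d := by omega
          rwa [e4] at h4
        · rw [hk2, mul_zero]
          exact isHomogeneous_zero _ _ _
    · right
      have a1 : k = 0 := by
        rcases hk with hk | hk
        · exact absurd hk.1 hde
        · exact hk
      have a2 : k1 = 0 := by
        rcases hk1 with hk1 | hk1
        · exact absurd hk1.1 (by omega)
        · exact hk1
      have a3 : k2 = 0 := by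
        rcases hk2 with hk2 | hk2
        · exact absurd hk2.1 (by omega)
        · exact hk2
      rw [a1, a2, a3, zero_mul, mul_zero, add_zero, add_zero]
  obtain ⟨c3, hc3⟩ := hr3 _ hk'
  have hg : g1 * g2 + f * k = ℓ1 c1 * ℓ2 c2 + f * ℓ3 c3 := by
    rw [← hc3]
    nth_rw 1 [hc1]
    have : ℓ1 c1 * g2 = ℓ1 c1 * ℓ2 c2 + ℓ1 c1 * (f * k2) := by
      rw [hc2, mul_add]
    rw [add_mul, this]
    ring
  have h5 := hP (Sum.elim c1 (Sum.elim c2 c3))
  have h6 := hG (Sum.elim c1 (Sum.elim c2 c3))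
  simp only [Sum.elim_inl, Sum.elim_inr] at h6
  have h7 : (fun α : ex e => coeff (α : Fin 3 →₀ ℕ) (g1 * g2 + f * k)) =
      fun α : ex e => eval (Sum.elim c1 (Sum.elim c2 c3)) (coeff (α : Fin 3 →₀ ℕ) G) := by
    funext α
    rw [hg, ← h6, coeff_map]
  rw [h7]
  exact h5

end FormsAux

open FormsAux in
theorem not_product (d e : ℕ) (hd : 4 ≤ d) (he : 3 ≤ e) (f : MvPolynomial (Fin 3) ℂ)
    (hf : f.IsHomogeneous d) (hf0 : f ≠ 0) :
    ∃ P : MvPolynomial (Fin 3 →₀ ℕ) ℂ,
      (∃ g : MvPolynomial (Fin 3) ℂ, g.IsHomogeneous e ∧ eval (fun α => coeff α g) P ≠ 0) ∧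
      (∀ c c' : (Fin 3 →₀ ℕ) → ℂ, (∀ α, α.degree = e → c α = c' α) → eval c P = eval c' P) ∧
      ∀ g : MvPolynomial (Fin 3) ℂ, g.IsHomogeneous e → eval (fun α => coeff α g) P ≠ 0 →
        ∀ e1 e2 : ℕ, 1 ≤ e1 → 1 ≤ e2 → e1 + e2 = e → ∀ g1 g2 k : MvPolynomial (Fin 3) ℂ,
          g1.IsHomogeneous e1 → g2.IsHomogeneous e2 →
          (d ≤ e ∧ k.IsHomogeneous (e - d) ∨ k = 0) → g ≠ g1 * g2 + f * k := by
  classical
  have hall : ∀ e1 : ℕ, ∃ P : MvPolynomial (ex e) ℂ, P ≠ 0 ∧ (1 ≤ e1 → ∀ e2, 1 ≤ e2 → e1 + e2 = e →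
      ∀ g1 g2 k : MvPolynomial (Fin 3) ℂ, g1.IsHomogeneous e1 → g2.IsHomogeneous e2 →
      (d ≤ e ∧ k.IsHomogeneous (e - d) ∨ k = 0) →
      eval (fun α : ex e => coeff (α : Fin 3 →₀ ℕ) (g1 * g2 + f * k)) P = 0) := by
    intro e1
    by_cases h : 1 ≤ e1 ∧ e1 + 1 ≤ e
    · obtain ⟨P, hP0, hP⟩ := one d e hd he f hf hf0 e1 (e - e1) h.1 (by omega) (by omega)
      refine ⟨P, hP0, ?_⟩
      intro _ e2 h2 h12 g1 g2 k hg1 hg2 hk
      have e3 : e - e1 = e2 := by omega
      rw [e3] at hP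
      exact hP g1 g2 k hg1 hg2 hk
    · refine ⟨1, one_ne_zero, ?_⟩
      intro h1 e2 h2 h12
      exact absurd ⟨h1, by omega⟩ h
  choose P hP0 hP using hall
  have hQ0 : (∏ e1 ∈ Finset.range (e + 1), P e1) ≠ 0 := Finset.prod_ne_zero_iff.2 fun e1 _ => hP0 e1
  set Q := ∏ e1 ∈ Finset.range (e + 1), P e1 with hQ
  have hev : ∀ c : (Fin 3 →₀ ℕ) → ℂ, eval c (rename (fun α : ex e => (α : Fin 3 →₀ ℕ)) Q) =
      eval (fun α : ex e => c α) Q := by
    intro c
    rw [eval_rename]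
    rfl
  refine ⟨rename (fun α : ex e => (α : Fin 3 →₀ ℕ)) Q, ?_, ?_, ?_⟩
  · have h1 : ∃ t : ex e → ℂ, eval t Q ≠ 0 := by
      by_contra hcon
      push Not at hcon
      exact hQ0 (MvPolynomial.funext fun t => by rw [hcon t, map_zero])
    obtain ⟨t, ht⟩ := h1
    refine ⟨frm e t, frm_hom e t, ?_⟩
    rw [hev]
    have h2 : (fun α : ex e => coeff (α : Fin 3 →₀ ℕ) (frm e t)) = t := by
      funext α
      exact coeff_frm e t α
    rw [h2]
    exact ht
  · intro c c' hcc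
    rw [hev, hev]
    have h7 : (fun α : ex e => c (α : Fin 3 →₀ ℕ)) = fun α : ex e => c' (α : Fin 3 →₀ ℕ) := by
      funext α
      exact hcc α ((mem_ex e α).1 α.2)
    rw [h7]
  · intro g hg hne e1 e2 h1 h2 h12 g1 g2 k hg1 hg2 hk hgk
    rw [hev, hQ, map_prod] at hne
    have h3 := Finset.prod_ne_zero_iff.1 hne e1 (Finset.mem_range.2 (by omega))
    apply h3
    rw [hgk]
    exact hP e1 h1 e2 h2 h12 g1 g2 k hg1 hg2 hk

end FPS
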