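import Pool.Agent.Lib.FPS.Defs

/-!
# FPS.Rank: semicontinuity of the rank

PROOF. Let `M0 = M.map φ0`, `ρ = rank M0`. Choose `B : Matrix n (Fin ρ) ℂ` with `M0 * B` injective
(columns of `B` = preimages of a basis of the range of `M0`) and `A : Matrix (Fin ρ) m ℂ` a left
inverse: `A * M0 * B = 1`. Put `Ψ = det (A' * M * B')` with `A' = A.map (algebraMap ℂ R)`,
`B' = B.map (algebraMap ℂ R)`. Then `φ0 Ψ = det 1 = 1` (`RingHom.map_det`, `Matrix.map_mul`), and
`φ Ψ ≠ 0` gives `ρ = rank (A * M.map φ * B) ≤ rank (M.map φ)` (`Matrix.rank_mul_le_left/right`).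
-/

namespace FPS

lemma exists_two_sided {m n : Type*} [Fintype m] [Fintype n] [DecidableEq m] [DecidableEq n]
    (M : Matrix m n ℂ) : ∃ (A : Matrix (Fin M.rank) m ℂ) (B : Matrix n (Fin M.rank) ℂ),
      A * M * B = 1 := by
  have hb : Module.finrank ℂ (LinearMap.range M.mulVecLin) = M.rank := rfl
  let b : Module.Basis (Fin M.rank) ℂ (LinearMap.range M.mulVecLin) :=
    Module.finBasisOfFinrankEq ℂ _ hb
  have hx : ∀ i, ∃ x : n → ℂ, M.mulVecLin x = (b i : m → ℂ) := fun i => (b i).2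
  choose x hx using hx
  let g : (Fin M.rank → ℂ) →ₗ[ℂ] (n → ℂ) := Fintype.linearCombination ℂ x
  have hinj : Function.Injective (M.mulVecLin ∘ₗ g) := by
    rw [← LinearMap.ker_eq_bot, LinearMap.ker_eq_bot']
    intro c hc
    have h1 : (M.mulVecLin ∘ₗ g) c = ∑ i, c i • (b i : m → ℂ) := by
      simp only [LinearMap.comp_apply, g, Fintype.linearCombination_apply, map_sum, map_smul, hx]
    rw [h1] at hc
    have h2 : ∑ i, c i • b i = 0 := by
      apply Subtype.ext
      rw [Submodule.coe_sum]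
      simpa using hc
    have h3 := (Fintype.linearIndependent_iff.1 b.linearIndependent) c h2
    funext i
    exact h3 i
  obtain ⟨f, hf⟩ := LinearMap.exists_leftInverse_of_injective _ (LinearMap.ker_eq_bot.2 hinj)
  refine ⟨LinearMap.toMatrix' f, LinearMap.toMatrix' g, ?_⟩
  have h4 : LinearMap.toMatrix' M.mulVecLin = M := by
    rw [← Matrix.toLin'_apply', LinearMap.toMatrix'_toLin']
  have h5 : LinearMap.toMatrix' f * LinearMap.toMatrix' M.mulVecLin * LinearMap.toMatrix' g = 1 := by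
    rw [← LinearMap.toMatrix'_comp, ← LinearMap.toMatrix'_comp, LinearMap.comp_assoc, hf,
      LinearMap.toMatrix'_id]
  exact (congrArg (fun N : Matrix m n ℂ => LinearMap.toMatrix' f * N * LinearMap.toMatrix' g)
    h4).symm.trans h5

theorem rank_open {R : Type*} [CommRing R] [Algebra ℂ R] {m n : Type*} [Fintype m] [Fintype n]
    [DecidableEq m] [DecidableEq n] (M : Matrix m n R) (φ0 : R →+* ℂ)
    (h0 : ∀ c : ℂ, φ0 (algebraMap ℂ R c) = c) :
    ∃ Ψ : R, φ0 Ψ ≠ 0 ∧ ∀ φ : R →+* ℂ, (∀ c : ℂ, φ (algebraMap ℂ R c) = c) → φ Ψ ≠ 0 →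
      (M.map φ0).rank ≤ (M.map φ).rank := by
  obtain ⟨A, B, hAB⟩ := exists_two_sided (M.map φ0)
  have key : ∀ φ : R →+* ℂ, (∀ c : ℂ, φ (algebraMap ℂ R c) = c) →
      φ (Matrix.det (A.map (algebraMap ℂ R) * M * B.map (algebraMap ℂ R))) =
        Matrix.det (A * M.map φ * B) := by
    intro φ hφ
    rw [RingHom.map_det, RingHom.mapMatrix_apply, Matrix.map_mul, Matrix.map_mul, Matrix.map_map,
      Matrix.map_map]
    have hA : A.map (φ ∘ algebraMap ℂ R) = A := by
      ext i j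
      simp [hφ]
    have hB : B.map (φ ∘ algebraMap ℂ R) = B := by
      ext i j
      simp [hφ]
    rw [hA, hB]
  refine ⟨Matrix.det (A.map (algebraMap ℂ R) * M * B.map (algebraMap ℂ R)), ?_, ?_⟩
  · rw [key φ0 h0, hAB, Matrix.det_one]
    exact one_ne_zero
  · intro φ hφ hne
    rw [key φ hφ] at hne
    have hu : IsUnit (A * M.map φ * B) := (Matrix.isUnit_iff_isUnit_det _).2 (isUnit_iff_ne_zero.2 hne)
    have h1 : (A * M.map φ * B).rank = Fintype.card (Fin (M.map φ0).rank) := Matrix.rank_of_isUnit _ hu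
    rw [Fintype.card_fin] at h1
    rw [← h1]
    exact (Matrix.rank_mul_le_left _ _).trans (Matrix.rank_mul_le_right _ _)

end FPS
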