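import Pool.Agent.Lib.FPS.Defs

/-!
# FPS.Van: the vanishing order of bivariate polynomials

`van g x0 y0 m` (see `Defs.lean`): `(X - x0)^(m-j) ∣ (taylor y0 g).coeff j` for all `j < m`.

PROOFS.
* `van_iff_coeff`: `(X - C x0)^n ∣ P` iff the coefficients `k < n` of `taylor x0 P` vanish
  (`taylor x0` is a ring automorphism with `X - C x0 ↦ X`, `Polynomial.X_pow_dvd_iff`).
* `coeff_monomial`: `taylor r (monomial n c) = C c * (X + C r)^n`, `Polynomial.coeff_X_add_C_pow`.
* `van_iff_mem`: the ring automorphism `taylor (C y0)` of `ℂ[x][y]` maps the ideal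
  `(x - x0, y - y0)` onto `(x - x0, y)`; and `h ∈ (x - x0, y)^m` iff `(x - x0)^(m-j) ∣ h.coeff j`
  for all `j < m` (=>: induction on `m` or `Submodule.span_induction` on products of the generators;
  <=: `h = ∑_j coeff_j(h) y^j`).
* `van_zero_coeff`: `j = 0` of the definition (`m = 0` trivial), `taylor (C 0) g = g`.
* `van_mul_zero`: `coeff (X * g) (j+1) = coeff g j`.
* `van_mul_ne`: by `van_iff_mem`: `X * g ∈ I^m`, `I = (x - x0, y - y0)`, `y = X` is invertible modulo
  `I^m` (`IsCoprime (span {X}) (I^m)` because `X - C (C y0) ∈ I` and `y0 ≠ 0`), so `g ∈ I^m`.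
-/

namespace FPS

open Polynomial

theorem van_iff_coeff (g : Polynomial (Polynomial ℂ)) (x0 y0 : ℂ) (m : ℕ) :
    van g x0 y0 m ↔
      ∀ j k, j + k < m → (taylor x0 ((taylor (C y0) g).coeff j)).coeff k = 0 := by
  have key : ∀ (n : ℕ) (P : Polynomial ℂ), (X - C x0) ^ n ∣ P ↔
      ∀ k < n, (taylor x0 P).coeff k = 0 := by
    intro n P
    rw [← X_pow_dvd_iff]
    have h1 : taylor x0 ((X - C x0) ^ n) = X ^ n := by
      rw [taylor_pow, map_sub, taylor_X, taylor_C]
      simp
    constructor
    · rintro ⟨Q, rfl⟩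
      rw [taylor_mul, h1]
      exact dvd_mul_right _ _
    · rintro ⟨Q, hQ⟩
      refine ⟨taylor (-x0) Q, ?_⟩
      apply taylor_injective x0
      rw [hQ, taylor_mul, h1, taylor_taylor]
      simp
  unfold van
  constructor
  · intro h j k hjk
    exact (key (m - j) _).1 (h j (by omega)) k (by omega)
  · intro h j hj
    exact (key (m - j) _).2 fun k hk => h j k (by omega)

theorem coeff_monomial (a b : ℕ) (x0 y0 : ℂ) (j k : ℕ) :
    (taylor x0 ((taylor (C y0) (monomial b (monomial a (1 : ℂ)))).coeff j)).coeff k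
      = (a.choose k : ℂ) * x0 ^ (a - k) * ((b.choose j : ℂ) * y0 ^ (b - j)) := by
  rw [taylor_monomial, coeff_C_mul, coeff_X_add_C_pow]
  have h1 : (C y0 ^ (b - j) * ((b.choose j : ℕ) : Polynomial ℂ))
      = C (y0 ^ (b - j) * (b.choose j : ℂ)) := by
    simp
  rw [h1, mul_comm, taylor_mul, taylor_C, coeff_C_mul, taylor_monomial, coeff_C_mul,
    coeff_X_add_C_pow]
  ring

/-- auxiliary ideal -/
private def KI (p : Polynomial ℂ) (m : ℕ) : Ideal (Polynomial (Polynomial ℂ)) where
  carrier := {h | ∀ j < m, p ^ (m - j) ∣ h.coeff j}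
  add_mem' := by
    intro g h hg hh j hj
    rw [coeff_add]
    exact dvd_add (hg j hj) (hh j hj)
  zero_mem' := by
    intro j _
    simp
  smul_mem' := by
    intro q h hh j hj
    rw [smul_eq_mul, coeff_mul]
    refine Finset.dvd_sum fun ab hab => ?_
    have h1 := Finset.HasAntidiagonal.mem_antidiagonal.1 hab
    have h2 : p ^ (m - ab.2) ∣ h.coeff ab.2 := hh ab.2 (by omega)
    exact Dvd.dvd.mul_left ((pow_dvd_pow p (by omega)).trans h2) _

private theorem KI_iff (p : Polynomial ℂ) (m : ℕ) (h : Polynomial (Polynomial ℂ)) :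
    h ∈ KI p m ↔ ∀ j < m, p ^ (m - j) ∣ h.coeff j := Iff.rfl

private theorem pow_le_KI (p : Polynomial ℂ) (m : ℕ) :
    (Ideal.span {C p, X} : Ideal (Polynomial (Polynomial ℂ))) ^ m ≤ KI p m := by
  induction m with
  | zero =>
    intro h _ j hj
    omega
  | succ m ih =>
    have e : (Ideal.span {C p, X} : Ideal (Polynomial (Polynomial ℂ))) ^ (m + 1)
        = Ideal.span {C p, X} * Ideal.span {C p, X} ^ m :=
      pow_succ' (Ideal.span {C p, X} : Ideal (Polynomial (Polynomial ℂ))) m
    rw [e]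
    refine (Ideal.mul_mono le_rfl ih).trans ?_
    rw [Ideal.mul_le]
    intro r hr s hs
    have hr' : r ∈ (Ideal.span {C p, X} : Ideal (Polynomial (Polynomial ℂ))) := hr
    rw [Ideal.mem_span_pair] at hr'
    obtain ⟨a, b, rfl⟩ := hr'
    rw [add_mul]
    have h1 : C p * s ∈ KI p (m + 1) := by
      intro j hj
      rw [coeff_C_mul]
      rcases Nat.lt_or_ge j m with h | h
      · have := mul_dvd_mul (dvd_refl p) (hs j h)
        rw [← pow_succ'] at this
        have e : m + 1 - j = m - j + 1 := by omega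
        rw [e]
        exact this
      · have e : m + 1 - j = 1 := by omega
        rw [e, pow_one]
        exact dvd_mul_right _ _
    have h2 : X * s ∈ KI p (m + 1) := by
      intro j hj
      cases j with
      | zero => simp
      | succ j =>
        rw [coeff_X_mul]
        have := hs j (by omega)
        have e : m + 1 - (j + 1) = m - j := by omega
        rw [e]
        exact this
    refine Ideal.add_mem _ ?_ ?_
    · rw [mul_assoc]
      exact Ideal.mul_mem_left _ _ h1
    · rw [mul_assoc]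
      exact Ideal.mul_mem_left _ _ h2

private theorem KI_le_pow (p : Polynomial ℂ) (m : ℕ) :
    KI p m ≤ (Ideal.span {C p, X} : Ideal (Polynomial (Polynomial ℂ))) ^ m := by
  intro h hh
  rw [← h.sum_C_mul_X_pow_eq, Polynomial.sum]
  refine Ideal.sum_mem _ fun j _ => ?_
  have hX : (X : Polynomial (Polynomial ℂ)) ∈
      (Ideal.span {C p, X} : Ideal (Polynomial (Polynomial ℂ))) :=
    Ideal.subset_span (by simp)
  have hp : C p ∈ (Ideal.span {C p, X} : Ideal (Polynomial (Polynomial ℂ))) :=
    Ideal.subset_span (by simp)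
  rcases Nat.lt_or_ge j m with hj | hj
  · obtain ⟨q, hq⟩ := hh j hj
    rw [hq, C_mul, C_pow]
    have e : m = (m - j) + j := by omega
    have h1 := Ideal.mul_mem_mul (Ideal.pow_mem_pow hp (m - j)) (Ideal.pow_mem_pow hX j)
    have e2 : (Ideal.span {C p, X} : Ideal (Polynomial (Polynomial ℂ))) ^ (m - j)
        * Ideal.span {C p, X} ^ j = Ideal.span {C p, X} ^ m := by
      have e3 := pow_add (Ideal.span {C p, X} : Ideal (Polynomial (Polynomial ℂ))) (m - j) j
      rw [← e] at e3
      exact e3.symm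
    rw [e2] at h1
    have h2 : C p ^ (m - j) * C q * X ^ j = C q * (C p ^ (m - j) * X ^ j) := by ring
    rw [h2]
    exact Ideal.mul_mem_left _ _ h1
  · have h1 := Ideal.pow_le_pow_right hj (Ideal.pow_mem_pow hX j)
    exact Ideal.mul_mem_left _ _ h1

private theorem map_le (p : Polynomial ℂ) (y : Polynomial ℂ) (m : ℕ)
    (g : Polynomial (Polynomial ℂ))
    (hg : g ∈ (Ideal.span {C p, X - C y} : Ideal (Polynomial (Polynomial ℂ))) ^ m) :
    taylor y g ∈ (Ideal.span {C p, X} : Ideal (Polynomial (Polynomial ℂ))) ^ m := by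
  have h1 := Ideal.mem_map_of_mem (taylorAlgHom y) hg
  rw [Ideal.map_pow] at h1
  have h2 : Ideal.map (taylorAlgHom y) (Ideal.span {C p, X - C y})
      ≤ (Ideal.span {C p, X} : Ideal (Polynomial (Polynomial ℂ))) := by
    rw [Ideal.map_span, Ideal.span_le]
    rintro _ ⟨u, hu, rfl⟩
    rcases hu with rfl | hu
    · refine Ideal.subset_span ?_
      simp [taylorAlgHom_apply]
    · rw [Set.mem_singleton_iff] at hu
      subst hu
      refine Ideal.subset_span ?_
      have e : ∀ u : Polynomial (Polynomial ℂ), taylorAlgHom y u = taylor y u := fun _ => rfl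
      rw [e]; simp
  exact Ideal.pow_right_mono h2 m h1

private theorem map_le' (p : Polynomial ℂ) (y : Polynomial ℂ) (m : ℕ)
    (g : Polynomial (Polynomial ℂ))
    (hg : taylor y g ∈ (Ideal.span {C p, X} : Ideal (Polynomial (Polynomial ℂ))) ^ m) :
    g ∈ (Ideal.span {C p, X - C y} : Ideal (Polynomial (Polynomial ℂ))) ^ m := by
  have h1 := Ideal.mem_map_of_mem (taylorAlgHom (-y)) hg
  rw [Ideal.map_pow] at h1
  have h2 : Ideal.map (taylorAlgHom (-y)) (Ideal.span {C p, X})
      ≤ (Ideal.span {C p, X - C y} : Ideal (Polynomial (Polynomial ℂ))) := by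
    rw [Ideal.map_span, Ideal.span_le]
    rintro _ ⟨u, hu, rfl⟩
    rcases hu with rfl | hu
    · refine Ideal.subset_span ?_
      simp [taylorAlgHom_apply]
    · rw [Set.mem_singleton_iff] at hu
      subst hu
      refine Ideal.subset_span ?_
      have e : ∀ u : Polynomial (Polynomial ℂ), taylorAlgHom (-y) u = taylor (-y) u :=
        fun _ => rfl
      rw [e]; simp [sub_eq_add_neg]
  have h3 := Ideal.pow_right_mono h2 m h1
  have h4 : taylorAlgHom (-y) (taylor y g) = g := by
    show taylor (-y) (taylor y g) = g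
    rw [taylor_taylor]
    simp
  rwa [h4] at h3

theorem van_iff_mem (g : Polynomial (Polynomial ℂ)) (x0 y0 : ℂ) (m : ℕ) :
    van g x0 y0 m ↔ g ∈ (Ideal.span {C (X - C x0), X - C (C y0)} :
      Ideal (Polynomial (Polynomial ℂ))) ^ m := by
  constructor
  · intro h
    exact map_le' _ _ _ _ (KI_le_pow _ _ h)
  · intro h
    exact pow_le_KI _ _ (map_le _ _ _ _ h)

theorem van_zero_coeff {g : Polynomial (Polynomial ℂ)} {x0 : ℂ} {m : ℕ} (h : van g x0 0 m) :
    (X - C x0) ^ m ∣ g.coeff 0 := by
  rcases Nat.eq_zero_or_pos m with rfl | hm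
  · simp
  · have := h 0 hm
    simpa using this

theorem van_mul_zero {g : Polynomial (Polynomial ℂ)} {x0 : ℂ} {m : ℕ} (h : van (X * g) x0 0 m) :
    van g x0 0 (m - 1) := by
  intro j hj
  have := h (j + 1) (by omega)
  have e : m - (j + 1) = m - 1 - j := by omega
  rw [e] at this
  simpa [coeff_X_mul] using this

theorem van_mul_ne {g : Polynomial (Polynomial ℂ)} {x0 y0 : ℂ} {m : ℕ} (hy : y0 ≠ 0)
    (h : van (X * g) x0 y0 m) : van g x0 y0 m := by
  rw [van_iff_mem] at h ⊢
  set I : Ideal (Polynomial (Polynomial ℂ)) := Ideal.span {C (X - C x0), X - C (C y0)} with hI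
  have h1 : IsCoprime (Ideal.span {(X : Polynomial (Polynomial ℂ))}) I := by
    rw [Ideal.isCoprime_iff_exists]
    refine ⟨C (C y0⁻¹) * X, Ideal.mul_mem_left _ _ (Ideal.mem_span_singleton_self _),
      - (C (C y0⁻¹) * (X - C (C y0))), ?_, ?_⟩
    · exact I.neg_mem (Ideal.mul_mem_left _ _ (Ideal.subset_span (by simp)))
    · have : (C (C y0⁻¹) : Polynomial (Polynomial ℂ)) * C (C y0) = 1 := by
        rw [← C_mul, ← C_mul, inv_mul_cancel₀ hy]
        simp
      linear_combination this
  have h2 : IsCoprime (Ideal.span {(X : Polynomial (Polynomial ℂ))}) (I ^ m) := h1.pow_right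
  rw [Ideal.isCoprime_iff_exists] at h2
  obtain ⟨a, ha, b, hb, hab⟩ := h2
  rw [Ideal.mem_span_singleton] at ha
  obtain ⟨c, rfl⟩ := ha
  have h3 : g = c * (X * g) + b * g := by
    linear_combination -g * hab
  rw [h3]
  exact Ideal.add_mem _ (Ideal.mul_mem_left _ _ h) (Ideal.mul_mem_right _ _ hb)

end FPS
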