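import Pool.Agent.Lib.FPS.Desc
import Pool.Agent.Lib.FPS.Van
import Pool.Agent.Lib.FPS.Rank

/-!
# FPS.Horace: the row by row (Horace) method
-/

namespace FPS

open Polynomial

/-- the coefficient `(j, k)` of the Taylor expansion at `(x0, y0)` -/
noncomputable def lin (x0 y0 : ℂ) (j k : ℕ) : Polynomial (Polynomial ℂ) →ₗ[ℂ] ℂ where
  toFun g := (taylor x0 ((taylor (C y0) g).coeff j)).coeff k
  map_add' g h := by simp
  map_smul' c g := by
    have h1 : c • g = C (C c) * g := by
      ext j k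
      simp [Polynomial.coeff_smul]
    rw [h1, Polynomial.taylor_mul, Polynomial.taylor_C, Polynomial.coeff_C_mul,
      Polynomial.taylor_mul, Polynomial.taylor_C, Polynomial.coeff_C_mul]
    rfl

theorem van_iff_lin (g : Polynomial (Polynomial ℂ)) (x0 y0 : ℂ) (m : ℕ) :
    van g x0 y0 m ↔ ∀ j k, j + k < m → lin x0 y0 j k g = 0 := van_iff_coeff g x0 y0 m

/-- the polynomial with the given coefficients -/
noncomputable def poly {R : ℕ} {Γ : ℕ → Finset ℕ} (c : (Σ i : Fin R, Γ i) → ℂ) :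
    Polynomial (Polynomial ℂ) :=
  ∑ q, c q • monomial (q.1 : ℕ) (monomial (q.2 : ℕ) (1 : ℂ))

theorem coeff_poly {R : ℕ} {Γ : ℕ → Finset ℕ} (c : (Σ i : Fin R, Γ i) → ℂ) (i : Fin R) (a : Γ i) :
    ((poly c).coeff i).coeff a = c ⟨i, a⟩ := by
  unfold poly
  rw [Polynomial.finsetSum_coeff, Polynomial.finsetSum_coeff, Finset.sum_eq_single ⟨i, a⟩]
  · simp [Polynomial.coeff_smul]
  · rintro ⟨i', a'⟩ - hne
    rw [Polynomial.coeff_smul, Polynomial.coeff_monomial]
    by_cases hi : (i' : ℕ) = i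
    · have hi' : i' = i := Fin.ext hi
      subst hi'
      rw [if_pos rfl, Polynomial.coeff_smul, Polynomial.coeff_monomial, if_neg]
      · simp
      · intro h
        have h5 : a' = a := Subtype.ext h
        exact hne (by rw [h5])
    · rw [if_neg hi]
      simp
  · intro h
    exact absurd (Finset.mem_univ _) h

theorem poly_mem {R : ℕ} {Γ : ℕ → Finset ℕ} (c : (Σ i : Fin R, Γ i) → ℂ) : poly c ∈ W Γ := by
  unfold poly
  refine Submodule.sum_mem _ fun q _ => Submodule.smul_mem _ _ ?_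
  intro j k hk
  rw [Polynomial.coeff_monomial]
  by_cases h : (q.1 : ℕ) = j
  · rw [if_pos h, Polynomial.coeff_monomial, if_neg]
    rintro h2
    apply hk
    rw [← h, ← h2]
    exact q.2.2
  · rw [if_neg h]
    simp

theorem eq_poly {R : ℕ} {Γ : ℕ → Finset ℕ} (hΓ : ∀ i, R ≤ i → Γ i = ∅)
    (g : Polynomial (Polynomial ℂ)) (hg : g ∈ W Γ) :
    g = poly (R := R) (Γ := Γ) fun q => (g.coeff q.1).coeff q.2 := by
  ext j k
  by_cases h : k ∈ Γ j
  · have hj : j < R := by
      by_contra hcon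
      rw [hΓ j (by omega)] at h
      simp at h
    exact (coeff_poly (R := R) (Γ := Γ) (fun q => (g.coeff q.1).coeff q.2) ⟨j, hj⟩ ⟨k, h⟩).symm
  · rw [hg j k h, poly_mem _ j k h]

/-- Injectivity of the conditions is an open condition on the heights `y`. -/
theorem perturb (R : ℕ) (Γ : ℕ → Finset ℕ) (hΓ : ∀ i, R ≤ i → Γ i = ∅) {ι : Type*} [Fintype ι]
    (x y : ι → ℂ) (m : ι → ℕ) (hy : ∀ g ∈ W Γ, (∀ l, van g (x l) (y l) (m l)) → g = 0)
    (v : ι → Prop) :
    ∃ y' : ι → ℂ, (∀ l, ¬ v l → y' l = y l) ∧ (∀ l, v l → y' l ≠ 0) ∧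
      ∀ g ∈ W Γ, (∀ l, van g (x l) (y' l) (m l)) → g = 0 := by
  classical
  let w : ι → ℂ := fun l => if v l then 1 else 0
  let M : Matrix (Σ l : ι, Fin (m l) × Fin (m l)) (Σ i : Fin R, Γ i) (Polynomial ℂ) :=
    fun a q => if (a.2.1 : ℕ) + (a.2.2 : ℕ) < m a.1 then
      C (((q.2 : ℕ).choose a.2.2 : ℂ) * x a.1 ^ ((q.2 : ℕ) - a.2.2) * ((q.1 : ℕ).choose a.2.1 : ℂ)) *
        (C (y a.1) + C (w a.1) * X) ^ ((q.1 : ℕ) - a.2.1) else 0
  have key : ∀ (ε : ℂ) (c : (Σ i : Fin R, Γ i) → ℂ),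
      (M.map (evalRingHom ε)).mulVec c = 0 ↔
        ∀ l, van (poly c) (x l) (y l + w l * ε) (m l) := by
    intro ε c
    have h1 : ∀ a, (M.map (evalRingHom ε)).mulVec c a =
        if (a.2.1 : ℕ) + (a.2.2 : ℕ) < m a.1 then
          lin (x a.1) (y a.1 + w a.1 * ε) a.2.1 a.2.2 (poly c) else 0 := by
      intro a
      unfold Matrix.mulVec dotProduct poly
      by_cases h : (a.2.1 : ℕ) + (a.2.2 : ℕ) < m a.1
      · rw [if_pos h, map_sum]
        refine Finset.sum_congr rfl fun q _ => ?_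
        rw [map_smul, smul_eq_mul, mul_comm]
        congr 1
        simp only [M, Matrix.map_apply, if_pos h]
        have h2 : lin (x a.1) (y a.1 + w a.1 * ε) a.2.1 a.2.2
            (monomial (q.1 : ℕ) (monomial (q.2 : ℕ) (1 : ℂ))) = _ :=
          coeff_monomial (q.2 : ℕ) (q.1 : ℕ) (x a.1) (y a.1 + w a.1 * ε) a.2.1 a.2.2
        rw [h2]
        simp
        ring
      · rw [if_neg h]
        refine Finset.sum_eq_zero fun q _ => ?_
        simp only [M, Matrix.map_apply, if_neg h]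
        simp
    constructor
    · intro h l
      rw [van_iff_lin]
      intro j k hjk
      have h2 := congrFun h ⟨l, ⟨j, by omega⟩, ⟨k, by omega⟩⟩
      rw [h1] at h2
      simp only [Pi.zero_apply] at h2
      rw [if_pos hjk] at h2
      exact h2
    · intro h
      funext a
      rw [h1]
      split_ifs with h2
      · exact (van_iff_lin _ _ _ _).1 (h a.1) _ _ h2
      · rfl
  have inj : ∀ ε : ℂ, (∀ g ∈ W Γ, (∀ l, van g (x l) (y l + w l * ε) (m l)) → g = 0) ↔
      Fintype.card (Σ i : Fin R, Γ i) ≤ (M.map (evalRingHom ε)).rank := by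
    intro ε
    have h1 : Module.finrank ℂ (LinearMap.range (M.map (evalRingHom ε)).mulVecLin) +
        Module.finrank ℂ (LinearMap.ker (M.map (evalRingHom ε)).mulVecLin) =
        Fintype.card (Σ i : Fin R, Γ i) := by
      rw [LinearMap.finrank_range_add_finrank_ker, Module.finrank_fintype_fun_eq_card]
    constructor
    · intro h
      have h2 : LinearMap.ker (M.map (evalRingHom ε)).mulVecLin = ⊥ := by
        rw [LinearMap.ker_eq_bot']
        intro c hc
        rw [Matrix.mulVecLin_apply] at hc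
        have h3 := h (poly c) (poly_mem c) ((key ε c).1 hc)
        funext q
        rw [← coeff_poly c q.1 q.2, h3]
        simp
      rw [h2, finrank_bot] at h1
      unfold Matrix.rank
      omega
    · intro h g hg hv
      have h2 : LinearMap.ker (M.map (evalRingHom ε)).mulVecLin = ⊥ := by
        apply Submodule.finrank_eq_zero.1
        unfold Matrix.rank at h
        omega
      rw [eq_poly hΓ g hg] at hv ⊢
      have h3 := (key ε _).2 hv
      have h4 := LinearMap.ker_eq_bot'.1 h2 _ h3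
      rw [h4]
      unfold poly
      simp
  obtain ⟨Ψ, hΨ0, hΨ⟩ := rank_open M (evalRingHom (0 : ℂ)) (by intro c; simp)
  have h0 : Fintype.card (Σ i : Fin R, Γ i) ≤ (M.map (evalRingHom (0 : ℂ))).rank := by
    rw [← inj 0]
    simpa using hy
  -- choose ε
  let Q : Polynomial ℂ := Ψ * ∏ l, (if v l then C (y l) + X else 1)
  have hQ : Q ≠ 0 := by
    refine mul_ne_zero ?_ (Finset.prod_ne_zero_iff.2 fun l _ => ?_)
    · rintro rfl
      simp at hΨ0
    · split_ifs
      · rw [add_comm]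
        exact X_add_C_ne_zero _
      · exact one_ne_zero
  obtain ⟨ε, hε⟩ : ∃ ε : ℂ, Q.eval ε ≠ 0 := by
    by_contra hcon
    push Not at hcon
    exact hQ (Polynomial.funext fun r => by simp [hcon r])
  simp only [Q, eval_mul, eval_prod] at hε
  refine ⟨fun l => y l + w l * ε, fun l hl => ?_, fun l hl => ?_, ?_⟩
  · simp [w, hl]
  · have h1 := right_ne_zero_of_mul hε
    have h2 := Finset.prod_ne_zero_iff.1 h1 l (Finset.mem_univ l)
    simp only [if_pos hl] at h2
    simpa [w, hl] using h2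
  · rw [inj ε]
    exact h0.trans (hΨ (evalRingHom ε) (by intro c; simp) (left_ne_zero_of_mul hε))

theorem horace_aux (R : ℕ) : ∀ (Γ : ℕ → Finset ℕ) (_ : ∀ i, R ≤ i → Γ i = ∅) {ι : Type*}
    [Fintype ι] (x : ι → ℝ) (_ : Function.Injective x) (_ : ∀ l, 0 < x l) (m t : ι → ℕ)
    (_ : ∀ i < R, (Γ i).card ≤ load m t i),
    ∃ y : ι → ℂ, (∀ l, t l = 0 → y l = 0) ∧
      ∀ g ∈ W Γ, (∀ l, van g ((x l : ℝ) : ℂ) (y l) (m l)) → g = 0 := by
  classical
  induction R with
  | zero =>
    intro Γ hΓ ι _ x hx hpos m t h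
    refine ⟨fun _ => 0, fun _ _ => rfl, fun g hg _ => ?_⟩
    ext j k
    rw [hg j k (by rw [hΓ j (Nat.zero_le _)]; simp)]
    simp
  | succ R ih =>
    intro Γ hΓ ι _ x hx hpos m t h
    obtain ⟨y, hy0, hy⟩ := ih (fun i => Γ (i + 1)) (fun i hi => hΓ (i + 1) (by omega)) x hx hpos
      (fun l => if t l = 0 then m l - 1 else m l) (fun l => t l - 1) (by
        intro i hi
        refine (h (i + 1) (by omega)).trans (le_of_eq ?_)
        unfold load
        refine Finset.sum_congr rfl fun l _ => ?_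
        beta_reduce
        split_ifs <;> omega)
    obtain ⟨y', h1, h2, h3⟩ := perturb R (fun i => Γ (i + 1)) (fun i hi => hΓ (i + 1) (by omega))
      (fun l => ((x l : ℝ) : ℂ)) y (fun l => if t l = 0 then m l - 1 else m l) hy
      (fun l => t l ≠ 0)
    refine ⟨y', fun l hl => ?_, fun g hg hv => ?_⟩
    · rw [h1 l (by simpa using hl), hy0 l (by omega)]
    -- the bottom row vanishes
    have hA : g.coeff 0 = 0 := by
      refine desc (g.coeff 0) (Γ 0) (fun k hk => hg 0 k hk) (Finset.univ.filter fun l => t l = 0)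
        x hx hpos m (fun l hl => ?_) ?_
      · rw [Finset.mem_filter] at hl
        have h4 := hv l
        rw [h1 l (by simpa using hl.2), hy0 l (by omega)] at h4
        exact van_zero_coeff h4
      · refine (h 0 (by omega)).trans (le_of_eq ?_)
        unfold load
        rw [Finset.sum_filter]
        refine Finset.sum_congr rfl fun l _ => ?_
        split_ifs <;> omega
    obtain ⟨g₁, rfl⟩ : X ∣ g := X_dvd_iff.2 hA
    have hg₁ : g₁ ∈ W (fun i => Γ (i + 1)) := by
      intro j k hk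
      have h4 := hg (j + 1) k hk
      rwa [coeff_X_mul] at h4
    rw [h3 g₁ hg₁ (fun l => ?_), mul_zero]
    by_cases hl : t l = 0
    · simp only [if_pos hl]
      have h4 := hv l
      have h5 : y' l = 0 := by rw [h1 l (by simpa using hl), hy0 l (by omega)]
      rw [h5] at h4 ⊢
      exact van_mul_zero h4
    · simp only [if_neg hl]
      exact van_mul_ne (h2 l hl) (hv l)

theorem horace (R : ℕ) (Γ : ℕ → Finset ℕ) (hΓ : ∀ i, R ≤ i → Γ i = ∅) {ι : Type*} [Fintype ι]
    (x : ι → ℝ) (hx : Function.Injective x) (hpos : ∀ l, 0 < x l) (m t : ι → ℕ)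
    (h : ∀ i < R, (Γ i).card ≤ load m t i) :
    ∃ y : ι → ℂ, (∀ l, t l = 0 → y l = 0) ∧
      ∀ g ∈ W Γ, (∀ l, van g ((x l : ℝ) : ℂ) (y l) (m l)) → g = 0 :=
  horace_aux R Γ hΓ x hx hpos m t h

end FPS
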