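import Mathlib

/-!
# FPS.Top: the homogeneous component of top degree of a relation `G ≡ G1 G2 mod F`

PROOF. `G - G1 G2 = F K`. If `K = 0` take `k = 0` and compare the components of degree `e = e1 + e2`
(`(G1 G2)_e = (G1)_{e1} (G2)_{e2}` because `deg G_i ≤ e_i`). If `K ≠ 0`:
`deg F + deg K = deg (F K) ≤ e` (`totalDegree_mul_of_isDomain`), so `d ≤ e`, `deg K ≤ e - d`, and the
component of degree `e` of `F K` is `F_d K_{e-d}`; take `k = K_{e-d}`. General lemma: if
`deg A ≤ a`, `deg B ≤ b` then `(A B)_{a+b} = A_a B_b` (`homogeneousComponent`; e.g. write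
`A = ∑_{i ≤ a} A_i`, or compare coefficients: `coeff_mul`, `coeff_homogeneousComponent`).
-/

namespace FPS

open MvPolynomial

theorem Top.coeff_zero_of_lt {A : MvPolynomial (Fin 3) ℂ} {a : ℕ} (hA : A.totalDegree ≤ a)
    (s : Fin 3 →₀ ℕ) (hs : a < s.degree) : coeff s A = 0 := by
  apply coeff_eq_zero_of_totalDegree_lt
  have : s.degree = ∑ i ∈ s.support, s i := rfl
  omega

theorem Top.hc_mul (A B : MvPolynomial (Fin 3) ℂ) (a b : ℕ)
    (hA : A.totalDegree ≤ a) (hB : B.totalDegree ≤ b) :
    homogeneousComponent (a + b) (A * B) =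
      homogeneousComponent a A * homogeneousComponent b B := by
  ext s
  rw [coeff_homogeneousComponent, coeff_mul, coeff_mul]
  split_ifs with hs
  · apply Finset.sum_congr rfl
    rintro ⟨u, v⟩ huv
    rw [Finset.HasAntidiagonal.mem_antidiagonal] at huv
    simp only at huv ⊢
    rw [coeff_homogeneousComponent, coeff_homogeneousComponent]
    have hd : u.degree + v.degree = a + b := by
      rw [← hs, ← huv]
      exact (map_add Finsupp.degree u v).symm
    by_cases hu : u.degree = a
    · have hv : v.degree = b := by omega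
      simp [hu, hv]
    · rw [if_neg hu, zero_mul]
      rcases Nat.lt_or_ge a u.degree with h | h
      · rw [Top.coeff_zero_of_lt hA u h, zero_mul]
      · rw [Top.coeff_zero_of_lt hB v (by omega), mul_zero]
  · symm
    apply Finset.sum_eq_zero
    rintro ⟨u, v⟩ huv
    rw [Finset.HasAntidiagonal.mem_antidiagonal] at huv
    simp only at huv ⊢
    rw [coeff_homogeneousComponent, coeff_homogeneousComponent]
    have hd : u.degree + v.degree = s.degree := by
      rw [← huv]
      exact (map_add Finsupp.degree u v).symm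
    by_cases hu : u.degree = a
    · have hv : ¬ v.degree = b := by omega
      rw [if_neg hv, mul_zero]
    · rw [if_neg hu, zero_mul]

theorem top_component (F G G1 G2 : MvPolynomial (Fin 3) ℂ) (d e e1 e2 : ℕ)
    (hF : F.totalDegree = d) (he : e1 + e2 = e) (hG : G.totalDegree ≤ e)
    (h1 : G1.totalDegree ≤ e1) (h2 : G2.totalDegree ≤ e2) (h : F ∣ G - G1 * G2) :
    ∃ k : MvPolynomial (Fin 3) ℂ, (d ≤ e ∧ k.IsHomogeneous (e - d) ∨ k = 0) ∧
      homogeneousComponent e G =
        homogeneousComponent e1 G1 * homogeneousComponent e2 G2 + homogeneousComponent d F * k := by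
  obtain ⟨K, hK⟩ := h
  have hGe : G = G1 * G2 + F * K := by rw [← hK]; ring
  have hprod : homogeneousComponent e (G1 * G2) =
      homogeneousComponent e1 G1 * homogeneousComponent e2 G2 := by
    rw [← he]
    exact Top.hc_mul G1 G2 e1 e2 h1 h2
  by_cases hz : F * K = 0
  · refine ⟨0, Or.inr rfl, ?_⟩
    rw [hGe, hz, add_zero, hprod, mul_zero, add_zero]
  · have hF0 : F ≠ 0 := left_ne_zero_of_mul hz
    have hK0 : K ≠ 0 := right_ne_zero_of_mul hz
    have hdeg : (F * K).totalDegree = F.totalDegree + K.totalDegree :=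
      totalDegree_mul_of_isDomain hF0 hK0
    have hle : (F * K).totalDegree ≤ e := by
      rw [← hK]
      refine (totalDegree_sub _ _).trans (max_le hG ?_)
      exact (totalDegree_mul _ _).trans (by omega)
    refine ⟨homogeneousComponent (e - d) K, Or.inl ⟨by omega, ?_⟩, ?_⟩
    · exact homogeneousComponent_isHomogeneous (e - d) K
    · rw [hGe, map_add, hprod]
      congr 1
      have hde : e = d + (e - d) := by omega
      conv_lhs => rw [hde]
      exact Top.hc_mul F K d (e - d) (by omega) (by omega)

end FPS
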