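import Pool.Agent.Lib.FPS.Surj
import Pool.Agent.Lib.FPS.Forms
import Pool.Agent.Lib.FPS.Top

/-!
# FPS.Irr: the general member is indecomposable
-/

namespace FPS

open MvPolynomial

/-- `F` does not divide `G - G1 G2` when `deg G1 ≤ e1`, `deg G2 ≤ e2`, `e1 + e2 = e`, `e1, e2 ≥ 1` -/
def Indec (F : MvPolynomial (Fin 3) ℂ) (e : ℕ) (G : MvPolynomial (Fin 3) ℂ) : Prop :=
  ∀ e1 e2 : ℕ, 1 ≤ e1 → 1 ≤ e2 → e1 + e2 = e → ∀ G1 G2 : MvPolynomial (Fin 3) ℂ,
    G1.totalDegree ≤ e1 → G2.totalDegree ≤ e2 → ¬ F ∣ G - G1 * G2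

/-- a polynomial in the leading coefficients whose nonvanishing implies indecomposability -/
theorem irr_poly (d e : ℕ) (hd : 4 ≤ d) (he : 3 ≤ e) (F : MvPolynomial (Fin 3) ℂ)
    (hF : F.totalDegree = d) :
    ∃ P : MvPolynomial (Fin 3 →₀ ℕ) ℂ,
      (∃ g : MvPolynomial (Fin 3) ℂ, g.IsHomogeneous e ∧ eval (fun α => coeff α g) P ≠ 0) ∧
      (∀ c c' : (Fin 3 →₀ ℕ) → ℂ, (∀ α, α.degree = e → c α = c' α) → eval c P = eval c' P) ∧
      ∀ G : MvPolynomial (Fin 3) ℂ, G.totalDegree ≤ e → eval (fun α => coeff α G) P ≠ 0 →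
        Indec F e G := by
  classical
  have hf0 : homogeneousComponent d F ≠ 0 := by
    intro h0
    have hF0 : F ≠ 0 := by
      rintro rfl
      rw [totalDegree_zero] at hF
      omega
    obtain ⟨α, hα, hαd⟩ := Finset.exists_mem_eq_sup F.support
      (support_nonempty.2 hF0) (fun s => s.sum fun _ e => e)
    have h1 : α.degree = d := by
      rw [← hF]
      exact hαd.symm
    have h2 : coeff α (homogeneousComponent d F) = coeff α F := by
      rw [coeff_homogeneousComponent, if_pos h1]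
    rw [h0, coeff_zero] at h2
    exact (mem_support_iff.1 hα) h2.symm
  obtain ⟨P, ⟨g, hg, hPg⟩, hP1, hP2⟩ := not_product d e hd he (homogeneousComponent d F)
    (homogeneousComponent_isHomogeneous d F) hf0
  refine ⟨P, ⟨g, hg, hPg⟩, hP1, ?_⟩
  intro G hG hPG e1 e2 he1 he2 hsum G1 G2 hG1 hG2 hdvd
  obtain ⟨k, hk, hcomp⟩ := top_component F G G1 G2 d e e1 e2 hF hsum hG hG1 hG2 hdvd
  refine hP2 (homogeneousComponent e G) (homogeneousComponent_isHomogeneous e G) ?_ e1 e2 he1 he2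
    hsum _ _ k (homogeneousComponent_isHomogeneous e1 G1)
    (homogeneousComponent_isHomogeneous e2 G2) hk hcomp
  rw [hP1 _ (fun α => coeff α G)]
  · exact hPG
  · intro α hα
    rw [coeff_homogeneousComponent, if_pos hα]

/-- surjectivity in degree `e - 1` gives elements with arbitrary leading form -/
theorem irr_exists {r : ℕ} (e : ℕ) (he : 1 ≤ e) (F : MvPolynomial (Fin 3) ℂ)
    (q : Fin r → Fin 3 → ℂ) (m : Fin r → ℕ) (P : MvPolynomial (Fin 3 →₀ ℕ) ℂ)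
    (hPg : ∃ g : MvPolynomial (Fin 3) ℂ, g.IsHomogeneous e ∧ eval (fun α => coeff α g) P ≠ 0)
    (hP1 : ∀ c c' : (Fin 3 →₀ ℕ) → ℂ, (∀ α, α.degree = e → c α = c' α) → eval c P = eval c' P)
    (hsurj : ∀ H : MvPolynomial (Fin 3) ℂ, ∃ G : MvPolynomial (Fin 3) ℂ,
      G.totalDegree ≤ e - 1 ∧ ∀ l, H - G ∈ Ideal.span {F} ⊔ ptIdeal (q l) ^ m l) :
    ∃ G ∈ series F e q m, eval (fun α => coeff α G) P ≠ 0 := by
  classical
  obtain ⟨g, hg, hPg⟩ := hPg
  obtain ⟨G'', hG''d, hG''⟩ := hsurj g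
  refine ⟨g - G'', ⟨?_, hG''⟩, ?_⟩
  · refine (totalDegree_sub _ _).trans (max_le hg.totalDegree_le ?_)
    omega
  · rw [hP1 _ (fun α => coeff α g)]
    · exact hPg
    · intro α hα
      rw [coeff_sub, coeff_eq_zero_of_totalDegree_lt (f := G''), sub_zero]
      have : ∑ i ∈ α.support, α i = α.degree := rfl
      omega

theorem irr {r : ℕ} (d e : ℕ) (hd : 4 ≤ d) (he : 3 ≤ e) (F : MvPolynomial (Fin 3) ℂ)
    (hF : F.totalDegree = d) (q : Fin r → Fin 3 → ℂ) (m : Fin r → ℕ)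
    (hsurj : ∀ H : MvPolynomial (Fin 3) ℂ, ∃ G : MvPolynomial (Fin 3) ℂ,
      G.totalDegree ≤ e - 1 ∧ ∀ l, H - G ∈ Ideal.span {F} ⊔ ptIdeal (q l) ^ m l) :
    ∃ P : MvPolynomial (Fin 3 →₀ ℕ) ℂ,
      (∃ G ∈ series F e q m, eval (fun α => coeff α G) P ≠ 0) ∧
      ∀ G ∈ series F e q m, eval (fun α => coeff α G) P ≠ 0 → Indec F e G := by
  obtain ⟨P, h1, h2, h3⟩ := irr_poly d e hd he F hF
  exact ⟨P, irr_exists e (by omega) F q m P h1 h2 hsurj, fun G hG h => h3 G hG.1 h⟩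

end FPS
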