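import Pool.Agent.Lib.FPS.Main
import Pool.Agent.Lib.FPS.Irr

/-!
# FPS.IrrMain: irreducibility of the general member
-/

namespace FPS

open MvPolynomial

theorem irr_main (d e : ℕ) (hd : 4 ≤ d) (he : 3 ≤ e) {r : ℕ} (m : Fin r → ℕ) (μ : ℕ)
    (hμ : ∀ l, m l ≤ μ) (h : ∑ l, T (m l) + err d (e - 1) μ ≤ h0 d (e - 1)) :
    ∃ Φ : MvPolynomial (Fin 3 →₀ ℕ) ℂ,
      (∃ F : MvPolynomial (Fin 3) ℂ, F.totalDegree ≤ d ∧ eval (fun α => coeff α F) Φ ≠ 0) ∧
      ∀ F : MvPolynomial (Fin 3) ℂ, F.totalDegree ≤ d → eval (fun α => coeff α F) Φ ≠ 0 →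
        F.totalDegree = d ∧
        ∃ Ψ : MvPolynomial (Fin r × Fin 3) ℂ,
          (∃ q : Fin r → Fin 3 → ℂ, (∀ l, eval (q l) F = 0) ∧
            eval (fun i : Fin r × Fin 3 => q i.1 i.2) Ψ ≠ 0) ∧
          ∀ q : Fin r → Fin 3 → ℂ, (∀ l, eval (q l) F = 0) →
            eval (fun i : Fin r × Fin 3 => q i.1 i.2) Ψ ≠ 0 →
            Module.finrank ℂ (series F e q m)
              = Module.finrank ℂ (mults F e) + (h0 d e - ∑ l, T (m l)) ∧
            ∃ P : MvPolynomial (Fin 3 →₀ ℕ) ℂ,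
              (∃ G ∈ series F e q m, eval (fun α => coeff α G) P ≠ 0) ∧
              ∀ G ∈ series F e q m, eval (fun α => coeff α G) P ≠ 0 →
                ∀ e1 e2 : ℕ, 1 ≤ e1 → 1 ≤ e2 → e1 + e2 = e → ∀ G1 G2 : MvPolynomial (Fin 3) ℂ,
                  G1.totalDegree ≤ e1 → G2.totalDegree ≤ e2 → ¬ F ∣ G - G1 * G2 := by
  classical
  have hle : ∑ l, (if 2 ≤ m l then T (m l) else 0) ≤ ∑ l, T (m l) := by
    refine Finset.sum_le_sum fun l _ => ?_
    split_ifs
    · exact le_refl _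
    · exact Nat.zero_le _
  obtain ⟨Φ, hF1, hΦ⟩ := main d (e - 1) hd (by omega) m μ hμ (Or.inl (by omega))
  refine ⟨Φ, hF1, fun F hFd hF => ?_⟩
  obtain ⟨hdeg, Ψ, hq, hΨ⟩ := hΦ F hFd hF
  refine ⟨hdeg, Ψ, hq, fun q hq1 hq2 => ?_⟩
  obtain ⟨hc, hb, hs⟩ := hΨ q hq1 hq2
  have hF0 : F ≠ 0 := by
    rintro rfl
    rw [totalDegree_zero] at hdeg
    omega
  have hsurj : ∀ H : MvPolynomial (Fin 3) ℂ, ∃ G : MvPolynomial (Fin 3) ℂ,
      G.totalDegree ≤ e - 1 ∧ ∀ l, H - G ∈ Ideal.span {F} ⊔ ptIdeal (q l) ^ m l :=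
    fun H => surj F q m (e - 1) (fun e' => count F e' q m hq1 hs) (by omega) H
  refine ⟨?_, irr d e hd he F hdeg q m hsurj⟩
  -- the dimension in degree `e`
  have hdim := finrank_mults F d e hF0 hdeg
  have hdim' := finrank_mults F d (e - 1) hF0 hdeg
  have hcount := count F e q m hq1 hs
  have hEf : FiniteDimensional ℂ (MvPolynomial.restrictTotalDegree (Fin 3) ℂ e) := inferInstance
  have hle2 : series F e q m ≤ MvPolynomial.restrictTotalDegree (Fin 3) ℂ e := fun G hG =>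
    (mem_restrictTotalDegree _ _ _).2 hG.1
  have hSf : FiniteDimensional ℂ (series F e q m) := Submodule.finiteDimensional_of_le hle2
  have hEf' : FiniteDimensional ℂ (MvPolynomial.restrictTotalDegree (Fin 3) ℂ (e - 1)) :=
    inferInstance
  have hinf : MvPolynomial.restrictTotalDegree (Fin 3) ℂ (e - 1) ⊓ series F e q m
      = series F (e - 1) q m := by
    ext G
    constructor
    · rintro ⟨h1, h2⟩
      exact ⟨(mem_restrictTotalDegree _ _ _).1 h1, h2.2⟩
    · rintro ⟨h1, h2⟩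
      exact ⟨(mem_restrictTotalDegree _ _ _).2 h1, h1.trans (by omega), h2⟩
  have hsup : MvPolynomial.restrictTotalDegree (Fin 3) ℂ (e - 1) ⊔ series F e q m
      = MvPolynomial.restrictTotalDegree (Fin 3) ℂ e := by
    apply le_antisymm
    · refine sup_le (fun G hG => ?_) hle2
      exact (mem_restrictTotalDegree _ _ _).2
        (((mem_restrictTotalDegree _ _ _).1 hG).trans (by omega))
    · intro H hH
      obtain ⟨G, hG, hGH⟩ := hsurj H
      have h1 : H = G + (H - G) := by ring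
      rw [h1]
      refine Submodule.add_mem_sup ((mem_restrictTotalDegree _ _ _).2 hG) ⟨?_, hGH⟩
      refine (totalDegree_sub _ _).trans (max_le ((mem_restrictTotalDegree _ _ _).1 hH) ?_)
      omega
  have h1 := Submodule.finrank_sup_add_finrank_inf_eq
    (MvPolynomial.restrictTotalDegree (Fin 3) ℂ (e - 1)) (series F e q m)
  rw [hinf, hsup, special_finrank_E, special_finrank_E] at h1
  have h2 : Module.finrank ℂ (mults F e) ≤ Module.finrank ℂ (series F e q m) := by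
    apply Submodule.finrank_mono
    rintro G ⟨h4, h5⟩
    exact ⟨h4, fun l => Ideal.mem_sup_left (Ideal.mem_span_singleton.2 h5)⟩
  omega

end FPS
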