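import Pool.Agent.Lib.FPS.Defs

/-!
# FPS.JetA: membership in `span {F} ⊔ ptIdeal p ^ m` in terms of jets

PROOF. `shift p` is a ring automorphism of `MvPolynomial (Fin 3) ℂ` (inverse `shift (-p)`) which maps
`ptIdeal p` onto the ideal generated by the variables (`MvPolynomial.idealOfVars`;
`MvPolynomial.mem_pow_idealOfVars_iff'`: membership in its `m`-th power iff all coefficients of degree
`< m` vanish). So `G ∈ span {F} ⊔ ptIdeal p ^ m` iff there is `B` with
`G - B F ∈ ptIdeal p ^ m` iff there is `A` (`= shift p B`) such that all coefficients of degree `< m` of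
`shift p G - A * shift p F` vanish. Truncating `A` to degrees `< m - 1` changes the product
`A * shift p F` only in degrees `≥ m`, because `shift p F` has constant term `F (p) = 0`.
`jet_unique`: if `A ≠ 0` let `k` be the lowest degree in `A`, `k < m - 1`; `shift p F` has constant term
`0` and a nonzero linear part (the coefficient of `z` is `∂F/∂z (p)`); the part of degree `k + 1 < m` of
`A * shift p F` is (part of degree `k` of `A`) * (linear part), nonzero. (In Lean: e.g. minimal degree
arguments with `MvPolynomial.homogeneousComponent`, or a monomial order / the lexicographically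
smallest exponent of `A` and of `shift p F` among those of lowest degree.)
-/

namespace FPS

theorem mem_expo (n : ℕ) (α : Fin 3 →₀ ℕ) : α ∈ expo n ↔ α.degree < n := by
  have hdeg : α.degree = α 0 + α 1 + α 2 := by
    rw [Finsupp.degree_eq_sum, Fin.sum_univ_three]
  rw [hdeg]
  unfold expo
  simp only [Finset.mem_image, Finset.mem_filter, Finset.mem_product, Finset.mem_range, Prod.exists]
  constructor
  · rintro ⟨a, b, c, ⟨_, h⟩, rfl⟩
    simpa using h
  · intro h
    refine ⟨α 0, α 1, α 2, ⟨⟨by omega, by omega, by omega⟩, h⟩, ?_⟩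
    ext i
    fin_cases i <;> simp

theorem shift_add {R : Type*} [CommRing R] (p : Fin 3 → R) (G H : MvPolynomial (Fin 3) R) :
    shift p (G + H) = shift p G + shift p H := by
  simp [shift]

theorem shift_mul {R : Type*} [CommRing R] (p : Fin 3 → R) (G H : MvPolynomial (Fin 3) R) :
    shift p (G * H) = shift p G * shift p H := by
  simp [shift]

namespace JetAAux

open MvPolynomial

theorem shift_sub (p : Fin 3 → ℂ) (G H : MvPolynomial (Fin 3) ℂ) :
    shift p (G - H) = shift p G - shift p H := by
  simp [shift]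

theorem shift_inv (p : Fin 3 → ℂ) (G : MvPolynomial (Fin 3) ℂ) : shift (-p) (shift p G) = G := by
  unfold shift
  rw [bind₁_bind₁]
  conv_rhs => rw [← AlgHom.id_apply (R := ℂ) G]
  congr 1
  apply MvPolynomial.algHom_ext
  intro i
  simp

theorem shift_inv' (p : Fin 3 → ℂ) (G : MvPolynomial (Fin 3) ℂ) : shift p (shift (-p) G) = G := by
  have := shift_inv (-p) G
  rwa [neg_neg] at this

theorem mem_pt_iff (p : Fin 3 → ℂ) (m : ℕ) (G : MvPolynomial (Fin 3) ℂ) :
    G ∈ ptIdeal p ^ m ↔ shift p G ∈ idealOfVars (Fin 3) ℂ ^ m := by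
  have h1 : (ptIdeal p).map (bind₁ (fun i => X i + C (p i)) : MvPolynomial (Fin 3) ℂ →ₐ[ℂ] _) =
      idealOfVars (Fin 3) ℂ := by
    unfold ptIdeal idealOfVars
    rw [Ideal.map_span, ← Set.range_comp]
    congr 2
    funext i
    simp
  have h2 : (idealOfVars (Fin 3) ℂ).map
      (bind₁ (fun i => X i + C ((-p) i)) : MvPolynomial (Fin 3) ℂ →ₐ[ℂ] _) = ptIdeal p := by
    unfold ptIdeal idealOfVars
    rw [Ideal.map_span, ← Set.range_comp]
    congr 2
    funext i
    simp [sub_eq_add_neg]
  constructor
  · intro h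
    have h3 := Ideal.mem_map_of_mem
      (bind₁ (fun i => X i + C (p i)) : MvPolynomial (Fin 3) ℂ →ₐ[ℂ] _) h
    rw [Ideal.map_pow, h1] at h3
    exact h3
  · intro h
    have h3 := Ideal.mem_map_of_mem
      (bind₁ (fun i => X i + C ((-p) i)) : MvPolynomial (Fin 3) ℂ →ₐ[ℂ] _) h
    rw [Ideal.map_pow, h2] at h3
    have h4 := shift_inv p G
    unfold shift at h4 h3
    rw [h4] at h3
    exact h3

theorem mem_vars_iff (m : ℕ) (G : MvPolynomial (Fin 3) ℂ) :
    G ∈ idealOfVars (Fin 3) ℂ ^ m ↔ ∀ α ∈ expo m, coeff α G = 0 := by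
  rw [mem_pow_idealOfVars_iff']
  constructor
  · intro h α hα
    exact h α ((mem_expo m α).1 hα)
  · intro h α hα
    exact h α ((mem_expo m α).2 hα)

theorem coeff_zero_shift (p : Fin 3 → ℂ) (F : MvPolynomial (Fin 3) ℂ) :
    coeff 0 (shift p F) = eval p F := by
  unfold shift
  induction F using MvPolynomial.induction_on with
  | C a => simp
  | add f g hf hg => simp [hf, hg]
  | mul_X f i hf =>
    rw [map_mul, bind₁_X_right, mul_add, coeff_add, mul_comm _ (C (p i)), coeff_C_mul, hf, map_mul,
      eval_X, coeff_mul_X', if_neg (by simp)]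
    ring

theorem coeff_two_shift (p : Fin 3 → ℂ) (F : MvPolynomial (Fin 3) ℂ) :
    coeff (Finsupp.single 2 1) (shift p F) = eval p (pderiv 2 F) := by
  induction F using MvPolynomial.induction_on with
  | C a =>
    unfold shift
    rw [bind₁_C_right, pderiv_C, map_zero, coeff_C, if_neg]
    intro h
    have := DFunLike.congr_fun h 2
    simp at this
  | add f g hf hg =>
    rw [shift_add, coeff_add, hf, hg, map_add, map_add]
  | mul_X f i hf =>
    have h0 := coeff_zero_shift p f
    have h1 : shift p (X i) = X i + C (p i) := by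
      unfold shift
      rw [bind₁_X_right]
    rw [shift_mul, h1, mul_add, coeff_add, mul_comm _ (C (p i)), coeff_C_mul, hf,
      Derivation.leibniz, map_add, smul_eq_mul, smul_eq_mul, map_mul, map_mul, eval_X,
      coeff_mul_X']
    by_cases hi : i = 2
    · subst hi
      simp [h0]
    · have h2 : i ∉ (Finsupp.single (2 : Fin 3) 1).support := by
        rw [Finsupp.support_single _ one_ne_zero, Finset.mem_singleton]
        exact hi
      rw [if_neg h2, pderiv_X_of_ne hi]
      simp

theorem coeff_mul_of_low (A f : MvPolynomial (Fin 3) ℂ) (m : ℕ) (hf : coeff 0 f = 0)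
    (hA : ∀ α, α ∈ expo (m - 1) → coeff α A = 0) (α : Fin 3 →₀ ℕ) (hα : α ∈ expo m) :
    coeff α (A * f) = 0 := by
  classical
  rw [coeff_mul]
  apply Finset.sum_eq_zero
  rintro ⟨x, y⟩ hxy
  rw [Finset.HasAntidiagonal.mem_antidiagonal] at hxy
  change x + y = α at hxy
  rw [mem_expo] at hα
  by_cases hx : x ∈ expo (m - 1)
  · simp [hA x hx]
  · rw [mem_expo] at hx
    have hd : x.degree + y.degree = α.degree := by
      rw [← hxy, map_add]
    have hy : y = 0 := by
      rw [← Finsupp.degree_eq_zero_iff]
      omega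
    subst hy
    simp [hf]

end JetAAux

theorem jet_mem (F G : MvPolynomial (Fin 3) ℂ) (p : Fin 3 → ℂ) (m : ℕ)
    (hF : MvPolynomial.eval p F = 0) :
    G ∈ Ideal.span {F} ⊔ ptIdeal p ^ m ↔
      ∃ A : MvPolynomial (Fin 3) ℂ, (∀ α, α ∉ expo (m - 1) → MvPolynomial.coeff α A = 0) ∧
        ∀ α ∈ expo m, MvPolynomial.coeff α (shift p G - A * shift p F) = 0 := by
  classical
  rw [Ideal.mem_span_singleton_sup]
  constructor
  · rintro ⟨a, b, hb, rfl⟩
    rw [JetAAux.mem_pt_iff, JetAAux.mem_vars_iff] at hb
    set A' := shift p a with hA'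
    set A : MvPolynomial (Fin 3) ℂ :=
      ∑ β ∈ expo (m - 1), MvPolynomial.monomial β (MvPolynomial.coeff β A') with hA
    have hcA : ∀ α, MvPolynomial.coeff α A =
        if α ∈ expo (m - 1) then MvPolynomial.coeff α A' else 0 := by
      intro α
      rw [hA, MvPolynomial.coeff_sum]
      simp only [MvPolynomial.coeff_monomial]
      rw [Finset.sum_ite_eq']
    refine ⟨A, fun α hα => by rw [hcA, if_neg hα], ?_⟩
    intro α hα
    have h1 : shift p (a * F + b) - A * shift p F = (A' - A) * shift p F + shift p b := by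
      rw [shift_add, shift_mul]
      ring
    rw [h1, MvPolynomial.coeff_add, hb α hα, add_zero]
    refine JetAAux.coeff_mul_of_low (A' - A) (shift p F) m ?_ ?_ α hα
    · rw [JetAAux.coeff_zero_shift, hF]
    · intro β hβ
      rw [MvPolynomial.coeff_sub, hcA, if_pos hβ, sub_self]
  · rintro ⟨A, _, h⟩
    refine ⟨shift (-p) A, G - shift (-p) A * F, ?_, by ring⟩
    rw [JetAAux.mem_pt_iff, JetAAux.mem_vars_iff, JetAAux.shift_sub, shift_mul,
      JetAAux.shift_inv']
    exact h

theorem jet_unique (F A : MvPolynomial (Fin 3) ℂ) (p : Fin 3 → ℂ) (m : ℕ)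
    (hF : MvPolynomial.eval p F = 0)
    (hs : MvPolynomial.eval p (MvPolynomial.pderiv 2 F) ≠ 0)
    (hA : ∀ α, α ∉ expo (m - 1) → MvPolynomial.coeff α A = 0)
    (h : ∀ α ∈ expo m, MvPolynomial.coeff α (A * shift p F) = 0) : A = 0 := by
  classical
  by_contra hne
  have hsupp : A.support.Nonempty := MvPolynomial.support_nonempty.2 hne
  obtain ⟨α0, hα0, hmin⟩ := A.support.exists_min_image (fun α => α.degree) hsupp
  set k := α0.degree with hk
  have hkm : k < m - 1 := by
    by_contra hcon
    have h1 : α0 ∉ expo (m - 1) := by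
      rw [mem_expo]
      exact hcon
    exact (MvPolynomial.mem_support_iff.1 hα0) (hA α0 h1)
  set f := shift p F with hf
  have hf0 : MvPolynomial.coeff 0 f = 0 := by
    rw [hf, JetAAux.coeff_zero_shift, hF]
  set Ak := MvPolynomial.homogeneousComponent k A with hAk
  set f1 := MvPolynomial.homogeneousComponent 1 f with hf1
  have hAk0 : Ak ≠ 0 := by
    intro h0
    have h1 : MvPolynomial.coeff α0 Ak = MvPolynomial.coeff α0 A := by
      rw [hAk, MvPolynomial.coeff_homogeneousComponent, if_pos hk.symm]
    rw [h0, MvPolynomial.coeff_zero] at h1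
    exact (MvPolynomial.mem_support_iff.1 hα0) h1.symm
  have hf10 : f1 ≠ 0 := by
    intro h0
    have h1 : MvPolynomial.coeff (Finsupp.single 2 1) f1 =
        MvPolynomial.coeff (Finsupp.single 2 1) f := by
      rw [hf1, MvPolynomial.coeff_homogeneousComponent, if_pos]
      simp
    rw [h0, MvPolynomial.coeff_zero, hf, JetAAux.coeff_two_shift] at h1
    exact hs h1.symm
  have hprod : Ak * f1 ≠ 0 := mul_ne_zero hAk0 hf10
  obtain ⟨d, hd⟩ := MvPolynomial.ne_zero_iff.1 hprod
  have hhom : (Ak * f1).IsHomogeneous (k + 1) :=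
    (MvPolynomial.homogeneousComponent_isHomogeneous k A).mul
      (MvPolynomial.homogeneousComponent_isHomogeneous 1 f)
  have hdd : d.degree = k + 1 := by
    by_contra hcon
    exact hd (hhom.coeff_eq_zero hcon)
  have hdm : d ∈ expo m := by
    rw [mem_expo]
    omega
  have heq : MvPolynomial.coeff d (A * f) = MvPolynomial.coeff d (Ak * f1) := by
    rw [MvPolynomial.coeff_mul, MvPolynomial.coeff_mul]
    apply Finset.sum_congr rfl
    rintro ⟨x, y⟩ hxy
    rw [Finset.HasAntidiagonal.mem_antidiagonal] at hxy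
    change x + y = d at hxy
    have hdeg : x.degree + y.degree = k + 1 := by
      rw [← hdd, ← hxy, map_add]
    change MvPolynomial.coeff x A * MvPolynomial.coeff y f =
      MvPolynomial.coeff x Ak * MvPolynomial.coeff y f1
    rw [hAk, hf1, MvPolynomial.coeff_homogeneousComponent,
      MvPolynomial.coeff_homogeneousComponent]
    by_cases hx : x.degree = k
    · have hy : y.degree = 1 := by omega
      rw [if_pos hx, if_pos hy]
    · rw [if_neg hx, zero_mul]
      by_cases hx0 : MvPolynomial.coeff x A = 0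
      · rw [hx0, zero_mul]
      · have h2 : k ≤ x.degree := hmin x (MvPolynomial.mem_support_iff.2 hx0)
        have hy : y = 0 := by
          rw [← Finsupp.degree_eq_zero_iff]
          omega
        rw [hy, hf0, mul_zero]
  rw [← heq] at hd
  exact hd (h d hdm)

end FPS
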