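import Pool.Agent.Lib.FPS.AlgDep
import Pool.Agent.Lib.FPS.JetA
import Pool.Agent.Lib.FPS.JetB

/-!
# FPS.Prime: the general polynomial of degree `d` is prime

PROOF of `general_prime`. Let `a + b = d`, `a, b ≥ 1`. The products `A B`, `deg A ≤ a`, `deg B ≤ b`, are
the image of a polynomial map `(A, B) ↦ A B` from a space of dimension
`(a+3).choose 3 + (b+3).choose 3 < (d+3).choose 3` (coefficients at the exponents of `expo (a+1)`,
`expo (b+1)`; `card_expo`; `d ≥ 2`: `(a+3).choose 3` is superadditive up to the constant, e.g.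
`(n+4).choose 3 = (n+3).choose 3 + (n+3).choose 2`) into the space of the coefficients at the
exponents of `expo (d+1)`. By `alg_dep` there is `P_a ≠ 0` which vanishes on all these products.
`Φ` = product of the `P_a`, `1 ≤ a ≤ d - 1`, renamed to the variables `Fin 3 →₀ ℕ`; it is nonzero and
involves only variables of `expo (d + 1)`, so it is nonzero at some `F` of degree `≤ d`. If `F` has
degree `d` and `Φ (F) ≠ 0`, then `F` is irreducible: `F = A B` with `A`, `B` not units gives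
`deg A, deg B ≥ 1` (`totalDegree_mul_of_isDomain`; degree `0` and nonzero = unit), so
`P_{deg A} (F) = 0`. Irreducible = prime (`Irreducible.prime`, UFD).
(Compare the proof of `not_product` in `FPS/Forms.lean`.)

PROOF of `common`. `F_t = F1 + t (F2 - F1)`; `Φ1 (F_t)` and `Φ2 (F_t)` are polynomials in `t`
(evaluate `Φ_i` at `C (coeff α F1) + C (coeff α F2 - coeff α F1) * X` in `ℂ[X]`), the first is nonzero
at `t = 0`, the second at `t = 1`; so their product is a nonzero polynomial, with a nonzero value.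
-/

namespace FPS

open MvPolynomial

namespace PrimeAux

theorem mexpo (n : ℕ) (α : Fin 3 →₀ ℕ) : α ∈ expo n ↔ α.degree < n := mem_expo n α

/-- the polynomial with the coefficients `v` -/
noncomputable def plm (k : ℕ) (v : expo (k + 1) → ℂ) : MvPolynomial (Fin 3) ℂ :=
  ∑ α : expo (k + 1), monomial (α : Fin 3 →₀ ℕ) (v α)

theorem coeff_plm (k : ℕ) (v : expo (k + 1) → ℂ) (α : expo (k + 1)) :
    coeff (α : Fin 3 →₀ ℕ) (plm k v) = v α := by
  classical
  unfold plm
  rw [coeff_sum, Finset.sum_eq_single α]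
  · rw [coeff_monomial, if_pos rfl]
  · intro β _ hβ
    rw [coeff_monomial, if_neg fun h => hβ (Subtype.ext h)]
  · intro h
    exact absurd (Finset.mem_univ _) h

theorem coeff_plm_out (k : ℕ) (v : expo (k + 1) → ℂ) (β : Fin 3 →₀ ℕ) (hβ : β ∉ expo (k + 1)) :
    coeff β (plm k v) = 0 := by
  classical
  unfold plm
  rw [coeff_sum]
  refine Finset.sum_eq_zero fun α _ => ?_
  rw [coeff_monomial, if_neg]
  rintro rfl
  exact hβ α.2

theorem deg_plm (k : ℕ) (v : expo (k + 1) → ℂ) : (plm k v).totalDegree ≤ k := by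
  unfold totalDegree
  refine Finset.sup_le fun β hβ => ?_
  by_contra hcon
  rw [mem_support_iff] at hβ
  refine hβ (coeff_plm_out k v β fun h => ?_)
  rw [mexpo] at h
  have h2 : (β.sum fun _ e => e) = β.degree := rfl
  omega

theorem plm_coeff (k : ℕ) (F : MvPolynomial (Fin 3) ℂ) (hF : F.totalDegree ≤ k) :
    plm k (fun α => coeff (α : Fin 3 →₀ ℕ) F) = F := by
  ext β
  by_cases hβ : β ∈ expo (k + 1)
  · exact coeff_plm k _ ⟨β, hβ⟩
  · rw [coeff_plm_out k _ β hβ]
    symm
    by_contra hne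
    rw [mexpo] at hβ
    have h1 := le_totalDegree (mem_support_iff.2 hne)
    have h2 : (β.sum fun _ e => e) = β.degree := rfl
    omega

/-- the generic polynomial -/
noncomputable def gnp (k : ℕ) {σ : Type} (ι : expo (k + 1) → σ) :
    MvPolynomial (Fin 3) (MvPolynomial σ ℂ) :=
  ∑ α : expo (k + 1), monomial (α : Fin 3 →₀ ℕ) (X (ι α))

theorem map_gnp (k : ℕ) {σ : Type} (ι : expo (k + 1) → σ) (t : σ → ℂ) :
    map (eval t) (gnp k ι) = plm k (fun α => t (ι α)) := by
  unfold gnp plm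
  rw [map_sum]
  refine Finset.sum_congr rfl fun α _ => ?_
  rw [map_monomial, eval_X]

theorem num (a : ℕ) (ha : 1 ≤ a) : ∀ b : ℕ, 1 ≤ b →
    (a + 1 + 2).choose 3 + (b + 1 + 2).choose 3 < (a + b + 1 + 2).choose 3 := by
  intro b hb
  induction b, hb using Nat.le_induction with
  | base =>
    have h1 : (a + 1 + 1 + 2).choose 3 = (a + 1 + 2).choose 2 + (a + 1 + 2).choose 3 :=
      Nat.choose_succ_succ' _ _
    have h2 : (4 : ℕ).choose 2 ≤ (a + 1 + 2).choose 2 := Nat.choose_le_choose 2 (by omega)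
    have h3 : (4 : ℕ).choose 2 = 6 := rfl
    have h4 : (1 + 1 + 2 : ℕ).choose 3 = 4 := rfl
    omega
  | succ b hb ih =>
    have h1 : (b + 1 + 1 + 2).choose 3 = (b + 1 + 2).choose 2 + (b + 1 + 2).choose 3 :=
      Nat.choose_succ_succ' _ _
    have h2 : (a + (b + 1) + 1 + 2).choose 3 =
        (a + b + 1 + 2).choose 2 + (a + b + 1 + 2).choose 3 := Nat.choose_succ_succ' _ _
    have h3 : (b + 1 + 2).choose 2 ≤ (a + b + 1 + 2).choose 2 :=
      Nat.choose_le_choose 2 (by omega)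
    omega

theorem one (a b d : ℕ) (ha : 1 ≤ a) (hb : 1 ≤ b) (hab : a + b = d) :
    ∃ P : MvPolynomial (expo (d + 1)) ℂ, P ≠ 0 ∧ ∀ A B : MvPolynomial (Fin 3) ℂ,
      A.totalDegree ≤ a → B.totalDegree ≤ b →
      eval (fun α : expo (d + 1) => coeff (α : Fin 3 →₀ ℕ) (A * B)) P = 0 := by
  classical
  let σ := expo (a + 1) ⊕ expo (b + 1)
  let G : MvPolynomial (Fin 3) (MvPolynomial σ ℂ) :=
    gnp a (fun i => (Sum.inl i : σ)) * gnp b (fun i => (Sum.inr i : σ))
  have hG : ∀ t : σ → ℂ, map (eval t) G =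
      plm a (fun i => t (Sum.inl i)) * plm b (fun i => t (Sum.inr i)) := by
    intro t
    simp only [G, map_mul, map_gnp]
  have hcard : Fintype.card σ < Fintype.card (expo (d + 1)) := by
    have h3 := num a ha b hb
    rw [hab] at h3
    simp only [σ, Fintype.card_sum, Fintype.card_coe, card_expo]
    exact h3
  obtain ⟨P, hP0, hP⟩ := alg_dep hcard (fun α : expo (d + 1) => coeff (α : Fin 3 →₀ ℕ) G)
  refine ⟨P, hP0, fun A B hA hB => ?_⟩
  set t : σ → ℂ := Sum.elim (fun α => coeff (α : Fin 3 →₀ ℕ) A)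
    (fun α => coeff (α : Fin 3 →₀ ℕ) B) with ht
  have h5 := hP t
  have h6 := hG t
  simp only [ht, Sum.elim_inl, Sum.elim_inr] at h6
  rw [plm_coeff a A hA, plm_coeff b B hB] at h6
  have h7 : (fun α : expo (d + 1) => coeff (α : Fin 3 →₀ ℕ) (A * B)) =
      fun α : expo (d + 1) => eval t (coeff (α : Fin 3 →₀ ℕ) G) := by
    funext α
    rw [← h6, coeff_map, ht]
  rw [h7]
  exact h5

theorem isUnit_of_deg {A : MvPolynomial (Fin 3) ℂ} (h0 : A ≠ 0) (h : A.totalDegree = 0) :
    IsUnit A := by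
  rw [totalDegree_eq_zero_iff_eq_C] at h
  rw [h] at h0 ⊢
  refine IsUnit.map C (isUnit_iff_ne_zero.2 fun h1 => h0 ?_)
  rw [h1, C_0]

end PrimeAux

open PrimeAux in
theorem general_prime (d : ℕ) (hd : 2 ≤ d) :
    ∃ Φ : MvPolynomial (Fin 3 →₀ ℕ) ℂ,
      (∃ F : MvPolynomial (Fin 3) ℂ, F.totalDegree ≤ d ∧ eval (fun α => coeff α F) Φ ≠ 0) ∧
      ∀ F : MvPolynomial (Fin 3) ℂ, F.totalDegree = d → eval (fun α => coeff α F) Φ ≠ 0 →
        Prime F := by
  classical
  have hall : ∀ a : ℕ, ∃ P : MvPolynomial (expo (d + 1)) ℂ, P ≠ 0 ∧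
      (1 ≤ a → ∀ b, 1 ≤ b → a + b = d → ∀ A B : MvPolynomial (Fin 3) ℂ,
      A.totalDegree ≤ a → B.totalDegree ≤ b →
      eval (fun α : expo (d + 1) => coeff (α : Fin 3 →₀ ℕ) (A * B)) P = 0) := by
    intro a
    by_cases h : 1 ≤ a ∧ a + 1 ≤ d
    · obtain ⟨P, hP0, hP⟩ := one a (d - a) d h.1 (by omega) (by omega)
      refine ⟨P, hP0, ?_⟩
      intro _ b h2 h12 A B hA hB
      have e3 : d - a = b := by omega
      rw [e3] at hP
      exact hP A B hA hB
    · refine ⟨1, one_ne_zero, ?_⟩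
      intro h1 b h2 h12
      exact absurd ⟨h1, by omega⟩ h
  choose P hP0 hP using hall
  have hQ0 : (∏ a ∈ Finset.range (d + 1), P a) ≠ 0 := Finset.prod_ne_zero_iff.2 fun a _ => hP0 a
  set Q := ∏ a ∈ Finset.range (d + 1), P a with hQ
  have hev : ∀ c : (Fin 3 →₀ ℕ) → ℂ, eval c (rename (fun α : expo (d + 1) => (α : Fin 3 →₀ ℕ)) Q) =
      eval (fun α : expo (d + 1) => c α) Q := by
    intro c
    rw [eval_rename]
    rfl
  refine ⟨rename (fun α : expo (d + 1) => (α : Fin 3 →₀ ℕ)) Q, ?_, ?_⟩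
  · have h1 : ∃ t : expo (d + 1) → ℂ, eval t Q ≠ 0 := by
      by_contra hcon
      push Not at hcon
      exact hQ0 (MvPolynomial.funext fun t => by rw [hcon t, map_zero])
    obtain ⟨t, ht⟩ := h1
    refine ⟨plm d t, deg_plm d t, ?_⟩
    rw [hev]
    have h2 : (fun α : expo (d + 1) => coeff (α : Fin 3 →₀ ℕ) (plm d t)) = t := by
      funext α
      exact coeff_plm d t α
    rw [h2]
    exact ht
  · intro F hF hne
    have hF0 : F ≠ 0 := by
      rintro rfl
      rw [totalDegree_zero] at hF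
      omega
    refine Irreducible.prime ⟨?_, ?_⟩
    · intro hu
      obtain ⟨B, hB⟩ := hu.exists_right_inv
      have hB0 : B ≠ 0 := by
        rintro rfl
        rw [mul_zero] at hB
        exact zero_ne_one hB
      have h1 := totalDegree_mul_of_isDomain hF0 hB0
      rw [hB, totalDegree_one] at h1
      omega
    · intro A B hAB
      have hA0 : A ≠ 0 := by
        rintro rfl
        rw [zero_mul] at hAB
        exact hF0 hAB
      have hB0 : B ≠ 0 := by
        rintro rfl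
        rw [mul_zero] at hAB
        exact hF0 hAB
      by_contra hcon
      push Not at hcon
      have hA1 : 1 ≤ A.totalDegree := by
        by_contra h
        exact hcon.1 (isUnit_of_deg hA0 (by omega))
      have hB1 : 1 ≤ B.totalDegree := by
        by_contra h
        exact hcon.2 (isUnit_of_deg hB0 (by omega))
      have h1 := totalDegree_mul_of_isDomain hA0 hB0
      rw [← hAB, hF] at h1
      rw [hev, hQ, map_prod] at hne
      have h3 := Finset.prod_ne_zero_iff.1 hne A.totalDegree (Finset.mem_range.2 (by omega))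
      apply h3
      rw [hAB]
      exact hP _ hA1 _ hB1 h1.symm A B le_rfl le_rfl

theorem common (d : ℕ) (Φ1 Φ2 : MvPolynomial (Fin 3 →₀ ℕ) ℂ)
    (h1 : ∃ F : MvPolynomial (Fin 3) ℂ, F.totalDegree ≤ d ∧ eval (fun α => coeff α F) Φ1 ≠ 0)
    (h2 : ∃ F : MvPolynomial (Fin 3) ℂ, F.totalDegree ≤ d ∧ eval (fun α => coeff α F) Φ2 ≠ 0) :
    ∃ F : MvPolynomial (Fin 3) ℂ, F.totalDegree ≤ d ∧
      eval (fun α => coeff α F) (Φ1 * Φ2) ≠ 0 := by
  obtain ⟨F1, hF1, hne1⟩ := h1
  obtain ⟨F2, hF2, hne2⟩ := h2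
  -- the pencil
  let φ : (Fin 3 →₀ ℕ) → Polynomial ℂ := fun α =>
    Polynomial.C (coeff α F1) + Polynomial.C (coeff α F2 - coeff α F1) * Polynomial.X
  have hφ : ∀ (Φ : MvPolynomial (Fin 3 →₀ ℕ) ℂ) (t : ℂ),
      (aeval φ Φ).eval t = eval (fun α => coeff α (F1 + C t * (F2 - F1))) Φ := by
    intro Φ t
    have h3 : ((Polynomial.evalRingHom t).comp (aeval φ : MvPolynomial _ ℂ →ₐ[ℂ] _).toRingHom) =
        eval (fun α => coeff α (F1 + C t * (F2 - F1))) := by
      refine MvPolynomial.ringHom_ext (fun r => ?_) (fun α => ?_)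
      · simp
      · simp [φ, coeff_C_mul]
        ring
    exact congrArg (fun f : MvPolynomial (Fin 3 →₀ ℕ) ℂ →+* ℂ => f Φ) h3
  have e1 : aeval φ Φ1 ≠ 0 := by
    intro h
    have h4 := hφ Φ1 0
    rw [h, Polynomial.eval_zero, C_0, zero_mul, add_zero] at h4
    exact hne1 h4.symm
  have e2 : aeval φ Φ2 ≠ 0 := by
    intro h
    have h4 := hφ Φ2 1
    rw [h, Polynomial.eval_zero, C_1, one_mul, add_sub_cancel] at h4
    exact hne2 h4.symm
  have e3 : aeval φ (Φ1 * Φ2) ≠ 0 := by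
    rw [map_mul]
    exact mul_ne_zero e1 e2
  obtain ⟨t, ht⟩ : ∃ t : ℂ, (aeval φ (Φ1 * Φ2)).eval t ≠ 0 := by
    by_contra hcon
    push Not at hcon
    exact e3 (Polynomial.funext fun t => by rw [hcon t, Polynomial.eval_zero])
  refine ⟨F1 + C t * (F2 - F1), ?_, ?_⟩
  · refine (totalDegree_add _ _).trans (max_le hF1 ?_)
    refine (totalDegree_mul _ _).trans ?_
    rw [totalDegree_C, zero_add]
    exact (totalDegree_sub _ _).trans (max_le hF2 hF1)
  · rw [← hφ]
    exact ht

end FPS
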