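import Pool.Agent.Lib.FPS.Final

/-!
# FPS.Main: the expected dimension
-/

namespace FPS

open MvPolynomial

/-- the polynomials of total degree `≤ e` which vanish identically on the surface `F = 0` -/
noncomputable def mults (F : MvPolynomial (Fin 3) ℂ) (e : ℕ) :
    Submodule ℂ (MvPolynomial (Fin 3) ℂ) where
  carrier := {G | G.totalDegree ≤ e ∧ F ∣ G}
  add_mem' := by
    rintro G H ⟨h1, h2⟩ ⟨h3, h4⟩
    exact ⟨(totalDegree_add G H).trans (max_le h1 h3), dvd_add h2 h4⟩
  zero_mem' := ⟨by simp, dvd_zero F⟩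
  smul_mem' := by
    rintro c G ⟨h1, h2⟩
    refine ⟨(totalDegree_smul_le c G).trans h1, ?_⟩
    rw [smul_eq_C_mul]
    exact Dvd.dvd.mul_left h2 _

theorem finrank_mults (F : MvPolynomial (Fin 3) ℂ) (d e : ℕ) (hF : F ≠ 0)
    (hd : F.totalDegree = d) :
    Module.finrank ℂ (mults F e) + h0 d e = (e + 3).choose 3 := by
  classical
  unfold h0
  split_ifs with hde
  · set E' := MvPolynomial.restrictTotalDegree (Fin 3) ℂ (e - d) with hE'
    have hch : (e - d + 3).choose 3 ≤ (e + 3).choose 3 := Nat.choose_le_choose 3 (by omega)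
    set M : MvPolynomial (Fin 3) ℂ →ₗ[ℂ] MvPolynomial (Fin 3) ℂ := LinearMap.mulLeft ℂ F with hM
    have hMinj : Function.Injective M := by
      intro G H hGH
      exact mul_left_cancel₀ hF (by simpa [hM] using hGH)
    have hmap : Submodule.map M E' = mults F e := by
      ext G
      constructor
      · rintro ⟨H, hH, rfl⟩
        have hH' : H.totalDegree ≤ e - d := (MvPolynomial.mem_restrictTotalDegree _ _ _).1 hH
        refine ⟨?_, ⟨H, rfl⟩⟩
        refine (MvPolynomial.totalDegree_mul _ _).trans ?_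
        omega
      · rintro ⟨h1, H, rfl⟩
        refine ⟨H, (MvPolynomial.mem_restrictTotalDegree _ _ _).2 ?_, rfl⟩
        by_cases hH : H = 0
        · rw [hH, totalDegree_zero]; omega
        · rw [totalDegree_mul_of_isDomain hF hH, hd] at h1
          omega
    have h1 : Module.finrank ℂ (mults F e) = (e - d + 3).choose 3 := by
      rw [← special_finrank_E (e - d), ← hmap]
      exact (Submodule.equivMapOfInjective M hMinj E').finrank_eq.symm
    omega
  · have h1 : mults F e = ⊥ := by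
      rw [eq_bot_iff]
      rintro G ⟨h1, H, rfl⟩
      by_cases hH : H = 0
      · simp [hH]
      · rw [totalDegree_mul_of_isDomain hF hH, hd] at h1
        omega
    rw [h1, finrank_bot]
    omega

theorem expected (d e : ℕ) (hd : 4 ≤ d) (he : 1 ≤ e) {r : ℕ} (m : Fin r → ℕ) (μ : ℕ)
    (hμ : ∀ l, m l ≤ μ) (h : Outside d e m μ) :
    ∃ Φ : MvPolynomial (Fin 3 →₀ ℕ) ℂ,
      (∃ F : MvPolynomial (Fin 3) ℂ, F.totalDegree ≤ d ∧ eval (fun α => coeff α F) Φ ≠ 0) ∧
      ∀ F : MvPolynomial (Fin 3) ℂ, F.totalDegree ≤ d → eval (fun α => coeff α F) Φ ≠ 0 →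
        F.totalDegree = d ∧
        ∃ Ψ : MvPolynomial (Fin r × Fin 3) ℂ,
          (∃ q : Fin r → Fin 3 → ℂ, (∀ l, eval (q l) F = 0) ∧
            eval (fun i : Fin r × Fin 3 => q i.1 i.2) Ψ ≠ 0) ∧
          ∀ q : Fin r → Fin 3 → ℂ, (∀ l, eval (q l) F = 0) →
            eval (fun i : Fin r × Fin 3 => q i.1 i.2) Ψ ≠ 0 →
            Module.finrank ℂ (series F e q m)
              = Module.finrank ℂ (mults F e) + (h0 d e - ∑ l, T (m l)) := by
  classical
  obtain ⟨Φ, hF1, hΦ⟩ := main d e hd he m μ hμ h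
  refine ⟨Φ, hF1, fun F hFd hF => ?_⟩
  obtain ⟨hdeg, Ψ, hq, hΨ⟩ := hΦ F hFd hF
  refine ⟨hdeg, Ψ, hq, fun q hq1 hq2 => ?_⟩
  obtain ⟨hc, hb, -⟩ := hΨ q hq1 hq2
  have hF0 : F ≠ 0 := by
    rintro rfl
    rw [totalDegree_zero] at hdeg
    omega
  have hdim := finrank_mults F d e hF0 hdeg
  have hE : FiniteDimensional ℂ (MvPolynomial.restrictTotalDegree (Fin 3) ℂ e) := inferInstance
  have hle : series F e q m ≤ MvPolynomial.restrictTotalDegree (Fin 3) ℂ e := fun G hG =>
    (MvPolynomial.mem_restrictTotalDegree _ _ _).2 hG.1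
  have hfin : FiniteDimensional ℂ (series F e q m) := Submodule.finiteDimensional_of_le hle
  have h1 : Module.finrank ℂ (mults F e) ≤ Module.finrank ℂ (series F e q m) := by
    apply Submodule.finrank_mono
    rintro G ⟨h4, h5⟩
    exact ⟨h4, fun l => Ideal.mem_sup_left (Ideal.mem_span_singleton.2 h5)⟩
  omega

end FPS
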