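import Mathlib

/-!
# FPS.Pencil: a member of a pencil through a point

PROOF of `exists_point`: Nullstellensatz (`MvPolynomial.vanishingIdeal_zeroLocus_eq_radical`); `span {F}`
is prime, so radical; `H ∉ span {F}`.

PROOF of `pencil`. `π (t) = P (coefficients of G0 + t G1)` is a polynomial in `t` (evaluate `P` at
`C (coeff α G0) + C (coeff α G1) * X` in `ℂ[X]`) with `π (0) ≠ 0`; let `t_1, ..., t_n` be its roots. By
`hind`, `F` divides neither `G1` nor any `G0 + t_i G1`; `F` is prime and does not divide `B`, so it does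
not divide `B * G1 * ∏ (G0 + t_i G1)`. By `exists_point` there is a zero `x` of `F` where this product is
nonzero. Put `t = - G0 (x) / G1 (x)`. Then `(G0 + t G1) (x) = 0`, and `t` is not a root of `π`, because
`(G0 + t_i G1) (x) ≠ 0`.
-/

namespace FPS

open MvPolynomial

theorem exists_point (F : MvPolynomial (Fin 3) ℂ) (hF : Prime F) (H : MvPolynomial (Fin 3) ℂ)
    (hH : ¬ F ∣ H) : ∃ x : Fin 3 → ℂ, eval x F = 0 ∧ eval x H ≠ 0 := by
  by_contra hcon
  push Not at hcon
  apply hH
  have h1 : H ∈ vanishingIdeal ℂ (zeroLocus ℂ (Ideal.span {F})) := by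
    rw [mem_vanishingIdeal_iff]
    intro x hx
    rw [mem_zeroLocus_iff] at hx
    have h2 := hx F (Ideal.subset_span rfl)
    have e : ∀ p : MvPolynomial (Fin 3) ℂ, aeval x p = eval x p :=
      fun p => RingHom.congr_fun (coe_aeval_eq_eval x) p
    rw [e] at h2 ⊢
    exact hcon x h2
  rw [vanishingIdeal_zeroLocus_eq_radical] at h1
  have h3 : (Ideal.span {F}).IsPrime := (Ideal.span_singleton_prime hF.ne_zero).2 hF
  rw [h3.isRadical.radical] at h1
  exact Ideal.mem_span_singleton.1 h1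

theorem pencil (F : MvPolynomial (Fin 3) ℂ) (hF : Prime F) (P : MvPolynomial (Fin 3 →₀ ℕ) ℂ)
    (G0 G1 B : MvPolynomial (Fin 3) ℂ) (hP : eval (fun α => coeff α G0) P ≠ 0)
    (hind : ∀ a b : ℂ, F ∣ C a * G0 + C b * G1 → a = 0 ∧ b = 0) (hB : ¬ F ∣ B) :
    ∃ (x : Fin 3 → ℂ) (t : ℂ), eval x F = 0 ∧ eval x B ≠ 0 ∧ eval x G1 ≠ 0 ∧
      eval x (G0 + C t * G1) = 0 ∧ eval (fun α => coeff α (G0 + C t * G1)) P ≠ 0 := by
  classical
  let π : Polynomial ℂ := aeval
    (fun α => Polynomial.C (coeff α G0) + Polynomial.C (coeff α G1) * Polynomial.X) P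
  have hπ : ∀ t : ℂ, π.eval t = eval (fun α => coeff α (G0 + C t * G1)) P := by
    intro t
    have h1 := comp_aeval_apply (R := ℂ)
      (fun α => Polynomial.C (coeff α G0) + Polynomial.C (coeff α G1) * Polynomial.X)
      (Polynomial.aeval t) P
    rw [Polynomial.coe_aeval_eq_eval] at h1
    show Polynomial.eval t (aeval _ P) = _
    have e : ∀ f : (Fin 3 →₀ ℕ) → ℂ, aeval f P = eval f P :=
      fun f => RingHom.congr_fun (coe_aeval_eq_eval f) P
    rw [h1, e]
    refine congrArg (fun f : (Fin 3 →₀ ℕ) → ℂ => eval f P) ?_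
    funext α
    rw [coeff_add, coeff_C_mul, Polynomial.eval_add, Polynomial.eval_C_mul, Polynomial.eval_C,
      Polynomial.eval_X, mul_comm]
  have hπ0 : π ≠ 0 := by
    intro h
    apply hP
    have h2 := hπ 0
    rw [h, Polynomial.eval_zero] at h2
    rw [C_0, zero_mul, add_zero] at h2
    exact h2.symm
  have hG : ∀ s : ℂ, ¬ F ∣ G0 + C s * G1 := by
    intro s hs
    have h2 := hind 1 s (by rwa [C_1, one_mul])
    exact one_ne_zero h2.1
  have hG1 : ¬ F ∣ G1 := by
    intro hs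
    have h2 := hind 0 1 (by rwa [C_0, zero_mul, zero_add, C_1, one_mul])
    exact one_ne_zero h2.2
  have hprod : ¬ F ∣ B * G1 * ∏ s ∈ π.roots.toFinset, (G0 + C s * G1) := by
    intro h
    rcases hF.dvd_or_dvd h with h | h
    · rcases hF.dvd_or_dvd h with h | h
      · exact hB h
      · exact hG1 h
    · obtain ⟨s, -, hs⟩ := hF.exists_mem_finset_dvd h
      exact hG s hs
  obtain ⟨x, hx1, hx2⟩ := exists_point F hF _ hprod
  rw [map_mul, map_mul, map_prod] at hx2
  have hxB : eval x B ≠ 0 := fun h => hx2 (by rw [h, zero_mul, zero_mul])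
  have hxG : eval x G1 ≠ 0 := fun h => hx2 (by rw [h, mul_zero, zero_mul])
  have hxP : ∀ s ∈ π.roots.toFinset, eval x (G0 + C s * G1) ≠ 0 := by
    intro s hs h
    exact hx2 (by rw [Finset.prod_eq_zero hs h, mul_zero])
  have h0 : eval x (G0 + C (-(eval x G0) / eval x G1) * G1) = 0 := by
    rw [map_add, map_mul, eval_C, div_mul_cancel₀ _ hxG, add_neg_cancel]
  refine ⟨x, -(eval x G0) / eval x G1, hx1, hxB, hxG, h0, ?_⟩
  rw [← hπ]
  intro h
  refine hxP _ ?_ h0
  rw [Multiset.mem_toFinset, Polynomial.mem_roots hπ0]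
  exact h

end FPS
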