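import Pool.Agent.Lib.FPS.Irr
import Pool.Agent.Lib.FPS.Pencil
import Pool.Agent.Lib.FPS.Main

/-!
# FPS.SimpInd: adding simple points to a series with a good member
-/

namespace FPS

open MvPolynomial

theorem eval_of_mem (F G : MvPolynomial (Fin 3) ℂ) (x : Fin 3 → ℂ) (hF : eval x F = 0)
    (h : G ∈ Ideal.span {F} ⊔ ptIdeal x ^ 1) : eval x G = 0 := by
  have h1 : Ideal.span {F} ⊔ ptIdeal x ^ 1 ≤ RingHom.ker (eval x) := by
    rw [pow_one]
    refine sup_le ?_ ?_
    · rw [Ideal.span_le]
      intro H hH
      rw [Set.mem_singleton_iff] at hH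
      rw [hH]
      exact hF
    · unfold ptIdeal
      rw [Ideal.span_le]
      rintro _ ⟨i, rfl⟩
      show eval x (X i - C (x i)) = 0
      simp
  exact h1 h

theorem mem_of_eval (F G : MvPolynomial (Fin 3) ℂ) (x : Fin 3 → ℂ) (h : eval x G = 0) :
    G ∈ Ideal.span {F} ⊔ ptIdeal x ^ 1 := by
  rw [pow_one]
  refine Ideal.mem_sup_right ?_
  have key : ∀ H : MvPolynomial (Fin 3) ℂ, H - C (eval x H) ∈ ptIdeal x := by
    intro H
    induction H using MvPolynomial.induction_on with
    | C a => simp
    | add A B h1 h2 =>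
      have h3 : A + B - C (eval x (A + B)) = (A - C (eval x A)) + (B - C (eval x B)) := by
        rw [map_add, C_add]; ring
      rw [h3]
      exact Ideal.add_mem _ h1 h2
    | mul_X A i h1 =>
      have h3 : A * X i - C (eval x (A * X i)) =
          (A - C (eval x A)) * X i + C (eval x A) * (X i - C (x i)) := by
        rw [map_mul, eval_X, C_mul]; ring
      rw [h3]
      exact Ideal.add_mem _ (Ideal.mul_mem_right _ _ h1)
        (Ideal.mul_mem_left _ _ (Ideal.subset_span ⟨i, rfl⟩))
  have h1 := key G
  rwa [h, C_0, sub_zero] at h1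

theorem simple_points {r : ℕ} (d e : ℕ) (F : MvPolynomial (Fin 3) ℂ) (hF : Prime F)
    (hFd : F.totalDegree = d) (P : MvPolynomial (Fin 3 →₀ ℕ) ℂ)
    (hP : ∀ G : MvPolynomial (Fin 3) ℂ, G.totalDegree ≤ e → eval (fun α => coeff α G) P ≠ 0 →
      ¬ F ∣ G)
    (q1 : Fin r → Fin 3 → ℂ) (m : Fin r → ℕ) (hq1 : ∀ l, eval (q1 l) F = 0)
    (hs1 : ∀ l, eval (q1 l) (pderiv 2 F) ≠ 0)
    (hdim : Module.finrank ℂ (series F e q1 m) + ∑ l, T (m l) ≤ (e + 3).choose 3)
    (hG : ∃ G ∈ series F e q1 m, eval (fun α => coeff α G) P ≠ 0)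
    (s : Finset (Fin r)) (hs : ∀ l ∈ s, m l = 0) (hlt : ∑ l, T (m l) + s.card < h0 d e) :
    ∃ q : Fin r → Fin 3 → ℂ, (∀ l, eval (q l) F = 0) ∧ (∀ l, eval (q l) (pderiv 2 F) ≠ 0) ∧
      Module.finrank ℂ (series F e q (fun l => if l ∈ s then 1 else m l)) + ∑ l, T (m l) + s.card
        ≤ (e + 3).choose 3 ∧
      ∃ G ∈ series F e q (fun l => if l ∈ s then 1 else m l), eval (fun α => coeff α G) P ≠ 0 := by
  classical
  have hF0 : F ≠ 0 := hF.ne_zero
  induction s using Finset.induction_on with
  | empty =>
    simp only [Finset.notMem_empty, if_false, Finset.card_empty, add_zero]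
    exact ⟨q1, hq1, hs1, hdim, hG⟩
  | insert a s ha ih =>
    rw [Finset.card_insert_of_notMem ha] at hlt
    obtain ⟨q, hq, hqs, hd, G0, hG0, hPG0⟩ := ih (fun l hl => hs l (Finset.mem_insert_of_mem hl))
      (by omega)
    set L := series F e q (fun l => if l ∈ s then 1 else m l) with hL
    have hle : L ≤ MvPolynomial.restrictTotalDegree (Fin 3) ℂ e := fun G hG =>
      (mem_restrictTotalDegree _ _ _).2 hG.1
    have hEf : FiniteDimensional ℂ (MvPolynomial.restrictTotalDegree (Fin 3) ℂ e) := inferInstance
    have hLf : FiniteDimensional ℂ L := Submodule.finiteDimensional_of_le hle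
    have hMf : FiniteDimensional ℂ (mults F e) := by
      refine Submodule.finiteDimensional_of_le (S₂ := MvPolynomial.restrictTotalDegree (Fin 3) ℂ e) ?_
      exact fun G hG => (mem_restrictTotalDegree _ _ _).2 hG.1
    have hsumT : ∑ l, T (if l ∈ s then 1 else m l) = ∑ l, T (m l) + s.card := by
      have h0 : s.card = ∑ l : Fin r, if l ∈ s then 1 else 0 := by simp
      rw [h0, ← Finset.sum_add_distrib]
      refine Finset.sum_congr rfl fun l _ => ?_
      split_ifs with h1
      · rw [hs l (Finset.mem_insert_of_mem h1)]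
        rfl
      · rfl
    have hcnt := count F e q (fun l => if l ∈ s then 1 else m l) hq hqs
    rw [hsumT, ← hL] at hcnt
    have hmul := finrank_mults F d e hF0 hFd
    -- a second element
    obtain ⟨G1, hG1, hG1'⟩ : ∃ G1 ∈ L, G1 ∉ mults F e ⊔ Submodule.span ℂ {G0} := by
      by_contra hcon
      push Not at hcon
      have h1 : L ≤ mults F e ⊔ Submodule.span ℂ {G0} := hcon
      have hspf : FiniteDimensional ℂ (Submodule.span ℂ {G0}) :=
        FiniteDimensional.span_of_finite ℂ (Set.finite_singleton G0)
      have h2 := Submodule.finrank_mono h1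
      have h3 := Submodule.finrank_add_le_finrank_add_finrank (mults F e) (Submodule.span ℂ {G0})
      have h4 : Module.finrank ℂ (Submodule.span ℂ {G0}) ≤ 1 := by
        have := finrank_span_le_card (R := ℂ) ({G0} : Set (MvPolynomial (Fin 3) ℂ))
        simpa using this
      omega
    have hind : ∀ a b : ℂ, F ∣ C a * G0 + C b * G1 → a = 0 ∧ b = 0 := by
      intro a b hab
      have hb : b = 0 := by
        by_contra hb
        apply hG1'
        have h1 : G1 = C b⁻¹ * (C a * G0 + C b * G1) + (-(b⁻¹ * a)) • G0 := by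
          rw [smul_eq_C_mul, C_neg, C_mul]
          have h2 : (C b⁻¹ : MvPolynomial (Fin 3) ℂ) * C b = 1 := by
            rw [← C_mul, inv_mul_cancel₀ hb, C_1]
          linear_combination (-G1) * h2
        rw [h1]
        refine Submodule.add_mem_sup ⟨?_, Dvd.dvd.mul_left hab _⟩
          (Submodule.smul_mem _ _ (Submodule.mem_span_singleton_self G0))
        rw [← smul_eq_C_mul, ← smul_eq_C_mul, ← smul_eq_C_mul]
        refine (totalDegree_smul_le _ _).trans ((totalDegree_add _ _).trans (max_le ?_ ?_))
        · exact (totalDegree_smul_le _ _).trans hG0.1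
        · exact (totalDegree_smul_le _ _).trans hG1.1
      refine ⟨?_, hb⟩
      by_contra ha'
      rw [hb, C_0, zero_mul, add_zero] at hab
      apply hP G0 hG0.1 hPG0
      have h2 : G0 = C a⁻¹ * (C a * G0) := by
        rw [← mul_assoc, ← C_mul, inv_mul_cancel₀ ha', C_1, one_mul]
      rw [h2]
      exact Dvd.dvd.mul_left hab _
    have hB : ¬ F ∣ pderiv 2 F := by
      rintro ⟨H, hH⟩
      apply hqs a
      rw [hH, map_mul, hq a, zero_mul]
    obtain ⟨x, t, hx1, hx2, hx3, hx4, hx5⟩ := pencil F hF P G0 G1 (pderiv 2 F) hPG0 hind hB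
    have hGL : G0 + C t * G1 ∈ L := by
      rw [← smul_eq_C_mul]
      exact L.add_mem hG0 (L.smul_mem t hG1)
    have hma : m a = 0 := hs a (Finset.mem_insert_self a s)
    have hle' : series F e (Function.update q a x)
        (fun l => if l ∈ insert a s then 1 else m l) ≤ L := by
      rintro G ⟨h1, h2⟩
      refine ⟨h1, fun l => ?_⟩
      by_cases hl : l = a
      · subst hl
        simp only [if_neg ha, hma, pow_zero]
        exact Ideal.mem_sup_right (by rw [Ideal.one_eq_top]; exact Submodule.mem_top)
      · have h3 := h2 l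
        simp only [Function.update_of_ne hl, Finset.mem_insert, hl, false_or] at h3
        exact h3
    refine ⟨Function.update q a x, fun l => ?_, fun l => ?_, ?_, G0 + C t * G1, ⟨hGL.1, fun l => ?_⟩,
      hx5⟩
    · by_cases hl : l = a
      · subst hl
        rw [Function.update_self]
        exact hx1
      · rw [Function.update_of_ne hl]
        exact hq l
    · by_cases hl : l = a
      · subst hl
        rw [Function.update_self]
        exact hx2
      · rw [Function.update_of_ne hl]
        exact hqs l
    · rw [Finset.card_insert_of_notMem ha]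
      have h1 : series F e (Function.update q a x)
          (fun l => if l ∈ insert a s then 1 else m l) < L := by
        refine lt_of_le_of_ne hle' fun heq => ?_
        have h2 := hG1
        rw [← heq] at h2
        have h3 := h2.2 a
        simp only [Function.update_self, Finset.mem_insert_self, if_true] at h3
        exact hx3 (eval_of_mem F G1 x hx1 h3)
      have h2 := Submodule.finrank_lt_finrank_of_lt h1
      omega
    · by_cases hl : l = a
      · subst hl
        simp only [Function.update_self, Finset.mem_insert_self, if_true]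
        exact mem_of_eval F _ x hx4
      · have h3 := hGL.2 l
        simp only [Function.update_of_ne hl, Finset.mem_insert, hl, false_or]
        exact h3

end FPS
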