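import Pool.Agent.Lib.FPS.OpenFix
import Pool.Agent.Lib.FPS.SimpInd
import Pool.Agent.Lib.FPS.Family
import Pool.Agent.Lib.FPS.Prime
import Pool.Agent.Lib.FPS.Main2

/-!
# FPS.IrrMain3: irreducibility of the general member, with arbitrarily many simple points and the
smaller of the two error terms
-/

namespace FPS

open MvPolynomial

theorem irr_main3 (d e : ℕ) (hd : 4 ≤ d) (he : 3 ≤ e) {r : ℕ} (m : Fin r → ℕ) (μ : ℕ)
    (hμ : ∀ l, m l ≤ μ)
    (h : ∑ l, (if 2 ≤ m l then T (m l) else 0) + min (err1 d (e - 1) μ) (err d (e - 1) μ)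
      ≤ h0 d (e - 1))
    (hlt : ∑ l, T (m l) < h0 d e) :
    ∃ Φ : MvPolynomial (Fin 3 →₀ ℕ) ℂ,
      (∃ F : MvPolynomial (Fin 3) ℂ, F.totalDegree ≤ d ∧ eval (fun α => coeff α F) Φ ≠ 0) ∧
      ∀ F : MvPolynomial (Fin 3) ℂ, F.totalDegree ≤ d → eval (fun α => coeff α F) Φ ≠ 0 →
        F.totalDegree = d ∧ Prime F ∧
        ∃ Ψ : MvPolynomial (Fin r × Fin 3) ℂ,
          (∃ q : Fin r → Fin 3 → ℂ, (∀ l, eval (q l) F = 0) ∧
            eval (fun i : Fin r × Fin 3 => q i.1 i.2) Ψ ≠ 0) ∧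
          ∀ q : Fin r → Fin 3 → ℂ, (∀ l, eval (q l) F = 0) →
            eval (fun i : Fin r × Fin 3 => q i.1 i.2) Ψ ≠ 0 →
            Module.finrank ℂ (series F e q m)
              = Module.finrank ℂ (mults F e) + (h0 d e - ∑ l, T (m l)) ∧
            ∃ P : MvPolynomial (Fin 3 →₀ ℕ) ℂ,
              (∃ G ∈ series F e q m, eval (fun α => coeff α G) P ≠ 0) ∧
              ∀ G ∈ series F e q m, eval (fun α => coeff α G) P ≠ 0 → Indec F e G := by
  classical
  set m' : Fin r → ℕ := fun l => if 2 ≤ m l then m l else 0 with hm'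
  have hTm' : ∀ l, T (m' l) = if 2 ≤ m l then T (m l) else 0 := by
    intro l
    simp only [hm']
    split_ifs
    · rfl
    · rfl
  have hmain := main2 d (e - 1) hd (by omega) m' μ
    (fun l => by
      simp only [hm']
      split_ifs
      · exact hμ l
      · exact Nat.zero_le _)
    (Or.inl (by
      refine le_trans (le_of_eq ?_) h
      congr 1
      refine Finset.sum_congr rfl fun l _ => ?_
      rw [hTm' l]
      simp only [hm']
      split_ifs <;> rfl))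
  obtain ⟨Φ1, hF1, hΦ1⟩ := hmain
  obtain ⟨Φ2, hF2, hΦ2⟩ := general_prime d (by omega)
  refine ⟨Φ1 * Φ2, common d Φ1 Φ2 hF1 hF2, fun F hFd hF => ?_⟩
  rw [map_mul] at hF
  obtain ⟨hdeg, Ψ1, ⟨q1, hq1, hΨq1⟩, hΨ1⟩ := hΦ1 F hFd (left_ne_zero_of_mul hF)
  have hprime : Prime F := hΦ2 F hdeg (right_ne_zero_of_mul hF)
  obtain ⟨hc, hb, hs⟩ := hΨ1 q1 hq1 hΨq1
  have hF0 : F ≠ 0 := hprime.ne_zero
  have hsumm' : ∑ l, T (m' l) = ∑ l, (if 2 ≤ m l then T (m l) else 0) :=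
    Finset.sum_congr rfl fun l _ => hTm' l
  have hb' : Module.finrank ℂ (series F (e - 1) q1 m') + ∑ l, T (m' l) ≤ (e - 1 + 3).choose 3 := by
    omega
  have hsurj : ∀ H : MvPolynomial (Fin 3) ℂ, ∃ G : MvPolynomial (Fin 3) ℂ,
      G.totalDegree ≤ e - 1 ∧ ∀ l, H - G ∈ Ideal.span {F} ⊔ ptIdeal (q1 l) ^ m' l :=
    fun H => surj F q1 m' (e - 1) (fun e' => count F e' q1 m' hq1 hs) hb' H
  obtain ⟨P, hPg, hP1, hP2⟩ := irr_poly d e hd he F hdeg
  obtain ⟨G0, hG0, hPG0⟩ := irr_exists e (by omega) F q1 m' P hPg hP1 hsurj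
  have hdimup := dim_up F e q1 m' hb' hsurj
  have hsplit : ∑ l, T (m l) = ∑ l, T (m' l) + (Finset.univ.filter fun l => m l = 1).card := by
    rw [Finset.card_filter, ← Finset.sum_add_distrib]
    refine Finset.sum_congr rfl fun l _ => ?_
    rw [hTm' l]
    split_ifs with h1 h2
    · omega
    · rfl
    · rename_i h2
      rw [h2]
      rfl
    · have : m l = 0 := by omega
      rw [this]
      rfl
  obtain ⟨q0, hq0, hs0, hd0, G1, hG1, hPG1⟩ := simple_points d e F hprime hdeg P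
    (fun G hG hPG hdvd => by
      refine hP2 G hG hPG 1 (e - 1) (le_refl 1) (by omega) (by omega) 0 0 (by simp) (by simp) ?_
      rw [mul_zero, sub_zero]
      exact hdvd)
    q1 m' hq1 hs hdimup ⟨G0, hG0, hPG0⟩ (Finset.univ.filter fun l => m l = 1)
    (fun l hl => by
      rw [Finset.mem_filter] at hl
      simp only [hm']
      rw [if_neg (by omega)])
    (by omega)
  have hm : (fun l => if l ∈ Finset.univ.filter (fun l => m l = 1) then 1 else m' l) = m := by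
    funext l
    simp only [Finset.mem_filter, Finset.mem_univ, true_and, hm']
    split_ifs <;> omega
  rw [hm] at hd0 hG1
  have hd0' : Module.finrank ℂ (series F e q0 m) + ∑ l, T (m l) ≤ (e + 3).choose 3 := by omega
  obtain ⟨Ψa, hΨa0, hΨa⟩ := open_fixed F e m q0 hq0 hs0
  obtain ⟨Ψb, hΨb0, hΨb⟩ := family F e q0 m hq0 hs0 hd0' P G1 hG1 hPG1
  refine ⟨hdeg, hprime, Ψa * Ψb, ⟨q0, hq0, ?_⟩, fun q hq1 hq2 => ?_⟩
  · rw [map_mul]
    exact mul_ne_zero hΨa0 hΨb0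
  · rw [map_mul] at hq2
    obtain ⟨h1, h2, -⟩ := hΨa q hq1 (left_ne_zero_of_mul hq2)
    obtain ⟨G, hG, hPG⟩ := hΨb q hq1 (right_ne_zero_of_mul hq2)
    have h3 := finrank_mults F d e hF0 hdeg
    refine ⟨by omega, P, ⟨G, hG, hPG⟩, fun G' hG' hPG' => hP2 G' hG'.1 hPG'⟩

end FPS
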