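import Pool.Agent.Lib.FPS.JetA
import Pool.Agent.Lib.FPS.JetB

/-!
# FPS.Jets: the dimension of the series and the rank of the matrix `Theta`

PROOF. By `card_expo`, `Theta` has `(e+3).choose 3 + ∑_l (m l + 1).choose 3` columns (for `m l = 0`:
`expo (0 - 1) = expo 0 = ∅` and `1.choose 3 = 0`) and `∑_l (m l + 2).choose 3` rows.
A column vector `v` is a pair `(G, (A_l))`: `G = ∑ v_β x^β`, `deg G ≤ e`, `A_l = ∑ v_γ x^γ`,
`deg A_l < m l - 1`, and `(Theta v)_(l,α) = coeff_α (shift (p l) G - A_l * shift (p l) F)`.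
(1) By `jet_mem`, `(G, A) ↦ G` maps the kernel onto `series` if all `F (p l) = 0`. Hence
`finrank series ≤ dim ker = #columns - rank`.
(2) By `jet_unique` it is injective on the kernel if moreover all `∂F/∂z (p l) ≠ 0`. Hence equality.
`count`: `rank ≤ #rows = ∑ (m l + 2).choose 3 = ∑ ((m l + 1).choose 3 + T (m l))`.
-/

namespace FPS

noncomputable section

namespace JetsAux

open MvPolynomial

/-- the polynomial `G` of a column vector -/
def Gof (n : ℕ) : ((expo n) → ℂ) →ₗ[ℂ] MvPolynomial (Fin 3) ℂ where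
  toFun v := ∑ β : expo n, MvPolynomial.monomial β.1 (v β)
  map_add' v w := by
    simp [Finset.sum_add_distrib]
  map_smul' c v := by
    simp [Finset.smul_sum, MvPolynomial.smul_monomial]

theorem Gof_apply (n : ℕ) (v : (expo n) → ℂ) :
    Gof n v = ∑ β : expo n, MvPolynomial.monomial β.1 (v β) := rfl

theorem coeff_Gof_mem (n : ℕ) (v : (expo n) → ℂ) (α : expo n) :
    MvPolynomial.coeff α.1 (Gof n v) = v α := by
  classical
  rw [Gof_apply, MvPolynomial.coeff_sum]
  rw [Finset.sum_eq_single α]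
  · simp
  · intro β _ hβ
    rw [MvPolynomial.coeff_monomial, if_neg]
    intro h
    exact hβ (Subtype.ext h)
  · intro h
    exact absurd (Finset.mem_univ _) h

theorem coeff_Gof_not_mem (n : ℕ) (v : (expo n) → ℂ) (α : Fin 3 →₀ ℕ) (hα : α ∉ expo n) :
    MvPolynomial.coeff α (Gof n v) = 0 := by
  classical
  rw [Gof_apply, MvPolynomial.coeff_sum]
  refine Finset.sum_eq_zero fun β _ => ?_
  rw [MvPolynomial.coeff_monomial, if_neg]
  rintro rfl
  exact hα β.2

theorem Gof_coeff (n : ℕ) (G : MvPolynomial (Fin 3) ℂ)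
    (h : ∀ α, α ∉ expo n → MvPolynomial.coeff α G = 0) :
    Gof n (fun β => MvPolynomial.coeff β.1 G) = G := by
  ext α
  by_cases hα : α ∈ expo n
  · exact coeff_Gof_mem n (fun β => MvPolynomial.coeff β.1 G) ⟨α, hα⟩
  · rw [coeff_Gof_not_mem n _ α hα, h α hα]

theorem Gof_inj (n : ℕ) (v : (expo n) → ℂ) (h : Gof n v = 0) : v = 0 := by
  funext β
  rw [← coeff_Gof_mem n v β, h]
  simp

theorem shift_monomial (p : Fin 3 → ℂ) (β : Fin 3 →₀ ℕ) (c : ℂ) :
    shift p (MvPolynomial.monomial β c) = c • shift p (MvPolynomial.monomial β 1) := by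
  have h : (MvPolynomial.monomial β c : MvPolynomial (Fin 3) ℂ)
      = c • MvPolynomial.monomial β 1 := by
    rw [MvPolynomial.smul_monomial, smul_eq_mul, mul_one]
  rw [h]
  exact map_smul (MvPolynomial.bind₁ (fun i => MvPolynomial.X i + MvPolynomial.C (p i))) c _

theorem shift_Gof (n : ℕ) (p : Fin 3 → ℂ) (v : (expo n) → ℂ) :
    shift p (Gof n v) = ∑ β : expo n, v β • shift p (MvPolynomial.monomial β.1 1) := by
  have h : shift p (Gof n v) = ∑ β : expo n, shift p (MvPolynomial.monomial β.1 (v β)) :=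
    map_sum (MvPolynomial.bind₁ (fun i => MvPolynomial.X i + MvPolynomial.C (p i))) _ _
  rw [h]
  exact Finset.sum_congr rfl fun β _ => shift_monomial p β.1 (v β)

theorem theta_mulVec {r : ℕ} (F : MvPolynomial (Fin 3) ℂ) (e : ℕ) (p : Fin r → Fin 3 → ℂ)
    (m : Fin r → ℕ) (v : (expo (e + 1) ⊕ (Σ l : Fin r, expo (m l - 1))) → ℂ)
    (α : Σ l : Fin r, expo (m l)) :
    (Theta F e p m).mulVec v α = MvPolynomial.coeff α.2.1
      (shift (p α.1) (Gof (e + 1) (fun β => v (Sum.inl β)))
        - Gof (m α.1 - 1) (fun γ => v (Sum.inr ⟨α.1, γ⟩)) * shift (p α.1) F) := by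
  classical
  rw [Matrix.mulVec, dotProduct, Fintype.sum_sum_type, MvPolynomial.coeff_sub, shift_Gof,
    MvPolynomial.coeff_sum, sub_eq_add_neg]
  congr 1
  · refine Finset.sum_congr rfl fun β _ => ?_
    rw [MvPolynomial.coeff_smul, smul_eq_mul, mul_comm]
    rfl
  · rw [Gof_apply, Finset.sum_mul, MvPolynomial.coeff_sum, ← Finset.sum_neg_distrib,
      Fintype.sum_sigma]
    rw [Finset.sum_eq_single α.1]
    · refine Finset.sum_congr rfl fun γ _ => ?_
      have h : (MvPolynomial.monomial γ.1 (v (Sum.inr ⟨α.1, γ⟩)) : MvPolynomial (Fin 3) ℂ)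
          = v (Sum.inr ⟨α.1, γ⟩) • MvPolynomial.monomial γ.1 1 := by
        rw [MvPolynomial.smul_monomial, smul_eq_mul, mul_one]
      rw [h, smul_mul_assoc, MvPolynomial.coeff_smul, smul_eq_mul]
      simp only [Theta]
      simp only [if_true]
      ring
    · intro l _ hl
      refine Finset.sum_eq_zero fun γ _ => ?_
      simp only [Theta]
      rw [if_neg (fun h => hl h.symm), zero_mul]
    · intro h
      exact absurd (Finset.mem_univ _) h

/-- the projection `v ↦ G` -/
def proj {r : ℕ} (e : ℕ) (m : Fin r → ℕ) :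
    ((expo (e + 1) ⊕ (Σ l : Fin r, expo (m l - 1))) → ℂ) →ₗ[ℂ] MvPolynomial (Fin 3) ℂ :=
  (Gof (e + 1)).comp (LinearMap.funLeft ℂ ℂ Sum.inl)

theorem proj_apply {r : ℕ} (e : ℕ) (m : Fin r → ℕ)
    (v : (expo (e + 1) ⊕ (Σ l : Fin r, expo (m l - 1))) → ℂ) :
    proj e m v = Gof (e + 1) (fun β => v (Sum.inl β)) := rfl

theorem series_eq {r : ℕ} (F : MvPolynomial (Fin 3) ℂ) (e : ℕ) (p : Fin r → Fin 3 → ℂ)
    (m : Fin r → ℕ) (hp : ∀ l, MvPolynomial.eval (p l) F = 0) :
    series F e p m = (LinearMap.ker (Theta F e p m).mulVecLin).map (proj e m) := by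
  classical
  ext G
  constructor
  · rintro ⟨h1, h2⟩
    have h3 : ∀ l, ∃ A : MvPolynomial (Fin 3) ℂ,
        (∀ α, α ∉ expo (m l - 1) → MvPolynomial.coeff α A = 0) ∧
        ∀ α ∈ expo (m l), MvPolynomial.coeff α (shift (p l) G - A * shift (p l) F) = 0 :=
      fun l => (jet_mem F G (p l) (m l) (hp l)).1 (h2 l)
    choose A hA1 hA2 using h3
    have hG : ∀ α, α ∉ expo (e + 1) → MvPolynomial.coeff α G = 0 := by
      intro α hα
      rw [mem_expo] at hα
      by_contra h
      have h4 : α ∈ G.support := MvPolynomial.mem_support_iff.2 h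
      have h5 := MvPolynomial.le_totalDegree h4
      have h6 : α.degree = α.sum fun _ e => e := by
        rw [Finsupp.degree, Finsupp.sum]
        rfl
      omega
    refine ⟨Sum.elim (fun β => MvPolynomial.coeff β.1 G)
      (fun γ => MvPolynomial.coeff γ.2.1 (A γ.1)), ?_, ?_⟩
    · rw [SetLike.mem_coe, LinearMap.mem_ker]
      funext α
      rw [Matrix.mulVecLin_apply, theta_mulVec]
      simp only [Sum.elim_inl, Sum.elim_inr]
      rw [Gof_coeff _ G hG, Gof_coeff _ (A α.1) (hA1 α.1)]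
      exact hA2 α.1 α.2.1 α.2.2
    · rw [proj_apply]
      simp only [Sum.elim_inl]
      exact Gof_coeff _ G hG
  · rintro ⟨v, hv, rfl⟩
    rw [SetLike.mem_coe, LinearMap.mem_ker] at hv
    refine ⟨?_, fun l => ?_⟩
    · rw [proj_apply]
      refine Finset.sup_le fun α hα => ?_
      by_contra h
      rw [MvPolynomial.mem_support_iff] at hα
      apply hα
      apply coeff_Gof_not_mem
      rw [mem_expo]
      have h6 : α.degree = α.sum fun _ e => e := by
        rw [Finsupp.degree, Finsupp.sum]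
        rfl
      omega
    · rw [jet_mem F _ (p l) (m l) (hp l)]
      refine ⟨Gof (m l - 1) (fun γ => v (Sum.inr ⟨l, γ⟩)), ?_, ?_⟩
      · intro α hα
        exact coeff_Gof_not_mem _ _ α hα
      · intro α hα
        have h := congr_fun hv (⟨l, ⟨α, hα⟩⟩ : Σ l : Fin r, expo (m l))
        rw [Matrix.mulVecLin_apply, theta_mulVec] at h
        exact h

theorem inj {r : ℕ} (F : MvPolynomial (Fin 3) ℂ) (e : ℕ) (p : Fin r → Fin 3 → ℂ)
    (m : Fin r → ℕ) (hp : ∀ l, MvPolynomial.eval (p l) F = 0)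
    (hs : ∀ l, MvPolynomial.eval (p l) (MvPolynomial.pderiv 2 F) ≠ 0) :
    Function.Injective ((proj e m).domRestrict (LinearMap.ker (Theta F e p m).mulVecLin)) := by
  rw [← LinearMap.ker_eq_bot, LinearMap.ker_eq_bot']
  rintro ⟨v, hv⟩ h
  rw [LinearMap.mem_ker] at hv
  rw [LinearMap.domRestrict_apply, proj_apply] at h
  have h1 := Gof_inj _ _ h
  apply Subtype.ext
  funext c
  rcases c with β | ⟨l, γ⟩
  · exact congr_fun h1 β
  · have h2 : Gof (m l - 1) (fun γ => v (Sum.inr ⟨l, γ⟩)) = 0 := by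
      refine jet_unique F _ (p l) (m l) (hp l) (hs l)
        (fun α hα => coeff_Gof_not_mem _ _ α hα) ?_
      intro α hα
      have h3 := congr_fun hv (⟨l, ⟨α, hα⟩⟩ : Σ l : Fin r, expo (m l))
      rw [Matrix.mulVecLin_apply, theta_mulVec] at h3
      simp only at h h3
      have h4 : shift (p l) (0 : MvPolynomial (Fin 3) ℂ) = 0 :=
        map_zero (MvPolynomial.bind₁ (fun i => MvPolynomial.X i + MvPolynomial.C (p l i)))
      rw [h, h4, zero_sub, MvPolynomial.coeff_neg, Pi.zero_apply, neg_eq_zero] at h3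
      exact h3
    exact congr_fun (Gof_inj _ _ h2) γ

theorem card_cols (e : ℕ) {r : ℕ} (m : Fin r → ℕ) :
    Fintype.card (expo (e + 1) ⊕ (Σ l : Fin r, expo (m l - 1)))
      = (e + 3).choose 3 + ∑ l, (m l + 1).choose 3 := by
  rw [Fintype.card_sum, Fintype.card_sigma, Fintype.card_coe, card_expo]
  congr 1
  refine Finset.sum_congr rfl fun l _ => ?_
  rw [Fintype.card_coe, card_expo]
  rcases Nat.eq_zero_or_pos (m l) with h | h
  · rw [h]; decide
  · congr 1; omega

theorem card_rows {r : ℕ} (m : Fin r → ℕ) :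
    Fintype.card (Σ l : Fin r, expo (m l)) = ∑ l, (m l + 1).choose 3 + ∑ l, T (m l) := by
  rw [Fintype.card_sigma, ← Finset.sum_add_distrib]
  refine Finset.sum_congr rfl fun l _ => ?_
  rw [Fintype.card_coe, card_expo, choose_T]

theorem rank_ker {r : ℕ} (F : MvPolynomial (Fin 3) ℂ) (e : ℕ) (p : Fin r → Fin 3 → ℂ)
    (m : Fin r → ℕ) : (Theta F e p m).rank
      + Module.finrank ℂ (LinearMap.ker (Theta F e p m).mulVecLin)
      = (e + 3).choose 3 + ∑ l, (m l + 1).choose 3 := by
  rw [← card_cols, Matrix.rank, LinearMap.finrank_range_add_finrank_ker,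
    Module.finrank_fintype_fun_eq_card]

end JetsAux

open JetsAux

theorem series_le {r : ℕ} (F : MvPolynomial (Fin 3) ℂ) (e : ℕ) (p : Fin r → Fin 3 → ℂ)
    (m : Fin r → ℕ) (hp : ∀ l, MvPolynomial.eval (p l) F = 0) :
    Module.finrank ℂ (series F e p m) + (Theta F e p m).rank
      ≤ (e + 3).choose 3 + ∑ l, (m l + 1).choose 3 := by
  rw [series_eq F e p m hp, ← rank_ker F e p m, add_comm]
  exact Nat.add_le_add_left (Submodule.finrank_map_le _ _) _

theorem le_series {r : ℕ} (F : MvPolynomial (Fin 3) ℂ) (e : ℕ) (p : Fin r → Fin 3 → ℂ)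
    (m : Fin r → ℕ) (hp : ∀ l, MvPolynomial.eval (p l) F = 0)
    (hs : ∀ l, MvPolynomial.eval (p l) (MvPolynomial.pderiv 2 F) ≠ 0) :
    (e + 3).choose 3 + ∑ l, (m l + 1).choose 3
      ≤ Module.finrank ℂ (series F e p m) + (Theta F e p m).rank := by
  have h := LinearMap.finrank_range_of_inj (inj F e p m hp hs)
  have h2 : LinearMap.range ((proj e m).domRestrict (LinearMap.ker (Theta F e p m).mulVecLin))
      = (LinearMap.ker (Theta F e p m).mulVecLin).map (proj e m) := by
    rw [LinearMap.domRestrict, LinearMap.range_comp, Submodule.range_subtype]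
  rw [h2] at h
  rw [series_eq F e p m hp, ← rank_ker F e p m, h, add_comm]

theorem count {r : ℕ} (F : MvPolynomial (Fin 3) ℂ) (e : ℕ) (p : Fin r → Fin 3 → ℂ)
    (m : Fin r → ℕ) (hp : ∀ l, MvPolynomial.eval (p l) F = 0)
    (hs : ∀ l, MvPolynomial.eval (p l) (MvPolynomial.pderiv 2 F) ≠ 0) :
    (e + 3).choose 3 ≤ Module.finrank ℂ (series F e p m) + ∑ l, T (m l) := by
  have h1 := le_series F e p m hp hs
  have h2 := Matrix.rank_le_card_height (Theta F e p m)
  rw [card_rows] at h2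
  omega

end

end FPS
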