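import Pool.Agent.Lib.FPS.Jets
import Pool.Agent.Lib.FPS.Elim
import Pool.Agent.Lib.FPS.Rank

/-!
# FPS.Semi: from the special surface to the general one
-/

namespace FPS

open MvPolynomial

theorem shift_map {R S : Type*} [CommRing R] [CommRing S] (φ : R →+* S) (p : Fin 3 → R)
    (G : MvPolynomial (Fin 3) R) :
    map φ (shift p G) = shift (fun i => φ (p i)) (map φ G) := by
  unfold shift
  rw [map_bind₁]
  congr 1
  congr 1
  funext i
  simp

theorem Theta_map {R S : Type*} [CommRing R] [CommRing S] (φ : R →+* S)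
    (F : MvPolynomial (Fin 3) R) (e : ℕ) {r : ℕ} (p : Fin r → Fin 3 → R) (m : Fin r → ℕ) :
    (Theta F e p m).map φ = Theta (map φ F) e (fun l i => φ (p l i)) m := by
  funext α c
  rcases c with β | γ
  · simp only [Theta, Matrix.map_apply]
    rw [← coeff_map, shift_map, map_monomial, map_one]
  · simp only [Theta, Matrix.map_apply]
    split_ifs with h
    · rw [map_neg, ← coeff_map, map_mul, shift_map, map_monomial, map_one]
    · exact map_zero φ

theorem line_map {R S : Type*} [CommRing R] [CommRing S] (φ : R →+* S)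
    (F : MvPolynomial (Fin 3) R) (p : Fin 3 → R) :
    (line p F).map φ = line (fun i => φ (p i)) (map φ F) := by
  unfold line
  rw [← Polynomial.coe_mapRingHom, eval₂_comp_left, eval₂_map]
  congr 1
  · ext x
    simp
  · funext i
    fin_cases i <;> simp

theorem line_eval {R : Type*} [CommRing R] (φ : R →+* ℂ) (τ : ℂ)
    (F : MvPolynomial (Fin 3) R) (p : Fin 3 → R) :
    (line p F).eval₂ φ τ = eval (fun i => φ (p i) + (![1, 1, 0] : Fin 3 → ℂ) i * τ) (map φ F) := by
  unfold line
  rw [← Polynomial.coe_eval₂RingHom, eval₂_comp_left, eval_map]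
  congr 1
  · ext x
    simp
  · funext i
    fin_cases i <;> simp

theorem natDegree_line {R : Type*} [CommRing R] (F : MvPolynomial (Fin 3) R) (p : Fin 3 → R)
    (d : ℕ) (hF : ∀ α ∈ F.support, α.degree ≤ d) : (line p F).natDegree ≤ d := by
  unfold line
  rw [eval₂_eq]
  refine Polynomial.natDegree_sum_le_of_forall_le _ _ fun α hα => ?_
  refine (Polynomial.natDegree_C_mul_le _ _).trans ?_
  refine (Polynomial.natDegree_prod_le _ _).trans ?_
  refine le_trans (Finset.sum_le_sum fun i _ => ?_) (hF α hα)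
  refine (Polynomial.natDegree_pow_le).trans ?_
  calc α i * (Polynomial.C (p i) + Polynomial.C ((![1, 1, 0] : Fin 3 → R) i) * Polynomial.X).natDegree
      ≤ α i * 1 := by
        apply Nat.mul_le_mul_left
        rw [add_comm]
        exact Polynomial.natDegree_linear_le
    _ = α i := mul_one _

theorem map_eval' {R S : Type*} [CommRing R] [CommRing S] (φ : R →+* S) (q : Fin 3 → R)
    (G : MvPolynomial (Fin 3) R) : φ (eval q G) = eval (fun i => φ (q i)) (map φ G) := by
  induction G using MvPolynomial.induction_on with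
  | C a => simp
  | add G H h1 h2 => simp [h1, h2]
  | mul_X G i h => simp [h]

/-- polynomials in the coefficients -/
abbrev RR := MvPolynomial (Fin 3 →₀ ℕ) ℂ

/-- polynomials in the coefficients and `r` further parameters -/
abbrev RR' (r : ℕ) := MvPolynomial (Fin r) RR

theorem algebraMap_RR' (r : ℕ) (c : ℂ) : algebraMap ℂ (RR' r) c = C (C c) := rfl

/-- the generic polynomial of degree `≤ d` -/
noncomputable def gen (d : ℕ) : MvPolynomial (Fin 3) (MvPolynomial (Fin 3 →₀ ℕ) ℂ) :=
  ∑ α ∈ expo (d + 1), monomial α (X α)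

theorem map_gen (d : ℕ) (F : MvPolynomial (Fin 3) ℂ) (hF : F.totalDegree ≤ d) :
    map (eval fun α => coeff α F) (gen d) = F := by
  classical
  unfold gen
  rw [map_sum]
  ext β
  rw [coeff_sum]
  simp only [map_monomial, eval_X]
  by_cases hβ : β ∈ expo (d + 1)
  · rw [Finset.sum_eq_single β]
    · rw [coeff_monomial, if_pos rfl]
    · intro α _ hne
      rw [coeff_monomial, if_neg hne]
    · intro h
      exact absurd hβ h
  · rw [Finset.sum_eq_zero, coeff_eq_zero_of_totalDegree_lt]
    · rw [mem_expo] at hβ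
      have : ∑ i ∈ β.support, β i = β.degree := rfl
      omega
    · intro α hα
      rw [coeff_monomial, if_neg]
      rintro rfl
      exact hβ hα

theorem semi (d e : ℕ) {r : ℕ} (m : Fin r → ℕ) (G0 : MvPolynomial (Fin 3) ℂ)
    (hd : G0.totalDegree ≤ d) (p : Fin r → Fin 3 → ℂ)
    (hp : ∀ l, MvPolynomial.eval (p l) G0 = 0)
    (hs : ∀ l, MvPolynomial.eval (p l) (MvPolynomial.pderiv 2 G0) ≠ 0)
    (hl : ∀ l, (line (p l) G0).coeff d ≠ 0) :
    ∃ Φ : MvPolynomial (Fin 3 →₀ ℕ) ℂ,
      MvPolynomial.eval (fun α => MvPolynomial.coeff α G0) Φ ≠ 0 ∧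
      ∀ F : MvPolynomial (Fin 3) ℂ, F.totalDegree ≤ d →
        MvPolynomial.eval (fun α => MvPolynomial.coeff α F) Φ ≠ 0 →
        ∃ Ψ : MvPolynomial (Fin r × Fin 3) ℂ,
          (∃ q : Fin r → Fin 3 → ℂ, (∀ l, MvPolynomial.eval (q l) F = 0) ∧
            MvPolynomial.eval (fun i : Fin r × Fin 3 => q i.1 i.2) Ψ ≠ 0) ∧
          ∀ q : Fin r → Fin 3 → ℂ, (∀ l, MvPolynomial.eval (q l) F = 0) →
            MvPolynomial.eval (fun i : Fin r × Fin 3 => q i.1 i.2) Ψ ≠ 0 →
            Module.finrank ℂ (series F e q m) ≤ Module.finrank ℂ (series G0 e p m) ∧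
            (e + 3).choose 3 ≤ Module.finrank ℂ (series F e q m) + ∑ l, T (m l) ∧
            ∀ l, MvPolynomial.eval (q l) (MvPolynomial.pderiv 2 F) ≠ 0 := by
  classical
  -- the family over `R' = ℂ[coefficients][τ_1, ..., τ_r]`
  let pg : Fin r → Fin 3 → RR' r := fun l i =>
    C (C (p l i)) + C (C ((![1, 1, 0] : Fin 3 → ℂ) i)) * X l
  let F' : MvPolynomial (Fin 3) (RR' r) := map C (gen d)
  have hmapF : ∀ (F : MvPolynomial (Fin 3) ℂ), F.totalDegree ≤ d → ∀ τ : Fin r → ℂ,
      map (eval₂Hom (eval fun α => coeff α F) τ) F' = F := by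
    intro F hF τ
    simp only [F']
    rw [map_map]
    have : (eval₂Hom (eval fun α => coeff α F) τ).comp C = eval fun α => coeff α F := by
      ext x <;> simp
    rw [this, map_gen d F hF]
  have hpg : ∀ (F : MvPolynomial (Fin 3) ℂ) (τ : Fin r → ℂ) (l : Fin r) (i : Fin 3),
      eval₂Hom (eval fun α => coeff α F) τ (pg l i) =
        p l i + (![1, 1, 0] : Fin 3 → ℂ) i * τ l := by
    intro F τ l i
    simp [pg]
  obtain ⟨Ψ', hΨ'0, hΨ'⟩ := rank_open (Theta F' e pg m)
    (eval₂Hom (eval fun α => coeff α G0) (0 : Fin r → ℂ))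
    (by intro c; rw [algebraMap_RR', eval₂Hom_C, eval_C])
  let P' : RR' r := ∏ l, eval (pg l) (pderiv 2 F')
  have hP' : ∀ (F : MvPolynomial (Fin 3) ℂ), F.totalDegree ≤ d → ∀ τ : Fin r → ℂ,
      eval₂Hom (eval fun α => coeff α F) τ P' =
        ∏ l, eval (fun i => p l i + (![1, 1, 0] : Fin 3 → ℂ) i * τ l) (pderiv 2 F) := by
    intro F hF τ
    simp only [P']
    rw [map_prod]
    refine Finset.prod_congr rfl fun l _ => ?_
    rw [map_eval', ← pderiv_map, hmapF F hF τ]
    congr 2
    funext i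
    exact hpg F τ l i
  obtain ⟨Φ, hΦ0, hΦ⟩ := elim d r (fun l => line (fun i => C (p l i)) (gen d))
    (fun l => natDegree_line _ _ _ fun α hα => by
      have h1 : α ∈ expo (d + 1) := by
        by_contra hcon
        rw [mem_support_iff] at hα
        apply hα
        unfold gen
        rw [coeff_sum]
        refine Finset.sum_eq_zero fun β hβ => ?_
        rw [coeff_monomial, if_neg]
        rintro rfl
        exact hcon hβ
      rw [mem_expo] at h1
      omega)
    (Ψ' * P') (eval fun α => coeff α G0)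
    (fun l => by
      have h1 := line_map (eval fun α => coeff α G0) (gen d) (fun i => C (p l i))
      rw [map_gen d G0 hd] at h1
      simp only [eval_C] at h1
      rw [← Polynomial.coeff_map, h1]
      exact hl l)
    0 (fun l => by
      rw [line_eval, map_gen d G0 hd]
      simpa using hp l)
    (by
      rw [← coe_eval₂Hom, map_mul]
      refine mul_ne_zero hΨ'0 ?_
      rw [hP' G0 hd]
      refine Finset.prod_ne_zero_iff.2 fun l _ => ?_
      simpa using hs l)
  refine ⟨Φ, hΦ0, fun F hF hΦF => ?_⟩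
  obtain ⟨τ, hτ1, hτ2⟩ := hΦ (eval fun α => coeff α F) hΦF
  rw [← coe_eval₂Hom, map_mul] at hτ2
  let q0 : Fin r → Fin 3 → ℂ := fun l i => p l i + (![1, 1, 0] : Fin 3 → ℂ) i * τ l
  have hq0 : ∀ l, eval (q0 l) F = 0 := by
    intro l
    have h1 := hτ1 l
    rw [line_eval, map_gen d F hF] at h1
    simpa [q0] using h1
  have hrank : (Theta G0 e p m).rank ≤ (Theta F e q0 m).rank := by
    have h1 := hΨ' (eval₂Hom (eval fun α => coeff α F) τ)
      (by intro c; rw [algebraMap_RR', eval₂Hom_C, eval_C])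
      (left_ne_zero_of_mul hτ2)
    rw [Theta_map, Theta_map, hmapF F hF τ, hmapF G0 hd 0] at h1
    simp only [hpg] at h1
    simpa [q0] using h1
  have hder : ∀ l, eval (q0 l) (pderiv 2 F) ≠ 0 := by
    have h1 := right_ne_zero_of_mul hτ2
    rw [hP' F hF τ] at h1
    intro l
    exact Finset.prod_ne_zero_iff.1 h1 l (Finset.mem_univ l)
  -- the family over `ℂ[q]`, for this `F`
  obtain ⟨Ψ, hΨ0, hΨ⟩ := rank_open
    (Theta (map C F) e (fun l i => (X (l, i) : MvPolynomial (Fin r × Fin 3) ℂ)) m)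
    (eval fun i : Fin r × Fin 3 => q0 i.1 i.2) (by intro c; simp [algebraMap_eq])
  have hmapC : ∀ q : Fin r → Fin 3 → ℂ,
      map (eval fun i : Fin r × Fin 3 => q i.1 i.2) (map C F) = F := by
    intro q
    rw [map_map]
    have : (eval fun i : Fin r × Fin 3 => q i.1 i.2).comp C = RingHom.id ℂ := by
      ext x; simp
    rw [this, map_id]
  have hTh : ∀ q : Fin r → Fin 3 → ℂ,
      (Theta (map C F) e (fun l i => (X (l, i) : MvPolynomial (Fin r × Fin 3) ℂ)) m).map
        (eval fun i : Fin r × Fin 3 => q i.1 i.2) = Theta F e q m := by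
    intro q
    rw [Theta_map, hmapC q]
    simp
  have hD : ∀ q : Fin r → Fin 3 → ℂ, eval (fun i : Fin r × Fin 3 => q i.1 i.2)
      (∏ l, eval (fun i => (X (l, i) : MvPolynomial (Fin r × Fin 3) ℂ)) (pderiv 2 (map C F)))
        = ∏ l, eval (q l) (pderiv 2 F) := by
    intro q
    rw [map_prod]
    refine Finset.prod_congr rfl fun l _ => ?_
    rw [map_eval', ← pderiv_map, hmapC q]
    simp
  refine ⟨Ψ * ∏ l, eval (fun i => (X (l, i) : MvPolynomial (Fin r × Fin 3) ℂ))
    (pderiv 2 (map C F)), ⟨q0, hq0, ?_⟩, fun q hq1 hq2 => ?_⟩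
  · rw [map_mul, hD]
    exact mul_ne_zero hΨ0 (Finset.prod_ne_zero_iff.2 fun l _ => hder l)
  · rw [map_mul, hD] at hq2
    have h1 := hΨ (eval fun i : Fin r × Fin 3 => q i.1 i.2) (by intro c; simp [algebraMap_eq])
      (left_ne_zero_of_mul hq2)
    rw [hTh, hTh] at h1
    have h2 := series_le F e q m hq1
    have h3 := le_series G0 e p m hp hs
    have h4 : ∀ l, eval (q l) (pderiv 2 F) ≠ 0 := fun l =>
      Finset.prod_ne_zero_iff.1 (right_ne_zero_of_mul hq2) l (Finset.mem_univ l)
    exact ⟨by omega, count F e q m hq1 h4, h4⟩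

end FPS
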