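import Pool.Agent.Lib.FPS.Van

/-!
# FPS.SpecA: substitution `z = x^a y^b`

PROOF. `sub a b` is surjective (`x ↦ C X`, `y ↦ X`; every bivariate polynomial is a value). Its kernel
is `span {F0 a b}`: modulo `F0` every polynomial is congruent to a polynomial in `x, y` only
(`z ≡ x^a y^b`), and `sub` is injective on those. It maps `ptIdeal (p0 a b x y)` onto
`I = span {C (X - C x), X - C (C y)}` (`x^a y^b - x0^a y0^b ∈ I`; `Ideal.map_span`). So, with
`Ideal.comap_map_of_surjective` and `Ideal.map_pow`:
`G ∈ span {F0} ⊔ (ptIdeal p)^m ↔ sub G ∈ I^m ↔ van (sub G) x y m` (`van_iff_mem`).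
`sub` maps the monomial `x^i y^j z^k` to `x^(i + a k) y^(j + b k)`; so it maps the space of polynomials of
total degree `≤ e` (spanned by the monomials with `i + j + k ≤ e`) onto `W (Lam a b e)`, which is
spanned by the monomials `x^X y^Y` with `X ∈ Lam a b e Y` (only finitely many rows are nonempty).
-/

namespace FPS

noncomputable def sub (a b : ℕ) : MvPolynomial (Fin 3) ℂ →ₐ[ℂ] Polynomial (Polynomial ℂ) :=
  MvPolynomial.aeval ![Polynomial.C Polynomial.X, Polynomial.X,
    Polynomial.C (Polynomial.X ^ a) * Polynomial.X ^ b]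

theorem sub_F0 (a b : ℕ) : sub a b (F0 a b) = 0 := by
  simp [sub, F0]

namespace SpecAAux

/-- a section of `sub a b` -/
noncomputable def sec : Polynomial (Polynomial ℂ) →+* MvPolynomial (Fin 3) ℂ :=
  Polynomial.eval₂RingHom (Polynomial.eval₂RingHom MvPolynomial.C (MvPolynomial.X 0))
    (MvPolynomial.X 1)

theorem sec_C (P : Polynomial ℂ) :
    sec (Polynomial.C P) = Polynomial.eval₂ MvPolynomial.C (MvPolynomial.X 0) P := by
  simp [sec]

theorem sec_X : sec Polynomial.X = MvPolynomial.X 1 := by
  simp [sec]

theorem sub_C (a b : ℕ) (c : ℂ) :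
    sub a b (MvPolynomial.C c) = Polynomial.C (Polynomial.C c) := by
  rw [sub, MvPolynomial.algHom_C]
  rfl

theorem sub_X0 (a b : ℕ) : sub a b (MvPolynomial.X 0) = Polynomial.C Polynomial.X := by
  simp [sub]

theorem sub_X1 (a b : ℕ) : sub a b (MvPolynomial.X 1) = Polynomial.X := by
  simp [sub]

theorem sub_X2 (a b : ℕ) : sub a b (MvPolynomial.X 2) =
    Polynomial.C (Polynomial.X ^ a) * Polynomial.X ^ b := by
  simp [sub]

theorem sec_sub (a b : ℕ) (G : MvPolynomial (Fin 3) ℂ) :
    G - sec (sub a b G) ∈ Ideal.span {F0 a b} := by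
  rw [← Ideal.Quotient.mk_eq_mk_iff_sub_mem]
  have key : (Ideal.Quotient.mk (Ideal.span {F0 a b})) =
      (Ideal.Quotient.mk (Ideal.span {F0 a b})).comp (sec.comp (sub a b).toRingHom) := by
    refine MvPolynomial.ringHom_ext ?_ ?_
    · intro c
      have h : (sub a b).toRingHom (MvPolynomial.C c) = Polynomial.C (Polynomial.C c) := sub_C a b c
      simp only [RingHom.comp_apply]
      rw [h, sec_C, Polynomial.eval₂_C]
    · intro i
      simp only [RingHom.comp_apply]
      fin_cases i
      · have h : (sub a b).toRingHom (MvPolynomial.X 0) = Polynomial.C Polynomial.X := sub_X0 a b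
        simp only [Fin.zero_eta, Fin.isValue]
        rw [h, sec_C, Polynomial.eval₂_X]
      · have h : (sub a b).toRingHom (MvPolynomial.X 1) = Polynomial.X := sub_X1 a b
        simp only [Fin.mk_one, Fin.isValue]
        rw [h, sec_X]
      · have h : (sub a b).toRingHom (MvPolynomial.X 2) =
            Polynomial.C (Polynomial.X ^ a) * Polynomial.X ^ b := sub_X2 a b
        simp only [Fin.reduceFinMk, Fin.isValue]
        rw [h, map_mul, sec_C, map_pow, sec_X, Polynomial.eval₂_X_pow,
          Ideal.Quotient.mk_eq_mk_iff_sub_mem]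
        exact Ideal.subset_span rfl
  exact congrArg (fun f => f G) key

end SpecAAux

open SpecAAux

theorem sub_mem (a b : ℕ) (x y : ℂ) (m : ℕ) (G : MvPolynomial (Fin 3) ℂ) :
    G ∈ Ideal.span {F0 a b} ⊔ ptIdeal (p0 a b x y) ^ m ↔ van (sub a b G) x y m := by
  rw [van_iff_mem]
  constructor
  · intro hG
    obtain ⟨u, hu, v, hv, rfl⟩ := Submodule.mem_sup.1 hG
    rw [map_add]
    have h1 : sub a b u = 0 := by
      obtain ⟨w, rfl⟩ := Ideal.mem_span_singleton'.1 hu
      rw [map_mul, sub_F0, mul_zero]
    rw [h1, zero_add]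
    have h2 : Ideal.map (sub a b).toRingHom (ptIdeal (p0 a b x y)) ≤
        Ideal.span {Polynomial.C (Polynomial.X - Polynomial.C x),
          Polynomial.X - Polynomial.C (Polynomial.C y)} := by
      unfold ptIdeal
      rw [Ideal.map_span, Ideal.span_le]
      rintro _ ⟨_, ⟨i, rfl⟩, rfl⟩
      have hX : (Polynomial.C (Polynomial.X - Polynomial.C x) : Polynomial (Polynomial ℂ)) ∈
          Ideal.span {Polynomial.C (Polynomial.X - Polynomial.C x),
            Polynomial.X - Polynomial.C (Polynomial.C y)} := Ideal.subset_span (by simp)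
      have hY : (Polynomial.X - Polynomial.C (Polynomial.C y) : Polynomial (Polynomial ℂ)) ∈
          Ideal.span {Polynomial.C (Polynomial.X - Polynomial.C x),
            Polynomial.X - Polynomial.C (Polynomial.C y)} := Ideal.subset_span (by simp)
      rw [SetLike.mem_coe]
      have hC : ∀ c : ℂ, (sub a b).toRingHom (MvPolynomial.C c) = Polynomial.C (Polynomial.C c) :=
        fun c => sub_C a b c
      fin_cases i
      · have h : (sub a b).toRingHom (MvPolynomial.X 0) = Polynomial.C Polynomial.X := sub_X0 a b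
        simp only [Fin.zero_eta, Fin.isValue, map_sub]
        rw [h, hC]
        simpa [p0] using hX
      · have h : (sub a b).toRingHom (MvPolynomial.X 1) = Polynomial.X := sub_X1 a b
        simp only [Fin.mk_one, Fin.isValue, map_sub]
        rw [h, hC]
        simpa [p0] using hY
      · have h : (sub a b).toRingHom (MvPolynomial.X 2) =
            Polynomial.C (Polynomial.X ^ a) * Polynomial.X ^ b := sub_X2 a b
        simp only [Fin.reduceFinMk, Fin.isValue]
        have hs : (sub a b).toRingHom (MvPolynomial.X 2 - MvPolynomial.C (p0 a b x y 2)) =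
            (sub a b).toRingHom (MvPolynomial.X 2) -
              (sub a b).toRingHom (MvPolynomial.C (p0 a b x y 2)) := map_sub _ _ _
        rw [hs, h, hC]
        have e : (p0 a b x y) 2 = x ^ a * y ^ b := by simp [p0]
        rw [e, ← Ideal.Quotient.mk_eq_mk_iff_sub_mem]
        obtain ⟨I, hI⟩ : ∃ I : Ideal (Polynomial (Polynomial ℂ)),
            I = Ideal.span {Polynomial.C (Polynomial.X - Polynomial.C x),
              Polynomial.X - Polynomial.C (Polynomial.C y)} := ⟨_, rfl⟩
        rw [← hI] at hX hY ⊢
        have h3 : Ideal.Quotient.mk I (Polynomial.C Polynomial.X) =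
            Ideal.Quotient.mk I (Polynomial.C (Polynomial.C x)) := by
          rw [Ideal.Quotient.mk_eq_mk_iff_sub_mem, ← Polynomial.C_sub]
          exact hX
        have h4 : Ideal.Quotient.mk I (Polynomial.X) =
            Ideal.Quotient.mk I (Polynomial.C (Polynomial.C y)) := by
          rw [Ideal.Quotient.mk_eq_mk_iff_sub_mem]
          exact hY
        rw [map_mul, Polynomial.C_pow, map_pow (Ideal.Quotient.mk I),
          map_pow (Ideal.Quotient.mk I), h3, h4, Polynomial.C_mul, Polynomial.C_mul,
          Polynomial.C_pow, Polynomial.C_pow, Polynomial.C_pow, Polynomial.C_pow,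
          map_mul (Ideal.Quotient.mk I), map_pow (Ideal.Quotient.mk I),
          map_pow (Ideal.Quotient.mk I)]
    have h3 : (sub a b).toRingHom v ∈ Ideal.map (sub a b).toRingHom
        (ptIdeal (p0 a b x y) ^ m) := Ideal.mem_map_of_mem _ hv
    rw [Ideal.map_pow] at h3
    exact Ideal.pow_right_mono h2 m h3
  · intro hG
    have h1 : Ideal.map sec (Ideal.span {Polynomial.C (Polynomial.X - Polynomial.C x),
        Polynomial.X - Polynomial.C (Polynomial.C y)}) ≤ ptIdeal (p0 a b x y) := by
      rw [Ideal.map_span, Ideal.span_le]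
      rintro _ ⟨z, hz, rfl⟩
      rw [SetLike.mem_coe]
      rcases hz with rfl | hz
      · rw [sec_C]
        refine Ideal.subset_span ⟨0, ?_⟩
        simp [p0]
      · rw [Set.mem_singleton_iff] at hz
        subst hz
        rw [map_sub, sec_X, sec_C]
        refine Ideal.subset_span ⟨1, ?_⟩
        simp [p0]
    have h2 : sec (sub a b G) ∈ ptIdeal (p0 a b x y) ^ m := by
      have h3 := Ideal.mem_map_of_mem sec hG
      rw [Ideal.map_pow] at h3
      exact Ideal.pow_right_mono h1 m h3
    have h4 : G = (G - sec (sub a b G)) + sec (sub a b G) := by ring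
    rw [h4]
    exact Submodule.add_mem_sup (sec_sub a b G) h2

theorem SpecAAux.sub_monomial (a b : ℕ) (s : Fin 3 →₀ ℕ) (c : ℂ) :
    sub a b (MvPolynomial.monomial s c) =
      Polynomial.monomial (s 1 + b * s 2) (Polynomial.monomial (s 0 + a * s 2) c) := by
  rw [sub, MvPolynomial.aeval_monomial, Finsupp.prod_fintype _ _ (by intro i; simp)]
  simp only [Fin.prod_univ_three, Matrix.cons_val_zero, Matrix.cons_val_one, Matrix.cons_val]
  have h : algebraMap ℂ (Polynomial (Polynomial ℂ)) c = Polynomial.C (Polynomial.C c) := rfl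
  rw [h, ← Polynomial.C_mul_X_pow_eq_monomial, ← Polynomial.C_mul_X_pow_eq_monomial]
  simp only [Polynomial.C_mul, Polynomial.C_pow, mul_pow, pow_add, pow_mul]
  ring

theorem sub_image (a b e : ℕ) (ha : 1 ≤ a) (hb : 1 ≤ b) :
    Submodule.map (sub a b).toLinearMap (MvPolynomial.restrictTotalDegree (Fin 3) ℂ e)
      = W (Lam a b e) := by
  apply le_antisymm
  · rintro _ ⟨G, hG, rfl⟩
    rw [SetLike.mem_coe, MvPolynomial.mem_restrictTotalDegree] at hG
    rw [AlgHom.toLinearMap_apply, G.as_sum, map_sum]
    refine Submodule.sum_mem _ fun s hs => ?_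
    rw [sub_monomial]
    intro j k hk
    rw [Polynomial.coeff_monomial]
    split_ifs with h1
    · rw [Polynomial.coeff_monomial]
      split_ifs with h2
      · exfalso
        apply hk
        have h3 := MvPolynomial.le_totalDegree hs
        rw [Finsupp.sum_fintype _ _ (by intro i; rfl), Fin.sum_univ_three] at h3
        unfold Lam
        rw [Finset.mem_image]
        refine ⟨(s 0, s 1, s 2), ?_, h2⟩
        simp only [Finset.mem_filter, Finset.mem_product, Finset.mem_range]
        refine ⟨⟨by omega, by omega, by omega⟩, h1, by omega⟩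
      · rfl
    · simp
  · intro g hg
    rw [g.as_sum_support]
    refine Submodule.sum_mem _ fun j _ => ?_
    rw [(g.coeff j).as_sum_support, map_sum]
    refine Submodule.sum_mem _ fun k hk => ?_
    have hk' : k ∈ Lam a b e j := by
      by_contra h
      exact (Polynomial.mem_support_iff.1 hk) (hg j k h)
    unfold Lam at hk'
    rw [Finset.mem_image] at hk'
    obtain ⟨q, hq, hqk⟩ := hk'
    simp only [Finset.mem_filter, Finset.mem_product, Finset.mem_range] at hq
    refine ⟨MvPolynomial.monomial (Finsupp.single 0 q.1 + Finsupp.single 1 q.2.1 +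
      Finsupp.single 2 q.2.2) ((g.coeff j).coeff k), ?_, ?_⟩
    · rw [SetLike.mem_coe, MvPolynomial.mem_restrictTotalDegree]
      refine (MvPolynomial.totalDegree_monomial_le _ _).trans ?_
      rw [Finsupp.sum_fintype _ _ (by intro i; rfl), Fin.sum_univ_three]
      simp
      omega
    · rw [AlgHom.toLinearMap_apply, sub_monomial]
      have e0 : (Finsupp.single 0 q.1 + Finsupp.single 1 q.2.1 +
          Finsupp.single 2 q.2.2 : Fin 3 →₀ ℕ) 0 = q.1 := by
        simp
      have e1 : (Finsupp.single 0 q.1 + Finsupp.single 1 q.2.1 +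
          Finsupp.single 2 q.2.2 : Fin 3 →₀ ℕ) 1 = q.2.1 := by
        simp
      have e2 : (Finsupp.single 0 q.1 + Finsupp.single 1 q.2.1 +
          Finsupp.single 2 q.2.2 : Fin 3 →₀ ℕ) 2 = q.2.2 := by
        simp
      rw [e0, e1, e2, hqk, hq.2.1]

end FPS
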