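import Pool.Agent.Lib.FPS.Defs

/-!
# FPS.Usable: usable rows
-/

namespace FPS

/-- the profile `h` falls, from row `i` on, at most as fast as the line from `h i` to `0` at `i + μ` -/
def Usable (h : ℕ → ℕ) (μ i : ℕ) : Prop := ∀ s ≤ μ, (μ - s) * h i ≤ μ * h (i + s)

end FPS
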